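import Pool.Agent.MP_8df504_an.C.Base
import Pool.Agent.MP_8df504_an.Proofs

set_option autoImplicit false

namespace Pool.Agent.MP_8df504_an.C

open Set Filter Topology MeasureTheory

/-! Elementary facts on the averages `ergAvg`.

Hints.  `N * ergAvg T R x N = ∑ i ∈ Icc 1 N, χ (T^[i] x)` and the sums for `x` and `T x` differ by
at most `1`.  `avg_periodic`: with `k = ` number of `i ∈ Icc 1 P` with `T^[i] x ∈ R`, the sum up to
`N` differs from `k N / P` by at most `P`; `avg_dvd` follows from `Nat.card_multiples` or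
`Nat.Ioc_filter_dvd_card_eq_div`.  `exists_osc`: `S = ⋃ j, [9^j, 3 * 9^j)`, use `no_limit` from
`Pool.Agent.MP_8df504_an.Proofs` with `c = 1`. -/

lemma avg_ind (R : Set ℝ) (y : ℝ) : 0 ≤ R.indicator (fun _ => (1 : ℝ)) y ∧
    R.indicator (fun _ => (1 : ℝ)) y ≤ 1 :=
  ⟨indicator_nonneg (fun _ _ => zero_le_one) _, indicator_le_self' (fun _ _ => zero_le_one) _⟩

lemma avg_sum (χ : ℕ → ℝ) (h0 : ∀ i, 0 ≤ χ i) (h1 : ∀ i, χ i ≤ 1) (N : ℕ) :
    0 ≤ ∑ i ∈ Finset.Icc 1 N, χ i ∧ ∑ i ∈ Finset.Icc 1 N, χ i ≤ N :=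
  ⟨Finset.sum_nonneg fun i _ => h0 i,
    (Finset.sum_le_card_nsmul _ _ 1 fun i _ => h1 i).trans (by simp)⟩

lemma avg_bdd {D : ℕ → ℝ} {C : ℝ} (h : ∀ N, |D N| ≤ C) :
    Tendsto (fun N : ℕ => 1 / (N : ℝ) * D N) atTop (𝓝 0) := by
  refine squeeze_zero_norm (fun N => ?_) (tendsto_const_div_atTop_nhds_zero_nat C)
  rw [Real.norm_eq_abs, abs_mul, abs_of_nonneg (by positivity), one_div_mul_eq_div]
  exact div_le_div_of_nonneg_right (h N) (Nat.cast_nonneg N)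

lemma avg_per (χ : ℕ → ℝ) (h0 : ∀ i, 0 ≤ χ i) (h1 : ∀ i, χ i ≤ 1) {P : ℕ} (hP : 1 ≤ P)
    (hper : ∀ i, 1 ≤ i → χ (i + P) = χ i) :
    Tendsto (fun N : ℕ => 1 / (N : ℝ) * ∑ i ∈ Finset.Icc 1 N, χ i) atTop
      (𝓝 ((∑ i ∈ Finset.Icc 1 P, χ i) / P)) := by
  have hP0 : (0 : ℝ) < P := by exact_mod_cast hP
  obtain ⟨c, hc⟩ : ∃ c, c = (∑ i ∈ Finset.Icc 1 P, χ i) / P := ⟨_, rfl⟩
  have hc0 : 0 ≤ c := hc ▸ div_nonneg (avg_sum χ h0 h1 P).1 hP0.le
  have hc1 : c ≤ 1 := hc ▸ (div_le_one hP0).2 (avg_sum χ h0 h1 P).2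
  have h2 : Function.Periodic (fun N : ℕ => ∑ i ∈ Finset.Icc 1 N, χ i - N * c) P := by
    intro N
    induction N with
    | zero =>
      simp only [zero_add, hc]
      field_simp
      simp
    | succ N ih =>
      simp only at ih ⊢
      rw [Nat.add_right_comm, Finset.sum_Icc_succ_top (by omega),
        Finset.sum_Icc_succ_top (by omega), Nat.add_right_comm N, hper _ (by omega)]
      push_cast at ih ⊢
      linarith
  have h3 := avg_bdd (D := fun N : ℕ => ∑ i ∈ Finset.Icc 1 N, χ i - N * c) (C := P) fun N => by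
    rw [← h2.map_mod_nat N]
    have h4 := avg_sum χ h0 h1 (N % P)
    have h5 : ((N % P : ℕ) : ℝ) ≤ P := by exact_mod_cast (Nat.mod_lt N hP).le
    have h6 : (0 : ℝ) ≤ ((N % P : ℕ) : ℝ) := Nat.cast_nonneg _
    rw [abs_le]
    constructor <;> nlinarith
  have h4 := h3.add_const c
  rw [zero_add] at h4
  rw [← hc]
  refine h4.congr' ?_
  filter_upwards [eventually_gt_atTop 0] with N hN
  have : (N : ℝ) ≠ 0 := by positivity
  field_simp
  ring

lemma avg_mem (T : ℝ → ℝ) (R : Set ℝ) (x : ℝ) (N : ℕ) : ergAvg T R x N ∈ Icc (0 : ℝ) 1 := by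
  have h := avg_sum _ (fun i => (avg_ind R (T^[i] x)).1) (fun i => (avg_ind R (T^[i] x)).2) N
  refine ⟨mul_nonneg (by positivity) h.1, ?_⟩
  unfold ergAvg
  rw [one_div_mul_eq_div]
  exact div_le_one_of_le₀ h.2 (Nat.cast_nonneg N)

lemma avg_diff (T : ℝ → ℝ) (R : Set ℝ) (x : ℝ) :
    Tendsto (fun N => ergAvg T R (T x) N - ergAvg T R x N) atTop (𝓝 0) := by
  have h : ∀ N, ∑ i ∈ Finset.Icc 1 N, R.indicator (fun _ => (1 : ℝ)) (T^[i] (T x)) -
      ∑ i ∈ Finset.Icc 1 N, R.indicator (fun _ => (1 : ℝ)) (T^[i] x) =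
      R.indicator (fun _ => (1 : ℝ)) (T^[N + 1] x) - R.indicator (fun _ => (1 : ℝ)) (T x) := by
    intro N
    induction N with
    | zero => simp
    | succ N ih =>
      rw [Finset.sum_Icc_succ_top (by omega), Finset.sum_Icc_succ_top (by omega),
        Function.iterate_succ_apply T (N + 1)]
      linarith
  refine (avg_bdd (C := 1) (D := fun N => R.indicator (fun _ => (1 : ℝ)) (T^[N + 1] x) -
    R.indicator (fun _ => (1 : ℝ)) (T x)) fun N => ?_).congr fun N => ?_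
  · have h1 := avg_ind R (T^[N + 1] x)
    have h2 := avg_ind R (T x)
    rw [abs_le]
    constructor <;> linarith [h1.1, h1.2, h2.1, h2.2]
  · rw [← h, mul_sub]
    rfl

lemma avg_shift (T : ℝ → ℝ) (R : Set ℝ) (x : ℝ) (i : ℕ) (L : ℝ) :
    Tendsto (ergAvg T R (T^[i] x)) atTop (𝓝 L) ↔ Tendsto (ergAvg T R x) atTop (𝓝 L) := by
  induction i with
  | zero => rfl
  | succ i ih =>
    rw [Function.iterate_succ_apply', ← ih]
    have h := avg_diff T R (T^[i] x)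
    constructor
    · intro h1
      simpa using h1.sub h
    · intro h1
      simpa using h.add h1

lemma avg_congr {T T' : ℝ → ℝ} {R R' : Set ℝ} {x x' : ℝ}
    (h : ∀ i : ℕ, 1 ≤ i → (T^[i] x ∈ R ↔ T'^[i] x' ∈ R')) : ergAvg T R x = ergAvg T' R' x' := by
  funext N
  unfold ergAvg
  congr 1
  refine Finset.sum_congr rfl fun i hi => ?_
  have h1 := h i (Finset.mem_Icc.1 hi).1
  by_cases h2 : T^[i] x ∈ R
  · rw [indicator_of_mem h2, indicator_of_mem (h1.1 h2)]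
  · rw [indicator_of_notMem h2, indicator_of_notMem fun h3 => h2 (h1.2 h3)]

lemma avg_periodic (T : ℝ → ℝ) (R : Set ℝ) {x : ℝ} {P : ℕ} (hP : 1 ≤ P) (hx : T^[P] x = x) :
    ∃ k : ℕ, k ≤ P ∧ Tendsto (ergAvg T R x) atTop (𝓝 ((k : ℝ) / P)) := by
  classical
  refine ⟨((Finset.Icc 1 P).filter fun i => T^[i] x ∈ R).card,
    (Finset.card_filter_le _ _).trans (by simp), ?_⟩
  have h := avg_per _ (fun i => (avg_ind R (T^[i] x)).1) (fun i => (avg_ind R (T^[i] x)).2) hP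
    fun i _ => by rw [Function.iterate_add_apply, hx]
  have h1 : ∑ i ∈ Finset.Icc 1 P, R.indicator (fun _ => (1 : ℝ)) (T^[i] x) =
      (((Finset.Icc 1 P).filter fun i => T^[i] x ∈ R).card : ℝ) := by
    simp only [indicator_apply, Finset.sum_boole]
  rw [h1] at h
  exact h

lemma avg_dvd {T : ℝ → ℝ} {R : Set ℝ} {x : ℝ} {k : ℕ} (hk : 1 ≤ k)
    (h : ∀ i : ℕ, 1 ≤ i → (T^[i] x ∈ R ↔ k ∣ i)) :
    Tendsto (ergAvg T R x) atTop (𝓝 (1 / (k : ℝ))) := by
  have h0 : ∀ i, 1 ≤ i → R.indicator (fun _ => (1 : ℝ)) (T^[i] x) = if k ∣ i then 1 else 0 := by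
    intro i hi
    split_ifs with h1
    · exact indicator_of_mem ((h i hi).2 h1) _
    · exact indicator_of_notMem (fun h2 => h1 ((h i hi).1 h2)) _
  have h1 := avg_per _ (fun i => (avg_ind R (T^[i] x)).1) (fun i => (avg_ind R (T^[i] x)).2) hk
    fun i hi => by rw [h0 i hi, h0 _ (by omega)]; simp only [Nat.dvd_add_self_right]
  have h2 : ∑ i ∈ Finset.Icc 1 k, R.indicator (fun _ => (1 : ℝ)) (T^[i] x) = 1 := by
    rw [Finset.sum_eq_single k, h0 k hk, if_pos dvd_rfl]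
    · intro i hi hne
      rw [Finset.mem_Icc] at hi
      rw [h0 i hi.1, if_neg fun h3 => hne (le_antisymm hi.2 (Nat.le_of_dvd hi.1 h3))]
    · intro h3
      exact absurd (Finset.mem_Icc.2 ⟨hk, le_rfl⟩) h3
  rw [h2] at h1
  exact h1

lemma avg_zero {T : ℝ → ℝ} {R : Set ℝ} {x : ℝ} (h : ∀ i : ℕ, 1 ≤ i → T^[i] x ∉ R) :
    Tendsto (ergAvg T R x) atTop (𝓝 0) := by
  have h1 : ergAvg T R x = fun _ => 0 := by
    funext N
    unfold ergAvg
    rw [Finset.sum_eq_zero, mul_zero]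
    intro i hi
    exact indicator_of_notMem (h i (Finset.mem_Icc.1 hi).1) _
  rw [h1]
  exact tendsto_const_nhds

lemma avg_meas {T : ℝ → ℝ} (hT : Measurable T) {R : Set ℝ} (hR : MeasurableSet R) (N : ℕ) :
    Measurable (fun x => ergAvg T R x N) := by
  unfold ergAvg
  exact (Finset.measurable_sum _ fun i _ =>
    (measurable_const.indicator hR).comp (hT.iterate i)).const_mul _

lemma exists_osc : ∃ S : Set ℕ, ∀ (T : ℝ → ℝ) (R : Set ℝ) (x : ℝ),
    (∀ i : ℕ, 1 ≤ i → (T^[i] x ∈ R ↔ i ∈ S)) →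
      ¬ ∃ L, Tendsto (ergAvg T R x) atTop (𝓝 L) := by
  refine ⟨{i | ∃ j, 9 ^ j ≤ i ∧ i < 3 * 9 ^ j}, fun T R x h => ?_⟩
  refine no_limit _ (fun i => (avg_ind R (T^[i] x)).1) (fun i => (avg_ind R (T^[i] x)).2) 1
    (fun j i h1 h2 => ?_) fun j i h1 h2 => ?_
  · exact indicator_of_mem ((h i (by omega)).2 ⟨j, by omega, by omega⟩) _
  · refine indicator_of_notMem (fun h3 => ?_) _
    obtain ⟨l, h4, h5⟩ := (h i (by omega)).1 h3
    rcases le_or_gt l j with h6 | h6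
    · have := Nat.pow_le_pow_right (by norm_num : 0 < 9) h6
      omega
    · have := Nat.pow_le_pow_right (by norm_num : 0 < 9) (Nat.succ_le_of_lt h6)
      simp only [Nat.succ_eq_add_one] at this
      omega

end Pool.Agent.MP_8df504_an.C
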