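import Pool.Agent.MP_8df504_an.C.GL2
import Pool.Agent.MP_8df504_an.C.Avg
import Pool.Agent.MP_019006_gt.Kingman

set_option autoImplicit false

namespace Pool.Agent.MP_8df504_an.C

open Set Filter Topology MeasureTheory

/-! An invariant measure dominated by Lebesgue measure, and convergence on `Lam`.

`exists_inv`: `μ N E = (1/(N+1)) ∑ i<N+1, μ0 (T^[i] ⁻¹' E)`; define `ν E` for measurable `E` as the
limit of `μ N E` along `hyperfilter ℕ` in the compact space `ENNReal` (`Ultrafilter.lim`,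
`Ultrafilter.le_nhds_lim` applied to the mapped ultrafilter).  It is finitely additive, bounded by
`M1 * lam E`, hence countably additive (the `lam`-measure of the tails tends to `0`); use
`Measure.ofMeasurable`.  `|μ N (T ⁻¹' E) - μ N E| ≤ μ0 univ / (N+1)` gives invariance.
`conv_meas`: `Pool.Agent.MP_019006_gt.Kingman.kingman` for the additive sums
`f n x = ∑ i ∈ Icc 1 n, χ (T^[i] x)`; the set of points where the averages do not converge is
measurable (`measurableSet_exists_tendsto`) and invariant (`avg_shift`).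
`null_visit`: `unif`.  `conv_Lam`: replace `R` by a measurable `R'` with `R =ᵐ R'`, use `null_visit`
and `avg_congr`; `μ0 = volume.restrict Lam`, `lam = volume.restrict (Icc 0 1)`. -/

lemma exists_inv {X : Type} [MeasurableSpace X] {T : X → X} (hT : Measurable T)
    (μ0 lam : Measure X) [IsFiniteMeasure μ0] [IsFiniteMeasure lam] (M1 : NNReal)
    (h : ∀ (i : ℕ) (E : Set X), MeasurableSet E → μ0 (T^[i] ⁻¹' E) ≤ M1 * lam E) :
    ∃ ν : Measure X, IsFiniteMeasure ν ∧ MeasurePreserving T ν ν ∧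
      ∀ E, MeasurableSet E → T ⁻¹' E = E → ν E = μ0 E := by
  let μ : ℕ → Measure X := fun N =>
    ((N + 1 : ℕ) : ENNReal)⁻¹ • ∑ i ∈ Finset.range (N + 1), μ0.map T^[i]
  have hμ : ∀ N E, MeasurableSet E → μ N E =
      ((N + 1 : ℕ) : ENNReal)⁻¹ * ∑ i ∈ Finset.range (N + 1), μ0 (T^[i] ⁻¹' E) := by
    intro N E hE
    simp only [μ, Measure.smul_apply, smul_eq_mul, Measure.finsetSum_apply]
    congr 1
    exact Finset.sum_congr rfl fun i _ => Measure.map_apply (hT.iterate i) hE
  have hc : ∀ (N : ℕ) (a : ENNReal),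
      ((N + 1 : ℕ) : ENNReal)⁻¹ * ∑ _i ∈ Finset.range (N + 1), a = a := by
    intro N a
    rw [Finset.sum_const, Finset.card_range, nsmul_eq_mul, ← mul_assoc,
      ENNReal.inv_mul_cancel (by simp) (by simp), one_mul]
  have hb : ∀ N E, MeasurableSet E → μ N E ≤ M1 * lam E := by
    intro N E hE
    rw [hμ N E hE, ← hc N (M1 * lam E)]
    exact mul_le_mul_right (Finset.sum_le_sum fun i _ => h i E hE) _
  have hex : ∀ E, ∃ l, Tendsto (fun N => μ N E) (hyperfilter ℕ) (𝓝 l) := fun E =>
    ⟨_, ((hyperfilter ℕ).map fun N => μ N E).le_nhds_lim⟩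
  choose L hL using hex
  have hLb : ∀ E, MeasurableSet E → L E ≤ M1 * lam E := fun E hE =>
    le_of_tendsto' (hL E) fun N => hb N E hE
  have hU : ∀ ⦃f : ℕ → Set X⦄, (∀ i, MeasurableSet (f i)) →
      Pairwise (Function.onFun Disjoint f) → L (⋃ i, f i) = ∑' i, L (f i) := by
    intro f hf hd
    apply le_antisymm
    · have h1 : Tendsto (fun n => ∑' i, L (f i) + M1 * lam (⋃ i ≥ n, f i)) atTop
          (𝓝 (∑' i, L (f i) + M1 * 0)) :=
        tendsto_const_nhds.add (ENNReal.Tendsto.const_mul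
          (tendsto_measure_biUnion_Ici_zero_of_pairwise_disjoint
            (fun i => (hf i).nullMeasurableSet) hd) (Or.inr ENNReal.coe_ne_top))
      rw [mul_zero, add_zero] at h1
      refine ge_of_tendsto' h1 fun n => ?_
      refine le_trans ?_ (add_le_add (ENNReal.sum_le_tsum (Finset.range n))
        (hLb _ (MeasurableSet.biUnion (Set.to_countable _) fun i _ => hf i)))
      refine le_of_tendsto_of_tendsto' (hL _)
        ((tendsto_finsetSum _ fun i _ => hL (f i)).add (hL _)) fun N => ?_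
      refine le_trans (measure_mono ?_) ((measure_union_le _ _).trans
        (add_le_add (measure_biUnion_finset_le _ _) le_rfl))
      intro x hx
      obtain ⟨i, hi⟩ := mem_iUnion.1 hx
      rcases lt_or_ge i n with h2 | h2
      · exact Or.inl (mem_biUnion (Finset.mem_range.2 h2) hi)
      · exact Or.inr (mem_biUnion h2 hi)
    · refine ENNReal.tsum_le_of_sum_range_le fun n => ?_
      refine le_of_tendsto_of_tendsto' (tendsto_finsetSum _ fun i _ => hL (f i)) (hL _)
        fun N => ?_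
      rw [measure_iUnion hd hf]
      exact ENNReal.sum_le_tsum _
  have h0 : L ∅ = 0 := le_antisymm (by simpa using hLb ∅ MeasurableSet.empty) zero_le
  let ν : Measure X := Measure.ofMeasurable (fun E _ => L E) h0 hU
  have hν : ∀ E, MeasurableSet E → ν E = L E := fun E hE => Measure.ofMeasurable_apply E hE
  have hz : ∀ a : ℕ → Set X,
      Tendsto (fun N : ℕ => ((N + 1 : ℕ) : ENNReal)⁻¹ * μ0 (a N)) (hyperfilter ℕ) (𝓝 0) := by
    intro a
    have h1 : Tendsto (fun N : ℕ => ((N + 1 : ℕ) : ENNReal)⁻¹ * μ0 univ) atTop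
        (𝓝 (0 * μ0 univ)) :=
      ENNReal.Tendsto.mul_const (ENNReal.tendsto_inv_nat_nhds_zero.comp (tendsto_add_atTop_nat 1))
        (Or.inr (measure_ne_top _ _))
    rw [zero_mul] at h1
    exact tendsto_of_tendsto_of_tendsto_of_le_of_le tendsto_const_nhds
      (h1.mono_left Nat.hyperfilter_le_atTop) (fun _ => zero_le)
      fun N => mul_le_mul_right (measure_mono (subset_univ _)) _
  refine ⟨ν, ⟨?_⟩, ⟨hT, ?_⟩, fun E hE hi => ?_⟩
  · rw [hν _ MeasurableSet.univ]
    exact (hLb _ MeasurableSet.univ).trans_lt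
      (ENNReal.mul_lt_top ENNReal.coe_lt_top (measure_lt_top _ _))
  · ext E hE
    rw [Measure.map_apply hT hE, hν _ (hT hE), hν _ hE]
    have h1 := (hL (T ⁻¹' E)).add (hz fun _ => T^[0] ⁻¹' E)
    have h2 := (hL E).add (hz fun N => T^[N + 1] ⁻¹' E)
    rw [add_zero] at h1 h2
    refine tendsto_nhds_unique h1 (h2.congr fun N => ?_)
    rw [hμ N E hE, hμ N _ (hT hE), ← mul_add, ← mul_add,
      ← Finset.sum_range_succ (fun i => μ0 (T^[i] ⁻¹' E)), Finset.sum_range_succ']
    simp only [Function.iterate_succ', preimage_comp]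
  · rw [hν E hE]
    refine tendsto_nhds_unique (hL E) (tendsto_const_nhds.congr fun N => ?_)
    rw [hμ N E hE, Finset.sum_congr rfl fun i _ =>
      congrArg μ0 (Function.IsFixedPt.preimage_iterate hi i), hc]

lemma conv_meas {T : ℝ → ℝ} (hT : Measurable T) (μ0 lam : Measure ℝ) [IsFiniteMeasure μ0]
    [IsFiniteMeasure lam] (M1 : NNReal)
    (h : ∀ (i : ℕ) (E : Set ℝ), MeasurableSet E → μ0 (T^[i] ⁻¹' E) ≤ M1 * lam E)
    {R : Set ℝ} (hR : MeasurableSet R) :
    ∀ᵐ p ∂μ0, ∃ L, Tendsto (ergAvg T R p) atTop (𝓝 L) := by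
  obtain ⟨ν, hν, hP, hE⟩ := exists_inv hT μ0 lam M1 h
  have h1 := Pool.Agent.MP_019006_gt.kingman ν T hP
    (fun n x => ∑ i ∈ Finset.Icc 1 n, R.indicator (fun _ => (1 : ℝ)) (T^[i] x))
    (fun n => Finset.measurable_sum _ fun i _ =>
      (measurable_const.indicator hR).comp (hT.iterate i)) 1 (fun m n x => le_of_eq ?_)
    fun n x => ?_
  · have h2 : MeasurableSet {p | ∃ L, Tendsto (ergAvg T R p) atTop (𝓝 L)} :=
      measurableSet_exists_tendsto (f := fun N p => ergAvg T R p N) fun N => avg_meas hT hR N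
    rw [ae_iff] at h1 ⊢
    refine (hE _ h2.compl ?_).symm.trans (measure_mono_null ?_ h1)
    · ext x
      exact not_congr (exists_congr fun L => avg_shift T R x 1 L)
    · rintro x hx ⟨l, hl⟩
      exact hx ⟨l, hl.congr fun n => by rw [ergAvg, one_div, div_eq_inv_mul]⟩
  · induction n with
    | zero => simp
    | succ n ih =>
      rw [← add_assoc, Finset.sum_Icc_succ_top (by omega), Finset.sum_Icc_succ_top (by omega), ih,
        add_assoc, ← Function.iterate_add_apply, show n + 1 + m = m + n + 1 by omega]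
  · refine (Finset.abs_sum_le_sum_abs _ _).trans
      ((Finset.sum_le_card_nsmul _ _ 1 fun i _ => ?_).trans (by simp))
    by_cases h2 : T^[i] x ∈ R <;> simp [h2]

lemma BL.null_visit (D : BL) (h : D.Expd) {N : Set ℝ} (hN : volume N = 0) :
    ∀ᵐ p ∂(volume.restrict D.Lam), ∀ i : ℕ, D.T^[i] p ∉ N := by
  obtain ⟨M1, hM⟩ := D.unif h
  rw [ae_all_iff]
  intro i
  rw [ae_restrict_iff' D.lam_meas, ae_iff]
  have h1 := hM i N
  rw [hN, mul_zero, nonpos_iff_eq_zero] at h1
  refine measure_mono_null (fun x hx => ?_) h1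
  simpa using hx

lemma BL.conv_Lam (D : BL) (h : D.Expd) {R : Set ℝ} (hR : NullMeasurableSet R volume) :
    ∀ᵐ p ∂(volume.restrict D.Lam), ∃ L, Tendsto (ergAvg D.T R p) atTop (𝓝 L) := by
  obtain ⟨M1, hM⟩ := D.unif h
  have hs : D.Lam ⊆ Icc 0 1 := D.lam_sub.trans Ioo_subset_Icc_self
  have : IsFiniteMeasure (volume.restrict D.Lam) :=
    isFiniteMeasure_restrict.2 ((measure_mono hs).trans_lt measure_Icc_lt_top).ne
  obtain ⟨R', -, hR', he⟩ := hR.exists_measurable_superset_ae_eq
  have h1 := conv_meas D.cont.measurable (volume.restrict D.Lam) (volume.restrict (Icc 0 1)) M1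
    (fun i E hE => by
      rw [Measure.restrict_apply' D.lam_meas, Measure.restrict_apply hE]
      refine le_trans (measure_mono fun x hx => ?_) (hM i (E ∩ Icc 0 1))
      exact ⟨hx.2, hx.1, hs (D.lam_maps.iterate i hx.2)⟩) hR'
  have h2 := D.null_visit h (ae_iff.1 he.mem_iff)
  filter_upwards [h1, h2] with p hp hq
  rwa [avg_congr (T' := D.T) (R' := R') (x' := p) fun i _ => (not_not.1 (hq i)).symm]

end Pool.Agent.MP_8df504_an.C
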