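import Pool.Agent.MP_8df504_an.C.Fin1

set_option autoImplicit false

namespace Pool.Agent.MP_8df504_an.C

open Set Filter Topology MeasureTheory

/-! Comparison of `Pt T A` with `Dl A` times the product of the slopes.

Hints.  `g ↦ g.1` is injective on `gaps A` (`Gap.eq_of_fst`) with image `A` minus its maximum
(`exists_edge_from`).  Call an edge `g` bad if some `b ∈ B` has `g.1 ≤ b < g.2`; different bad
edges use different `b` (`Gap.sep`), so there are at most `B.card` bad edges.  For a good edge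
`g.1 ∉ B` and `NoB B g.1 g.2`, so `img T g = s g.1 * len g` by `SlopeAt`.  For a bad edge
`img ≤ M len ≤ (M/m) s len` and (in `low`) `img ≥ c len ≥ (c/M) s len`.  The missing factors
`s (max)`, `s e.1` lie in `[m, M]`.
`T1lo`, `T1up`: `orb y n = insert (y 0) (mid y n)`, `(orb y n).image T = insert (y n) (mid y n)`,
use a function `s'` on reals with `s' (y i) = s i` for `i < n` (for instance via
`Function.invFunOn` or `Function.extend` restricted to `Fin n`), `Dl_image_le`, `up`, `low`. -/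

open Classical in
lemma fin3_bad (A B : Finset ℝ) :
    ((gaps A).filter fun g => ∃ b ∈ B, g.1 ≤ b ∧ b < g.2).card ≤ B.card := by
  refine Finset.card_le_card_of_forall_subsingleton (fun g b => g.1 ≤ b ∧ b < g.2)
    (fun g hg => (Finset.mem_filter.1 hg).2) fun b _ g hg g' hg' => ?_
  by_contra hne
  rcases Gap.sep (mem_gaps.1 (Finset.mem_filter.1 hg.1).1)
    (mem_gaps.1 (Finset.mem_filter.1 hg'.1).1) hne with c | c <;>
    linarith [hg.2.1, hg.2.2, hg'.2.1, hg'.2.2]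

lemma fin3_good {T : ℝ → ℝ} {lo hi : ℝ} {B A : Finset ℝ} {s : ℝ → ℝ}
    (hsub : ∀ a ∈ A, a ∈ Icc lo hi) (hs : ∀ a ∈ A, SlopeAt T hi B a (s a)) {g : ℝ × ℝ}
    (hg : g ∈ gaps A) (h : ¬ ∃ b ∈ B, g.1 ≤ b ∧ b < g.2) : img T g = s g.1 * len g := by
  have h1 := mem_gaps.1 hg
  exact hs g.1 h1.1 (fun hb => h ⟨_, hb, le_rfl, h1.2.2.1⟩) g.2 h1.2.2.1 (hsub g.2 h1.2.1).2
    fun b hb hc => h ⟨b, hb, hc.1.le, hc.2⟩

lemma fin3_prod {A : Finset ℝ} (hA : A.Nonempty) (s : ℝ → ℝ) :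
    ∏ a ∈ A, s a = s (A.max' hA) * ∏ g ∈ gaps A, s g.1 := by
  rw [← Finset.mul_prod_erase A s (A.max'_mem hA)]
  congr 1
  symm
  refine Finset.prod_bij (fun g _ => g.1) (fun g hg => ?_)
    (fun g hg g' hg' e => Gap.eq_of_fst (mem_gaps.1 hg) (mem_gaps.1 hg') e) (fun a ha => ?_)
    fun _ _ => rfl
  · have h1 := mem_gaps.1 hg
    exact Finset.mem_erase.2 ⟨(h1.2.2.1.trans_le (A.le_max' _ h1.2.1)).ne, h1.1⟩
  · obtain ⟨h1, h2⟩ := Finset.mem_erase.1 ha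
    obtain ⟨g, hg, e, -⟩ := exists_edge_from h2 (A.max'_mem hA)
      (lt_of_le_of_ne (A.le_max' _ h2) h1)
    exact ⟨g, hg, e⟩

open Classical in
lemma fin3_ite (A B : Finset ℝ) {F : Finset (ℝ × ℝ)} (hF : F ⊆ gaps A) (t : ℝ) (f : ℝ × ℝ → ℝ) :
    ∃ k ≤ B.card, ∏ g ∈ F, ((if ∃ b ∈ B, g.1 ≤ b ∧ b < g.2 then t else 1) * f g) =
      t ^ k * ∏ g ∈ F, f g := by
  refine ⟨_, (Finset.card_le_card (Finset.filter_subset_filter _ hF)).trans (fin3_bad A B), ?_⟩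
  rw [Finset.prod_mul_distrib, Finset.prod_ite, Finset.prod_const, Finset.prod_const_one, mul_one]

lemma fin3_up {T : ℝ → ℝ} {lo hi m M : ℝ} {B A : Finset ℝ} {s : ℝ → ℝ} (hm : 0 < m)
    (hlip : LipOn T lo hi M) (hA : A.Nonempty) (hsub : ∀ a ∈ A, a ∈ Icc lo hi)
    (hs : ∀ a ∈ A, m ≤ s a ∧ s a ≤ M ∧ SlopeAt T hi B a (s a)) {F : Finset (ℝ × ℝ)}
    (hF : F ⊆ gaps A) :
    ∏ g ∈ F, img T g ≤ (M / m) ^ B.card * ∏ g ∈ F, s g.1 * len g := by
  classical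
  have hM : m ≤ M := let ⟨a, ha⟩ := hA; (hs a ha).1.trans (hs a ha).2.1
  obtain ⟨k, hk, e⟩ := fin3_ite A B hF (M / m) fun g => s g.1 * len g
  have h0 : ∀ g ∈ F, 0 ≤ s g.1 * len g := fun g hg =>
    mul_nonneg (hm.le.trans (hs _ (mem_gaps.1 (hF hg)).1).1) (Gap.len_pos (mem_gaps.1 (hF hg))).le
  refine le_trans (Finset.prod_le_prod (fun g _ => img_nonneg T g) fun g hg => ?_)
    (e.le.trans (mul_le_mul_of_nonneg_right
      (pow_le_pow_right₀ ((one_le_div hm).2 hM) hk) (Finset.prod_nonneg h0)))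
  have h1 := mem_gaps.1 (hF hg)
  have h2 := Gap.len_pos h1
  split_ifs with h
  · have h3 := hlip g.2 (hsub _ h1.2.1) g.1 (hsub _ h1.1)
    rw [abs_of_pos (a := g.2 - g.1) h2] at h3
    refine le_trans h3 ?_
    rw [← mul_assoc]
    refine mul_le_mul_of_nonneg_right ?_ h2.le
    rw [div_mul_eq_mul_div, le_div_iff₀ hm]
    exact mul_le_mul_of_nonneg_left (hs _ h1.1).1 (hm.le.trans hM)
  · rw [one_mul, fin3_good hsub (fun a ha => (hs a ha).2.2) (hF hg) h]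

lemma fin3_orb {T : ℝ → ℝ} {y : ℕ → ℝ} {n : ℕ} (hn : 1 ≤ n) (hy : ∀ i < n, y (i + 1) = T (y i)) :
    orb y n = insert (y 0) (mid y n) ∧ (orb y n).image T = insert (y n) (mid y n) := by
  constructor
  · unfold orb mid
    rw [← Finset.image_insert]
    congr 1
    ext i
    simp only [Finset.mem_range, Finset.mem_insert, Finset.mem_Ioo]
    omega
  · ext z
    simp only [orb, mid, Finset.mem_image, Finset.mem_range, Finset.mem_insert, Finset.mem_Ioo]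
    constructor
    · rintro ⟨_, ⟨i, hi, rfl⟩, rfl⟩
      rw [← hy i hi]
      rcases Nat.lt_or_ge (i + 1) n with h | h
      · exact Or.inr ⟨i + 1, ⟨by omega, h⟩, rfl⟩
      · exact Or.inl (by rw [show i + 1 = n by omega])
    · rintro (rfl | ⟨i, hi, rfl⟩)
      · exact ⟨_, ⟨n - 1, by omega, rfl⟩, by rw [← hy _ (by omega), show n - 1 + 1 = n by omega]⟩
      · exact ⟨_, ⟨i - 1, by omega, rfl⟩, by rw [← hy _ (by omega), show i - 1 + 1 = i by omega]⟩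

lemma fin3_s {y : ℕ → ℝ} {n : ℕ} (hinj : ∀ i ≤ n, ∀ j ≤ n, y i = y j → i = j) (s : ℕ → ℝ) :
    ∃ s' : ℝ → ℝ, (∀ i < n, s' (y i) = s i) ∧
      ∏ a ∈ orb y n, s' a = ∏ i ∈ Finset.range n, s i := by
  have h1 : InjOn y (Finset.range n : Set ℕ) := fun i hi j hj =>
    hinj i (Finset.mem_range.1 hi).le j (Finset.mem_range.1 hj).le
  have h2 : ∀ i < n, s (Function.invFunOn y (Finset.range n : Set ℕ) (y i)) = s i := fun i hi => by
    rw [h1.leftInvOn_invFunOn (Finset.mem_range.2 hi)]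
  refine ⟨fun a => s (Function.invFunOn y (Finset.range n : Set ℕ) a), h2, ?_⟩
  rw [orb, Finset.prod_image h1]
  exact Finset.prod_congr rfl fun i hi => h2 i (Finset.mem_range.1 hi)

lemma fin3_all {y : ℕ → ℝ} {n : ℕ} {p : ℝ → Prop} (h : ∀ i < n, p (y i)) : ∀ a ∈ orb y n, p a := by
  intro a ha
  obtain ⟨i, hi, rfl⟩ := Finset.mem_image.1 ha
  exact h i (Finset.mem_range.1 hi)

lemma up {T : ℝ → ℝ} {lo hi m M : ℝ} {B A : Finset ℝ} {s : ℝ → ℝ} (hm : 0 < m)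
    (hlip : LipOn T lo hi M) (hA : A.Nonempty) (hsub : ∀ a ∈ A, a ∈ Icc lo hi)
    (hs : ∀ a ∈ A, m ≤ s a ∧ s a ≤ M ∧ SlopeAt T hi B a (s a)) :
    Pt T A ≤ cC m M B * Dl A * ∏ a ∈ A, s a := by
  have h1 := fin3_up hm hlip hA hsub hs Finset.Subset.rfl
  have hM := hs _ (A.max'_mem hA)
  have h2 : 0 ≤ ∏ g ∈ gaps A, s g.1 :=
    Finset.prod_nonneg fun g hg => hm.le.trans (hs _ (mem_gaps.1 hg).1).1
  have h3 : 0 ≤ (M / m) ^ B.card := pow_nonneg (div_nonneg (by linarith [hM.1, hM.2.1]) hm.le) _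
  rw [Finset.prod_mul_distrib] at h1
  refine h1.trans ?_
  rw [fin3_prod hA, cC, div_mul_eq_mul_div, div_mul_eq_mul_div, le_div_iff₀ hm]
  have := mul_le_mul_of_nonneg_left hM.1 (mul_nonneg h3 (mul_nonneg h2 (Dl_pos A).le))
  unfold Dl at this ⊢
  linarith

lemma up_edge {T : ℝ → ℝ} {lo hi m M : ℝ} {B A : Finset ℝ} {s : ℝ → ℝ} (hm : 0 < m)
    (hlip : LipOn T lo hi M) (hsub : ∀ a ∈ A, a ∈ Icc lo hi)
    (hs : ∀ a ∈ A, m ≤ s a ∧ s a ≤ M ∧ SlopeAt T hi B a (s a)) {e : ℝ × ℝ} (he : e ∈ gaps A) :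
    m * len e * Pt T A ≤ img T e * (cC m M B * Dl A * ∏ a ∈ A, s a) := by
  have h0 := mem_gaps.1 he
  have hA : A.Nonempty := ⟨_, h0.1⟩
  have h1 := fin3_up hm hlip hA hsub hs (Finset.erase_subset e _)
  have hM := hs _ (A.max'_mem hA)
  have h2 : 0 ≤ ∏ g ∈ (gaps A).erase e, s g.1 := Finset.prod_nonneg fun g hg =>
    hm.le.trans (hs _ (mem_gaps.1 (Finset.mem_of_mem_erase hg)).1).1
  have h2' : 0 ≤ ∏ g ∈ (gaps A).erase e, len g := Finset.prod_nonneg fun g hg =>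
    (Gap.len_pos (mem_gaps.1 (Finset.mem_of_mem_erase hg))).le
  have h3 : 0 ≤ (M / m) ^ B.card := pow_nonneg (div_nonneg (by linarith [hM.1, hM.2.1]) hm.le) _
  have h4 := Gap.len_pos h0
  have h5 : m * m ≤ s (A.max' hA) * s e.1 :=
    mul_le_mul hM.1 (hs _ h0.1).1 hm.le (hm.le.trans hM.1)
  rw [Finset.prod_mul_distrib] at h1
  rw [fin3_prod hA, Pt, Dl, ← Finset.mul_prod_erase _ _ he, ← Finset.mul_prod_erase _ len he,
    ← Finset.mul_prod_erase _ (fun g : ℝ × ℝ => s g.1) he, mul_left_comm]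
  refine mul_le_mul_of_nonneg_left ((mul_le_mul_of_nonneg_left h1 (by positivity)).trans ?_)
    (img_nonneg T e)
  rw [cC, div_mul_eq_mul_div, div_mul_eq_mul_div, le_div_iff₀ hm]
  have := mul_le_mul_of_nonneg_left h5 (mul_nonneg h3 (mul_nonneg h2 (mul_nonneg h2' h4.le)))
  linarith

lemma low {T : ℝ → ℝ} {lo hi m M c : ℝ} {B A : Finset ℝ} {s : ℝ → ℝ} (hm : 0 < m)
    (hA : A.Nonempty) (hsub : ∀ a ∈ A, a ∈ Icc lo hi)
    (hs : ∀ a ∈ A, m ≤ s a ∧ s a ≤ M ∧ SlopeAt T hi B a (s a)) (hc : 0 < c) (hcM : c ≤ M)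
    (he : ∀ e ∈ gaps A, c * len e ≤ img T e) :
    (c / M) ^ B.card / M * Dl A * ∏ a ∈ A, s a ≤ Pt T A := by
  classical
  have hM := hs _ (A.max'_mem hA)
  have hM0 : 0 < M := hc.trans_le hcM
  obtain ⟨k, hk, e⟩ := fin3_ite A B Finset.Subset.rfl (c / M) fun g => s g.1 * len g
  have h0 : ∀ g ∈ gaps A, 0 ≤ s g.1 * len g := fun g hg =>
    mul_nonneg (hm.le.trans (hs _ (mem_gaps.1 hg).1).1) (Gap.len_pos (mem_gaps.1 hg)).le
  have h1 : (c / M) ^ B.card * ∏ g ∈ gaps A, s g.1 * len g ≤ Pt T A := by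
    refine le_trans ((mul_le_mul_of_nonneg_right (pow_le_pow_of_le_one (by positivity)
      ((div_le_one hM0).2 hcM) hk) (Finset.prod_nonneg h0)).trans e.ge)
      (Finset.prod_le_prod (fun g hg => mul_nonneg ?_ (h0 g hg)) fun g hg => ?_)
    · split_ifs
      · positivity
      · exact zero_le_one
    have h1 := mem_gaps.1 hg
    split_ifs with h
    · refine le_trans ?_ (he g hg)
      rw [← mul_assoc]
      refine mul_le_mul_of_nonneg_right ?_ (Gap.len_pos h1).le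
      rw [div_mul_eq_mul_div, div_le_iff₀ hM0]
      exact mul_le_mul_of_nonneg_left (hs _ h1.1).2.1 hc.le
    · rw [one_mul, fin3_good hsub (fun a ha => (hs a ha).2.2) hg h]
  refine le_trans ?_ h1
  have h2 : 0 ≤ ∏ g ∈ gaps A, s g.1 :=
    Finset.prod_nonneg fun g hg => hm.le.trans (hs _ (mem_gaps.1 hg).1).1
  rw [fin3_prod hA, Finset.prod_mul_distrib, div_mul_eq_mul_div, div_mul_eq_mul_div,
    div_le_iff₀ hM0]
  have := mul_le_mul_of_nonneg_left hM.2.1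
    (mul_nonneg (pow_nonneg (div_pos hc hM0).le B.card) (mul_nonneg h2 (Dl_pos A).le))
  unfold Dl at this ⊢
  linarith

lemma T1lo {T : ℝ → ℝ} {lo hi m M : ℝ} {B : Finset ℝ} {y s : ℕ → ℝ} {n : ℕ} (hm : 0 < m)
    (hlip : LipOn T lo hi M) (hn : 1 ≤ n) (hy : ∀ i < n, y (i + 1) = T (y i))
    (hinj : ∀ i ≤ n, ∀ j ≤ n, y i = y j → i = j) (hsub : ∀ i < n, y i ∈ Icc lo hi)
    (hs : ∀ i < n, m ≤ s i ∧ s i ≤ M ∧ SlopeAt T hi B (y i) (s i)) :
    rho (mid y n) (y n) ≤ cC m M B * (∏ i ∈ Finset.range n, s i) * rho (mid y n) (y 0) := by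
  obtain ⟨e1, e2⟩ := fin3_orb hn hy
  obtain ⟨s', h1, h2⟩ := fin3_s hinj s
  have hi : InjOn T (orb y n : Set ℝ) := by
    intro a ha a' ha' e
    obtain ⟨i, hi, rfl⟩ := Finset.mem_image.1 ha
    obtain ⟨j, hj, rfl⟩ := Finset.mem_image.1 ha'
    rw [Finset.mem_range] at hi hj
    rw [← hy i hi, ← hy j hj] at e
    rw [Nat.succ_injective (hinj _ hi _ hj e)]
  have h3 := (Dl_image_le hi).trans (up (s := s') (B := B) hm hlip
    (e1 ▸ Finset.insert_nonempty _ _) (fin3_all hsub)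
    (fin3_all fun i hi => (h1 i hi).symm ▸ hs i hi))
  rw [h2, e2, e1] at h3
  rw [rho, rho, ← mul_div_assoc]
  refine div_le_div_of_nonneg_right ?_ (Dl_pos _).le
  linarith

lemma T1up {T : ℝ → ℝ} {lo hi m M c G : ℝ} {B : Finset ℝ} {y s : ℕ → ℝ} {n : ℕ} (hm : 0 < m)
    (hn : 1 ≤ n) (hy : ∀ i < n, y (i + 1) = T (y i))
    (hinj : ∀ i ≤ n, ∀ j ≤ n, y i = y j → i = j) (hsub : ∀ i < n, y i ∈ Icc lo hi)
    (hs : ∀ i < n, m ≤ s i ∧ s i ≤ M ∧ SlopeAt T hi B (y i) (s i)) (hc : 0 < c) (hcM : c ≤ M)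
    (he : ∀ e ∈ gaps (orb y n), c * len e ≤ img T e)
    (hG : Pt T (orb y n) ≤ G * Dl ((orb y n).image T)) :
    (c / M) ^ B.card / M * (∏ i ∈ Finset.range n, s i) * rho (mid y n) (y 0) ≤
      G * rho (mid y n) (y n) := by
  obtain ⟨e1, e2⟩ := fin3_orb hn hy
  obtain ⟨s', h1, h2⟩ := fin3_s hinj s
  have h3 := (low (s := s') (B := B) hm (e1 ▸ Finset.insert_nonempty _ _) (fin3_all hsub)
    (fin3_all fun i hi => (h1 i hi).symm ▸ hs i hi) hc hcM he).trans hG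
  rw [h2, e2, e1] at h3
  rw [rho, rho, ← mul_div_assoc, ← mul_div_assoc]
  refine div_le_div_of_nonneg_right ?_ (Dl_pos _).le
  linarith

end Pool.Agent.MP_8df504_an.C
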