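import Pool.Agent.MP_8df504_an.C.SysBase
import Pool.Agent.MP_8df504_an.C.Fin3

set_option autoImplicit false

namespace Pool.Agent.MP_8df504_an.C

open Set Filter Topology MeasureTheory

/-! Levels from clusters, and avoidance of the inner gaps.

`exists_lev`: choose `j0` with `b (i+1) ≤ (1/4)(a i - b (i+1))` for `i ≥ j0`, put `i = j + j0`,
`e j = gp (sd i) (b (i+2)) (a i)`; `u j`, `v j` are the inner ends `pt (sd i) (b (i+2))` and
`pt (sd (i+1)) (b (i+3))` (the one on side `false` is `u j`), `c1 = 3 m / (8 M)`.  A point of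
`cl (e j)` is `pt (sd i) h` with `h ∈ [b (i+2), a i]`, its image is `T c - h` (`val`), which lies in
`cl (pi (e j))` only if `b (i+1) ≤ h`.

`outside_of_not_inner`: if `g.1 < u` then `g.1 ≤ fL.1`, `g.2 ≤ u`, and `g.2 ≠ u`, so `g.2 ≤ fL.1`.

`avoid`: fix `j` large, `fL`, `fR` the flanks, `L = fL.1`, `R = fR.2`.  Suppose `pi^[k] f` is inner
for a flank `f`; take such a pair `(f,k)` with `k` minimal, so `k ≥ 1` and `f i = pi^[i] f` is
neither inner nor a flank for `0 < i < k`; the `f i`, `i ≤ k`, are distinct.  Pull the midpoint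
`y k` of `f k` back (`pull_op`) to `y i` in the open gap `f i`.  `mid y k` misses `(L,R)`.  `T1lo`
with slopes `|sl (f i).1|` (`slopeAt_gap`), `prod_sl_chain`, `prod_r_chain_le` give
`rho (y k) ≤ C G (len (f k) / len f) rho (y 0)`, `len (f k) ≤ v - u`.  `rho_cmp` (for `f = fR`:
`θ₂ = 1`, `θ₁ = len fL / (len fL + (v-u) + len fR)`, symmetric for `f = fL`) gives a contradiction
as soon as `3 C G (v - u) < len (e (j+1))`, `v - u ≤ len (e (j+1)) ≤ len (e j)`. -/

lemma outside_of_not_inner {K : Set ℝ} {fL fR g : ℝ × ℝ} (hL : fL ∈ Gap K) (hR : fR ∈ Gap K)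
    (hg : g ∈ Gap K) (h : fL.2 ≤ fR.1) (h1 : g ≠ fL) (h2 : g ≠ fR) (h3 : ¬ Inner fL.2 fR.1 g) :
    g.2 ≤ fL.1 ∨ fR.2 ≤ g.1 := by
  have _ := h
  rcases Gap.sep hg hL h1 with a | a
  · exact Or.inl a
  · rcases Gap.sep hg hR h2 with b | b
    · exact absurd ⟨a, b⟩ h3
    · exact Or.inr b

lemma avoid_pull (S : Sys) {f : ℝ × ℝ} (hf : f ∈ Gap S.P.K) (k : ℕ) :
    ∀ z ∈ Ioo (S.pi^[k] f).1 (S.pi^[k] f).2, ∃ y, S.P.T^[k] y = z ∧
      ∀ i ≤ k, S.P.T^[i] y ∈ Ioo (S.pi^[i] f).1 (S.pi^[i] f).2 := by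
  induction k with
  | zero =>
    intro z hz
    exact ⟨z, rfl, fun i hi => by rw [Nat.le_zero.1 hi]; exact hz⟩
  | succ k ih =>
    intro z hz
    have hz' := hz
    rw [Function.iterate_succ_apply'] at hz'
    obtain ⟨z', h1, h2⟩ := S.pull_op (S.pi_iter_mem hf k) hz'
    obtain ⟨y, h3, h4⟩ := ih z' h1
    have h5 : S.P.T^[k + 1] y = z := by rw [Function.iterate_succ_apply', h3, h2]
    refine ⟨y, h5, fun i hi => ?_⟩
    rcases hi.lt_or_eq with c | c
    · exact h4 i (Nat.lt_succ_iff.1 c)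
    · rw [c, h5]; exact hz

lemma avoid_core (S : Sys) {fL fR : ℝ × ℝ} (hL : fL ∈ Gap S.P.K) (hR : fR ∈ Gap S.P.K)
    (huv : fL.2 < fR.1) (w1 : fR.1 - fL.2 ≤ len fL) (w2 : fR.1 - fL.2 ≤ len fR)
    (c1 : 3 * (cC S.L.m S.L.M S.P.B * S.P.G * (fR.1 - fL.2)) < len fL)
    (c2 : 3 * (cC S.L.m S.L.M S.P.B * S.P.G * (fR.1 - fL.2)) < len fR) (k : ℕ) :
    ∀ f, (f = fL ∨ f = fR) → ¬ Inner fL.2 fR.1 (S.pi^[k] f) := by
  have pL := hL.2.2.1
  have pR := hR.2.2.1
  have h0 : ∀ f, (f = fL ∨ f = fR) → ¬ Inner fL.2 fR.1 f := by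
    rintro f (rfl | rfl) hi
    · exact absurd hi.1 (not_le.2 pL)
    · exact absurd hi.2 (not_le.2 pR)
  induction k using Nat.strong_induction_on with
  | _ k ih =>
  intro f hf hi
  have hfg : f ∈ Gap S.P.K := by rcases hf with rfl | rfl <;> assumption
  have hk : 1 ≤ k := Nat.pos_of_ne_zero fun e => h0 f hf (by rw [e] at hi; exact hi)
  have hnf : ∀ i, 0 < i → i ≤ k → ¬ (S.pi^[i] f = fL ∨ S.pi^[i] f = fR) := fun i h1 h2 h3 => by
    refine ih (k - i) (by omega) _ h3 ?_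
    rwa [← Function.iterate_add_apply, Nat.sub_add_cancel h2]
  have hne : ∀ i, 0 < i → i ≤ k → S.pi^[i] f ≠ f := fun i h1 h2 h3 =>
    hnf i h1 h2 (by rw [h3]; exact hf)
  have hdis : ∀ i l, i < l → l ≤ k → S.pi^[i] f ≠ S.pi^[l] f := fun i l h1 h2 h3 => by
    refine hne (l - i) (by omega) (by omega) (S.pi_iter_inj i (S.pi_iter_mem hfg _) hfg ?_)
    rw [← Function.iterate_add_apply, Nat.add_sub_cancel' h1.le, h3]
  have gk := S.pi_iter_mem hfg k
  obtain ⟨y, -, hy⟩ := avoid_pull S hfg k (((S.pi^[k] f).1 + (S.pi^[k] f).2) / 2)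
    ⟨by linarith [gk.2.2.1], by linarith [gk.2.2.1]⟩
  have t1 := T1lo (T := S.P.T) (B := S.P.B) (y := fun i => S.P.T^[i] y)
    (s := fun i => |S.L.sl (S.pi^[i] f).1|) (n := k) S.L.m_pos S.L.lip hk
    (fun i _ => Function.iterate_succ_apply' _ _ _)
    (fun i h1 l h2 e => by
      have e' : S.pi^[i] f = S.pi^[l] f := Gap.eq_of_mem (S.pi_iter_mem hfg i)
        (S.pi_iter_mem hfg l) (hy i h1) (by have := hy l h2; rw [← e] at this; exact this)
      rcases lt_trichotomy i l with c | c | c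
      · exact absurd e' (hdis i l c h2)
      · exact c
      · exact absurd e'.symm (hdis l i c h1))
    (fun i h1 => by
      have a := S.P.gap_sub (S.pi_iter_mem hfg i)
      have b := hy i h1.le
      exact ⟨a.1.trans b.1.le, b.2.le.trans a.2⟩)
    fun i h1 => ⟨S.L.sl_lo _, S.L.sl_hi _,
      S.slopeAt_gap (S.pi_iter_mem hfg i) (Ioo_subset_Icc_self (hy i h1.le))⟩
  have t2 := S.prod_sl_chain hfg k
  have t3 := S.prod_r_chain_le hfg k fun i h1 h2 => hne i h1 h2.le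
  have hO : ∀ z ∈ mid (fun i => S.P.T^[i] y) k, ¬ (fL.1 < z ∧ z < fR.2) := by
    intro z hz hc
    obtain ⟨i, h1, rfl⟩ := Finset.mem_image.1 hz
    rw [Finset.mem_Ioo] at h1
    have a := hnf i h1.1 h1.2.le
    have b := hy i h1.2.le
    rcases outside_of_not_inner hL hR (S.pi_iter_mem hfg i) huv.le (fun e => a (Or.inl e))
      (fun e => a (Or.inr e)) (ih i h1.2 f hf) with c | c
    · linarith [b.2, hc.1]
    · linarith [b.1, hc.2]
  have yk := hy k le_rfl
  have y0 : y ∈ Ioo f.1 f.2 := hy 0 (Nat.zero_le _)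
  have i1 := hi.1
  have i2 := hi.2
  have hG := S.P.one_le_G
  have hm := S.L.m_pos
  have hM := hm.trans_le S.m_le_M
  have hC : 0 < cC S.L.m S.L.M S.P.B := by unfold cC; positivity
  have lk : len (S.pi^[k] f) ≤ fR.1 - fL.2 := by unfold len; linarith
  have t4 : (∏ i ∈ Finset.range k, |S.L.sl (S.pi^[i] f).1|) * len f ≤ S.P.G * (fR.1 - fL.2) := by
    rw [t2]
    exact mul_le_mul t3 lk (Gap.len_pos gk).le (by linarith)
  have r0 := rho_pos (mid (fun i => S.P.T^[i] y) k) y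
  have lf := Gap.len_pos hfg
  have fin : ∀ θ : ℝ, θ * rho (mid (fun i => S.P.T^[i] y) k) y ≤
      rho (mid (fun i => S.P.T^[i] y) k) (S.P.T^[k] y) →
      θ * len f ≤ cC S.L.m S.L.M S.P.B * S.P.G * (fR.1 - fL.2) := fun θ h => by
    have a := le_of_mul_le_mul_right (h.trans t1) r0
    calc θ * len f ≤ cC S.L.m S.L.M S.P.B * (∏ i ∈ Finset.range k, |S.L.sl (S.pi^[i] f).1|) *
          len f := mul_le_mul_of_nonneg_right a lf.le
      _ ≤ cC S.L.m S.L.M S.P.B * (S.P.G * (fR.1 - fL.2)) := by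
          rw [mul_assoc]; exact mul_le_mul_of_nonneg_left t4 hC.le
      _ = _ := by ring
  have hD : 0 < fR.2 - fL.1 := by linarith
  have key : len fL * len fR ≤
      cC S.L.m S.L.M S.P.B * S.P.G * (fR.1 - fL.2) * (fR.2 - fL.1) := by
    rcases hf with rfl | rfl
    · have a := rho_cmp hO (y := S.P.T^[k] y) (y' := y) (θ₁ := 1) (θ₂ := len fR / (fR.2 - f.1))
        ⟨by linarith [yk.1], by linarith [yk.2]⟩ ⟨y0.1, by linarith [y0.2]⟩ ⟨zero_le_one, le_rfl⟩
        ⟨div_nonneg (Gap.len_pos hR).le hD.le, (div_le_one hD).2 (by unfold len; linarith)⟩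
        (by linarith [yk.1, y0.2])
        (by
          rw [div_mul_eq_mul_div, div_le_iff₀ hD]
          exact mul_le_mul (by unfold len; linarith [yk.2]) (by linarith [y0.1])
            (by linarith [y0.2]) (by linarith [yk.2]))
      have b := fin _ a
      rw [one_mul, div_mul_eq_mul_div, div_le_iff₀ hD] at b
      linarith
    · have a := rho_cmp hO (y := S.P.T^[k] y) (y' := y) (θ₁ := len fL / (f.2 - fL.1)) (θ₂ := 1)
        ⟨by linarith [yk.1], by linarith [yk.2]⟩ ⟨by linarith [y0.1], y0.2⟩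
        ⟨div_nonneg (Gap.len_pos hL).le hD.le, (div_le_one hD).2 (by unfold len; linarith)⟩
        ⟨zero_le_one, le_rfl⟩
        (by
          rw [div_mul_eq_mul_div, div_le_iff₀ hD]
          exact mul_le_mul (by unfold len; linarith [yk.1]) (by linarith [y0.2])
            (by linarith [y0.1]) (by linarith [yk.1]))
        (by linarith [yk.2, y0.1])
      have b := fin _ a
      rw [mul_one, div_mul_eq_mul_div, div_le_iff₀ hD] at b
      linarith
  have e : fR.2 - fL.1 = len fL + (fR.1 - fL.2) + len fR := by unfold len; ring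
  have a0 := Gap.len_pos hL
  have b0 := Gap.len_pos hR
  have q0 : 0 < cC S.L.m S.L.M S.P.B * S.P.G * (fR.1 - fL.2) :=
    mul_pos (mul_pos hC (by linarith)) (by linarith)
  rw [e] at key
  generalize cC S.L.m S.L.M S.P.B * S.P.G * (fR.1 - fL.2) = q at *
  rcases le_total (len fL) (len fR) with c | c
  · nlinarith
  · nlinarith

namespace Lev

variable {S : Sys} (V : Lev S)

lemma len_small {ε : ℝ} (hε : 0 < ε) : ∀ᶠ j in atTop, len (V.e (j + 1)) ≤ ε * len (V.e j) := by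
  obtain ⟨N, hN⟩ := eventually_atTop.1 (V.small ε hε)
  filter_upwards [eventually_ge_atTop (N + 1)] with j hj
  obtain ⟨i, rfl⟩ : ∃ i, j = i + 1 := ⟨j - 1, by omega⟩
  have h1 := V.inner i
  have h2 := hN i (by omega)
  have h3 : len (V.e (i + 1 + 1)) ≤ V.v i - V.u i := by
    unfold len
    linarith [h1.1, h1.2]
  exact h3.trans h2

lemma len_tendsto : Tendsto (fun j => len (V.e j)) atTop (𝓝 0) := by
  refine (summable_of_ratio_norm_eventually_le (r := 1 / 2) (by norm_num) ?_).tendsto_atTop_zero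
  filter_upwards [V.len_small (ε := 1 / 2) (by norm_num)] with j hj
  rwa [Real.norm_of_nonneg (Gap.len_pos (V.gap _)).le,
    Real.norm_of_nonneg (Gap.len_pos (V.gap _)).le]

lemma avoid : ∀ᶠ j in atTop, ∀ f, (f = V.e j ∨ f = V.e (j + 1)) → ∀ k : ℕ,
    ¬ Inner (V.u j) (V.v j) (S.pi^[k] f) := by
  have hG := S.P.one_le_G
  have hm := S.L.m_pos
  have hM := hm.trans_le S.m_le_M
  have hC : 0 < cC S.L.m S.L.M S.P.B := by unfold cC; positivity
  have hq : 0 < cC S.L.m S.L.M S.P.B * S.P.G := mul_pos hC (by linarith)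
  filter_upwards [V.len_small one_pos, V.small 1 one_pos,
    V.small (1 / (4 * (cC S.L.m S.L.M S.P.B * S.P.G))) (by positivity)] with j h1 h2 h3 f hf k
  rw [one_mul] at h1 h2
  rw [div_mul_eq_mul_div, one_mul, le_div_iff₀ (by positivity)] at h3
  have h4 := V.uv j
  have h5 : 0 < cC S.L.m S.L.M S.P.B * S.P.G * (V.v j - V.u j) := mul_pos hq (by linarith)
  have h6 : 3 * (cC S.L.m S.L.M S.P.B * S.P.G * (V.v j - V.u j)) < len (V.e (j + 1)) := by
    linarith
  rcases V.flank j with ⟨a, b⟩ | ⟨a, b⟩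
  · rw [← a, ← b] at h2 h4 h6 ⊢
    exact avoid_core S (V.gap _) (V.gap _) h4 h2 (h2.trans h1) h6 (h6.trans_le h1) k f hf.symm
  · rw [← a, ← b] at h2 h4 h6 ⊢
    exact avoid_core S (V.gap _) (V.gap _) h4 (h2.trans h1) h2 (h6.trans_le h1) h6 k f hf

end Lev

end Pool.Agent.MP_8df504_an.C
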