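import Pool.Agent.MP_8df504_an.C.Slopes

set_option autoImplicit false

namespace Pool.Agent.MP_8df504_an.C

open Set Filter Topology MeasureTheory

/-! Basic facts on `BL`.

Hints.  `exists_piece`: `x ∈ [0,1]`, take the largest index with `a j ≤ x`.  `cyl_succ` is the
basic recursion.  `cyl_ord`, `cyl_aff`: induction on `n` generalizing `ω`, with `cyl_succ` and
`aff`; `T` maps the closure of `Cyl (n+1) ω` into the closure of `Cyl n (sh ω 1)`.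
`pp`: let `γ0, γ1, γ2` be `gam p` of `ω`, `sh ω p`, `sh ω (2p)` (nonzero by `gam_ne`).  Pick
`y ≠ x` in the nonempty set `Cyl (3p) ω` (it is `IsOpen`), `y1 = T^[p] y`, `y2 = T^[p] y1`; by
`cyl_aff`, `y1 - x = γ0 (y - x)`, `y2 - x = γ1 (y1 - x)`, and `T^[p]` has slope `γ0, γ1, γ2` on the
segments from `x` to `y, y1, y2` (the closure of an order-connected set is order-connected).  Two of
these points on the same side of `x` have the same slope; a sign check gives `γ1 γ2 > 0`.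
`σ = γ1 γ2 = gam (2p) (sh ω p)` is the slope of `T^[2p]` on the closure of `J = Cyl (2p) (sh ω p)`.
`σ < 1` gives `HasAttr` (`q = x`, `q' = y1`); `σ = 1` makes `T^[2p]` the identity on `J`, which
contains `T^[p] y*` for `y* ∈ Cyl (3p) ω ∩ Lam`: contradiction with the definition of `Lam`. -/

namespace BL

variable (D : BL)

lemma a_mem (j : Fin (D.m + 1)) : D.a j ∈ Icc (0 : ℝ) 1 := by
  exact ⟨D.a0 ▸ D.mono.monotone (Fin.zero_le j), D.a1 ▸ D.mono.monotone (Fin.le_last j)⟩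

lemma piece_sub (j : Fin D.m) : D.Piece j ⊆ Ioo 0 1 := by
  exact fun x hx => ⟨(D.a_mem _).1.trans_lt hx.1, hx.2.trans_le (D.a_mem _).2⟩

lemma blbase_B (j : Fin (D.m + 1)) : D.a j ∈ D.B :=
  Finset.mem_image_of_mem _ (Finset.mem_univ j)

lemma blbase_idx {x : ℝ} (h0 : 0 ≤ x) (h1 : x < 1) :
    ∃ j : Fin D.m, D.a j.castSucc ≤ x ∧ x < D.a j.succ := by
  obtain ⟨i, hi, hm⟩ := (Finset.univ.filter fun i => D.a i ≤ x).exists_max_image id
    ⟨0, Finset.mem_filter.2 ⟨Finset.mem_univ _, D.a0 ▸ h0⟩⟩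
  have h2 := (Finset.mem_filter.1 hi).2
  have h3 : i ≠ Fin.last D.m := fun h => by
    rw [h, D.a1] at h2
    exact h2.not_gt h1
  obtain ⟨j, rfl⟩ := Fin.exists_castSucc_eq.2 h3
  refine ⟨j, h2, not_le.1 fun h => ?_⟩
  exact (hm _ (Finset.mem_filter.2 ⟨Finset.mem_univ _, h⟩)).not_gt Fin.castSucc_lt_succ

lemma blbase_zero (ω : ℕ → Fin D.m) : D.Cyl 0 ω = univ :=
  eq_univ_of_forall fun _ i hi => absurd hi (Nat.not_lt_zero i)

lemma exists_piece {x : ℝ} (hx : x ∈ Icc (0 : ℝ) 1) (hB : x ∉ D.B) : ∃ j, x ∈ D.Piece j := by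
  have h1 : x ≠ 1 := fun h => hB (h ▸ D.a1 ▸ D.blbase_B _)
  obtain ⟨j, h2, h3⟩ := D.blbase_idx hx.1 (lt_of_le_of_ne hx.2 h1)
  exact ⟨j, lt_of_le_of_ne h2 fun h => hB (h ▸ D.blbase_B _), h3⟩

lemma piece_unique {x : ℝ} {j j' : Fin D.m} (h : x ∈ D.Piece j) (h' : x ∈ D.Piece j') :
    j = j' := by
  have h1 : j.castSucc < j'.succ := D.mono.lt_iff_lt.1 (h.1.trans h'.2)
  have h2 : j'.castSucc < j.succ := D.mono.lt_iff_lt.1 (h'.1.trans h.2)
  exact le_antisymm (Fin.castSucc_lt_succ_iff.1 h1) (Fin.castSucc_lt_succ_iff.1 h2)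

lemma not_mem_B {x : ℝ} {j : Fin D.m} (h : x ∈ D.Piece j) : x ∉ D.B := by
  intro hx
  obtain ⟨i, -, rfl⟩ := Finset.mem_image.1 hx
  have h1 := D.mono.lt_iff_lt.1 h.1
  have h2 := D.mono.lt_iff_lt.1 h.2
  rw [Fin.lt_def] at h1 h2
  simp only [Fin.val_castSucc, Fin.val_succ] at h1 h2
  omega

/-- a break-free segment lies in one closed piece -/
lemma seg_piece {u v : ℝ} (hu : 0 ≤ u) (huv : u < v) (hv : v ≤ 1) (h : NoB D.B u v) :
    ∃ j : Fin D.m, D.a j.castSucc ≤ u ∧ v ≤ D.a j.succ := by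
  obtain ⟨j, h2, h3⟩ := D.blbase_idx hu (huv.trans_le hv)
  exact ⟨j, h2, not_lt.1 fun h4 => h _ (D.blbase_B _) ⟨h3, h4⟩⟩

lemma plz : PLz D.T 0 1 D.B := by
  intro u v hu huv hv h
  obtain ⟨j, h1, h2⟩ := D.seg_piece hu huv hv h
  refine ⟨D.c j, fun y hy => ?_⟩
  rw [D.aff j y ⟨h1.trans hy.1, hy.2.trans h2⟩, D.aff j u ⟨h1, huv.le.trans h2⟩]
  ring

lemma slopeAt {x : ℝ} {j : Fin D.m} (h : x ∈ D.Piece j) : SlopeAt D.T 1 D.B x |D.c j| := by
  intro _ v hv _ hn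
  have h2 : v ≤ D.a j.succ := not_lt.1 fun h4 => hn _ (D.blbase_B _) ⟨h.2, h4⟩
  rw [D.aff j v ⟨(h.1.trans hv).le, h2⟩, D.aff j x ⟨h.1.le, h.2.le⟩,
    show D.c j * v + D.d j - (D.c j * x + D.d j) = D.c j * (v - x) by ring, abs_mul,
    abs_of_pos (sub_pos.2 hv)]

lemma exists_bounds : ∃ m M : ℝ, 0 < m ∧ m ≤ M ∧ LipOn D.T 0 1 M ∧
    ∀ j, D.c j ≠ 0 → m ≤ |D.c j| ∧ |D.c j| ≤ M := by
  have hM : ∀ j, |D.c j| ≤ 1 + ∑ j, |D.c j| := fun j => by
    have := Finset.single_le_sum (f := fun j => |D.c j|) (fun j _ => abs_nonneg _)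
      (Finset.mem_univ j)
    linarith
  have h0 : (0 : ℝ) ≤ ∑ j, |D.c j| := Finset.sum_nonneg fun j _ => abs_nonneg _
  have h1 : ∀ᶠ m in 𝓝[>] (0 : ℝ), ∀ j, D.c j ≠ 0 → m ≤ |D.c j| := by
    refine eventually_all.2 fun j => ?_
    by_cases hj : D.c j = 0
    · exact Eventually.of_forall fun m h => absurd hj h
    · filter_upwards [Ioc_mem_nhdsGT (abs_pos.2 hj)] with m hm _ using hm.2
  obtain ⟨m, h2, h3⟩ := (h1.and (Ioc_mem_nhdsGT (zero_lt_one' ℝ))).exists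
  refine ⟨m, 1 + ∑ j, |D.c j|, h3.1, by linarith [h3.2], ?_, fun j hj => ⟨h2 j hj, hM j⟩⟩
  refine lip_of_pieces (B := D.B) fun u v hu huv hv h => ?_
  obtain ⟨j, a1, a2⟩ := D.seg_piece hu huv hv h
  rw [D.aff j v ⟨a1.trans huv.le, a2⟩, D.aff j u ⟨a1, huv.le.trans a2⟩,
    show D.c j * v + D.d j - (D.c j * u + D.d j) = D.c j * (v - u) by ring, abs_mul,
    abs_of_pos (sub_pos.2 huv)]
  exact mul_le_mul_of_nonneg_right (hM j) (sub_pos.2 huv).le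

lemma neu_open : IsOpen D.Neu := by
  refine isOpen_iff_mem_nhds.2 ?_
  rintro x ⟨p, hp, h⟩
  exact h.eventually_nhds.mono fun y hy => ⟨p, hp, hy⟩

lemma lam_meas : MeasurableSet D.Lam := by
  have e : D.Lam = ⋂ i : ℕ, D.T^[i] ⁻¹' (D.Neuᶜ ∩ ⋃ j, ⋃ _ : D.c j ≠ 0, D.Piece j) := by
    ext x
    simp [Lam]
  rw [e]
  refine MeasurableSet.iInter fun i => (D.cont.iterate i).measurable ?_
  exact D.neu_open.measurableSet.compl.inter
    (isOpen_iUnion fun j => isOpen_iUnion fun _ => isOpen_Ioo).measurableSet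

lemma lam_maps : MapsTo D.T D.Lam D.Lam := by
  intro x hx i
  rw [← Function.iterate_succ_apply]
  exact hx _

lemma lam_sub : D.Lam ⊆ Ioo 0 1 := by
  intro x hx
  obtain ⟨j, -, h⟩ := (hx 0).2
  exact D.piece_sub j h

lemma exists_itin {x : ℝ} (hx : x ∈ D.Lam) : ∃ ω : ℕ → Fin D.m, ∀ n, x ∈ D.Cyl n ω := by
  choose ω h1 h2 using fun i => (hx i).2
  exact ⟨ω, fun n i _ => h2 i⟩

lemma cyl_succ (n : ℕ) (ω : ℕ → Fin D.m) :
    D.Cyl (n + 1) ω = D.Piece (ω 0) ∩ D.T ⁻¹' D.Cyl n (sh ω 1) := by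
  ext x
  refine ⟨fun h => ⟨h 0 n.succ_pos, fun i hi => h (i + 1) (by omega)⟩, fun h i hi => ?_⟩
  rcases i with _ | i
  · exact h.1
  · exact h.2 i (by omega)

lemma cyl_add {n k : ℕ} {ω : ℕ → Fin D.m} {x : ℝ} (h : x ∈ D.Cyl (n + k) ω) :
    x ∈ D.Cyl n ω ∧ D.T^[n] x ∈ D.Cyl k (sh ω n) := by
  refine ⟨fun i hi => h i (by omega), fun i hi => ?_⟩
  rw [← Function.iterate_add_apply]
  exact h (i + n) (by omega)

lemma gam_add (n k : ℕ) (ω : ℕ → Fin D.m) : D.gam (n + k) ω = D.gam n ω * D.gam k (sh ω n) := by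
  rw [gam, Finset.prod_range_add]
  simp only [gam, sh, add_comm n]

lemma cyl_open (n : ℕ) (ω : ℕ → Fin D.m) : IsOpen (D.Cyl n ω) := by
  induction n generalizing ω with
  | zero =>
    rw [D.blbase_zero]
    exact isOpen_univ
  | succ n ih =>
    rw [D.cyl_succ]
    exact isOpen_Ioo.inter ((ih _).preimage D.cont)

lemma cyl_ord (n : ℕ) (ω : ℕ → Fin D.m) : (D.Cyl n ω).OrdConnected := by
  induction n generalizing ω with
  | zero =>
    rw [D.blbase_zero]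
    exact ordConnected_univ
  | succ n ih =>
    rw [D.cyl_succ]
    refine ⟨fun x hx y hy z hz => ?_⟩
    have hz' : z ∈ D.Piece (ω 0) := ⟨hx.1.1.trans_le hz.1, hz.2.trans_lt hy.1.2⟩
    refine ⟨hz', (ih _).uIcc_subset hx.2 hy.2 ?_⟩
    rw [D.aff _ x ⟨hx.1.1.le, hx.1.2.le⟩, D.aff _ y ⟨hy.1.1.le, hy.1.2.le⟩,
      D.aff _ z ⟨hz'.1.le, hz'.2.le⟩, mem_uIcc]
    rcases le_total 0 (D.c (ω 0)) with h | h
    · exact Or.inl ⟨by nlinarith [hz.1], by nlinarith [hz.2]⟩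
    · exact Or.inr ⟨by nlinarith [hz.2], by nlinarith [hz.1]⟩

lemma cyl_aff {n : ℕ} {ω : ℕ → Fin D.m} {x y : ℝ} (hx : x ∈ closure (D.Cyl n ω))
    (hy : y ∈ closure (D.Cyl n ω)) : D.T^[n] y - D.T^[n] x = D.gam n ω * (y - x) := by
  induction n generalizing ω x y with
  | zero => simp [gam]
  | succ n ih =>
    rw [D.cyl_succ] at hx hy
    have a : ∀ {z}, z ∈ closure (D.Piece (ω 0) ∩ D.T ⁻¹' D.Cyl n (sh ω 1)) →
        D.T z = D.c (ω 0) * z + D.d (ω 0) ∧ D.T z ∈ closure (D.Cyl n (sh ω 1)) := fun hz =>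
      ⟨D.aff _ _ (closure_minimal (fun w hw => Ioo_subset_Icc_self hw.1) isClosed_Icc hz),
        map_mem_closure D.cont hz fun w hw => hw.2⟩
    have e : D.gam (n + 1) ω = D.gam n (sh ω 1) * D.c (ω 0) := by
      simp only [gam, sh, Finset.prod_range_succ']
    rw [Function.iterate_succ_apply, Function.iterate_succ_apply, ih (a hx).2 (a hy).2, (a hx).1,
      (a hy).1, e]
    ring

lemma c_ne {n : ℕ} {ω : ℕ → Fin D.m} (h : (D.Cyl n ω ∩ D.Lam).Nonempty) {i : ℕ} (hi : i < n) :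
    D.c (ω i) ≠ 0 := by
  obtain ⟨x, h1, h2⟩ := h
  obtain ⟨j, h3, h4⟩ := (h2 i).2
  rwa [D.piece_unique (h1 i hi) h4]

end BL

end Pool.Agent.MP_8df504_an.C
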