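import Pool.Agent.MP_8df504_an.C.Defs

set_option autoImplicit false

namespace Pool.Agent.MP_8df504_an.C

open Set Filter Topology MeasureTheory

/-! Elementary facts on gaps (all proved here). -/

lemma mem_gaps {A : Finset ℝ} {g : ℝ × ℝ} : g ∈ gaps A ↔ g ∈ Gap (A : Set ℝ) := by
  unfold gaps
  simp only [Finset.mem_filter, Finset.mem_product]
  exact ⟨fun h => h.2, fun h => ⟨⟨h.1, h.2.1⟩, h⟩⟩

lemma Gap.len_pos {S : Set ℝ} {g : ℝ × ℝ} (h : g ∈ Gap S) : 0 < len g := sub_pos.2 h.2.2.1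

lemma img_nonneg (T : ℝ → ℝ) (g : ℝ × ℝ) : 0 ≤ img T g := abs_nonneg _

lemma Gap.eq_of_fst {S : Set ℝ} {g g' : ℝ × ℝ} (h : g ∈ Gap S) (h' : g' ∈ Gap S)
    (e : g.1 = g'.1) : g = g' := by
  refine Prod.ext e ?_
  rcases lt_trichotomy g.2 g'.2 with c | c | c
  · exact absurd ⟨e ▸ h.2.2.1, c⟩ (h'.2.2.2 _ h.2.1)
  · exact c
  · exact absurd ⟨e ▸ h'.2.2.1, c⟩ (h.2.2.2 _ h'.2.1)

lemma Gap.eq_of_snd {S : Set ℝ} {g g' : ℝ × ℝ} (h : g ∈ Gap S) (h' : g' ∈ Gap S)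
    (e : g.2 = g'.2) : g = g' := by
  refine Prod.ext ?_ e
  rcases lt_trichotomy g.1 g'.1 with c | c | c
  · exact absurd ⟨c, e ▸ h'.2.2.1⟩ (h.2.2.2 _ h'.1)
  · exact c
  · exact absurd ⟨c, e ▸ h.2.2.1⟩ (h'.2.2.2 _ h.1)

/-- two different gaps have disjoint interiors -/
lemma Gap.sep {S : Set ℝ} {g g' : ℝ × ℝ} (h : g ∈ Gap S) (h' : g' ∈ Gap S) (hne : g ≠ g') :
    g.2 ≤ g'.1 ∨ g'.2 ≤ g.1 := by
  by_contra hc
  push Not at hc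
  rcases lt_trichotomy g.1 g'.1 with c | c | c
  · exact h.2.2.2 _ h'.1 ⟨c, hc.1⟩
  · exact hne (Gap.eq_of_fst h h' c)
  · exact h'.2.2.2 _ h.1 ⟨c, hc.2⟩

lemma Gap.eq_of_mem {S : Set ℝ} {g g' : ℝ × ℝ} (h : g ∈ Gap S) (h' : g' ∈ Gap S) {y : ℝ}
    (hy : g.1 < y ∧ y < g.2) (hy' : g'.1 < y ∧ y < g'.2) : g = g' := by
  by_contra hne
  rcases Gap.sep h h' hne with c | c <;> linarith [hy.1, hy.2, hy'.1, hy'.2]

/-- a gap contained in a gap is that gap -/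
lemma Gap.eq_of_sub {S : Set ℝ} {g g' : ℝ × ℝ} (h : g ∈ Gap S) (h' : g' ∈ Gap S)
    (h1 : g'.1 ≤ g.1) (h2 : g.2 ≤ g'.2) : g = g' := by
  have := h.2.2.1
  exact Gap.eq_of_mem h h' (y := (g.1 + g.2) / 2) ⟨by linarith, by linarith⟩
    ⟨by linarith, by linarith⟩

lemma Gap.le_or_ge {S : Set ℝ} {g : ℝ × ℝ} (h : g ∈ Gap S) {z : ℝ} (hz : z ∈ S) :
    z ≤ g.1 ∨ g.2 ≤ z := by
  by_contra hc
  push Not at hc
  exact h.2.2.2 z hz hc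

lemma Cov.len_le {T : ℝ → ℝ} {g γ : ℝ × ℝ} (h : Cov T g γ) : len γ ≤ img T g := by
  unfold len img
  have h1 := h.1
  have h2 := h.2
  rw [← max_sub_min_eq_abs]
  linarith

lemma Dl_pos (A : Finset ℝ) : 0 < Dl A :=
  Finset.prod_pos fun _ hg => Gap.len_pos (mem_gaps.1 hg)

lemma rho_pos (O : Finset ℝ) (y : ℝ) : 0 < rho O y := div_pos (Dl_pos _) (Dl_pos _)

lemma Pt_nonneg (T : ℝ → ℝ) (A : Finset ℝ) : 0 ≤ Pt T A :=
  Finset.prod_nonneg fun g _ => img_nonneg T g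

lemma Pt_id (A : Finset ℝ) : Pt id A = Dl A :=
  Finset.prod_congr rfl fun _ hg => abs_of_pos (Gap.len_pos (mem_gaps.1 hg))

lemma gaps_empty : gaps (∅ : Finset ℝ) = ∅ := by
  ext g; simp [mem_gaps, Gap]

lemma gaps_singleton (y : ℝ) : gaps ({y} : Finset ℝ) = ∅ := by
  ext g
  simp only [mem_gaps, Gap, Finset.coe_singleton, mem_singleton_iff, mem_ofPred_eq,
    Finset.notMem_empty, iff_false, not_and]
  intro h1 h2 h3
  rw [h1, h2] at h3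
  exact absurd h3 (lt_irrefl _)

/-- in a compact set, a point between two points of the set and outside it lies in a gap -/
lemma exists_gap_around {S : Set ℝ} (hS : IsCompact S) {a b y : ℝ} (ha : a ∈ S) (hb : b ∈ S)
    (hay : a ≤ y) (hyb : y ≤ b) (hy : y ∉ S) :
    ∃ g ∈ Gap S, a ≤ g.1 ∧ g.1 < y ∧ y < g.2 ∧ g.2 ≤ b := by
  obtain ⟨p, hp, hpm⟩ := (hS.inter_right (isClosed_Iic (a := y))).exists_isGreatest ⟨a, ha, hay⟩
  obtain ⟨q, hq, hqm⟩ := (hS.inter_right (isClosed_Ici (a := y))).exists_isLeast ⟨b, hb, hyb⟩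
  have h1 : p < y := lt_of_le_of_ne hp.2 fun e => hy (e ▸ hp.1)
  have h2 : y < q := lt_of_le_of_ne hq.2 fun e => hy (e ▸ hq.1)
  refine ⟨(p, q), ⟨hp.1, hq.1, h1.trans h2, fun z hz hc => ?_⟩, hpm ⟨ha, hay⟩, h1, h2,
    hqm ⟨hb, hyb⟩⟩
  rcases le_total z y with c | c
  · exact absurd (hpm ⟨hz, c⟩) (not_le.2 hc.1)
  · exact absurd (hqm ⟨hz, c⟩) (not_le.2 hc.2)

/-- the edge of a finite set that starts at a non-maximal point -/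
lemma exists_edge_from {A : Finset ℝ} {a a' : ℝ} (ha : a ∈ A) (ha' : a' ∈ A) (h : a < a') :
    ∃ g ∈ gaps A, g.1 = a ∧ g.2 ≤ a' := by
  obtain ⟨q, hq, hqm⟩ := (A.filter (fun z => a < z)).exists_min_image id
    ⟨a', Finset.mem_filter.2 ⟨ha', h⟩⟩
  rw [Finset.mem_filter] at hq
  refine ⟨(a, q), mem_gaps.2 ⟨ha, hq.1, hq.2, fun z hz hc => ?_⟩, rfl,
    hqm a' (Finset.mem_filter.2 ⟨ha', h⟩)⟩
  exact absurd (hqm z (Finset.mem_filter.2 ⟨hz, hc.1⟩)) (not_le.2 hc.2)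

end Pool.Agent.MP_8df504_an.C
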