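import Pool.Agent.MP_8df504_an.C.Base

set_option autoImplicit false

namespace Pool.Agent.MP_8df504_an.C

open Set Filter Topology MeasureTheory

/-! Insertion formulas, the ratio `rho`, monotonicity of the gain, three-point inequality.

Hints.  First describe `gaps (insert y A)` for `y ∉ A`: `A` empty (no gaps); `y` above all of `A`
(new edge `(max, y)`); `y` below all of `A` (new edge `(y, min)`); `y` inside an edge `g`
(replace `g` by `(g.1, y)` and `(y, g.2)`).  One of the four cases always occurs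
(`insert_cases`).  With `T = id` (`Pt_id`) this gives `rho O y = 1`, `y - max`, `min - y` or
`(y - p)(q - y)/(q - p)`.
`rho_mul_le`: if `p < y < q` use `1/rho = 1/(y-a) + 1/(b-y)` for the edge `(a,b)` around `y` with
`p ≤ a`, `b ≤ q`; if `p, q` are on the same side use `rho_le` and `|p - q| ≤ max |y-p| |y-q|`.
`mono_gain`: induct on `A' \ A`, inserting one point `y`; one needs
`Pt T A * rho (A.image T) (T y) ≤ Pt T (insert y A)`, which follows from the insertion formulas,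
`rho_le` and `rho_mul_le` (`img T g > 0` by injectivity).
`three_point`: trivial if two of the points coincide or `T y` is between `T a` and `T a'`;
otherwise write the gain inequality for `{a, y, a'}` and cancel the common factor. -/

lemma insert_cases (A : Finset ℝ) (y : ℝ) (hy : y ∉ A) :
    A = ∅ ∨ (∃ a ∈ A, (∀ z ∈ A, z ≤ a) ∧ a < y) ∨ (∃ a ∈ A, (∀ z ∈ A, a ≤ z) ∧ y < a) ∨
      ∃ g ∈ gaps A, g.1 < y ∧ y < g.2 := by
  rcases A.eq_empty_or_nonempty with h | h
  · exact Or.inl h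
  right
  by_cases h1 : A.max' h < y
  · exact Or.inl ⟨A.max' h, A.max'_mem h, fun z hz => A.le_max' z hz, h1⟩
  right
  by_cases h2 : y < A.min' h
  · exact Or.inl ⟨A.min' h, A.min'_mem h, fun z hz => A.min'_le z hz, h2⟩
  right
  obtain ⟨g, hg, -, h3, h4, -⟩ := exists_gap_around (S := (A : Set ℝ)) A.finite_toSet.isCompact
    (Finset.mem_coe.2 (A.min'_mem h)) (Finset.mem_coe.2 (A.max'_mem h)) (not_lt.1 h2)
    (not_lt.1 h1) (fun hc => hy (Finset.mem_coe.1 hc))
  exact ⟨g, mem_gaps.2 hg, h3, h4⟩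

lemma fin1_mem {A : Finset ℝ} {g : ℝ × ℝ} :
    g ∈ gaps A ↔ g.1 ∈ A ∧ g.2 ∈ A ∧ g.1 < g.2 ∧ ∀ z ∈ A, ¬ (g.1 < z ∧ z < g.2) := by
  rw [mem_gaps]
  exact Iff.rfl

lemma gaps_insert_max {A : Finset ℝ} {a y : ℝ} (ha : a ∈ A) (hmax : ∀ z ∈ A, z ≤ a) (hy : a < y) :
    (a, y) ∉ gaps A ∧ gaps (insert y A) = insert (a, y) (gaps A) := by
  refine ⟨fun hc => ?_, ?_⟩
  · exact absurd (hmax y (fin1_mem.1 hc).2.1) (not_le.2 hy)
  ext g
  rw [Finset.mem_insert, fin1_mem, fin1_mem]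
  constructor
  · rintro ⟨h1, h2, h3, h4⟩
    rw [Finset.mem_insert] at h1 h2
    have h1' : g.1 ∈ A := by
      rcases h1 with h1 | h1
      · rcases h2 with h2 | h2
        · exact absurd h3 (by rw [h1, h2]; exact lt_irrefl _)
        · have := hmax _ h2
          exact absurd h3 (by rw [h1]; exact not_lt.2 (this.trans hy.le))
      · exact h1
    rcases h2 with h2 | h2
    · left
      refine Prod.ext ?_ h2
      by_contra hne
      exact h4 a (Finset.mem_insert_of_mem ha)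
        ⟨lt_of_le_of_ne (hmax _ h1') hne, by rw [h2]; exact hy⟩
    · exact Or.inr ⟨h1', h2, h3, fun z hz => h4 z (Finset.mem_insert_of_mem hz)⟩
  · rintro (rfl | ⟨h1, h2, h3, h4⟩)
    · refine ⟨Finset.mem_insert_of_mem ha, Finset.mem_insert_self _ _, hy, fun z hz hc => ?_⟩
      rcases Finset.mem_insert.1 hz with rfl | hz
      · exact lt_irrefl _ hc.2
      · exact absurd (hmax z hz) (not_le.2 hc.1)
    · refine ⟨Finset.mem_insert_of_mem h1, Finset.mem_insert_of_mem h2, h3, fun z hz hc => ?_⟩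
      rcases Finset.mem_insert.1 hz with rfl | hz
      · exact absurd ((hmax _ h2).trans hy.le) (not_le.2 hc.2)
      · exact h4 z hz hc

lemma gaps_insert_min {A : Finset ℝ} {a y : ℝ} (ha : a ∈ A) (hmin : ∀ z ∈ A, a ≤ z) (hy : y < a) :
    (y, a) ∉ gaps A ∧ gaps (insert y A) = insert (y, a) (gaps A) := by
  refine ⟨fun hc => ?_, ?_⟩
  · exact absurd (hmin y (fin1_mem.1 hc).1) (not_le.2 hy)
  ext g
  rw [Finset.mem_insert, fin1_mem, fin1_mem]
  constructor
  · rintro ⟨h1, h2, h3, h4⟩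
    rw [Finset.mem_insert] at h1 h2
    have h2' : g.2 ∈ A := by
      rcases h2 with h2 | h2
      · rcases h1 with h1 | h1
        · exact absurd h3 (by rw [h1, h2]; exact lt_irrefl _)
        · have := hmin _ h1
          exact absurd h3 (by rw [h2]; exact not_lt.2 (hy.le.trans this))
      · exact h2
    rcases h1 with h1 | h1
    · left
      refine Prod.ext h1 ?_
      by_contra hne
      exact h4 a (Finset.mem_insert_of_mem ha)
        ⟨by rw [h1]; exact hy, lt_of_le_of_ne (hmin _ h2') (fun e => hne e.symm)⟩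
    · exact Or.inr ⟨h1, h2', h3, fun z hz => h4 z (Finset.mem_insert_of_mem hz)⟩
  · rintro (rfl | ⟨h1, h2, h3, h4⟩)
    · refine ⟨Finset.mem_insert_self _ _, Finset.mem_insert_of_mem ha, hy, fun z hz hc => ?_⟩
      rcases Finset.mem_insert.1 hz with rfl | hz
      · exact lt_irrefl _ hc.1
      · exact absurd (hmin z hz) (not_le.2 hc.2)
    · refine ⟨Finset.mem_insert_of_mem h1, Finset.mem_insert_of_mem h2, h3, fun z hz hc => ?_⟩
      rcases Finset.mem_insert.1 hz with rfl | hz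
      · exact absurd (hy.le.trans (hmin _ h1)) (not_le.2 hc.1)
      · exact h4 z hz hc

lemma gaps_insert_mid {A : Finset ℝ} {g : ℝ × ℝ} {y : ℝ} (hg : g ∈ gaps A) (h1 : g.1 < y)
    (h2 : y < g.2) :
    (g.1, y) ∉ gaps A ∧ (y, g.2) ∉ gaps A ∧ (g.1, y) ≠ (y, g.2) ∧
      gaps (insert y A) = insert (g.1, y) (insert (y, g.2) ((gaps A).erase g)) := by
  obtain ⟨g1, g2, g3, g4⟩ := fin1_mem.1 hg
  have hyA : y ∉ A := fun hc => g4 y hc ⟨h1, h2⟩
  refine ⟨fun hc => hyA (fin1_mem.1 hc).2.1, fun hc => hyA (fin1_mem.1 hc).1,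
    fun hc => absurd (congrArg Prod.fst hc) h1.ne, ?_⟩
  ext e
  rw [Finset.mem_insert, Finset.mem_insert, Finset.mem_erase, fin1_mem, fin1_mem]
  constructor
  · rintro ⟨e1, e2, e3, e4⟩
    rw [Finset.mem_insert] at e1 e2
    rcases e2 with e2 | e2
    · left
      have e1' : e.1 ∈ A := by
        rcases e1 with e1 | e1
        · exact absurd e3 (by rw [e1, e2]; exact lt_irrefl _)
        · exact e1
      refine Prod.ext ?_ e2
      rcases lt_trichotomy e.1 g.1 with c | c | c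
      · exact absurd ⟨c, by rw [e2]; exact h1⟩ (e4 g.1 (Finset.mem_insert_of_mem g1))
      · exact c
      · exact absurd ⟨c, by rw [e2] at e3; exact e3.trans h2⟩ (g4 _ e1')
    right
    rcases e1 with e1 | e1
    · left
      refine Prod.ext e1 ?_
      rcases lt_trichotomy e.2 g.2 with c | c | c
      · exact absurd ⟨by rw [e1] at e3; exact h1.trans e3, c⟩ (g4 _ e2)
      · exact c
      · exact absurd ⟨by rw [e1]; exact h2, c⟩ (e4 g.2 (Finset.mem_insert_of_mem g2))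
    · right
      refine ⟨fun hc => ?_, e1, e2, e3, fun z hz => e4 z (Finset.mem_insert_of_mem hz)⟩
      exact e4 y (Finset.mem_insert_self _ _) (by rw [hc]; exact ⟨h1, h2⟩)
  · rintro (rfl | rfl | ⟨hne, e1, e2, e3, e4⟩)
    · refine ⟨Finset.mem_insert_of_mem g1, Finset.mem_insert_self _ _, h1, fun z hz hc => ?_⟩
      rcases Finset.mem_insert.1 hz with rfl | hz
      · exact lt_irrefl _ hc.2
      · exact g4 z hz ⟨hc.1, hc.2.trans h2⟩
    · refine ⟨Finset.mem_insert_self _ _, Finset.mem_insert_of_mem g2, h2, fun z hz hc => ?_⟩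
      rcases Finset.mem_insert.1 hz with rfl | hz
      · exact lt_irrefl _ hc.1
      · exact g4 z hz ⟨h1.trans hc.1, hc.2⟩
    · refine ⟨Finset.mem_insert_of_mem e1, Finset.mem_insert_of_mem e2, e3, fun z hz hc => ?_⟩
      rcases Finset.mem_insert.1 hz with rfl | hz
      · exact hne (Gap.eq_of_mem (mem_gaps.1 (fin1_mem.2 ⟨e1, e2, e3, e4⟩)) (mem_gaps.1 hg) hc
          ⟨h1, h2⟩)
      · exact e4 z hz hc

lemma fin1_Pt_max (T : ℝ → ℝ) {A : Finset ℝ} {a y : ℝ} (ha : a ∈ A) (hmax : ∀ z ∈ A, z ≤ a)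
    (hy : a < y) : Pt T (insert y A) = |T y - T a| * Pt T A := by
  obtain ⟨h1, h2⟩ := gaps_insert_max ha hmax hy
  unfold Pt
  rw [h2, Finset.prod_insert h1]
  rfl

lemma fin1_Pt_min (T : ℝ → ℝ) {A : Finset ℝ} {a y : ℝ} (ha : a ∈ A) (hmin : ∀ z ∈ A, a ≤ z)
    (hy : y < a) : Pt T (insert y A) = |T a - T y| * Pt T A := by
  obtain ⟨h1, h2⟩ := gaps_insert_min ha hmin hy
  unfold Pt
  rw [h2, Finset.prod_insert h1]
  rfl

lemma fin1_Pt_mid (T : ℝ → ℝ) {A : Finset ℝ} {g : ℝ × ℝ} {y : ℝ} (hg : g ∈ gaps A) (h1 : g.1 < y)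
    (h2 : y < g.2) :
    ∃ Q : ℝ, 0 ≤ Q ∧ Pt T A = |T g.2 - T g.1| * Q ∧
      Pt T (insert y A) = |T y - T g.1| * |T g.2 - T y| * Q := by
  obtain ⟨a1, a2, a3, a4⟩ := gaps_insert_mid hg h1 h2
  refine ⟨∏ e ∈ (gaps A).erase g, img T e, Finset.prod_nonneg fun e _ => img_nonneg T e, ?_, ?_⟩
  · unfold Pt
    rw [← Finset.mul_prod_erase _ _ hg]
    rfl
  · unfold Pt
    rw [a4, Finset.prod_insert, Finset.prod_insert, mul_assoc]
    · rfl
    · exact fun hc => a2 (Finset.mem_of_mem_erase hc)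
    · intro hc
      rcases Finset.mem_insert.1 hc with hc | hc
      · exact a3 hc
      · exact a1 (Finset.mem_of_mem_erase hc)

lemma fin1_Pt_empty (T : ℝ → ℝ) : Pt T ∅ = 1 := by
  unfold Pt
  rw [gaps_empty, Finset.prod_empty]

lemma fin1_Pt_singleton (T : ℝ → ℝ) (y : ℝ) : Pt T {y} = 1 := by
  unfold Pt
  rw [gaps_singleton, Finset.prod_empty]

lemma fin1_Dl_empty : Dl ∅ = 1 := by
  rw [← Pt_id, fin1_Pt_empty]

lemma fin1_rho_empty (y : ℝ) : rho ∅ y = 1 := by
  unfold rho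
  rw [fin1_Dl_empty, ← Pt_id, div_one]
  exact fin1_Pt_singleton id y

lemma fin1_rho_max {O : Finset ℝ} {a y : ℝ} (ha : a ∈ O) (hmax : ∀ z ∈ O, z ≤ a) (hy : a < y) :
    rho O y = y - a := by
  unfold rho
  rw [div_eq_iff (Dl_pos O).ne', ← Pt_id, ← Pt_id, fin1_Pt_max id ha hmax hy]
  simp only [id]
  rw [abs_of_pos (sub_pos.2 hy)]

lemma fin1_rho_min {O : Finset ℝ} {a y : ℝ} (ha : a ∈ O) (hmin : ∀ z ∈ O, a ≤ z) (hy : y < a) :
    rho O y = a - y := by
  unfold rho
  rw [div_eq_iff (Dl_pos O).ne', ← Pt_id, ← Pt_id, fin1_Pt_min id ha hmin hy]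
  simp only [id]
  rw [abs_of_pos (sub_pos.2 hy)]

lemma fin1_rho_mid {O : Finset ℝ} {g : ℝ × ℝ} {y : ℝ} (hg : g ∈ gaps O) (h1 : g.1 < y)
    (h2 : y < g.2) : rho O y = (y - g.1) * (g.2 - y) / (g.2 - g.1) := by
  obtain ⟨Q, -, e1, e2⟩ := fin1_Pt_mid id hg h1 h2
  have h3 : 0 < g.2 - g.1 := by linarith
  simp only [id] at e1 e2
  rw [abs_of_pos h3, Pt_id] at e1
  rw [abs_of_pos (sub_pos.2 h1), abs_of_pos (sub_pos.2 h2), Pt_id] at e2
  unfold rho
  rw [div_eq_div_iff (Dl_pos O).ne' h3.ne', e1, e2]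
  ring

lemma fin1_Dl_insert (O : Finset ℝ) (y : ℝ) : Dl (insert y O) = rho O y * Dl O := by
  unfold rho
  rw [div_mul_cancel₀ _ (Dl_pos O).ne']

lemma rho_le {O : Finset ℝ} {y p : ℝ} (hy : y ∉ O) (hp : p ∈ O) : rho O y ≤ |y - p| := by
  rcases insert_cases O y hy with h | ⟨a, ha, hmax, hay⟩ | ⟨a, ha, hmin, hay⟩ | ⟨g, hg, h1, h2⟩
  · rw [h] at hp
    exact absurd hp (Finset.notMem_empty _)
  · rw [fin1_rho_max ha hmax hay]
    have := hmax p hp
    exact le_trans (by linarith) (le_abs_self _)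
  · rw [fin1_rho_min ha hmin hay]
    have := hmin p hp
    exact le_trans (by linarith) (neg_le_abs _)
  · rw [fin1_rho_mid hg h1 h2, div_le_iff₀ (by linarith)]
    rcases Gap.le_or_ge (mem_gaps.1 hg) (Finset.mem_coe.2 hp) with c | c
    · rw [abs_of_nonneg (by linarith)]
      exact mul_le_mul (by linarith) (by linarith) (by linarith) (by linarith)
    · rw [abs_of_nonpos (by linarith), mul_comm (y - g.1)]
      exact mul_le_mul (by linarith) (by linarith) (by linarith) (by linarith)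

lemma fin1_rho_between {O : Finset ℝ} {y p q : ℝ} (hy : y ∉ O) (hp : p ∈ O) (hq : q ∈ O)
    (h1 : p < y) (h2 : y < q) : rho O y * |p - q| ≤ |y - p| * |y - q| := by
  obtain ⟨g, hg, a1, a2, a3, a4⟩ := exists_gap_around (S := (O : Set ℝ)) O.finite_toSet.isCompact
    (Finset.mem_coe.2 hp) (Finset.mem_coe.2 hq) h1.le h2.le (fun hc => hy (Finset.mem_coe.1 hc))
  rw [fin1_rho_mid (mem_gaps.2 hg) a2 a3, abs_of_neg (by linarith : p - q < 0),
    abs_of_pos (sub_pos.2 h1), abs_of_neg (sub_neg.2 h2), div_mul_eq_mul_div,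
    div_le_iff₀ (by linarith)]
  have b1 : (y - g.1) * (y - p) * (g.2 - y) ≤ (y - g.1) * (y - p) * (q - y) :=
    mul_le_mul_of_nonneg_left (by linarith) (mul_nonneg (by linarith) (by linarith))
  have b2 : (g.2 - y) * (q - y) * (y - g.1) ≤ (g.2 - y) * (q - y) * (y - p) :=
    mul_le_mul_of_nonneg_left (by linarith) (mul_nonneg (by linarith) (by linarith))
  linarith

lemma rho_mul_le {O : Finset ℝ} {y p q : ℝ} (hy : y ∉ O) (hp : p ∈ O) (hq : q ∈ O) :
    rho O y * |p - q| ≤ |y - p| * |y - q| := by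
  have hr := (rho_pos O y).le
  have hrp := rho_le hy hp
  have hrq := rho_le hy hq
  have hpy : p ≠ y := fun e => hy (e ▸ hp)
  have hqy : q ≠ y := fun e => hy (e ▸ hq)
  have same : |p - q| ≤ |y - p| ∨ |p - q| ≤ |y - q| →
      rho O y * |p - q| ≤ |y - p| * |y - q| := by
    rintro (c | c)
    · rw [mul_comm |y - p|]
      exact mul_le_mul hrq c (abs_nonneg _) (abs_nonneg _)
    · exact mul_le_mul hrp c (abs_nonneg _) (abs_nonneg _)
  rcases lt_or_gt_of_ne hpy with c1 | c1 <;> rcases lt_or_gt_of_ne hqy with c2 | c2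
  · apply same
    rw [abs_of_pos (sub_pos.2 c1), abs_of_pos (sub_pos.2 c2)]
    rcases le_total p q with c | c
    · left
      rw [abs_of_nonpos (by linarith)]
      linarith
    · right
      rw [abs_of_nonneg (by linarith)]
      linarith
  · exact fin1_rho_between hy hp hq c1 c2
  · rw [abs_sub_comm p q, mul_comm |y - p|]
    exact fin1_rho_between hy hq hp c2 c1
  · apply same
    rw [abs_of_neg (sub_neg.2 c1), abs_of_neg (sub_neg.2 c2)]
    rcases le_total p q with c | c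
    · right
      rw [abs_of_nonpos (by linarith)]
      linarith
    · left
      rw [abs_of_nonneg (by linarith)]
      linarith

lemma rho_cmp {O : Finset ℝ} {L R y y' θ₁ θ₂ : ℝ} (hO : ∀ z ∈ O, ¬ (L < z ∧ z < R))
    (hy : L < y ∧ y < R) (hy' : L < y' ∧ y' < R) (h1 : 0 ≤ θ₁ ∧ θ₁ ≤ 1) (h2 : 0 ≤ θ₂ ∧ θ₂ ≤ 1)
    (hL : θ₁ * (y' - L) ≤ y - L) (hR : θ₂ * (R - y') ≤ R - y) :
    θ₁ * θ₂ * rho O y' ≤ rho O y := by
  have hyO : y ∉ O := fun hc => hO y hc hy
  have hlo : ∀ a ∈ O, a < y → a < y' ∧ θ₁ * (y' - a) ≤ y - a := by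
    intro a ha hay
    have haL : a ≤ L := not_lt.1 fun c => hO a ha ⟨c, hay.trans hy.2⟩
    refine ⟨haL.trans_lt hy'.1, ?_⟩
    have : θ₁ * (L - a) ≤ L - a := mul_le_of_le_one_left (by linarith) h1.2
    linarith
  have hhi : ∀ a ∈ O, y < a → y' < a ∧ θ₂ * (a - y') ≤ a - y := by
    intro a ha hay
    have haR : R ≤ a := not_lt.1 fun c => hO a ha ⟨hy.1.trans hay, c⟩
    refine ⟨hy'.2.trans_le haR, ?_⟩
    have : θ₂ * (a - R) ≤ a - R := mul_le_of_le_one_left (by linarith) h2.2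
    linarith
  rcases insert_cases O y hyO with h | ⟨a, ha, hmax, hay⟩ | ⟨a, ha, hmin, hay⟩ | ⟨g, hg, c1, c2⟩
  · rw [h, fin1_rho_empty, fin1_rho_empty, mul_one]
    exact mul_le_one₀ h1.2 h2.1 h2.2
  · obtain ⟨b1, b2⟩ := hlo a ha hay
    rw [fin1_rho_max ha hmax hay, fin1_rho_max ha hmax b1]
    have : θ₂ * (θ₁ * (y' - a)) ≤ θ₁ * (y' - a) :=
      mul_le_of_le_one_left (mul_nonneg h1.1 (by linarith)) h2.2
    linarith
  · obtain ⟨b1, b2⟩ := hhi a ha hay
    rw [fin1_rho_min ha hmin hay, fin1_rho_min ha hmin b1]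
    have : θ₁ * (θ₂ * (a - y')) ≤ θ₂ * (a - y') :=
      mul_le_of_le_one_left (mul_nonneg h2.1 (by linarith)) h1.2
    linarith
  · obtain ⟨b1, b2⟩ := hlo g.1 (fin1_mem.1 hg).1 c1
    obtain ⟨b3, b4⟩ := hhi g.2 (fin1_mem.1 hg).2.1 c2
    rw [fin1_rho_mid hg c1 c2, fin1_rho_mid hg b1 b3, ← mul_div_assoc]
    refine div_le_div_of_nonneg_right ?_ (by linarith)
    have : θ₁ * (y' - g.1) * (θ₂ * (g.2 - y')) ≤ (y - g.1) * (g.2 - y) :=
      mul_le_mul b2 b4 (mul_nonneg h2.1 (by linarith)) (by linarith)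
    linarith

lemma fin1_step {T : ℝ → ℝ} {A : Finset ℝ} {y : ℝ} (hy : y ∉ A)
    (hinj : InjOn T ((insert y A : Finset ℝ) : Set ℝ)) :
    Pt T A * rho (A.image T) (T y) ≤ Pt T (insert y A) := by
  have hTy : T y ∉ A.image T := by
    intro hc
    obtain ⟨z, hz, e⟩ := Finset.mem_image.1 hc
    have := hinj (Finset.mem_coe.2 (Finset.mem_insert_of_mem hz))
      (Finset.mem_coe.2 (Finset.mem_insert_self _ _)) e
    exact hy (this ▸ hz)
  rcases insert_cases A y hy with h | ⟨a, ha, hmax, hay⟩ | ⟨a, ha, hmin, hay⟩ | ⟨g, hg, h1, h2⟩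
  · subst h
    rw [Finset.image_empty, fin1_rho_empty, fin1_Pt_empty, mul_one]
    exact (fin1_Pt_singleton T y).ge
  · rw [fin1_Pt_max T ha hmax hay, mul_comm]
    exact mul_le_mul_of_nonneg_right (rho_le hTy (Finset.mem_image_of_mem T ha)) (Pt_nonneg _ _)
  · rw [fin1_Pt_min T ha hmin hay, mul_comm, abs_sub_comm]
    exact mul_le_mul_of_nonneg_right (rho_le hTy (Finset.mem_image_of_mem T ha)) (Pt_nonneg _ _)
  · obtain ⟨Q, hQ, e1, e2⟩ := fin1_Pt_mid T hg h1 h2
    have := rho_mul_le hTy (Finset.mem_image_of_mem T (fin1_mem.1 hg).1)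
      (Finset.mem_image_of_mem T (fin1_mem.1 hg).2.1)
    rw [abs_sub_comm (T g.1), abs_sub_comm (T y) (T g.2)] at this
    rw [e1, e2]
    have := mul_le_mul_of_nonneg_right this hQ
    linarith

lemma mono_gain {T : ℝ → ℝ} {A A' : Finset ℝ} (h : A ⊆ A') (hinj : InjOn T (A' : Set ℝ)) :
    Pt T A * Dl (A'.image T) ≤ Pt T A' * Dl (A.image T) := by
  have key : ∀ D : Finset ℝ, InjOn T ((A ∪ D : Finset ℝ) : Set ℝ) →
      Pt T A / Dl (A.image T) ≤ Pt T (A ∪ D) / Dl ((A ∪ D).image T) := by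
    intro D
    induction D using Finset.induction_on with
    | empty => intro _; rw [Finset.union_empty]
    | insert y D _ ih =>
      intro hD
      rw [Finset.union_insert] at hD ⊢
      have ih' := ih (hD.mono (Finset.coe_subset.2 (Finset.subset_insert _ _)))
      by_cases hy : y ∈ A ∪ D
      · rw [Finset.insert_eq_of_mem hy]
        exact ih'
      · refine ih'.trans ?_
        rw [Finset.image_insert, fin1_Dl_insert, div_le_div_iff₀ (Dl_pos _)
          (mul_pos (rho_pos _ _) (Dl_pos _)), ← mul_assoc]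
        exact mul_le_mul_of_nonneg_right (fin1_step hy hD) (Dl_pos _).le
  have e : A ∪ A' = A' := Finset.union_eq_right.2 h
  have := key A' (by rw [e]; exact hinj)
  rw [e, div_le_div_iff₀ (Dl_pos _) (Dl_pos _)] at this
  exact this

lemma Dl_image_le {T : ℝ → ℝ} {A : Finset ℝ} (hinj : InjOn T (A : Set ℝ)) :
    Dl (A.image T) ≤ Pt T A := by
  have := mono_gain (Finset.empty_subset A) hinj
  rwa [Finset.image_empty, fin1_Pt_empty, fin1_Dl_empty, one_mul, mul_one] at this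

lemma Gain.one_le {T : ℝ → ℝ} {S : Set ℝ} {G : ℝ} (h : Gain T S G) : 1 ≤ G := by
  have := h ∅ (by simp)
  rwa [Finset.image_empty, fin1_Pt_empty, fin1_Dl_empty, mul_one] at this

lemma three_point {T : ℝ → ℝ} {S : Set ℝ} {G : ℝ} (hinj : InjOn T S) (hG : Gain T S G)
    {a y a' : ℝ} (ha : a ∈ S) (hy : y ∈ S) (ha' : a' ∈ S) (h1 : a ≤ y) (h2 : y ≤ a') :
    |T y - T a| ≤ G * |T a' - T a| ∧ |T a' - T y| ≤ G * |T a' - T a| := by
  have hG1 := hG.one_le
  have hG0 : 0 ≤ G := zero_le_one.trans hG1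
  have triv : |T a' - T a| ≤ G * |T a' - T a| := le_mul_of_one_le_left (abs_nonneg _) hG1
  rcases h1.eq_or_lt with rfl | h1
  · refine ⟨?_, triv⟩
    rw [sub_self, abs_zero]
    positivity
  rcases h2.eq_or_lt with rfl | h2
  · refine ⟨triv, ?_⟩
    rw [sub_self, abs_zero]
    positivity
  have haa : a < a' := h1.trans h2
  have hmax : ∀ z ∈ ({a} : Finset ℝ), z ≤ a := fun z hz => (Finset.mem_singleton.1 hz).le
  set A : Finset ℝ := insert a' {a} with hA
  have haA : a ∈ A := Finset.mem_insert_of_mem (Finset.mem_singleton_self a)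
  have haA' : a' ∈ A := Finset.mem_insert_self _ _
  have hAS : (A : Set ℝ) ⊆ S := by
    intro z hz
    rcases Finset.mem_insert.1 (Finset.mem_coe.1 hz) with rfl | hz
    · exact ha'
    · rw [Finset.mem_singleton.1 hz]; exact ha
  have hyS : ((insert y A : Finset ℝ) : Set ℝ) ⊆ S := by
    intro z hz
    rcases Finset.mem_insert.1 (Finset.mem_coe.1 hz) with rfl | hz
    · exact hy
    · exact hAS (Finset.mem_coe.2 hz)
  have hg : (a, a') ∈ gaps A := by
    rw [hA, (gaps_insert_max (Finset.mem_singleton_self a) hmax haa).2]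
    exact Finset.mem_insert_self _ _
  have hP : Pt T A = |T a' - T a| := by
    rw [hA, fin1_Pt_max T (Finset.mem_singleton_self a) hmax haa, fin1_Pt_singleton, mul_one]
  have n1 : 0 < |T y - T a| := abs_pos.2 (sub_ne_zero.2 fun e => h1.ne' (hinj hy ha e))
  have n2 : 0 < |T a' - T y| := abs_pos.2 (sub_ne_zero.2 fun e => h2.ne' (hinj ha' hy e))
  have n3 : 0 < |T a' - T a| := abs_pos.2 (sub_ne_zero.2 fun e => haa.ne' (hinj ha' ha e))
  obtain ⟨Q, -, e1, e2⟩ := fin1_Pt_mid T hg h1 h2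
  simp only at e1 e2
  have hQ : Q = 1 := by
    rw [hP] at e1
    exact (mul_eq_left₀ n3.ne').1 e1.symm
  have hTy : T y ∉ A.image T := by
    intro hc
    obtain ⟨z, hz, e⟩ := Finset.mem_image.1 hc
    have hzy := hinj (hAS (Finset.mem_coe.2 hz)) hy e
    exact (fin1_mem.1 hg).2.2.2 z hz (by rw [hzy]; exact ⟨h1, h2⟩)
  have hD : Dl (A.image T) ≤ |T a' - T a| := hP ▸ Dl_image_le (hinj.mono hAS)
  have main := hG _ hyS
  rw [e2, hQ, mul_one, Finset.image_insert, fin1_Dl_insert] at main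
  have r1 := rho_le hTy (Finset.mem_image_of_mem T haA)
  have r2 := rho_le hTy (Finset.mem_image_of_mem T haA')
  rw [abs_sub_comm] at r2
  have m1 := mul_le_mul_of_nonneg_left (mul_le_mul r1 hD (Dl_pos _).le n1.le) hG0
  have m2 := mul_le_mul_of_nonneg_left (mul_le_mul r2 hD (Dl_pos _).le n2.le) hG0
  constructor
  · refine le_of_mul_le_mul_right ?_ n2
    linarith
  · refine le_of_mul_le_mul_left ?_ n1
    linarith

end Pool.Agent.MP_8df504_an.C
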