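import Pool.Agent.MP_8df504_an.C.Basic1
import Pool.Agent.MP_8df504_an.C.Fin1

set_option autoImplicit false

namespace Pool.Agent.MP_8df504_an.C

open Set Filter Topology MeasureTheory

/-! Basic facts on `Pre`.

Hints.  `mapsK`, `surjK`: density of the tails, continuity, compactness.
`gap_aff`: `B ⊆ K`, so a gap of `K` is break-free.  `mapsI`: a point of `[lo,hi]` outside `K` is in
a gap (`exists_gap_around`) on which `T` is affine.
`noconv`: if `x (k + j d) → y` then `x (k + i + j d) → T^[i] y`; every `x n` is in the closure of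
every tail, and the intersection of these closures is inside the finite set `{T^[i] y | i < d}`
(a point at positive distance from that finite set is eventually avoided by the sequence, and `x`
is injective); so `range x` is finite, contradiction.
`nowhere`: if `[u,v] ⊆ K`, let `J` be the connected component of `u` in `K` (or the interval
between the inf and sup of the points joined to `u` inside `K`).  Two orbit points
`x k`, `x (k+d)` lie in `(u,v)`; `T^[d] '' J` is a connected subset of `K` meeting `J`, so inside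
`J`; `T^[d]` is continuous and injective on the interval `J`, hence strictly monotone or antitone
(`ContinuousOn.strictMonoOn_of_injOn_Icc'`), `T^[2d]` is increasing, so `j ↦ x (k + j (2d))` is
monotone and bounded, contradiction with `noconv`.
`sum_len_le`: disjoint open intervals in `[lo,hi]` (Lebesgue measure, or induction on the max).
`gap_infinite`: if there are finitely many gaps, `perfect` and `exists_gap_between` give ever
shorter gaps. -/

namespace Pre

variable (P : Pre)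

lemma one_le_G : 1 ≤ P.G := P.gain.one_le

lemma closedK : IsClosed P.K := P.cpt.isClosed

lemma gap_noB {g : ℝ × ℝ} (hg : g ∈ Gap P.K) : NoB P.B g.1 g.2 := by
  exact fun b hb => hg.2.2.2 b (P.B_sub b hb)

lemma gap_sub {g : ℝ × ℝ} (hg : g ∈ Gap P.K) : P.lo ≤ g.1 ∧ g.2 ≤ P.hi := by
  exact ⟨(P.sub hg.1).1, (P.sub hg.2.1).2⟩

/-- on a gap, `T y` is between the images of the end points -/
lemma gap_between {g : ℝ × ℝ} (hg : g ∈ Gap P.K) {y : ℝ} (hy : y ∈ cl g) :
    P.T y ∈ uIcc (P.T g.1) (P.T g.2) := by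
  obtain ⟨σ, -, h⟩ := P.aff g.1 g.2 (P.gap_sub hg).1 hg.2.2.1 (P.gap_sub hg).2 (P.gap_noB hg)
  have h1 := h y hy
  have h2 := h g.2 ⟨hg.2.2.1.le, le_rfl⟩
  have a1 : 0 ≤ y - g.1 := sub_nonneg.2 hy.1
  have a2 : 0 ≤ g.2 - y := sub_nonneg.2 hy.2
  rw [mem_uIcc]
  rcases le_total 0 σ with c | c
  · left
    constructor <;> nlinarith [mul_nonneg c a1, mul_nonneg c a2]
  · right
    have c' : 0 ≤ -σ := neg_nonneg.2 c
    constructor <;> nlinarith [mul_nonneg c' a1, mul_nonneg c' a2]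

lemma mapsI : MapsTo P.T (Icc P.lo P.hi) (Icc P.lo P.hi) := by
  intro y hy
  by_cases hK : y ∈ P.K
  · exact P.sub (P.mapsK hK)
  · obtain ⟨g, hg, -, h1, h2, -⟩ := exists_gap_around P.cpt P.lo_mem P.hi_mem hy.1 hy.2 hK
    exact uIcc_subset_Icc (P.sub (P.mapsK hg.1)) (P.sub (P.mapsK hg.2.1))
      (P.gap_between hg ⟨h1.le, h2.le⟩)

lemma exists_gap_between {a a' : ℝ} (ha : a ∈ P.K) (ha' : a' ∈ P.K) (h : a < a') :
    ∃ g ∈ Gap P.K, a ≤ g.1 ∧ g.2 ≤ a' := by
  obtain ⟨y, h1, h2, hy⟩ := P.nowhere h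
  obtain ⟨g, hg, b1, -, -, b2⟩ := exists_gap_around P.cpt ha ha' h1.le h2.le hy
  exact ⟨g, hg, b1, b2⟩

/-- the left end of a gap is accumulated from the left -/
lemma acc_left {g : ℝ × ℝ} (hg : g ∈ Gap P.K) {ε : ℝ} (hε : 0 < ε) (N : ℕ) :
    ∃ n, N ≤ n ∧ g.1 - ε < P.x n ∧ P.x n < g.1 := by
  obtain ⟨n, hn, hne, hd⟩ := P.visit hg.1 (lt_min hε (Gap.len_pos hg)) N
  rw [lt_min_iff, abs_lt, abs_lt] at hd
  refine ⟨n, hn, by linarith [hd.1.1], ?_⟩
  rcases Gap.le_or_ge hg (P.x_mem n) with c | c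
  · exact lt_of_le_of_ne c hne
  · have := hd.2.2
    unfold len at this
    linarith

lemma acc_right {g : ℝ × ℝ} (hg : g ∈ Gap P.K) {ε : ℝ} (hε : 0 < ε) (N : ℕ) :
    ∃ n, N ≤ n ∧ g.2 < P.x n ∧ P.x n < g.2 + ε := by
  obtain ⟨n, hn, hne, hd⟩ := P.visit hg.2.1 (lt_min hε (Gap.len_pos hg)) N
  rw [lt_min_iff, abs_lt, abs_lt] at hd
  refine ⟨n, hn, ?_, by linarith [hd.1.2]⟩
  rcases Gap.le_or_ge hg (P.x_mem n) with c | c
  · have := hd.2.1
    unfold len at this
    linarith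
  · exact lt_of_le_of_ne c hne.symm

lemma sum_len_le (F : Finset (ℝ × ℝ)) (hF : ∀ g ∈ F, g ∈ Gap P.K) :
    ∑ g ∈ F, len g ≤ P.hi - P.lo := by
  classical
  have key : ∀ F : Finset (ℝ × ℝ), ∀ b : ℝ, P.lo ≤ b → (∀ g ∈ F, g ∈ Gap P.K ∧ g.2 ≤ b) →
      ∑ g ∈ F, len g ≤ b - P.lo := by
    intro F
    refine Finset.induction_on_max_value (Prod.fst : ℝ × ℝ → ℝ) F ?_ ?_
    · intro b hb _
      simpa using hb
    · intro a s ha hm ih b _ h
      have hA := h a (Finset.mem_insert_self _ _)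
      rw [Finset.sum_insert ha]
      have := ih a.1 (P.gap_sub hA.1).1 fun g hg => by
        have hG := (h g (Finset.mem_insert_of_mem hg)).1
        refine ⟨hG, ?_⟩
        rcases Gap.sep hG hA.1 (fun e => ha (e ▸ hg)) with c | c
        · exact c
        · exact absurd ((c.trans (hm g hg)).trans_lt hA.1.2.2.1) (lt_irrefl _)
      have e : len a = a.2 - a.1 := rfl
      linarith [hA.2]
  exact key F P.hi P.lo_lt_hi.le fun g hg => ⟨hF g hg, (P.gap_sub (hF g hg)).2⟩

lemma finite_big {δ : ℝ} (hδ : 0 < δ) : {g | g ∈ Gap P.K ∧ δ ≤ len g}.Finite := by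
  by_contra hinf
  obtain ⟨n, hn⟩ := exists_nat_gt ((P.hi - P.lo) / δ)
  obtain ⟨F, hF, hc⟩ := Set.Infinite.exists_subset_card_eq hinf n
  have h1 := P.sum_len_le F fun g hg => (hF hg).1
  have h2 : F.card • δ ≤ ∑ g ∈ F, len g := Finset.card_nsmul_le_sum F len δ fun g hg => (hF hg).2
  rw [hc, nsmul_eq_mul] at h2
  rw [div_lt_iff₀ hδ] at hn
  linarith

lemma gap_infinite : (Gap P.K).Infinite := by
  intro hfin
  obtain ⟨g0, hg0, -⟩ := P.exists_gap_between P.lo_mem P.hi_mem P.lo_lt_hi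
  obtain ⟨g, hg, hmin⟩ := Set.exists_min_image _ len hfin ⟨g0, hg0⟩
  obtain ⟨n, -, hne, hd⟩ := P.visit P.lo_mem (Gap.len_pos hg) 0
  have h1 : P.lo < P.x n := lt_of_le_of_ne (P.sub (P.x_mem n)).1 hne.symm
  obtain ⟨g', hg', b1, b2⟩ := P.exists_gap_between P.lo_mem (P.x_mem n) h1
  have := hmin g' hg'
  have e : len g' = g'.2 - g'.1 := rfl
  rw [abs_lt] at hd
  linarith [hd.2]

end Pre

end Pool.Agent.MP_8df504_an.C
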