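import Pool.Agent.MP_8df504_an.C.Fin1

set_option autoImplicit false

namespace Pool.Agent.MP_8df504_an.C

open Set Filter Topology MeasureTheory

/-! Basic facts on `Pre`.

Hints.  `mapsK`, `surjK`: density of the tails, continuity, compactness.
`gap_aff`: `B ⊆ K`, so a gap of `K` is break-free.  `mapsI`: a point of `[lo,hi]` outside `K` is in
a gap (`exists_gap_around`) on which `T` is affine.
`noconv`: if `x (k + j d) → y` then `x (k + i + j d) → T^[i] y`; every `x n` is in the closure of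
every tail, and the intersection of these closures is inside the finite set `{T^[i] y | i < d}`
(a point at positive distance from that finite set is eventually avoided by the sequence, and `x`
is injective); so `range x` is finite, contradiction.
`nowhere`: if `[u,v] ⊆ K`, let `J` be the connected component of `u` in `K` (or the interval
between the inf and sup of the points joined to `u` inside `K`).  Two orbit points
`x k`, `x (k+d)` lie in `(u,v)`; `T^[d] '' J` is a connected subset of `K` meeting `J`, so inside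
`J`; `T^[d]` is continuous and injective on the interval `J`, hence strictly monotone or antitone
(`ContinuousOn.strictMonoOn_of_injOn_Icc'`), `T^[2d]` is increasing, so `j ↦ x (k + j (2d))` is
monotone and bounded, contradiction with `noconv`.
`sum_len_le`: disjoint open intervals in `[lo,hi]` (Lebesgue measure, or induction on the max).
`gap_infinite`: if there are finitely many gaps, `perfect` and `exists_gap_between` give ever
shorter gaps. -/

namespace Pre

variable (P : Pre)

lemma x_iter (k n : ℕ) : P.T^[n] (P.x k) = P.x (k + n) := by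
  induction n with
  | zero => rfl
  | succ n ih => rw [Function.iterate_succ_apply', ih, ← P.x_succ, add_assoc]

lemma mapsK : MapsTo P.T P.K P.K := by
  intro z hz
  have h1 := image_closure_subset_closure_image P.cont (mem_image_of_mem P.T (P.dense 0 hz))
  refine closure_minimal ?_ P.cpt.isClosed h1
  rintro _ ⟨_, ⟨n, -, rfl⟩, rfl⟩
  rw [← P.x_succ]
  exact P.x_mem _

lemma surjK : SurjOn P.T P.K P.K := by
  intro z hz
  refine closure_minimal ?_ (P.cpt.image P.cont).isClosed (P.dense 1 hz)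
  rintro _ ⟨n, hn, rfl⟩
  obtain ⟨m, rfl⟩ := Nat.exists_eq_add_of_le' (mem_Ici.1 hn)
  exact ⟨P.x m, P.x_mem m, (P.x_succ m).symm⟩

lemma iter_inj (n : ℕ) : InjOn P.T^[n] P.K := by
  induction n with
  | zero => exact injOn_id _
  | succ n ih =>
    rw [Function.iterate_succ]
    exact ih.comp P.inj P.mapsK

lemma lo_lt_hi : P.lo < P.hi := by
  by_contra h
  have h0 := P.sub (P.x_mem 0)
  have h1 := P.sub (P.x_mem 1)
  have h2 : P.x 0 = P.x 1 := by linarith [h0.1, h0.2, h1.1, h1.2, not_lt.1 h]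
  exact zero_ne_one (P.x_inj h2)

lemma noconv (k d : ℕ) (hd : 1 ≤ d) (y : ℝ) :
    ¬ Tendsto (fun j : ℕ => P.x (k + j * d)) atTop (𝓝 y) := by
  intro h
  have h1 : ∀ i, Tendsto (fun j : ℕ => P.x (k + j * d + i)) atTop (𝓝 (P.T^[i] y)) := fun i => by
    simpa only [Function.comp_def, P.x_iter] using ((P.cont.iterate i).tendsto y).comp h
  refine (infinite_range_of_injective P.x_inj)
    (((finite_lt_nat d).image fun i => P.T^[i] y).subset ?_)
  rintro z ⟨n, rfl⟩
  by_contra hz
  have h2 : ∀ i, i < d → ∃ U ∈ 𝓝 (P.x n), ∀ᶠ j in atTop, P.x (k + j * d + i) ∉ U := by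
    intro i hi
    obtain ⟨U, hU, V, hV, hUV⟩ := Filter.disjoint_iff.1
      (disjoint_nhds_nhds.2 fun e : P.x n = P.T^[i] y => hz ⟨i, hi, e.symm⟩)
    exact ⟨U, hU, ((h1 i).eventually_mem hV).mono fun j hj hj' => Set.disjoint_left.1 hUV hj' hj⟩
  choose! U hU hV using h2
  obtain ⟨J, hJ⟩ := eventually_atTop.1 ((eventually_all_finite (finite_lt_nat d)).2 hV)
  obtain ⟨_, h3, m, hm, rfl⟩ := mem_closure_iff_nhds.1 (P.dense (k + J * d) (P.x_mem n)) _
    ((biInter_mem (finite_lt_nat d)).2 hU)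
  obtain ⟨l, rfl⟩ := Nat.exists_eq_add_of_le (mem_Ici.1 hm)
  have h4 : l % d < d := Nat.mod_lt _ hd
  refine hJ (J + l / d) (Nat.le_add_right _ _) (l % d) h4 ?_
  have h5 : k + (J + l / d) * d + l % d = k + J * d + l := by
    rw [add_mul, ← add_assoc, add_assoc (k + J * d), Nat.div_add_mod']
  rw [h5]
  exact mem_iInter₂.1 h3 _ h4

/-- orbit points of arbitrarily large index, different from `z`, near any `z ∈ K` -/
lemma visit {z : ℝ} (hz : z ∈ P.K) {ε : ℝ} (hε : 0 < ε) (N : ℕ) :
    ∃ n, N ≤ n ∧ P.x n ≠ z ∧ |P.x n - z| < ε := by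
  obtain ⟨M, hM⟩ : ∃ M, ∀ n, M ≤ n → P.x n ≠ z := by
    by_cases h : ∃ m, P.x m = z
    · obtain ⟨m, rfl⟩ := h
      exact ⟨m + 1, fun n hn e => by have := P.x_inj e; omega⟩
    · exact ⟨0, fun n _ e => h ⟨n, e⟩⟩
  obtain ⟨_, ⟨n, hn, rfl⟩, h⟩ := Metric.mem_closure_iff.1 (P.dense (max N M) hz) ε hε
  rw [dist_comm, Real.dist_eq] at h
  exact ⟨n, (le_max_left _ _).trans hn, hM n ((le_max_right _ _).trans hn), h⟩

lemma basic1_mono {J : Set ℝ} (hJ : J ⊆ P.K) {k d : ℕ} (hd : 1 ≤ d) (hk : P.x k ∈ J)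
    (hm : MapsTo P.T^[d] J J) (hmono : MonotoneOn P.T^[d] J) : False := by
  have h1 : ∀ j, P.x (k + (j + 1) * d) = P.T^[d] (P.x (k + j * d)) := fun j => by
    rw [P.x_iter, add_mul, one_mul, add_assoc]
  have h2 : ∀ j, P.x (k + j * d) ∈ J := fun j => by
    induction j with
    | zero => simpa using hk
    | succ j ih => rw [h1]; exact hm ih
  rcases le_total (P.x (k + 0 * d)) (P.x (k + (0 + 1) * d)) with h | h
  · have h3 : ∀ j, P.x (k + j * d) ≤ P.x (k + (j + 1) * d) := fun j => by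
      induction j with
      | zero => exact h
      | succ j ih => rw [h1 (j + 1), h1 j]; exact hmono (h2 _) (h1 j ▸ h2 _) (h1 j ▸ ih)
    refine P.noconv k d hd _ (tendsto_atTop_ciSup (monotone_nat_of_le_succ h3) ⟨P.hi, ?_⟩)
    rintro _ ⟨j, rfl⟩
    exact (P.sub (hJ (h2 j))).2
  · have h3 : ∀ j, P.x (k + (j + 1) * d) ≤ P.x (k + j * d) := fun j => by
      induction j with
      | zero => exact h
      | succ j ih => rw [h1 (j + 1), h1 j]; exact hmono (h1 j ▸ h2 _) (h2 _) (h1 j ▸ ih)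
    refine P.noconv k d hd _ (tendsto_atTop_ciInf (antitone_nat_of_succ_le h3) ⟨P.lo, ?_⟩)
    rintro _ ⟨j, rfl⟩
    exact (P.sub (hJ (h2 j))).1

lemma nowhere {u v : ℝ} (h : u < v) : ∃ y, u < y ∧ y < v ∧ y ∉ P.K := by
  by_contra hc
  have h1 : Ioo u v ⊆ P.K := fun y hy => by_contra fun e => hc ⟨y, hy.1, hy.2, e⟩
  have hw : (u + v) / 2 ∈ Ioo u v := ⟨by linarith, by linarith⟩
  have h2 : ∀ N, ∃ n, N ≤ n ∧ P.x n ∈ Ioo u v := fun N => by
    obtain ⟨n, h3, -, h4⟩ := P.visit (h1 hw) (ε := (v - u) / 2) (by linarith) N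
    rw [abs_lt] at h4
    exact ⟨n, h3, by linarith [h4.1], by linarith [h4.2]⟩
  obtain ⟨k, -, hk⟩ := h2 0
  obtain ⟨k', hkk, hk'⟩ := h2 (k + 1)
  obtain ⟨d, rfl⟩ := Nat.exists_eq_add_of_le (Nat.le_of_succ_le hkk)
  set J := connectedComponentIn P.K (P.x k) with hJ
  have hJK : J ⊆ P.K := connectedComponentIn_subset _ _
  have hxJ : P.x k ∈ J := mem_connectedComponentIn (P.x_mem k)
  have hpre : IsPreconnected J := isPreconnected_connectedComponentIn
  have h3 : P.x (k + d) ∈ J := isPreconnected_Ioo.subset_connectedComponentIn hk h1 hk'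
  have h4 : MapsTo P.T^[d] J J := by
    rw [mapsTo_iff_image_subset]
    refine ((hpre.image _ (P.cont.iterate d).continuousOn).subset_connectedComponentIn
      (x := P.x (k + d)) ⟨_, hxJ, P.x_iter k d⟩ ?_).trans (connectedComponentIn_eq h3).ge
    exact ((P.mapsK.iterate d).mono_left hJK).image_subset
  have h5 : IsClosed J := closure_subset_iff_isClosed.1
    (hpre.closure.subset_connectedComponentIn (subset_closure hxJ)
      (closure_minimal hJK P.cpt.isClosed))
  have h6 := eq_Icc_of_connected_compact ⟨⟨_, hxJ⟩, hpre⟩ (P.cpt.of_isClosed_subset h5 hJK)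
  have h7 : StrictMonoOn P.T^[d] J ∨ StrictAntiOn P.T^[d] J := by
    have h8 := (P.iter_inj d).mono hJK
    rw [h6] at h8 hxJ ⊢
    exact ContinuousOn.strictMonoOn_of_injOn_Icc' (hxJ.1.trans hxJ.2)
      (P.cont.iterate d).continuousOn h8
  rcases h7 with h7 | h7
  · exact P.basic1_mono hJK (by omega) hxJ h4 h7.monotoneOn
  · refine P.basic1_mono (d := d + d) hJK (by omega) hxJ ?_ ?_
    · rw [Function.iterate_add]
      exact h4.comp h4
    · rw [Function.iterate_add]
      exact fun a ha b hb hab => h7.antitoneOn (h4 hb) (h4 ha) (h7.antitoneOn ha hb hab)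

/-- the inverse of `T` on `K` is uniformly continuous -/
lemma inv_cont {ε : ℝ} (hε : 0 < ε) :
    ∃ η > 0, ∀ z ∈ P.K, ∀ w ∈ P.K, |P.T z - P.T w| ≤ η → |z - w| < ε := by
  have hT := P.cont
  have h1 : IsCompact ((P.K ×ˢ P.K) ∩ {p : ℝ × ℝ | ε ≤ |p.1 - p.2|}) :=
    (P.cpt.prod P.cpt).inter_right (isClosed_le continuous_const (by fun_prop))
  obtain ⟨η, h2, h3⟩ := h1.exists_forall_le' (f := fun p => |P.T p.1 - P.T p.2|) (a := 0)
    (by fun_prop) fun p hp => abs_pos.2 fun e => by
      have h4 : ε ≤ |p.1 - p.2| := hp.2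
      rw [P.inj hp.1.1 hp.1.2 (sub_eq_zero.1 e), sub_self, abs_zero] at h4
      linarith
  refine ⟨η / 2, by linarith, fun z hz w hw h => by_contra fun e => ?_⟩
  have := h3 (z, w) ⟨⟨hz, hw⟩, not_lt.1 e⟩
  linarith

end Pre

end Pool.Agent.MP_8df504_an.C
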