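import Pool.Agent.MP_8df504_an.C.Base

set_option autoImplicit false

namespace Pool.Agent.MP_8df504_an.C

open Set Filter Topology MeasureTheory

/-! Coboundaries and Fatou; measurability of `Dl` along orbits.

`cob_lintegral`: truncate `u` to `uN = max (-N) (min u N)`; `uN - uN ∘ T` has the sign of
`u - u ∘ T` and is smaller in absolute value, so `|f| + uN - uN ∘ T ≥ 0` a.e. and its integral is
`∫ |f|`.  Fatou (`lintegral_liminf_le'`) gives that `|f| + u - u ∘ T ≥ 0` is integrable with integral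
`≤ ∫ |f|`; subtract `|f| - f`.
`cob_frequently`: Fatou over `n`: the lintegral of the liminf is `≤ ofReal C < ∞`, so the liminf is
finite a.e. (`ae_lt_top'`), hence some `W` is frequently an upper bound.
`exists_meas_Dl`: take
`D n x = ∏ i<n, ∏ j<n, if T^[i] x < T^[j] x ∧ ∀ l<n, ¬ (T^[i] x < T^[l] x ∧ T^[l] x < T^[j] x)
then T^[j] x - T^[i] x else 1` (`Finset.prod_product'`, `Finset.prod_filter`, `Finset.prod_nbij`). -/

private lemma cb_tr {a b c N : ℝ} (h : 0 ≤ c + a - b) :
    0 ≤ |c| + (max (-N) (min a N) - max (-N) (min b N)) := by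
  have h1 := le_abs_self c
  have h2 := abs_nonneg c
  simp only [max_def, min_def]
  split_ifs <;> linarith

private lemma cb_ev (a : ℝ) : ∀ᶠ N : ℕ in atTop, max (-(N : ℝ)) (min a N) = a := by
  filter_upwards [tendsto_natCast_atTop_atTop.eventually_ge_atTop |a|] with N hN
  rw [min_eq_left (abs_le.1 hN).2, max_eq_right (abs_le.1 hN).1]

lemma cob_lintegral {X : Type} [MeasurableSpace X] (ν : Measure X) [IsFiniteMeasure ν]
    {T : X → X} (hT : MeasurePreserving T ν ν) {u f : X → ℝ} (hu : Measurable u)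
    (hf : Integrable f ν) (h : ∀ᵐ x ∂ν, 0 ≤ f x + u x - u (T x)) :
    ∫⁻ x, ENNReal.ofReal (f x + u x - u (T x)) ∂ν ≤ ENNReal.ofReal (∫ x, f x ∂ν) := by
  have h1 : ∀ N : ℕ, Integrable (fun x => max (-(N : ℝ)) (min (u x) N)) ν := fun N =>
    Integrable.of_bound (by fun_prop) N (Eventually.of_forall fun x => abs_le.2
      ⟨le_max_left _ _, max_le (neg_le_self N.cast_nonneg) (min_le_right _ _)⟩)
  have h2 : ∀ N : ℕ, Integrable (fun x => max (-(N : ℝ)) (min (u (T x)) N)) ν := fun N =>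
    hT.integrable_comp_of_integrable (h1 N)
  have h3 : ∀ N : ℕ, ∫⁻ x, ENNReal.ofReal (|f x| + (max (-(N : ℝ)) (min (u x) N) -
      max (-(N : ℝ)) (min (u (T x)) N))) ∂ν = ENNReal.ofReal (∫ x, |f x| ∂ν) := fun N => by
    have e : ∫ x, max (-(N : ℝ)) (min (u (T x)) N) ∂ν = ∫ x, max (-(N : ℝ)) (min (u x) N) ∂ν := by
      conv_rhs => rw [← hT.map_eq]
      rw [integral_map hT.aemeasurable (by fun_prop)]
    rw [← ofReal_integral_eq_lintegral_ofReal (hf.abs.fun_add ((h1 N).sub' (h2 N)))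
      (h.mono fun x hx => cb_tr hx), integral_add hf.abs ((h1 N).sub' (h2 N)),
      integral_sub (h1 N) (h2 N), e, sub_self, add_zero]
  have h4 := lintegral_liminf_le' (μ := ν) (u := atTop) fun N : ℕ =>
    (hf.abs.add ((h1 N).sub (h2 N))).aemeasurable.ennreal_ofReal
  simp only [Pi.add_apply, Pi.sub_apply, h3, liminf_const] at h4
  have h5 : ∀ x, 0 ≤ |f x| - f x := fun x => sub_nonneg.2 (le_abs_self _)
  have h6 : ∫⁻ x, ENNReal.ofReal (f x + u x - u (T x)) ∂ν +
      ENNReal.ofReal (∫ x, |f x| - f x ∂ν) ≤ ENNReal.ofReal (∫ x, |f x| ∂ν) := by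
    rw [ofReal_integral_eq_lintegral_ofReal (hf.abs.sub' hf) (Eventually.of_forall h5),
      ← lintegral_add_right' _ (hf.abs.sub' hf).aemeasurable.ennreal_ofReal]
    refine le_of_eq_of_le (lintegral_congr_ae (h.mono fun x hx => ?_)) h4
    refine (Tendsto.liminf_eq (tendsto_const_nhds.congr' ?_)).symm
    filter_upwards [cb_ev (u x), cb_ev (u (T x))] with N a b
    rw [a, b, ← ENNReal.ofReal_add hx (h5 x)]
    congr 1
    ring
  refine (ENNReal.le_sub_of_add_le_right ENNReal.ofReal_ne_top h6).trans_eq ?_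
  rw [← ENNReal.ofReal_sub _ (integral_nonneg h5), integral_sub hf.abs hf, sub_sub_cancel]

lemma cob_frequently {X : Type} [MeasurableSpace X] (ν : Measure X) [IsFiniteMeasure ν]
    {T : X → X} (hT : MeasurePreserving T ν ν) {u f : ℕ → X → ℝ} (hu : ∀ n, Measurable (u n))
    (hf : ∀ n, Integrable (f n) ν) {C : ℝ} (hC : ∀ n, ∫ x, f n x ∂ν ≤ C)
    (h : ∀ n, ∀ᵐ x ∂ν, 0 ≤ f n x + u n x - u n (T x)) :
    ∀ᵐ x ∂ν, ∃ W : ℝ, ∃ᶠ n in atTop, f n x + u n x - u n (T x) ≤ W := by
  have h1 : ∀ n, AEMeasurable (fun x => ENNReal.ofReal (f n x + u n x - u n (T x))) ν := fun n =>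
    (((hf n).aemeasurable.add (hu n).aemeasurable).sub
      ((hu n).comp hT.measurable).aemeasurable).ennreal_ofReal
  have h2 := (lintegral_liminf_le' (μ := ν) (u := atTop) h1).trans (liminf_le_of_frequently_le'
    (Frequently.of_forall fun n => (cob_lintegral ν hT (hu n) (hf n) (h n)).trans
      (ENNReal.ofReal_le_ofReal (hC n))))
  have h3 : AEMeasurable (fun x => liminf
      (fun n => ENNReal.ofReal (f n x + u n x - u n (T x))) atTop) ν :=
    ⟨_, Measurable.liminf fun n => (h1 n).measurable_mk,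
      (ae_all_iff.2 fun n => (h1 n).ae_eq_mk).mono fun x hx => congrArg (liminf · atTop) (funext hx)⟩
  filter_upwards [ae_lt_top' h3 (h2.trans_lt ENNReal.ofReal_lt_top).ne]
    with x hx
  obtain ⟨W, h3, -⟩ := ENNReal.lt_iff_exists_nnreal_btwn.1 hx
  refine ⟨W, (frequently_lt_of_liminf_lt (h := h3)).mono fun n hn => ?_⟩
  exact (ENNReal.ofReal_le_iff_le_toReal ENNReal.coe_ne_top).1 hn.le

end Pool.Agent.MP_8df504_an.C
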