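import Pool.Agent.MP_8df504_an.C.Basic

set_option autoImplicit false

namespace Pool.Agent.MP_8df504_an.C

open Set Filter Topology MeasureTheory

/-! Basic facts on `Sys`.

Hints.  On a gap `g`, `T y = T g.1 + sl g.1 * (y - g.1)` (`sl_aff`, `gap_noB`, `gap_sub`).
`slopeAt_gap`: if `y < g.2` use `sl_eq` on `g`; if `y = g.2 ∉ B` then `NoB B g.1 v`.
`pull_cl`, `pull_op`: solve the affine equation.
`tail_prod`: let `Γ` be the supremum of the finite products (bounded by `G`), choose `F` with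
product `> Γ/(1+δ)`.  `finite_big_r`: `(1+ε)^n ≤ G`.
`expand_K`: for `a < a'` in `K`, show by induction on the number `k` of points of `B` strictly
between `p < q` (`p, q ∈ K ∩ [a,a']`) that `m (q - p) ≤ (k+1) * 2 G |T a' - T a|`, using
`three_point` (`|T q - T p| ≤ |T q - T a| + |T p - T a|`) and `B ⊆ K`.
`distortion`: induct on `r` keeping track of the number of `i < r` with `T^[i] '' Z ∩ B` nonempty,
which is at most `B.card` by disjointness; the segment between `T^[i] y` and `T^[i] w` lies in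
`T^[i] '' Z` (intermediate value theorem); if it contains no point of `B` the slope on it is
`sl (T^[i] y)` (use `sl_aff`, `sl_eq`; when `T^[i] y` is the right end of the segment, it is not in
`B`, so it is `< hi` and the segment extends a little to the right without meeting `B`). -/

namespace Sys

variable (S : Sys)

lemma m_le_M : S.L.m ≤ S.L.M := (S.L.sl_lo 0).trans (S.L.sl_hi 0)

lemma pi_mem {g : ℝ × ℝ} (hg : g ∈ Gap S.P.K) : S.pi g ∈ Gap S.P.K := S.ok.bij.mapsTo hg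

lemma pi_iter_mem {g : ℝ × ℝ} (hg : g ∈ Gap S.P.K) (k : ℕ) : S.pi^[k] g ∈ Gap S.P.K :=
  S.ok.bij.mapsTo.iterate k hg

lemma pi_iter_inj (k : ℕ) : InjOn S.pi^[k] (Gap S.P.K) := by
  exact (S.ok.bij.iterate k).injOn

lemma gap_aff {g : ℝ × ℝ} (hg : g ∈ Gap S.P.K) {y : ℝ} (hy : y ∈ cl g) :
    S.P.T y = S.P.T g.1 + S.L.sl g.1 * (y - g.1) := by
  exact S.L.sl_aff g.1 g.2 (S.P.gap_sub hg).1 hg.2.2.1 (S.P.gap_sub hg).2 (S.P.gap_noB hg) y hy

lemma img_gap {g : ℝ × ℝ} (hg : g ∈ Gap S.P.K) : img S.P.T g = |S.L.sl g.1| * len g := by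
  have h := S.gap_aff hg (y := g.2) ⟨hg.2.2.1.le, le_rfl⟩
  have hl : 0 < g.2 - g.1 := sub_pos.2 hg.2.2.1
  unfold img len
  rw [h, add_sub_cancel_left, abs_mul, abs_of_pos hl]

lemma slopeAt_self {y : ℝ} (hy : S.P.lo ≤ y) : SlopeAt S.P.T S.P.hi S.P.B y |S.L.sl y| := by
  intro _ v hv hvh hB
  have h := S.L.sl_aff y v hy hv hvh hB v ⟨hv.le, le_rfl⟩
  rw [h, add_sub_cancel_left, abs_mul, abs_of_pos (sub_pos.2 hv)]

lemma slopeAt_gap {g : ℝ × ℝ} (hg : g ∈ Gap S.P.K) {y : ℝ} (hy : y ∈ cl g) :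
    SlopeAt S.P.T S.P.hi S.P.B y |S.L.sl g.1| := by
  intro hyB v hv hvh hB
  have hlo := (S.P.gap_sub hg).1
  have hN : NoB S.P.B g.1 v := by
    intro b hb hc
    rcases lt_trichotomy b y with c | c | c
    · exact S.P.gap_noB hg b hb ⟨hc.1, c.trans_le hy.2⟩
    · exact hyB (c ▸ hb)
    · exact hB b hb ⟨c, hc.2⟩
  have e : S.L.sl y = S.L.sl g.1 := S.L.sl_eq g.1 v hlo (hy.1.trans_lt hv) hvh hN y hy.1 hv
  rw [← e]
  exact S.slopeAt_self (hlo.trans hy.1) hyB v hv hvh hB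

lemma one_le_r {g : ℝ × ℝ} (hg : g ∈ Gap S.P.K) : 1 ≤ S.r g := by
  unfold Sys.r
  rw [le_div_iff₀ (Gap.len_pos (S.pi_mem hg)), one_mul]
  exact (S.ok.cov g hg).len_le

lemma r_le_G {g : ℝ × ℝ} (hg : g ∈ Gap S.P.K) : S.r g ≤ S.P.G := by
  have h := S.ok.prod {g} (by simpa using hg)
  rw [Finset.prod_singleton] at h
  exact h

lemma prod_r_le (F : Finset (ℝ × ℝ)) (hF : ∀ g ∈ F, g ∈ Gap S.P.K) :
    ∏ g ∈ F, S.r g ≤ S.P.G := S.ok.prod F hF

/-- a gap that is not long is mapped exactly onto its partner -/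
lemma exact_ends {g : ℝ × ℝ} (hg : g ∈ Gap S.P.K) (h : ¬ S.Long g) :
    (S.P.T g.1 = (S.pi g).1 ∧ S.P.T g.2 = (S.pi g).2) ∨
      (S.P.T g.1 = (S.pi g).2 ∧ S.P.T g.2 = (S.pi g).1) := by
  have h1 : S.r g ≤ 1 := not_lt.1 h
  unfold Sys.r at h1
  rw [div_le_one (Gap.len_pos (S.pi_mem hg))] at h1
  obtain ⟨c1, c2⟩ := S.ok.cov g hg
  unfold img len at h1
  rcases le_total (S.P.T g.1) (S.P.T g.2) with c | c
  · rw [min_eq_left c] at c1
    rw [max_eq_right c] at c2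
    rw [abs_of_nonneg (sub_nonneg.2 c)] at h1
    exact Or.inl ⟨by linarith, by linarith⟩
  · rw [min_eq_right c] at c1
    rw [max_eq_left c] at c2
    rw [abs_of_nonpos (sub_nonpos.2 c)] at h1
    exact Or.inr ⟨by linarith, by linarith⟩

/-- if no point of `K` is strictly between the images of the ends, the gap is not long -/
lemma not_long_of_no_point {g : ℝ × ℝ} (hg : g ∈ Gap S.P.K)
    (h : ∀ z ∈ S.P.K, ¬ (min (S.P.T g.1) (S.P.T g.2) < z ∧ z < max (S.P.T g.1) (S.P.T g.2))) :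
    ¬ S.Long g := by
  obtain ⟨c1, c2⟩ := S.ok.cov g hg
  have hγ := S.pi_mem hg
  have hlt := hγ.2.2.1
  have e1 : (S.pi g).1 ≤ min (S.P.T g.1) (S.P.T g.2) := by
    by_contra hc
    exact h _ hγ.1 ⟨not_le.1 hc, hlt.trans_le c2⟩
  have e2 : max (S.P.T g.1) (S.P.T g.2) ≤ (S.pi g).2 := by
    by_contra hc
    exact h _ hγ.2.1 ⟨c1.trans_lt hlt, not_le.1 hc⟩
  unfold Sys.Long Sys.r
  rw [not_lt, div_le_one (Gap.len_pos hγ)]
  unfold img len
  rw [← max_sub_min_eq_abs]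
  linarith

/-- a gap whose ends are mapped to the ends of a gap `γ` has partner `γ` -/
lemma pi_eq_of_ends {g γ : ℝ × ℝ} (hg : g ∈ Gap S.P.K) (hγ : γ ∈ Gap S.P.K)
    (h : (S.P.T g.1 = γ.1 ∧ S.P.T g.2 = γ.2) ∨ (S.P.T g.1 = γ.2 ∧ S.P.T g.2 = γ.1)) :
    S.pi g = γ := by
  obtain ⟨c1, c2⟩ := S.ok.cov g hg
  have hlt := hγ.2.2.1
  refine Gap.eq_of_sub (S.pi_mem hg) hγ ?_ ?_
  · rcases h with ⟨a, b⟩ | ⟨a, b⟩
    · rw [a, b, min_eq_left hlt.le] at c1
      exact c1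
    · rw [a, b, min_eq_right hlt.le] at c1
      exact c1
  · rcases h with ⟨a, b⟩ | ⟨a, b⟩
    · rw [a, b, max_eq_right hlt.le] at c2
      exact c2
    · rw [a, b, max_eq_left hlt.le] at c2
      exact c2

lemma pull_cl {g : ℝ × ℝ} (hg : g ∈ Gap S.P.K) {z : ℝ} (hz : z ∈ cl (S.pi g)) :
    ∃ y ∈ cl g, S.P.T y = z := by
  obtain ⟨c1, c2⟩ := S.ok.cov g hg
  have hz' : z ∈ uIcc (S.P.T g.1) (S.P.T g.2) := ⟨c1.trans hz.1, hz.2.trans c2⟩
  obtain ⟨y, hy, e⟩ := intermediate_value_uIcc (S.P.cont.continuousOn) hz'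
  rw [uIcc_of_le hg.2.2.1.le] at hy
  exact ⟨y, hy, e⟩

lemma pull_op {g : ℝ × ℝ} (hg : g ∈ Gap S.P.K) {z : ℝ} (hz : z ∈ Ioo (S.pi g).1 (S.pi g).2) :
    ∃ y ∈ Ioo g.1 g.2, S.P.T y = z := by
  obtain ⟨c1, c2⟩ := S.ok.cov g hg
  rcases le_total (S.P.T g.1) (S.P.T g.2) with c | c
  · rw [min_eq_left c] at c1
    rw [max_eq_right c] at c2
    exact intermediate_value_Ioo hg.2.2.1.le S.P.cont.continuousOn
      ⟨c1.trans_lt hz.1, hz.2.trans_le c2⟩
  · rw [min_eq_right c] at c1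
    rw [max_eq_left c] at c2
    exact intermediate_value_Ioo' hg.2.2.1.le S.P.cont.continuousOn
      ⟨c1.trans_lt hz.1, hz.2.trans_le c2⟩

lemma prod_sl_chain {f : ℝ × ℝ} (hf : f ∈ Gap S.P.K) (k : ℕ) :
    (∏ i ∈ Finset.range k, |S.L.sl (S.pi^[i] f).1|) * len f =
      (∏ i ∈ Finset.range k, S.r (S.pi^[i] f)) * len (S.pi^[k] f) := by
  induction k with
  | zero => simp
  | succ k ih =>
    have hk := S.pi_iter_mem hf k
    have h1 := S.img_gap hk
    have h2 : S.r (S.pi^[k] f) * len (S.pi^[k + 1] f) = img S.P.T (S.pi^[k] f) := by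
      rw [Function.iterate_succ_apply']
      unfold Sys.r
      exact div_mul_cancel₀ _ (Gap.len_pos (S.pi_mem hk)).ne'
    rw [Finset.prod_range_succ, Finset.prod_range_succ, mul_assoc _ (S.r _), h2, h1]
    linear_combination |S.L.sl (S.pi^[k] f).1| * ih

/-- along a chain of distinct gaps the product of the ratios is at most `G` -/
lemma prod_r_chain_le {f : ℝ × ℝ} (hf : f ∈ Gap S.P.K) (k : ℕ)
    (h : ∀ i, 0 < i → i < k → S.pi^[i] f ≠ f) :
    ∏ i ∈ Finset.range k, S.r (S.pi^[i] f) ≤ S.P.G := by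
  classical
  have key : ∀ i j, i < j → j < k → S.pi^[i] f ≠ S.pi^[j] f := by
    intro i j hij hjk e
    obtain ⟨d, rfl⟩ := Nat.exists_eq_add_of_lt hij
    rw [add_assoc, Function.iterate_add_apply] at e
    exact h (d + 1) (by omega) (by omega)
      (S.pi_iter_inj i hf (S.pi_iter_mem hf (d + 1)) e).symm
  have hinj : InjOn (fun i => S.pi^[i] f) (Finset.range k : Set ℕ) := by
    intro i hi j hj e
    rw [Finset.coe_range] at hi hj
    rcases lt_trichotomy i j with c | c | c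
    · exact absurd e (key i j c hj)
    · exact c
    · exact absurd e.symm (key j i c hi)
  have h2 := S.prod_r_le ((Finset.range k).image fun i => S.pi^[i] f) (by
    intro g hg
    obtain ⟨i, _, rfl⟩ := Finset.mem_image.1 hg
    exact S.pi_iter_mem hf i)
  rw [Finset.prod_image hinj] at h2
  exact h2

lemma finite_big_r {ε : ℝ} (hε : 0 < ε) : {g | g ∈ Gap S.P.K ∧ 1 + ε ≤ S.r g}.Finite := by
  by_contra hc
  obtain ⟨n, hn⟩ := pow_unbounded_of_one_lt S.P.G (show (1 : ℝ) < 1 + ε by linarith)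
  obtain ⟨F, hF, hcard⟩ := Set.Infinite.exists_subset_card_eq hc n
  have h1 := S.prod_r_le F fun g hg => (hF hg).1
  have h2 : ∏ _g ∈ F, (1 + ε) ≤ ∏ g ∈ F, S.r g :=
    Finset.prod_le_prod (fun _ _ => by linarith) fun g hg => (hF hg).2
  rw [Finset.prod_const, hcard] at h2
  linarith

lemma tail_prod {δ : ℝ} (hδ : 0 < δ) :
    ∃ F : Finset (ℝ × ℝ), ∀ F' : Finset (ℝ × ℝ), (∀ g ∈ F', g ∈ Gap S.P.K) → Disjoint F' F →
      ∏ g ∈ F', S.r g ≤ 1 + δ := by
  classical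
  by_contra hc
  push Not at hc
  have key : ∀ n : ℕ, ∃ F : Finset (ℝ × ℝ), (∀ g ∈ F, g ∈ Gap S.P.K) ∧
      (1 + δ) ^ n ≤ ∏ g ∈ F, S.r g := by
    intro n
    induction n with
    | zero => exact ⟨∅, by simp, by simp⟩
    | succ n ih =>
      obtain ⟨F, hF, hle⟩ := ih
      obtain ⟨F', hF', hd, hlt⟩ := hc F
      refine ⟨F' ∪ F, fun g hg => ?_, ?_⟩
      · rcases Finset.mem_union.1 hg with c | c
        · exact hF' g c
        · exact hF g c
      · rw [Finset.prod_union hd, pow_succ']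
        exact mul_le_mul hlt.le hle (by positivity) (by linarith)
  obtain ⟨n, hn⟩ := pow_unbounded_of_one_lt S.P.G (show (1 : ℝ) < 1 + δ by linarith)
  obtain ⟨F, hF, hle⟩ := key n
  have := S.prod_r_le F hF
  linarith

end Sys

end Pool.Agent.MP_8df504_an.C
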