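import Pool.Agent.MP_8df504_an.C.F2a
import Pool.Agent.MP_8df504_an.C.SysBase

set_option autoImplicit false

namespace Pool.Agent.MP_8df504_an.C

open Set Filter Topology MeasureTheory

/-! Finitely many long gaps: the left end of a gap returns to its left.

`exact_piece` (Lemma X): on `[w,w']`, points of `K` go injectively to `K`, and each open gap `g`
goes injectively (affine, slope nonzero) onto the open gap `pi g` (`exact_ends`, `gap_aff`);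
`pi` is injective.  A continuous injective map on an interval is monotone or antitone, so the
image is the segment between `T w` and `T w'`; a gap `γ` inside the image has its midpoint equal to
`T y` with `y` in an open gap `g` inside `[w,w']`, and then `γ = pi g` (`Gap.eq_of_mem`).

`ret_left`: let `a = g0.1`.  Choose (`acc_left`, `exists_gap_between`) a gap `fL` with
`a - ε ≤ fL.1` and `fL.2 < a`; `J = [fL.2, a]`, with flanks `fL` and `g0`.  Call a gap `g` inside `J`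
bad if for some `k`, `pi^[k] g` is long or a flank and `pi^[i] g` is not inside `J` for
`0 < i ≤ k`.  Each long gap or flank `γ` comes from at most one bad `g` (if `pi^[k] g = pi^[k'] g'`,
`k ≤ k'`, then `g = pi^[k'-k] g'` by injectivity, so `k = k'`), hence finitely many bad gaps; pick
`w ∈ K`, `fL.2 ≤ w < a`, to the right of all bad gaps (no gap has right end `a`, by `acc_left`).
Pick an orbit point `y ∈ (w,a)` and its first return time `n ≥ 1` to `J` (`acc_left`).  By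
induction on `j ≤ n`: `T^[j]` is injective on `[w,a]`, `T^[j] y' ∈ K ↔ y' ∈ K` there, the image
`P j` is the segment between `T^[j] w` and `T^[j] a`, every gap inside `P j` is `pi^[j] g` with
`g` a gap inside `[w,a]` and conversely `pi^[j] g` is inside `P j`, and `P j` is disjoint from `J`
for `0 < j < n`.  (If `P j` contains a point of `J` and a point of `K` outside `J`, then it contains
a flank, which makes a gap bad.)  For `j = n` the same argument gives `P n ⊆ J`. -/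

namespace Sys

variable (S : Sys)

/-- the `j`-th iterate is exact on `[w,a]`, with image inside `[p,q]` -/
structure f2_Inv (w a : ℝ) (j : ℕ) (p q : ℝ) : Prop where
  hp : p ∈ S.P.K
  hq : q ∈ S.P.K
  le : p ≤ q
  inj : InjOn S.P.T^[j] (Icc w a)
  back : ∀ y ∈ Icc w a, S.P.T^[j] y ∈ S.P.K → y ∈ S.P.K
  maps : MapsTo S.P.T^[j] (Icc w a) (Icc p q)
  fwd : ∀ g ∈ Gap S.P.K, Inner w a g → Inner p q (S.pi^[j] g)
  bwd : ∀ γ ∈ Gap S.P.K, Inner p q γ → ∃ g ∈ Gap S.P.K, Inner w a g ∧ S.pi^[j] g = γ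

lemma f2_zero {w a : ℝ} (hw : w ∈ S.P.K) (ha : a ∈ S.P.K) (h : w ≤ a) : S.f2_Inv w a 0 w a :=
  ⟨hw, ha, h, injOn_id _, fun _ _ h => h, mapsTo_id _, fun _ _ h => h,
    fun γ h h' => ⟨γ, h, h', rfl⟩⟩

lemma f2_step {w a p q : ℝ} {j : ℕ} (h : S.f2_Inv w a j p q)
    (hl : ∀ g ∈ Gap S.P.K, Inner w a g → ¬ S.Long (S.pi^[j] g)) :
    ∃ p' q', S.f2_Inv w a (j + 1) p' q' := by
  obtain ⟨e1, e2, e3, e4, e5⟩ := S.exact_piece h.hp h.hq h.le fun γ hγ hi => by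
    obtain ⟨g, hg, h1, rfl⟩ := h.bwd γ hγ hi
    exact hl g hg h1
  have kp := S.P.mapsK h.hp
  have kq := S.P.mapsK h.hq
  refine ⟨min (S.P.T p) (S.P.T q), max (S.P.T p) (S.P.T q), ?_, ?_, min_le_max, ?_, ?_, ?_, ?_, ?_⟩
  · rcases min_choice (S.P.T p) (S.P.T q) with e | e <;> rwa [e]
  · rcases max_choice (S.P.T p) (S.P.T q) with e | e <;> rwa [e]
  · rw [Function.iterate_succ']
    exact e1.comp h.inj h.maps
  · intro y hy hk
    rw [Function.iterate_succ_apply'] at hk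
    exact h.back y hy (e2 _ (h.maps hy) hk)
  · intro y hy
    rw [Function.iterate_succ_apply']
    have : S.P.T (S.P.T^[j] y) ∈ uIcc (S.P.T p) (S.P.T q) := e3 ▸ mem_image_of_mem _ (h.maps hy)
    exact this
  · intro g hg hi
    rw [Function.iterate_succ_apply']
    exact e4 _ (S.pi_iter_mem hg j) (h.fwd g hg hi)
  · intro γ hγ hi
    obtain ⟨g', hg', h1, rfl⟩ := e5 γ hγ hi
    obtain ⟨g, hg, h2, rfl⟩ := h.bwd g' hg' h1
    exact ⟨g, hg, h2, Function.iterate_succ_apply' _ _ _⟩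

lemma f2_dich {w a p q z : ℝ} {j : ℕ} (h : S.f2_Inv w a j p q) {fL g0 : ℝ × ℝ}
    (hL : fL ∈ Gap S.P.K) (h0 : g0 ∈ Gap S.P.K)
    (hf : ∀ g ∈ Gap S.P.K, Inner w a g → S.pi^[j] g ≠ fL ∧ S.pi^[j] g ≠ g0)
    (hz : z ∈ Icc p q) (hz' : z ∈ Icc fL.2 g0.1) : fL.2 ≤ p ∧ q ≤ g0.1 := by
  constructor
  · refine (Gap.le_or_ge hL h.hp).resolve_left fun c => ?_
    obtain ⟨g, hg, h1, h2⟩ := h.bwd fL hL ⟨c, hz'.1.trans hz.2⟩
    exact (hf g hg h1).1 h2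
  · refine (Gap.le_or_ge h0 h.hq).resolve_right fun c => ?_
    obtain ⟨g, hg, h1, h2⟩ := h.bwd g0 h0 ⟨hz.1.trans hz'.2, c⟩
    exact (hf g hg h1).2 h2

lemma f2_bad_finite {E : Set (ℝ × ℝ)} (hE : E.Finite) (u a : ℝ) :
    {g | g ∈ Gap S.P.K ∧ Inner u a g ∧ ∃ k, S.pi^[k] g ∈ E ∧
      ∀ i, 0 < i → i ≤ k → ¬ Inner u a (S.pi^[i] g)}.Finite := by
  have key : ∀ (g g' : ℝ × ℝ) (k k' : ℕ), g ∈ Gap S.P.K → g' ∈ Gap S.P.K → Inner u a g → k ≤ k' →
      S.pi^[k] g = S.pi^[k'] g' → (∀ i, 0 < i → i ≤ k' → ¬ Inner u a (S.pi^[i] g')) → g = g' := by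
    intro g g' k k' hg hg' hi hk e h
    obtain ⟨d, rfl⟩ := Nat.exists_eq_add_of_le hk
    rw [Function.iterate_add_apply] at e
    have e' := S.pi_iter_inj k hg (S.pi_iter_mem hg' d) e
    rcases Nat.eq_zero_or_pos d with rfl | hd
    · exact e'
    · exact absurd (e' ▸ hi) (h d hd (by omega))
  refine (hE.biUnion (t := fun γ => {g | g ∈ Gap S.P.K ∧ Inner u a g ∧ ∃ k, S.pi^[k] g = γ ∧
      ∀ i, 0 < i → i ≤ k → ¬ Inner u a (S.pi^[i] g)}) fun γ _ => ?_).subset ?_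
  · refine Set.Subsingleton.finite ?_
    rintro g ⟨hg, hi, k, e, h⟩ g' ⟨hg', hi', k', e', h'⟩
    rcases le_total k k' with c | c
    · exact key g g' k k' hg hg' hi c (e.trans e'.symm) h'
    · exact (key g' g k' k hg' hg hi' c (e'.trans e.symm) h).symm
  · rintro g ⟨hg, hi, k, e, h⟩
    exact mem_biUnion e ⟨hg, hi, k, rfl, h⟩

lemma f2_pick {Bd : Set (ℝ × ℝ)} (hB : Bd.Finite) {g0 : ℝ × ℝ} (hg0 : g0 ∈ Gap S.P.K) {u : ℝ}
    (hu : u ∈ S.P.K) (hua : u < g0.1) (h : ∀ g ∈ Bd, g ∈ Gap S.P.K ∧ g.2 ≤ g0.1) :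
    ∃ w ∈ S.P.K, u ≤ w ∧ w < g0.1 ∧ ∀ g ∈ Bd, g.2 ≤ w := by
  obtain ⟨w, hw, hm⟩ := exists_max_image (insert u (Prod.snd '' Bd)) id
    ((hB.image _).insert u) (insert_nonempty _ _)
  have h1 : w ∈ S.P.K ∧ w < g0.1 := by
    rcases hw with rfl | ⟨g, hg, rfl⟩
    · exact ⟨hu, hua⟩
    · obtain ⟨h2, h3⟩ := h g hg
      refine ⟨h2.2.1, lt_of_le_of_ne h3 fun e => ?_⟩
      obtain ⟨n, -, h4, h5⟩ := S.P.acc_left hg0 (ε := g0.1 - g.1)
        (sub_pos.2 (e ▸ h2.2.2.1)) 0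
      exact h2.2.2.2 _ (S.P.x_mem n) ⟨by linarith, e ▸ h5⟩
  exact ⟨w, h1.1, hm u (mem_insert _ _), h1.2,
    fun g hg => hm g.2 (mem_insert_of_mem _ (mem_image_of_mem _ hg))⟩

lemma ret_left (hfin : {g | g ∈ Gap S.P.K ∧ S.Long g}.Finite) {g0 : ℝ × ℝ}
    (hg0 : g0 ∈ Gap S.P.K) {ε : ℝ} (hε : 0 < ε) :
    ∃ (w : ℝ) (n : ℕ), w ∈ S.P.K ∧ w < g0.1 ∧ 1 ≤ n ∧ InjOn S.P.T^[n] (Icc w g0.1) ∧
      (∀ y ∈ Icc w g0.1, S.P.T^[n] y ∈ S.P.K → y ∈ S.P.K) ∧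
      MapsTo S.P.T^[n] (Icc w g0.1) (Icc (g0.1 - ε) g0.1) := by
  classical
  obtain ⟨n1, -, a1, a2⟩ := S.P.acc_left hg0 hε 0
  obtain ⟨n2, -, a3, a4⟩ := S.P.acc_left hg0 (sub_pos.2 a2) 0
  obtain ⟨fL, hL, a5, a6⟩ := S.P.exists_gap_between (S.P.x_mem n1) (S.P.x_mem n2) (by linarith)
  have hLa : fL.2 < g0.1 := a6.trans_lt a4
  have hL12 := hL.2.2.1
  have hg12 := hg0.2.2.1
  obtain ⟨w, hw, huw, hwa, hbad⟩ := S.f2_pick
    (S.f2_bad_finite ((hfin.insert g0).insert fL) fL.2 g0.1) hg0 hL.2.1 hLa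
    fun g hg => ⟨hg.1, hg.2.1.2⟩
  have good : ∀ g ∈ Gap S.P.K, Inner w g0.1 g → ∀ k,
      (∀ i, 0 < i → i ≤ k → ¬ Inner fL.2 g0.1 (S.pi^[i] g)) →
      S.pi^[k] g ≠ fL ∧ S.pi^[k] g ≠ g0 ∧ ¬ S.Long (S.pi^[k] g) := by
    intro g hg hi k hk
    have : S.pi^[k] g ∉ insert fL (insert g0 {g | g ∈ Gap S.P.K ∧ S.Long g}) := fun c => by
      have h1 := hbad g ⟨hg, ⟨huw.trans hi.1, hi.2⟩, k, c, hk⟩
      have h2 := hi.1
      have h3 := hg.2.2.1
      linarith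
    exact ⟨fun e => this (Or.inl e), fun e => this (Or.inr (Or.inl e)),
      fun e => this (Or.inr (Or.inr ⟨S.pi_iter_mem hg k, e⟩))⟩
  have good2 : ∀ k, (∀ g ∈ Gap S.P.K, Inner w g0.1 g → ∀ i, 0 < i → i < k →
      ¬ Inner fL.2 g0.1 (S.pi^[i] g)) →
      ∀ g ∈ Gap S.P.K, Inner w g0.1 g → S.pi^[k] g ≠ fL ∧ S.pi^[k] g ≠ g0 := by
    intro k hk g hg hi
    by_cases c : Inner fL.2 g0.1 (S.pi^[k] g)
    · exact ⟨fun e => absurd (e ▸ c.1) (not_le.2 hL12), fun e => absurd (e ▸ c.2) (not_le.2 hg12)⟩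
    · have := good g hg hi k fun i h1 h2 => by
        rcases h2.eq_or_lt with rfl | h3
        · exact c
        · exact hk g hg hi i h1 h3
      exact ⟨this.1, this.2.1⟩
  obtain ⟨n0, -, b1, b2⟩ := S.P.acc_left hg0 (sub_pos.2 hwa) 0
  have hy : S.P.x n0 ∈ Icc w g0.1 := ⟨by linarith, b2.le⟩
  have hex : ∃ n, 1 ≤ n ∧ S.P.T^[n] (S.P.x n0) ∈ Icc fL.2 g0.1 := by
    obtain ⟨n, h1, h2, h3⟩ := S.P.acc_left hg0 (sub_pos.2 hLa) (n0 + 1)
    refine ⟨n - n0, by omega, ?_⟩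
    rw [S.P.x_iter, Nat.add_sub_cancel' (by omega)]
    exact ⟨by linarith, h3.le⟩
  obtain ⟨hn1, hn2⟩ := Nat.find_spec hex
  have hmin : ∀ j, j < Nat.find hex → 0 < j → S.P.T^[j] (S.P.x n0) ∉ Icc fL.2 g0.1 :=
    fun j h1 h2 h3 => Nat.find_min hex h1 ⟨h2, h3⟩
  generalize Nat.find hex = n at hn1 hn2 hmin
  have main : ∀ j, j ≤ n → (∃ p q, S.f2_Inv w g0.1 j p q) ∧ ∀ g ∈ Gap S.P.K, Inner w g0.1 g →
      ∀ i, 0 < i → i < j → ¬ Inner fL.2 g0.1 (S.pi^[i] g) := by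
    intro j
    induction j with
    | zero => exact fun _ => ⟨⟨_, _, S.f2_zero hw hg0.1 hwa.le⟩, fun _ _ _ _ _ h => by omega⟩
    | succ j ih =>
      intro hj
      obtain ⟨⟨p, q, hI⟩, hH⟩ := ih (by omega)
      have hH' : ∀ g ∈ Gap S.P.K, Inner w g0.1 g → ∀ i, 0 < i → i ≤ j →
          ¬ Inner fL.2 g0.1 (S.pi^[i] g) := by
        intro g hg hi i h1 h2
        rcases h2.eq_or_lt with rfl | h3
        · intro c
          have h4 := hI.fwd g hg hi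
          have h5 := (S.pi_iter_mem hg i).2.2.1.le
          obtain ⟨h6, h7⟩ := S.f2_dich hI hL hg0 (good2 i hH) (z := (S.pi^[i] g).1)
            ⟨h4.1, h5.trans h4.2⟩ ⟨c.1, h5.trans c.2⟩
          exact hmin i (by omega) h1 ⟨h6.trans (hI.maps hy).1, (hI.maps hy).2.trans h7⟩
        · exact hH g hg hi i h1 h3
      exact ⟨S.f2_step hI fun g hg hi => (good g hg hi j (hH' g hg hi)).2.2,
        fun g hg hi i h1 h2 => hH' g hg hi i h1 (by omega)⟩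
  obtain ⟨⟨p, q, hI⟩, hH⟩ := main n le_rfl
  obtain ⟨h6, h7⟩ := S.f2_dich hI hL hg0 (good2 n hH) (hI.maps hy) hn2
  exact ⟨w, n, hw, hwa, hn1, hI.inj, hI.back, fun y hy' =>
    ⟨by linarith [(hI.maps hy').1], (hI.maps hy').2.trans h7⟩⟩

end Sys

end Pool.Agent.MP_8df504_an.C
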