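import Pool.Agent.MP_8df504_an.C.F3
import Pool.Agent.MP_8df504_an.C.F2
import Pool.Agent.MP_8df504_an.C.Fin3

set_option autoImplicit false

namespace Pool.Agent.MP_8df504_an.C

open Set Filter Topology MeasureTheory

/-! Finitely many long gaps is impossible.

`not_periodic_left`: let `a = g0.1` be periodic.  Take `ε` smaller than the distance from `a` to
the other points of its finite orbit; `ret_left` gives `F = T^[n]` with `F a = a`, `F` injective
and continuous on `[w,a]` with values `≤ a`, so strictly increasing there.  If some orbit point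
`x k ∈ (w,a)` has `x k ≤ F (x k)`, then `x (k + j n)` increases and stays in `[w,a]`: contradiction
with `noconv`.  Otherwise `F z < z` for all orbit points `z ∈ (w,a)`.  No orbit point equals `a`
(`x` is injective and `a` periodic).  Take (`acc_left`) `x l ∈ (t, a)` where `t < a` is larger than
`w`, `F w` and all `x i < a` with `i < n`.  If `l ≥ n` then `x l = F y` with `y ∈ [w,a]`
(intermediate values), `y ∈ K`, so `y = x (l - n)` (`iter_inj`), and `x l < y < a`; descend to get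
`i < n` with `x i ∈ (t,a)`, contradiction.

`exists_exact_chain`: if the `pi`-orbit of `g` meets the finite set of long gaps infinitely often
then `g` is `pi`-periodic and lies on the orbit of a periodic long gap; there are finitely many such
`g` but infinitely many gaps (`gap_infinite`); shift.

`seq_W`: `d (n+1) ≥ d n * (1 - ℓ n)`, `ℓ` summable: for `N` with tail sum `≤ 1/2`,
`d (N + k) ≥ d N * (1 - ∑ ℓ) ≥ d N / 2`.

`caseA`: take `g0` from `exists_exact_chain`, `g i = pi^[i] g0`, `y i = T^[i] a`, `a = g0.1`.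
By `exact_ends`, `y i` is an end of `g i` and `T^[i]` maps the two ends of `g0` to the two ends of
`g i`.  `y` is injective (`not_periodic_left`, `iter_inj`); the `g i` are distinct (else `a` is
periodic), so `len (g i)` is summable (`sum_len_le`).  All `r (g i) = 1`, so
`∏ i<n |sl (g i).1| = len (g n) / len g0` (`prod_sl_chain`).  By `ret_left` there are `n ≥ 1` with
`y n ∈ [a-ε, a)` for every `ε`.  Fix `n0 ≥ 1` with `y n0 < a`, and for `n ≥ n0` let `p n` be the
largest `y i < a` with `1 ≤ i ≤ n`, `d n = a - p n`.  If `p (n+1) ≠ p n` then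
`p n < y (n+1) < a`; apply `T1lo` (slopes from `slopeAt_gap`) to `y 0, ..., y (n+1)` and `rho_cmp`
with `L = p n`, `R = g0.2`, `θ₁ = (y (n+1) - p n)/(a - p n)`, `θ₂ = 1` to get
`d n - d (n+1) ≤ d n * C * len (g (n+1)) / len g0`.  Then `seq_W` contradicts `inf d = 0`. -/

lemma seq_W (d ℓ : ℕ → ℝ) (hd : ∀ n, 0 < d n) (hℓ : ∀ n, 0 ≤ ℓ n) (hs : Summable ℓ)
    (h : ∀ n, d n * (1 - ℓ n) ≤ d (n + 1)) : ∃ η > 0, ∀ n, η ≤ d n := by
  obtain ⟨N, hN⟩ := ((tendsto_sum_nat_add ℓ).eventually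
    (eventually_le_nhds (show (0 : ℝ) < 1 / 2 by norm_num))).exists
  have h1 : ∀ k, ∑ i ∈ Finset.range k, ℓ (i + N) ≤ 1 / 2 := fun k =>
    (((summable_nat_add_iff N).2 hs).sum_le_tsum _ fun i _ => hℓ _).trans hN
  have h2 : ∀ k, d N * (1 - ∑ i ∈ Finset.range k, ℓ (i + N)) ≤ d (k + N) := fun k => by
    induction k with
    | zero => simp
    | succ k ih =>
      have h3 := h1 (k + 1)
      have h4 : 0 ≤ ∑ i ∈ Finset.range k, ℓ (i + N) := Finset.sum_nonneg fun i _ => hℓ _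
      rw [Finset.sum_range_succ] at h3 ⊢
      have h5 := h (k + N)
      have h6 := mul_le_mul_of_nonneg_right ih (show 0 ≤ 1 - ℓ (k + N) by linarith)
      have h7 := mul_nonneg (hd N).le (mul_nonneg h4 (hℓ (k + N)))
      rw [add_right_comm]
      linarith
  obtain ⟨j, -, hj⟩ := Finset.exists_min_image (Finset.range (N + 1)) d ⟨0, by simp⟩
  refine ⟨d j / 2, half_pos (hd j), fun n => ?_⟩
  rcases le_total n N with hn | hn
  · linarith [hj n (Finset.mem_range.2 (by omega)), hd j]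
  · obtain ⟨k, rfl⟩ := Nat.exists_eq_add_of_le' hn
    have h3 := mul_le_mul_of_nonneg_left (h1 k) (hd N).le
    linarith [hj N (Finset.mem_range.2 (by omega)), h2 k]

namespace Sys

variable (S : Sys)

lemma casea_per {g : ℝ × ℝ} (hg : g ∈ Gap S.P.K) {i j : ℕ} (hij : i < j)
    (e : S.pi^[i] g = S.pi^[j] g) : S.pi^[j - i] g = g := by
  refine S.pi_iter_inj i (S.pi_iter_mem hg _) hg ?_
  rw [← Function.iterate_add_apply, Nat.add_sub_cancel' hij.le, e]

lemma exists_exact_chain (hfin : {g | g ∈ Gap S.P.K ∧ S.Long g}.Finite) :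
    ∃ g0 ∈ Gap S.P.K, ∀ i : ℕ, ¬ S.Long (S.pi^[i] g0) := by
  by_contra hc
  push Not at hc
  have h1 : ∀ g ∈ Gap S.P.K, ∃ p, 0 < p ∧ Function.IsPeriodicPt S.pi p g := fun g hg => by
    have h2 : {i : ℕ | S.Long (S.pi^[i] g)}.Infinite := infinite_of_forall_exists_gt fun k => by
      obtain ⟨i, hi⟩ := hc _ (S.pi_iter_mem hg (k + 1))
      exact ⟨i + (k + 1), by rwa [← Function.iterate_add_apply] at hi, by omega⟩
    obtain ⟨i, -, j, -, hij, e⟩ := h2.exists_lt_map_eq_of_mapsTo (f := fun i => S.pi^[i] g)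
      (t := {g | g ∈ Gap S.P.K ∧ S.Long g}) (fun i hi => ⟨S.pi_iter_mem hg i, hi⟩) hfin
    exact ⟨j - i, by omega, S.casea_per hg hij e⟩
  refine S.P.gap_infinite ((hfin.biUnion (t := fun h => range fun n => S.pi^[n] h)
    fun h hh => ?_).subset fun g hg => ?_)
  · obtain ⟨p, hp, e⟩ := h1 h hh.1
    refine ((finite_Iio p).image fun n => S.pi^[n] h).subset ?_
    rintro _ ⟨n, rfl⟩
    exact ⟨n % p, Nat.mod_lt _ hp, e.iterate_mod_apply n⟩
  · obtain ⟨p, hp, e⟩ := h1 g hg
    obtain ⟨i, hi⟩ := hc g hg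
    refine mem_biUnion (x := S.pi^[i] g) ⟨S.pi_iter_mem hg i, hi⟩ ⟨p * i - i, ?_⟩
    change S.pi^[p * i - i] (S.pi^[i] g) = g
    rw [← Function.iterate_add_apply, Nat.sub_add_cancel (Nat.le_mul_of_pos_left i hp)]
    exact e.mul_const i

lemma casea_ends {g0 : ℝ × ℝ} (hg : g0 ∈ Gap S.P.K) (h : ∀ i : ℕ, ¬ S.Long (S.pi^[i] g0))
    (i : ℕ) : (S.P.T^[i] g0.1 = (S.pi^[i] g0).1 ∧ S.P.T^[i] g0.2 = (S.pi^[i] g0).2) ∨
      (S.P.T^[i] g0.1 = (S.pi^[i] g0).2 ∧ S.P.T^[i] g0.2 = (S.pi^[i] g0).1) := by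
  induction i with
  | zero => exact Or.inl ⟨rfl, rfl⟩
  | succ i ih =>
    simp only [Function.iterate_succ_apply']
    have h1 := S.exact_ends (S.pi_iter_mem hg i) (h i)
    rcases ih with ⟨e1, e2⟩ | ⟨e1, e2⟩ <;> rw [e1, e2] <;> tauto

lemma casea_summable (hfin : {g | g ∈ Gap S.P.K ∧ S.Long g}.Finite) {g0 : ℝ × ℝ}
    (hg : g0 ∈ Gap S.P.K) (h : ∀ i : ℕ, ¬ S.Long (S.pi^[i] g0)) :
    Summable fun i => len (S.pi^[i] g0) := by
  have h1 : ∀ i j, i < j → S.pi^[i] g0 ≠ S.pi^[j] g0 := fun i j hij e => by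
    have h2 : S.pi^[j - i] g0 = g0 := S.casea_per hg hij e
    rcases S.casea_ends hg h (j - i) with h3 | h3 <;> rw [h2] at h3
    · exact S.not_periodic_left hfin hg _ (by omega) h3.1
    · refine S.not_periodic_left hfin hg (j - i + (j - i)) (by omega) ?_
      rw [Function.iterate_add_apply, h3.1, h3.2]
  have h2 : Function.Injective fun i => S.pi^[i] g0 := fun i j e => by
    rcases lt_trichotomy i j with c | c | c
    · exact absurd e (h1 i j c)
    · exact c
    · exact absurd e.symm (h1 j i c)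
  refine summable_of_sum_range_le (c := S.P.hi - S.P.lo)
    (fun i => (Gap.len_pos (S.pi_iter_mem hg i)).le) fun n => ?_
  rw [← Finset.sum_image (f := len) h2.injOn]
  exact S.P.sum_len_le _ fun g hg' => by
    obtain ⟨i, -, rfl⟩ := Finset.mem_image.1 hg'
    exact S.pi_iter_mem hg i

lemma casea_inj (hfin : {g | g ∈ Gap S.P.K ∧ S.Long g}.Finite) {g0 : ℝ × ℝ}
    (hg : g0 ∈ Gap S.P.K) : Function.Injective fun i => S.P.T^[i] g0.1 := by
  have h1 : ∀ i j, i < j → S.P.T^[i] g0.1 ≠ S.P.T^[j] g0.1 := fun i j hij e => by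
    refine S.not_periodic_left hfin hg (j - i) (by omega) (S.P.iter_inj i
      (S.P.mapsK.iterate _ hg.1) hg.1 ?_)
    rw [← Function.iterate_add_apply, Nat.add_sub_cancel' hij.le, e]
  intro i j e
  rcases lt_trichotomy i j with c | c | c
  · exact absurd e (h1 i j c)
  · exact c
  · exact absurd e.symm (h1 j i c)

lemma casea_step (hfin : {g | g ∈ Gap S.P.K ∧ S.Long g}.Finite) {g0 : ℝ × ℝ}
    (hg : g0 ∈ Gap S.P.K) (h : ∀ i : ℕ, ¬ S.Long (S.pi^[i] g0)) {n : ℕ} (hn : 1 ≤ n) {q : ℝ}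
    (hq : ∀ i, 0 < i → i < n → S.P.T^[i] g0.1 < g0.1 → S.P.T^[i] g0.1 ≤ q)
    (h1 : q < S.P.T^[n] g0.1) (h2 : S.P.T^[n] g0.1 < g0.1) :
    S.P.T^[n] g0.1 - q ≤
      (g0.1 - q) * (cC S.L.m S.L.M S.P.B / len g0 * len (S.pi^[n] g0)) := by
  have hi := S.casea_inj hfin hg
  have hK : ∀ i, S.P.T^[i] g0.1 ∈ S.P.K := fun i => S.P.mapsK.iterate i hg.1
  have h3 := T1lo (T := S.P.T) (B := S.P.B) (y := fun i => S.P.T^[i] g0.1)
    (s := fun i => |S.L.sl (S.pi^[i] g0).1|) S.L.m_pos S.L.lip hn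
    (fun i _ => Function.iterate_succ_apply' _ _ _) (fun i _ j _ e => hi e)
    (fun i _ => S.P.sub (hK i)) fun i _ => ⟨S.L.sl_lo _, S.L.sl_hi _,
      S.slopeAt_gap (S.pi_iter_mem hg i) (by
        have h4 := (S.pi_iter_mem hg i).2.2.1.le
        rcases S.casea_ends hg h i with e | e <;> rw [e.1]
        exacts [left_mem_Icc.2 h4, right_mem_Icc.2 h4])⟩
  have h4 := S.prod_sl_chain hg n
  rw [Finset.prod_eq_one (f := fun i => S.r (S.pi^[i] g0)) fun i _ =>
    le_antisymm (not_lt.1 (h i)) (S.one_le_r (S.pi_iter_mem hg i)), one_mul,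
    ← eq_div_iff (Gap.len_pos hg).ne'] at h4
  have h5 : 0 < g0.1 - q := by linarith
  have h6 := hg.2.2.1
  have h7 := rho_cmp (O := mid (fun i => S.P.T^[i] g0.1) n) (L := q) (R := g0.2)
    (y := S.P.T^[n] g0.1) (y' := g0.1) (θ₁ := (S.P.T^[n] g0.1 - q) / (g0.1 - q)) (θ₂ := 1)
    (fun z hz hc => by
      obtain ⟨i, hi', rfl⟩ := Finset.mem_image.1 hz
      rw [Finset.mem_Ioo] at hi'
      rcases lt_trichotomy (S.P.T^[i] g0.1) g0.1 with c | c | c
      · exact hc.1.not_ge (hq i hi'.1 hi'.2 c)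
      · exact S.not_periodic_left hfin hg i hi'.1 c
      · exact hg.2.2.2 _ (hK i) ⟨c, hc.2⟩)
    ⟨h1, h2.trans h6⟩ ⟨h1.trans h2, h6⟩
    ⟨div_nonneg (by linarith) h5.le, (div_le_one h5).2 (by linarith)⟩ ⟨zero_le_one, le_rfl⟩
    (div_mul_cancel₀ _ h5.ne').le (by linarith)
  have h8 := le_of_mul_le_mul_right (h7.trans h3) (rho_pos _ _)
  rw [mul_one, div_le_iff₀ h5, h4] at h8
  exact h8.trans_eq (by ring)

theorem caseA (hfin : {g | g ∈ Gap S.P.K ∧ S.Long g}.Finite) : False := by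
  obtain ⟨g0, hg, h⟩ := S.exists_exact_chain hfin
  let p : ℕ → ℝ := fun n => Nat.rec (g0.1 - 1)
    (fun n q => if S.P.T^[n + 1] g0.1 < g0.1 then max q (S.P.T^[n + 1] g0.1) else q) n
  have hp : ∀ n, p (n + 1) =
      if S.P.T^[n + 1] g0.1 < g0.1 then max (p n) (S.P.T^[n + 1] g0.1) else p n := fun _ => rfl
  have h1 : ∀ n, p n < g0.1 := fun n => by
    induction n with
    | zero => exact sub_one_lt _
    | succ n ih =>
      rw [hp]
      split_ifs with c
      exacts [max_lt ih c, ih]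
  have h2 : ∀ n i, 0 < i → i < n + 1 → S.P.T^[i] g0.1 < g0.1 → S.P.T^[i] g0.1 ≤ p n := by
    intro n
    induction n with
    | zero => omega
    | succ n ih =>
      intro i h0 hi c
      rw [hp]
      rcases (Nat.lt_succ_iff.1 hi).eq_or_lt with rfl | hi
      · rw [if_pos c]
        exact le_max_right _ _
      · split_ifs
        exacts [(ih i h0 hi c).trans (le_max_left _ _), ih i h0 hi c]
  have hm := S.L.m_pos
  have hM := hm.trans_le S.m_le_M
  have hC : 0 ≤ cC S.L.m S.L.M S.P.B / len g0 :=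
    div_nonneg (by unfold cC; positivity) (Gap.len_pos hg).le
  have hl : ∀ n, 0 ≤ cC S.L.m S.L.M S.P.B / len g0 * len (S.pi^[n + 1] g0) := fun n =>
    mul_nonneg hC (Gap.len_pos (S.pi_iter_mem hg _)).le
  obtain ⟨η, hη, h3⟩ := seq_W (fun n => g0.1 - p n) _ (fun n => sub_pos.2 (h1 n)) hl
    (((summable_nat_add_iff 1).2 (S.casea_summable hfin hg h)).mul_left _) fun n => by
      have h4 := mul_nonneg (sub_pos.2 (h1 n)).le (hl n)
      rw [hp]
      split_ifs with c
      · rcases le_or_gt (S.P.T^[n + 1] g0.1) (p n) with c' | c'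
        · rw [max_eq_left c']
          linarith
        · rw [max_eq_right c'.le]
          linarith [S.casea_step hfin hg h n.succ_pos (h2 n) c' c]
      · linarith
  obtain ⟨w, n, -, hw, hn, -, -, h4⟩ := S.ret_left hfin hg (half_pos hη)
  have h5 := h4 (right_mem_Icc.2 hw.le)
  have h6 := h2 n n hn n.lt_succ_self
    (h5.2.lt_of_ne (S.not_periodic_left hfin hg n hn))
  linarith [h3 n, h5.1]

end Sys

end Pool.Agent.MP_8df504_an.C
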