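import Pool.Agent.MP_8df504_an.C.Base

set_option autoImplicit false

namespace Pool.Agent.MP_8df504_an.C

open Set Filter Topology MeasureTheory

/-! From a recurrent orbit with frequently bounded gain to `Raw`.

`gaps_image_mono`: a map that is strictly increasing on `A` transports the edges.
`gain_closure`: let `A ⊆ closure S` be finite.  Choose `φ n z ∈ S` with `φ n z → z` for `z ∈ A`
(`mem_closure_iff_seq_limit`).  For large `n`, `φ n` is strictly increasing on `A`, and the map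
`ψ n (T z) = T (φ n z)` (use `Function.invFunOn T A`) is strictly increasing on `A.image T`.  So
`Pt T (φ n A) = ∏ g ∈ gaps A, |T (φ n g.2) - T (φ n g.1)| → Pt T A` and
`Dl (T (φ n A)) = ∏ γ ∈ gaps (T A), (ψ n γ.2 - ψ n γ.1) → Dl (T A)`; pass to the limit.
`fold_bound`: induction on `k`.  `k = 0`: `T` is affine on `[p,q]` with slope `σ`; the edge from `p`
(`exists_edge_from`) gives `c ≤ |σ|`.  Step: take `b ∈ B ∩ (p,q)`, `p'` the largest point of `A` that
is `≤ b`, `q'` the least point of `A` that is `> b`; `(p',q')` is an edge.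
`raw_of_orbit`: `K = closure (range x)`.  `Gain T (range x) G` by `mono_gain`.  For orbit points
`a < a'`, `three_point` and `fold_bound` on `A = (orb x n) ∩ [a,a']` (its edges are edges of
`orb x n`) with `X = 2 G |T a' - T a|` give `c (a' - a) ≤ (2 card B + 1) X`; this passes to the
closure, so `T` is injective on `K`.  Dense tails: `x 0 ∈ closure (x '' Ici N)` and continuity. -/

lemma gaps_image_mono {A : Finset ℝ} {φ : ℝ → ℝ} (h : StrictMonoOn φ (A : Set ℝ)) :
    gaps (A.image φ) = (gaps A).image (Prod.map φ φ) ∧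
      InjOn (Prod.map φ φ) (gaps A : Set (ℝ × ℝ)) := by
  refine ⟨?_, fun g hg g' hg' e => ?_⟩
  · ext γ
    simp only [Finset.mem_image, mem_gaps, Gap, Finset.coe_image, mem_ofPred_eq]
    constructor
    · rintro ⟨⟨a, ha, e1⟩, ⟨b, hb, e2⟩, h1, h2⟩
      refine ⟨(a, b), ⟨ha, hb, (h.lt_iff_lt ha hb).1 (by rwa [e1, e2]), fun z hz hc => ?_⟩,
        Prod.ext e1 e2⟩
      exact h2 _ ⟨z, hz, rfl⟩ ⟨e1 ▸ h ha hz hc.1, e2 ▸ h hz hb hc.2⟩
    · rintro ⟨g, ⟨ha, hb, h1, h2⟩, rfl⟩
      refine ⟨⟨_, ha, rfl⟩, ⟨_, hb, rfl⟩, h ha hb h1, ?_⟩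
      rintro _ ⟨z, hz, rfl⟩ hc
      exact h2 z hz ⟨(h.lt_iff_lt ha hz).1 hc.1, (h.lt_iff_lt hz hb).1 hc.2⟩
  · have h1 := mem_gaps.1 hg
    have h2 := mem_gaps.1 hg'
    exact Prod.ext (h.injOn h1.1 h2.1 (congrArg Prod.fst e))
      (h.injOn h1.2.1 h2.2.1 (congrArg Prod.snd e))

lemma clos_lim {A : Finset ℝ} {φ : ℕ → ℝ → ℝ}
    (h : ∀ z ∈ A, Tendsto (fun n => φ n z) atTop (𝓝 z)) {F : ℝ × ℝ → ℝ} (hF : Continuous F) :
    Tendsto (fun n => ∏ g ∈ gaps (A.image (φ n)), F g) atTop (𝓝 (∏ g ∈ gaps A, F g)) := by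
  have h1 : ∀ᶠ n in atTop, ∀ a ∈ A, ∀ b ∈ A, a < b → φ n a < φ n b :=
    (A.eventually_all).2 fun a ha => (A.eventually_all).2 fun b hb => by
      by_cases hab : a < b
      · exact ((h a ha).eventually_lt (h b hb) hab).mono fun _ h2 _ => h2
      · exact Eventually.of_forall fun _ h2 => absurd h2 hab
  refine Tendsto.congr' (f₁ := fun n => ∏ g ∈ gaps A, F (Prod.map (φ n) (φ n) g))
    (h1.mono fun n hn => ?_) (tendsto_finset_prod _ fun g hg => (hF.tendsto g).comp ?_)
  · have h2 := gaps_image_mono (A := A) (φ := φ n) fun a ha b hb => hn a ha b hb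
    simp only [h2.1, Finset.prod_image h2.2]
  · exact (h _ (mem_gaps.1 hg).1).prodMk_nhds (h _ (mem_gaps.1 hg).2.1)

lemma gain_closure {T : ℝ → ℝ} (hT : Continuous T) {S : Set ℝ} {G : ℝ}
    (hinj : InjOn T (closure S)) (hG : Gain T S G) : Gain T (closure S) G := by
  intro A hA
  choose! φ h1 h2 using fun z (hz : z ∈ A) => mem_closure_iff_seq_limit.1 (hA hz)
  have hl : ∀ z ∈ A, Function.invFunOn T A (T z) = z := fun z hz =>
    (hinj.mono hA).leftInvOn_invFunOn hz
  have a1 := clos_lim (φ := fun n z => φ z n) h2 (F := img T) (by unfold img; fun_prop)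
  have a2 := clos_lim (A := A.image T) (φ := fun n w => T (φ (Function.invFunOn T A w) n))
    (fun w hw => by
      obtain ⟨z, hz, rfl⟩ := Finset.mem_image.1 hw
      rw [hl z hz]
      exact (hT.tendsto z).comp (h2 z hz)) (F := len) (by unfold len; fun_prop)
  refine le_of_tendsto_of_tendsto' a1 (a2.const_mul G) fun n => ?_
  have e : (A.image T).image (fun w => T (φ (Function.invFunOn T A w) n)) =
      (A.image fun z => φ z n).image T := by
    rw [Finset.image_image, Finset.image_image]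
    exact Finset.image_congr fun z hz => by simp only [Function.comp_apply, hl z hz]
  rw [e]
  refine hG _ fun y hy => ?_
  obtain ⟨z, hz, rfl⟩ := Finset.mem_image.1 hy
  exact h1 z hz n

end Pool.Agent.MP_8df504_an.C
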