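import Pool.Agent.MP_8df504_an.C.Base

set_option autoImplicit false

namespace Pool.Agent.MP_8df504_an.C

open Set Filter Topology MeasureTheory

/-! Clusters of heights.

`clusters`: `b 0` any positive point of `Kp true`, `sd 0 = true`; `b (i+1) = sSup (Kp (!sd i) ∩ [0, b i])`,
`a i = sInf (Kp (sd i) ∩ [b (i+1), b i])`.  The decreasing sequence `b` converges to a point of both
closed sets, so to `0`.

`exists_clu`: apply `clusters` to `Kp σ = {h ∈ [0,δ] | pt σ h ∈ K}` (disjoint off `0` because `T` is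
injective on `K` and `T (pt σ h) = T c - h`).  Write `g i = gp (sd i) (b (i+2)) (a i)` and
`γ i = (T c - a i, T c - b (i+1))`; both are gaps of `K` (for `γ i` use `cover`; a point of `K` between
two points `pt σ h`, `pt σ h'` is `pt σ h''` with `h''` between).  `pi (g i)` is a gap inside
`[T c - a i, T c - b (i+2)]`, with heights `q1 < q2`.  If both are in `[a (i+1), b (i+1)]` then
`gp (sd (i+1)) q1 q2` is a gap with the same partner (`pi_eq_of_ends`), contradiction with the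
injectivity of `pi`.  Hence `pi (g i) = γ i` or `γ (i+1)`.  If `pi (g i) = γ (i+1)` once, then for all
later `i` (injectivity), and `r (g i) < 2` for large `i` (`finite_big_r`, the `g i` are distinct)
gives `len (γ i) ≤ len (γ (i+1))`, impossible as `0 < len (γ i) ≤ b i → 0`.  So `pi (g i) = γ i`.
With `ℓ i = a i - b (i+1)` and `r (g i) ≤ 1 + ε` (`ε ≤ 1/2`, `i` large):
`ℓ (i+1) ≤ b (i+1) - b (i+2) ≤ ε ℓ i ≤ 2 ε (ℓ i - ℓ (i+1))`; telescoping and `b → 0` give
`b (i+1) ≤ 2 ε ℓ i`. -/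

lemma clusters (Kp : Bool → Set ℝ) (δ : ℝ) (hcl : ∀ σ, IsClosed (Kp σ))
    (hsub : ∀ σ, Kp σ ⊆ Icc 0 δ) (hdis : ∀ h ∈ Kp true, h ∈ Kp false → h = 0)
    (hacc : ∀ σ, ∀ ε > 0, ∃ h ∈ Kp σ, 0 < h ∧ h < ε) :
    ∃ (a b : ℕ → ℝ) (sd : ℕ → Bool), (∀ i, sd (i + 1) = !(sd i)) ∧ (∀ i, 0 < b i) ∧
      (∀ i, b (i + 1) < a i) ∧ (∀ i, a i ≤ b i) ∧ (∀ i, a i ∈ Kp (sd i)) ∧
      (∀ i, b i ∈ Kp (sd i)) ∧
      (∀ σ, ∀ h ∈ Kp σ, 0 < h → h ≤ b 0 → ∃ i, sd i = σ ∧ a i ≤ h ∧ h ≤ b i) ∧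
      Tendsto b atTop (𝓝 0) := by
  have hcpt : ∀ σ, IsCompact (Kp σ) := fun σ => isCompact_Icc.of_isClosed_subset (hcl σ) (hsub σ)
  have hne : ∀ σ h, h ∈ Kp σ → h ∈ Kp (!σ) → h = 0 := by
    intro σ h h1 h2
    cases σ
    · exact hdis h h2 h1
    · exact hdis h h1 h2
  have hstep : ∀ (σ : Bool) (x : ℝ), ∃ y, 0 < x → IsGreatest (Kp σ ∩ Iic x) y ∧ 0 < y := by
    intro σ x
    by_cases hx : 0 < x
    · obtain ⟨h, h1, h2, h3⟩ := hacc σ x hx
      obtain ⟨y, hy⟩ := ((hcpt σ).inter_right (isClosed_Iic (a := x))).exists_isGreatest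
        ⟨h, h1, h3.le⟩
      exact ⟨y, fun _ => ⟨hy, h2.trans_le (hy.2 ⟨h1, h3.le⟩)⟩⟩
    · exact ⟨0, fun h => absurd h hx⟩
  choose nb hnb using hstep
  obtain ⟨b0, hb0, hb0p, -⟩ := hacc true 1 one_pos
  let sd : ℕ → Bool := fun i => Nat.rec true (fun _ s => !s) i
  have hsd : ∀ i, sd (i + 1) = !(sd i) := fun _ => rfl
  have hor : ∀ i σ, sd i = σ ∨ sd (i + 1) = σ := by
    intro i σ
    rw [hsd]
    generalize sd i = t
    cases t <;> cases σ <;> simp
  let b : ℕ → ℝ := fun i => Nat.rec b0 (fun j x => nb (sd (j + 1)) x) i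
  have hb : ∀ i, b (i + 1) = nb (sd (i + 1)) (b i) := fun _ => rfl
  have hpos : ∀ i, 0 < b i := by
    intro i
    induction i with
    | zero => exact hb0p
    | succ i ih => rw [hb]; exact (hnb _ _ ih).2
  have hgr : ∀ i, IsGreatest (Kp (sd (i + 1)) ∩ Iic (b i)) (b (i + 1)) :=
    fun i => (hnb _ _ (hpos i)).1
  have hmem : ∀ i, b i ∈ Kp (sd i) := by
    intro i
    cases i with
    | zero => exact hb0
    | succ i => exact (hgr i).1.1
  have hanti : Antitone b := antitone_nat_of_succ_le fun i => (hgr i).1.2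
  have hA : ∀ i, ∃ y, IsLeast (Kp (sd i) ∩ Ici (b (i + 1))) y := fun i =>
    ((hcpt _).inter_right (isClosed_Ici (a := b (i + 1)))).exists_isLeast
      ⟨b i, hmem i, (hgr i).1.2⟩
  choose a ha using hA
  have hlim : Tendsto b atTop (𝓝 0) := by
    have hbd : BddBelow (range b) := ⟨0, by rintro _ ⟨i, rfl⟩; exact (hpos i).le⟩
    have ht := tendsto_atTop_ciInf hanti hbd
    have hin : ∀ σ, (⨅ i, b i) ∈ Kp σ := by
      intro σ
      refine (hcl σ).mem_of_frequently_of_tendsto ?_ ht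
      rw [frequently_atTop]
      intro n
      rcases hor n σ with e | e
      · exact ⟨n, le_rfl, e ▸ hmem n⟩
      · exact ⟨n + 1, Nat.le_succ n, e ▸ hmem (n + 1)⟩
    rwa [hdis _ (hin true) (hin false)] at ht
  refine ⟨a, b, sd, hsd, hpos, fun i => ?_, fun i => (ha i).2 ⟨hmem i, (hgr i).1.2⟩,
    fun i => (ha i).1.1, hmem, fun σ h hK h0 h1 => ?_, hlim⟩
  · refine lt_of_le_of_ne (ha i).1.2 fun e => ?_
    have h1 : b (i + 1) ∈ Kp (sd i) := e ▸ (ha i).1.1
    have h2 : b (i + 1) ∈ Kp (!(sd i)) := hsd i ▸ hmem (i + 1)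
    exact (hpos (i + 1)).ne' (hne _ _ h1 h2)
  · have hex : ∃ i, b (i + 1) < h := by
      obtain ⟨n, hn⟩ := eventually_atTop.1 (hlim.eventually (gt_mem_nhds h0))
      exact ⟨n, hn _ (Nat.le_succ n)⟩
    classical
    have hi := Nat.find_spec hex
    have hle : h ≤ b (Nat.find hex) := by
      rcases e : Nat.find hex with _ | j
      · exact h1
      · exact not_lt.1 (Nat.find_min hex (by omega : j < Nat.find hex))
    generalize Nat.find hex = i at hi hle
    rcases hor i σ with e | e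
    · exact ⟨i, e, (ha i).2 ⟨e ▸ hK, hi.le⟩, hle⟩
    · exact absurd ((hgr i).2 ⟨e ▸ hK, hle⟩) (not_le.2 hi)

end Pool.Agent.MP_8df504_an.C
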