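import Pool.Agent.MP_8df504_an.C.Clu1
import Pool.Agent.MP_8df504_an.C.SysBase

set_option autoImplicit false

namespace Pool.Agent.MP_8df504_an.C

open Set Filter Topology MeasureTheory

/-! Clusters of heights.

`clusters`: `b 0` any positive point of `Kp true`, `sd 0 = true`; `b (i+1) = sSup (Kp (!sd i) ∩ [0, b i])`,
`a i = sInf (Kp (sd i) ∩ [b (i+1), b i])`.  The decreasing sequence `b` converges to a point of both
closed sets, so to `0`.

`exists_clu`: apply `clusters` to `Kp σ = {h ∈ [0,δ] | pt σ h ∈ K}` (disjoint off `0` because `T` is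
injective on `K` and `T (pt σ h) = T c - h`).  Write `g i = gp (sd i) (b (i+2)) (a i)` and
`γ i = (T c - a i, T c - b (i+1))`; both are gaps of `K` (for `γ i` use `cover`; a point of `K` between
two points `pt σ h`, `pt σ h'` is `pt σ h''` with `h''` between).  `pi (g i)` is a gap inside
`[T c - a i, T c - b (i+2)]`, with heights `q1 < q2`.  If both are in `[a (i+1), b (i+1)]` then
`gp (sd (i+1)) q1 q2` is a gap with the same partner (`pi_eq_of_ends`), contradiction with the
injectivity of `pi`.  Hence `pi (g i) = γ i` or `γ (i+1)`.  If `pi (g i) = γ (i+1)` once, then for all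
later `i` (injectivity), and `r (g i) < 2` for large `i` (`finite_big_r`, the `g i` are distinct)
gives `len (γ i) ≤ len (γ (i+1))`, impossible as `0 < len (γ i) ≤ b i → 0`.  So `pi (g i) = γ i`.
With `ℓ i = a i - b (i+1)` and `r (g i) ≤ 1 + ε` (`ε ≤ 1/2`, `i` large):
`ℓ (i+1) ≤ b (i+1) - b (i+2) ≤ ε ℓ i ≤ 2 ε (ℓ i - ℓ (i+1))`; telescoping and `b → 0` give
`b (i+1) ≤ 2 ε ℓ i`. -/

lemma cluex_nonpos (d e : ℕ → ℝ) (N : ℕ) (h1 : ∀ i, N ≤ i → d i ≤ d (i + 1))
    (h2 : ∀ j, d j ≤ e j) (he : Tendsto e atTop (𝓝 0)) {i : ℕ} (hi : N ≤ i) : d i ≤ 0 := by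
  have key : ∀ j, i ≤ j → d i ≤ d j := by
    intro j hj
    induction j, hj using Nat.le_induction with
    | base => exact le_rfl
    | succ k hk ih => exact ih.trans (h1 k (hi.trans hk))
  exact ge_of_tendsto he (eventually_atTop.2 ⟨i, fun j hj => (key j hj).trans (h2 j)⟩)

/-- heights of the points of `K` on side `σ` -/
def cluex_Kp {S : Sys} (H : Ht S) (σ : Bool) : Set ℝ :=
  {h | h ∈ Icc 0 H.δ ∧ pt H.c H.sp H.sm σ h ∈ S.P.K}

lemma cluex_sp {S : Sys} (H : Ht S) : 0 < H.sp := S.L.m_pos.trans_le H.sp_lo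

lemma cluex_sm {S : Sys} (H : Ht S) : 0 < H.sm := S.L.m_pos.trans_le H.sm_lo

lemma cluex_closed {S : Sys} (H : Ht S) (σ : Bool) : IsClosed (cluex_Kp H σ) := by
  have hc : Continuous fun h => pt H.c H.sp H.sm σ h := by
    unfold pt
    split_ifs <;> fun_prop
  exact isClosed_Icc.inter (S.P.closedK.preimage hc)

lemma cluex_mem {S : Sys} (H : Ht S) {σ : Bool} {h : ℝ} (hh : h ∈ cluex_Kp H σ) :
    S.P.T H.c - h ∈ S.P.K := by
  rw [← H.val σ h hh.1.1 hh.1.2]
  exact S.P.mapsK hh.2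

lemma cluex_dis {S : Sys} (H : Ht S) {h : ℝ} (h1 : h ∈ cluex_Kp H true)
    (h2 : h ∈ cluex_Kp H false) : h = 0 := by
  have e := S.P.inj h1.2 h2.2 (by rw [H.val _ h h1.1.1 h1.1.2, H.val _ h h1.1.1 h1.1.2])
  simp only [pt, if_true, Bool.false_eq_true, if_false] at e
  have p1 := div_nonneg h1.1.1 (cluex_sp H).le
  have p2 := div_nonneg h1.1.1 (cluex_sm H).le
  have p3 : h / H.sp = 0 := by linarith
  rcases div_eq_zero_iff.1 p3 with c | c
  · exact c
  · exact absurd c (cluex_sp H).ne'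

lemma cluex_gap {S : Sys} (H : Ht S) {σ : Bool} {h h' : ℝ} (hh : h ∈ cluex_Kp H σ)
    (hh' : h' ∈ cluex_Kp H σ) (hlt : h < h') (hno : ∀ k ∈ cluex_Kp H σ, ¬ (h < k ∧ k < h')) :
    gp H.c H.sp H.sm σ h h' ∈ Gap S.P.K := by
  have sp := cluex_sp H
  have sm := cluex_sm H
  cases σ with
  | true =>
    have e : gp H.c H.sp H.sm true h h' = (H.c + h / H.sp, H.c + h' / H.sp) := by
      simp [gp, pt]
    rw [e]
    refine ⟨by simpa [pt] using hh.2, by simpa [pt] using hh'.2, ?_, fun z hz hc => ?_⟩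
    · have := div_lt_div_of_pos_right hlt sp
      simp only
      linarith
    · have c1 : h < (z - H.c) * H.sp := by
        rw [← div_lt_iff₀ sp]; linarith [hc.1]
      have c2 : (z - H.c) * H.sp < h' := by
        rw [← lt_div_iff₀ sp]; linarith [hc.2]
      refine hno ((z - H.c) * H.sp) ⟨⟨by linarith [hh.1.1], by linarith [hh'.1.2]⟩, ?_⟩ ⟨c1, c2⟩
      have : pt H.c H.sp H.sm true ((z - H.c) * H.sp) = z := by
        simp only [pt, if_true]; field_simp; ring
      rwa [this]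
  | false =>
    have e : gp H.c H.sp H.sm false h h' = (H.c - h' / H.sm, H.c - h / H.sm) := by
      simp [gp, pt]
    rw [e]
    refine ⟨by simpa [pt] using hh'.2, by simpa [pt] using hh.2, ?_, fun z hz hc => ?_⟩
    · have := div_lt_div_of_pos_right hlt sm
      simp only
      linarith
    · have c1 : h < (H.c - z) * H.sm := by
        rw [← div_lt_iff₀ sm]; linarith [hc.2]
      have c2 : (H.c - z) * H.sm < h' := by
        rw [← lt_div_iff₀ sm]; linarith [hc.1]
      refine hno ((H.c - z) * H.sm) ⟨⟨by linarith [hh.1.1], by linarith [hh'.1.2]⟩, ?_⟩ ⟨c1, c2⟩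
      have : pt H.c H.sp H.sm false ((H.c - z) * H.sm) = z := by
        simp only [pt, Bool.false_eq_true, if_false]; field_simp; ring
      rwa [this]

lemma cluex_ends {S : Sys} (H : Ht S) (σ : Bool) {h h' : ℝ} (h0 : 0 ≤ h) (hlt : h < h')
    (h1 : h' ≤ H.δ) :
    (S.P.T (gp H.c H.sp H.sm σ h h').1 = S.P.T H.c - h' ∧
      S.P.T (gp H.c H.sp H.sm σ h h').2 = S.P.T H.c - h) ∨
    (S.P.T (gp H.c H.sp H.sm σ h h').1 = S.P.T H.c - h ∧
      S.P.T (gp H.c H.sp H.sm σ h h').2 = S.P.T H.c - h') := by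
  have v1 := H.val σ h h0 (hlt.le.trans h1)
  have v2 := H.val σ h' (h0.trans hlt.le) h1
  cases σ with
  | true => right; simpa [gp] using ⟨v1, v2⟩
  | false => left; simpa [gp] using ⟨v2, v1⟩

lemma cluex_mm {S : Sys} (H : Ht S) (σ : Bool) {h h' : ℝ} (h0 : 0 ≤ h) (hlt : h < h')
    (h1 : h' ≤ H.δ) :
    min (S.P.T (gp H.c H.sp H.sm σ h h').1) (S.P.T (gp H.c H.sp H.sm σ h h').2) =
      S.P.T H.c - h' ∧
    max (S.P.T (gp H.c H.sp H.sm σ h h').1) (S.P.T (gp H.c H.sp H.sm σ h h').2) =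
      S.P.T H.c - h ∧
    img S.P.T (gp H.c H.sp H.sm σ h h') = h' - h := by
  unfold img
  rcases cluex_ends H σ h0 hlt h1 with ⟨e1, e2⟩ | ⟨e1, e2⟩ <;> rw [e1, e2]
  · refine ⟨min_eq_left (by linarith), max_eq_right (by linarith), ?_⟩
    rw [abs_of_pos (by linarith)]; ring
  · refine ⟨min_eq_right (by linarith), max_eq_left (by linarith), ?_⟩
    rw [abs_of_neg (by linarith)]; ring

lemma Sys.exists_clu (S : Sys) (H : Ht S) : Nonempty (Clu S) := by
  obtain ⟨a, b, sd, hsd, hb, hba, hab, ha', hb', hcov, hlim⟩ :=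
    clusters (cluex_Kp H) H.δ (cluex_closed H) (fun _ _ hh => hh.1)
      (fun _ h1 h2 => cluex_dis H h1 h2) (fun σ ε hε => by
        obtain ⟨h, h1, h2, h3⟩ := H.acc σ (min ε H.δ) (lt_min hε H.δ_pos)
        exact ⟨h, ⟨⟨h1.le, (h2.trans_le (min_le_right _ _)).le⟩, h3⟩, h1,
          h2.trans_le (min_le_left _ _)⟩)
  have banti : StrictAnti b := strictAnti_nat_of_succ_lt fun i => (hba i).trans_le (hab i)
  have aanti : StrictAnti a := strictAnti_nat_of_succ_lt fun i => (hab (i + 1)).trans_lt (hba i)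
  have hlt : ∀ i, b (i + 2) < a i := fun i => (banti (by omega : i + 1 < i + 2)).trans (hba i)
  have ab0 : ∀ i, a i ≤ b 0 := fun i => (hab i).trans (banti.antitone (Nat.zero_le i))
  have aδ : ∀ i, a i ≤ H.δ := fun i => (ha' i).1.2
  have lo : ∀ {i j : ℕ} {k : ℝ}, k < a i → a j ≤ k → i < j := by
    intro i j k h1 h2
    exact aanti.lt_iff_gt.1 (h2.trans_lt h1)
  have hi : ∀ {i j : ℕ} {k : ℝ}, b i < k → k ≤ b j → j < i := by
    intro i j k h1 h2
    exact banti.lt_iff_gt.1 (h1.trans_le h2)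
  have hsd2 : ∀ i, sd (i + 2) = sd i := fun i => by rw [hsd, hsd, Bool.not_not]
  set g : ℕ → ℝ × ℝ := fun i => gp H.c H.sp H.sm (sd i) (b (i + 2)) (a i) with hg
  set γ : ℕ → ℝ × ℝ := fun i => (S.P.T H.c - a i, S.P.T H.c - b (i + 1)) with hγ
  have gG : ∀ i, g i ∈ Gap S.P.K := by
    intro i
    refine cluex_gap H (hsd2 i ▸ hb' (i + 2)) (ha' i) (hlt i) fun k hk hc => ?_
    obtain ⟨j, e, j1, j2⟩ := hcov _ k hk ((hb _).trans hc.1) (hc.2.le.trans (ab0 i))
    have l1 := lo hc.2 j1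
    have l2 := hi hc.1 j2
    obtain rfl : j = i + 1 := by omega
    rw [hsd] at e
    exact absurd e (by simp)
  have hU : ∀ z ∈ S.P.K, 0 < S.P.T H.c - z → S.P.T H.c - z ≤ b 0 →
      ∃ j, S.P.T H.c - z ∈ cluex_Kp H (sd j) ∧ a j ≤ S.P.T H.c - z ∧ S.P.T H.c - z ≤ b j := by
    intro z hz h1 h2
    have h3 : S.P.T H.c - z ≤ H.δ := h2.trans (hb' 0).1.2
    obtain ⟨σ, hσ⟩ := H.cover _ h1.le h3 (by simpa using hz)
    obtain ⟨j, e, j1, j2⟩ := hcov σ _ ⟨⟨h1.le, h3⟩, hσ⟩ h1 h2
    exact ⟨j, e ▸ ⟨⟨h1.le, h3⟩, hσ⟩, j1, j2⟩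
  have γG : ∀ i, γ i ∈ Gap S.P.K := by
    intro i
    refine ⟨cluex_mem H (ha' i), cluex_mem H (hb' (i + 1)), ?_, fun z hz hc => ?_⟩
    · have := hba i
      simp only [hγ]
      linarith
    · have c1 : S.P.T H.c - z < a i := by
        have := hc.1
        simp only [hγ] at this
        linarith
      have c2 : b (i + 1) < S.P.T H.c - z := by
        have := hc.2
        simp only [hγ] at this
        linarith
      obtain ⟨j, -, j1, j2⟩ := hU z hz ((hb _).trans c2) (c1.le.trans (ab0 i))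
      have l1 := lo c1 j1
      have l2 := hi c2 j2
      omega
  have gmm := fun i => cluex_mm H (sd i) (hb (i + 2)).le (hlt i) (aδ i)
  have ginj : Function.Injective g := by
    intro i j e
    have e1 := (gmm i).2.1
    have e2 := (gmm j).2.1
    change max (S.P.T (g i).1) (S.P.T (g i).2) = _ at e1
    change max (S.P.T (g j).1) (S.P.T (g j).2) = _ at e2
    rw [e, e2] at e1
    have := banti.injective (sub_right_injective e1)
    omega
  have gimg : ∀ i, img S.P.T (g i) = a i - b (i + 2) := fun i => (gmm i).2.2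
  have two : ∀ i, S.pi (g i) = γ i ∨ S.pi (g i) = γ (i + 1) := by
    intro i
    by_contra hc
    push Not at hc
    have pG := S.pi_mem (gG i)
    have cv := S.ok.cov _ (gG i)
    have c1 : S.P.T H.c - a i ≤ (S.pi (g i)).1 := (gmm i).1 ▸ cv.1
    have c2 : (S.pi (g i)).2 ≤ S.P.T H.c - b (i + 2) := (gmm i).2.1 ▸ cv.2
    have c3 := pG.2.2.1
    have d1 : S.P.T H.c - b (i + 1) ≤ (S.pi (g i)).1 := by
      rcases Gap.sep pG (γG i) hc.1 with c | c
      · simp only [hγ] at c
        linarith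
      · exact c
    have d2 : (S.pi (g i)).2 ≤ S.P.T H.c - a (i + 1) := by
      rcases Gap.sep pG (γG (i + 1)) hc.2 with c | c
      · exact c
      · simp only [hγ] at c
        linarith
    have hin : ∀ z ∈ S.P.K, a (i + 1) ≤ S.P.T H.c - z → S.P.T H.c - z ≤ b (i + 1) →
        S.P.T H.c - z ∈ cluex_Kp H (sd (i + 1)) := by
      intro z hz z1 z2
      obtain ⟨j, m, j1, j2⟩ := hU z hz (((hb _).trans (hba (i + 1))).trans_le z1)
        (z2.trans (banti.antitone (Nat.zero_le _)))
      have l1 := lo (z2.trans_lt (hba i)) j1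
      have l2 := hi ((hba (i + 1)).trans_le z1) j2
      obtain rfl : j = i + 1 := by omega
      exact m
    have q1 := hin _ pG.2.1 (by linarith) (by linarith)
    have q2 := hin _ pG.1 (by linarith) (by linarith)
    have qlt : S.P.T H.c - (S.pi (g i)).2 < S.P.T H.c - (S.pi (g i)).1 := by linarith
    have fG := cluex_gap H q1 q2 qlt fun k hk hc' =>
      pG.2.2.2 _ (cluex_mem H hk) ⟨by linarith [hc'.2], by linarith [hc'.1]⟩
    have fe := S.pi_eq_of_ends fG pG (by
      rcases cluex_ends H (sd (i + 1)) q1.1.1 qlt q2.1.2 with ⟨e1, e2⟩ | ⟨e1, e2⟩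
      · left; rw [e1, e2]; constructor <;> ring
      · right; rw [e1, e2]; constructor <;> ring)
    have e := S.ok.bij.injOn fG (gG i) fe
    have e3 := (cluex_mm H (sd (i + 1)) q1.1.1 qlt q2.1.2).2.2
    rw [e, gimg] at e3
    linarith [hba i, hba (i + 1)]
  have small : ∀ ε > 0, ∃ N, ∀ i, N ≤ i → S.r (g i) < 1 + ε := by
    intro ε hε
    have f := (S.finite_big_r hε).preimage (f := g) ginj.injOn
    obtain ⟨N, hN⟩ := f.bddAbove
    refine ⟨N + 1, fun i hi => ?_⟩
    by_contra hc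
    have := hN (show i ∈ g ⁻¹' _ from ⟨gG i, not_lt.1 hc⟩)
    omega
  have γlen : ∀ i, len (γ i) = a i - b (i + 1) := fun i => by simp only [len, hγ]; ring
  have one : ∀ i, S.pi (g i) = γ i := by
    intro i
    by_contra hc
    have all : ∀ j, i ≤ j → S.pi (g j) = γ (j + 1) := by
      intro j hj
      induction j, hj using Nat.le_induction with
      | base => exact (two i).resolve_left hc
      | succ k _ ih =>
        refine (two (k + 1)).resolve_left fun e => ?_
        have := ginj (S.ok.bij.injOn (gG k) (gG (k + 1)) (ih.trans e.symm))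
        omega
    obtain ⟨N, hN⟩ := small 1 one_pos
    have := cluex_nonpos (fun j => a j - b (j + 1)) b (max N i) (fun j hj => by
      have r1 := hN j ((le_max_left _ _).trans hj)
      unfold Sys.r at r1
      rw [all j ((le_max_right _ _).trans hj), gimg, γlen,
        div_lt_iff₀ (sub_pos.2 (hba (j + 1)))] at r1
      have := hab (j + 1)
      change a j - b (j + 1) ≤ a (j + 1) - b (j + 2)
      change a j - b (j + 2) < (1 + 1) * (a (j + 1) - b (j + 2)) at r1
      linarith) (fun j => by linarith [hab j, hb (j + 1)]) hlim (le_refl _)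
    linarith [hba (max N i)]
  refine ⟨{ H with
    a := a, b := b, sd := sd, sd_succ := hsd, b_pos := hb, ba := hba, ab := hab
    b_le := fun i => (hb' i).1.2, gap := gG, pi_eq := one, ratio := fun ε hε => ?_ }⟩
  obtain ⟨N, hN⟩ := small (min (ε / 2) (1 / 2)) (lt_min (by linarith) (by norm_num))
  set η := min (ε / 2) (1 / 2) with hη
  have η1 : η ≤ ε / 2 := min_le_left _ _
  have η2 : η ≤ 1 / 2 := min_le_right _ _
  have η0 : 0 < η := lt_min (by linarith) (by norm_num)
  refine eventually_atTop.2 ⟨N, fun i hi => ?_⟩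
  have := cluex_nonpos (fun j => b (j + 1) - 2 * η * (a j - b (j + 1))) b N (fun j hj => by
      have r1 := hN j hj
      unfold Sys.r at r1
      have l0 := sub_pos.2 (hba j)
      rw [one j, gimg, γlen, div_lt_iff₀ l0] at r1
      have t1 := hab (j + 1)
      change b (j + 1) - 2 * η * (a j - b (j + 1)) ≤ b (j + 2) - 2 * η * (a (j + 1) - b (j + 2))
      have t2 : b (j + 1) - b (j + 2) ≤ η * (a j - b (j + 1)) := by linarith
      have t3 : η * (a j - b (j + 1)) ≤ 1 / 2 * (a j - b (j + 1)) :=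
        mul_le_mul_of_nonneg_right η2 l0.le
      have t4 : a (j + 1) - b (j + 2) ≤ 1 / 2 * (a j - b (j + 1)) := by linarith
      have t5 := mul_le_mul_of_nonneg_left t4 η0.le
      linarith) (fun j => by
      have l0 := sub_pos.2 (hba j)
      have := mul_pos η0 l0
      linarith [hba j, hab j]) hlim hi
  have l0 := sub_pos.2 (hba i)
  have t := mul_le_mul_of_nonneg_right η1 l0.le
  linarith

end Pool.Agent.MP_8df504_an.C
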