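import Mathlib
import Pool.Agent.MP_8df504_an.Defs
import Pool.Agent.MP_8df504_an.ClassDefs

set_option autoImplicit false

namespace Pool.Agent.MP_8df504_an.C

open Set Filter Topology MeasureTheory

/-! ## gaps and products over gaps -/

/-- consecutive pairs of points of `S` -/
def Gap (S : Set ℝ) : Set (ℝ × ℝ) :=
  {g | g.1 ∈ S ∧ g.2 ∈ S ∧ g.1 < g.2 ∧ ∀ z ∈ S, ¬ (g.1 < z ∧ z < g.2)}

open Classical in
/-- consecutive pairs (edges) of a finite set -/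
noncomputable def gaps (A : Finset ℝ) : Finset (ℝ × ℝ) :=
  (A ×ˢ A).filter (fun g => g ∈ Gap (A : Set ℝ))

def len (g : ℝ × ℝ) : ℝ := g.2 - g.1

def img (T : ℝ → ℝ) (g : ℝ × ℝ) : ℝ := |T g.2 - T g.1|

noncomputable def Pt (T : ℝ → ℝ) (A : Finset ℝ) : ℝ := ∏ g ∈ gaps A, img T g

noncomputable def Dl (A : Finset ℝ) : ℝ := ∏ g ∈ gaps A, len g

noncomputable def rho (O : Finset ℝ) (y : ℝ) : ℝ := Dl (insert y O) / Dl O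

/-- the segment between `T g.1` and `T g.2` contains `γ` -/
def Cov (T : ℝ → ℝ) (g γ : ℝ × ℝ) : Prop :=
  min (T g.1) (T g.2) ≤ γ.1 ∧ γ.2 ≤ max (T g.1) (T g.2)

/-- no break point strictly between `u` and `v` -/
def NoB (B : Finset ℝ) (u v : ℝ) : Prop := ∀ b ∈ B, ¬ (u < b ∧ b < v)

def Inner (u v : ℝ) (g : ℝ × ℝ) : Prop := u ≤ g.1 ∧ g.2 ≤ v

/-- `s` is the absolute slope of `T` at `a` (no condition if `a` is a break point) -/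
def SlopeAt (T : ℝ → ℝ) (hi : ℝ) (B : Finset ℝ) (a s : ℝ) : Prop :=
  a ∉ B → ∀ v, a < v → v ≤ hi → NoB B a v → |T v - T a| = s * (v - a)

def LipOn (T : ℝ → ℝ) (lo hi M : ℝ) : Prop :=
  ∀ u ∈ Icc lo hi, ∀ v ∈ Icc lo hi, |T u - T v| ≤ M * |u - v|

/-- `T` is affine on every break-free segment of `[lo,hi]` (slope `0` allowed) -/
def PLz (T : ℝ → ℝ) (lo hi : ℝ) (B : Finset ℝ) : Prop :=
  ∀ u v, lo ≤ u → u < v → v ≤ hi → NoB B u v → ∃ σ : ℝ, ∀ y ∈ Icc u v, T y = T u + σ * (y - u)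

noncomputable def cC (m M : ℝ) (B : Finset ℝ) : ℝ := (M / m) ^ B.card / m

/-- the first `n` points of a sequence -/
noncomputable def orb (x : ℕ → ℝ) (n : ℕ) : Finset ℝ := (Finset.range n).image x

/-- the points `y 1, ..., y (n-1)` -/
noncomputable def mid (y : ℕ → ℝ) (n : ℕ) : Finset ℝ := (Finset.Ioo 0 n).image y

/-- bounded gain on finite subsets of `S` -/
def Gain (T : ℝ → ℝ) (S : Set ℝ) (G : ℝ) : Prop :=
  ∀ A : Finset ℝ, (A : Set ℝ) ⊆ S → Pt T A ≤ G * Dl (A.image T)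

/-! ## compact transitive sets with bounded gain -/

structure Raw where
  T : ℝ → ℝ
  cont : Continuous T
  K : Set ℝ
  cpt : IsCompact K
  sub : K ⊆ Icc 0 1
  B : Finset ℝ
  pl : PLz T 0 1 B
  inj : InjOn T K
  x : ℕ → ℝ
  x_succ : ∀ n, x (n + 1) = T (x n)
  x_mem : ∀ n, x n ∈ K
  x_inj : Function.Injective x
  dense : ∀ N, K ⊆ closure (x '' Ici N)
  G : ℝ
  gain : Gain T K G

structure Pre where
  T : ℝ → ℝ
  cont : Continuous T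
  K : Set ℝ
  cpt : IsCompact K
  lo : ℝ
  hi : ℝ
  lo_mem : lo ∈ K
  hi_mem : hi ∈ K
  sub : K ⊆ Icc lo hi
  B : Finset ℝ
  lo_B : lo ∈ B
  hi_B : hi ∈ B
  B_sub : ∀ b ∈ B, b ∈ K
  aff : ∀ u v, lo ≤ u → u < v → v ≤ hi → NoB B u v →
    ∃ σ : ℝ, σ ≠ 0 ∧ ∀ y ∈ Icc u v, T y = T u + σ * (y - u)
  inj : InjOn T K
  x : ℕ → ℝ
  x_succ : ∀ n, x (n + 1) = T (x n)
  x_mem : ∀ n, x n ∈ K
  x_inj : Function.Injective x
  dense : ∀ N, K ⊆ closure (x '' Ici N)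
  G : ℝ
  gain : Gain T K G

/-- slope data: `sl y` is the slope to the right of `y` -/
structure Slp (P : Pre) where
  m : ℝ
  M : ℝ
  sl : ℝ → ℝ
  Sl : Finset ℝ
  m_pos : 0 < m
  sl_lo : ∀ y, m ≤ |sl y|
  sl_hi : ∀ y, |sl y| ≤ M
  sl_mem : ∀ y, |sl y| ∈ Sl
  Sl_pos : ∀ t ∈ Sl, 0 < t
  sl_aff : ∀ u v, P.lo ≤ u → u < v → v ≤ P.hi → NoB P.B u v →
    ∀ y ∈ Icc u v, P.T y = P.T u + sl u * (y - u)
  sl_eq : ∀ u v, P.lo ≤ u → u < v → v ≤ P.hi → NoB P.B u v →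
    ∀ y, u ≤ y → y < v → sl y = sl u
  lip : LipOn P.T P.lo P.hi M

/-- a matching of the gaps of `K` -/
structure PiOK (P : Pre) (pi : ℝ × ℝ → ℝ × ℝ) : Prop where
  bij : BijOn pi (Gap P.K) (Gap P.K)
  cov : ∀ g ∈ Gap P.K, Cov P.T g (pi g)
  prod : ∀ F : Finset (ℝ × ℝ), (∀ g ∈ F, g ∈ Gap P.K) → ∏ g ∈ F, img P.T g / len (pi g) ≤ P.G

structure Sys where
  P : Pre
  L : Slp P
  pi : ℝ × ℝ → ℝ × ℝ
  ok : PiOK P pi

noncomputable def Sys.r (S : Sys) (g : ℝ × ℝ) : ℝ := img S.P.T g / len (S.pi g)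

def Sys.Long (S : Sys) (g : ℝ × ℝ) : Prop := 1 < S.r g

/-- closed segment of a pair -/
def cl (g : ℝ × ℝ) : Set ℝ := Icc g.1 g.2

/-- `y` follows the `pi`-orbit of the gap `f` -/
def Sys.Fol (S : Sys) (f : ℝ × ℝ) (y : ℝ) : Prop := ∀ k : ℕ, S.P.T^[k] y ∈ cl (S.pi^[k] f)

def Pre.TwoSided (P : Pre) (c : ℝ) : Prop :=
  c ∈ P.K ∧ (∀ ε > 0, ∃ z ∈ P.K, c < z ∧ z < c + ε) ∧ (∀ ε > 0, ∃ z ∈ P.K, c - ε < z ∧ z < c)

def Pre.TwoMax (P : Pre) (c : ℝ) : Prop :=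
  P.TwoSided c ∧ ∃ δ > 0, ∀ y, |y - c| < δ → y ≠ c → P.T y < P.T c

def Pre.TwoMin (P : Pre) (c : ℝ) : Prop :=
  P.TwoSided c ∧ ∃ δ > 0, ∀ y, |y - c| < δ → y ≠ c → P.T c < P.T y

/-- the point of height `h` on side `σ` of `c` -/
noncomputable def pt (c sp sm : ℝ) (σ : Bool) (h : ℝ) : ℝ :=
  if σ = true then c + h / sp else c - h / sm

/-- the pair of points of heights `h < h'` on side `σ`, in increasing order -/
noncomputable def gp (c sp sm : ℝ) (σ : Bool) (h h' : ℝ) : ℝ × ℝ :=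
  if σ = true then (pt c sp sm σ h, pt c sp sm σ h') else (pt c sp sm σ h', pt c sp sm σ h)

/-- heights near a two-sided maximum -/
structure Ht (S : Sys) where
  c : ℝ
  sp : ℝ
  sm : ℝ
  δ : ℝ
  δ_pos : 0 < δ
  sp_lo : S.L.m ≤ sp
  sp_hi : sp ≤ S.L.M
  sm_lo : S.L.m ≤ sm
  sm_hi : sm ≤ S.L.M
  c_mem : c ∈ S.P.K
  val : ∀ σ h, 0 ≤ h → h ≤ δ → S.P.T (pt c sp sm σ h) = S.P.T c - h
  acc : ∀ σ, ∀ ε > 0, ∃ h, 0 < h ∧ h < ε ∧ pt c sp sm σ h ∈ S.P.K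
  cover : ∀ h, 0 ≤ h → h ≤ δ → S.P.T c - h ∈ S.P.K → ∃ σ, pt c sp sm σ h ∈ S.P.K

/-- alternating clusters `[a i, b i]` of heights -/
structure Clu (S : Sys) extends Ht S where
  a : ℕ → ℝ
  b : ℕ → ℝ
  sd : ℕ → Bool
  sd_succ : ∀ i, sd (i + 1) = !(sd i)
  b_pos : ∀ i, 0 < b i
  ba : ∀ i, b (i + 1) < a i
  ab : ∀ i, a i ≤ b i
  b_le : ∀ i, b i ≤ δ
  gap : ∀ i, gp c sp sm (sd i) (b (i + 2)) (a i) ∈ Gap S.P.K
  pi_eq : ∀ i, S.pi (gp c sp sm (sd i) (b (i + 2)) (a i)) = (S.P.T c - a i, S.P.T c - b (i + 1))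
  ratio : ∀ ε > 0, ∀ᶠ i in atTop, b (i + 1) ≤ ε * (a i - b (i + 1))

/-- nested levels `H j = [u j, v j]` flanked by the gaps `e (j+1)` (small) and `e j` (big) -/
structure Lev (S : Sys) where
  e : ℕ → ℝ × ℝ
  u : ℕ → ℝ
  v : ℕ → ℝ
  c1 : ℝ
  c1_pos : 0 < c1
  gap : ∀ j, e j ∈ Gap S.P.K
  long : ∀ j, S.Long (e j)
  uv : ∀ j, u j < v j
  flank : ∀ j, ((e (j + 1)).2 = u j ∧ (e j).1 = v j) ∨ ((e j).2 = u j ∧ (e (j + 1)).1 = v j)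
  nest : ∀ j, u j ≤ u (j + 1) ∧ v (j + 1) ≤ v j
  inner : ∀ j, Inner (u j) (v j) (e (j + 2))
  small : ∀ ε > 0, ∀ᶠ j in atTop, v j - u j ≤ ε * len (e (j + 1))
  s4 : ∀ j, ∀ y ∈ cl (e j), S.P.T y ∈ cl (S.pi (e j)) →
    y ≤ u j - c1 * len (e (j + 1)) ∨ v j + c1 * len (e (j + 1)) ≤ y
  s5 : ∀ j, ∀ y ∈ cl (e (j + 1)), S.P.T y ∈ cl (S.pi (e (j + 1))) →
    y ≤ u j - c1 * (v j - u j) ∨ v j + c1 * (v j - u j) ≤ y

/-- two points on either side of `[u,v]` whose orbits never come `D`-close to `[u,v]` -/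
def Pre.Esc (P : Pre) (u v D : ℝ) : Prop :=
  ∃ yL yR : ℝ, yL ≤ u ∧ v ≤ yR ∧ (∀ z ∈ P.K, yL < z → z < yR → u ≤ z ∧ z ≤ v) ∧
    (∀ k : ℕ, P.T^[k] yL ∉ Ioo (u - D) (v + D)) ∧ (∀ k : ℕ, P.T^[k] yR ∉ Ioo (u - D) (v + D))

/-- `[u,v]` returns as a whole to a neighbourhood `(α,β)` that contains no new point of `K` -/
def Pre.Ret (P : Pre) (u v : ℝ) : Prop :=
  ∃ (α β : ℝ) (r : ℕ), 1 ≤ r ∧ α < u ∧ v < β ∧ (∀ z ∈ P.K, α < z → z < β → u ≤ z ∧ z ≤ v) ∧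
    (∀ w ∈ Icc u v, P.T^[r] w ∈ Ioo α β) ∧
    (∀ i, 0 < i → i < r → ∀ w ∈ Icc u v, P.T^[i] w ∉ Ioo α β)

/-- a cycle of disjoint intervals covering `K` -/
structure Cyc (P : Pre) where
  p : ℕ
  a : ℕ → ℝ
  b : ℕ → ℝ
  p_pos : 1 ≤ p
  a_per : ∀ i, a (i + p) = a i
  b_per : ∀ i, b (i + p) = b i
  a_mem : ∀ i, a i ∈ P.K
  b_mem : ∀ i, b i ∈ P.K
  ab : ∀ i, a i ≤ b i
  disj : ∀ i l, i < p → l < p → i ≠ l → b i < a l ∨ b l < a i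
  cover : ∀ z ∈ P.K, ∃ i < p, a i ≤ z ∧ z ≤ b i
  maps : ∀ i, ∀ z ∈ P.K, a i ≤ z → z ≤ b i → a (i + 1) ≤ P.T z ∧ P.T z ≤ b (i + 1)

/-- `O` is the set of gaps that are not inside an interval of the cycle -/
def Cyc.IsOuter {P : Pre} (C : Cyc P) (O : Finset (ℝ × ℝ)) : Prop :=
  ∀ g, g ∈ O ↔ g ∈ Gap P.K ∧ ∀ i, ¬ Inner (C.a i) (C.b i) g

/-! ## broken-linear maps with explicit data -/

structure BL where
  T : ℝ → ℝ
  cont : Continuous T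
  maps : ∀ x, T x ∈ Icc (0 : ℝ) 1
  m : ℕ
  a : Fin (m + 1) → ℝ
  mono : StrictMono a
  a0 : a 0 = 0
  a1 : a (Fin.last m) = 1
  c : Fin m → ℝ
  d : Fin m → ℝ
  aff : ∀ j : Fin m, ∀ x ∈ Icc (a j.castSucc) (a j.succ), T x = c j * x + d j

noncomputable def BL.B (D : BL) : Finset ℝ := Finset.univ.image D.a

def BL.Piece (D : BL) (j : Fin D.m) : Set ℝ := Ioo (D.a j.castSucc) (D.a j.succ)

/-- points near which some iterate is the identity -/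
def BL.Neu (D : BL) : Set ℝ := {x | ∃ p : ℕ, 1 ≤ p ∧ ∀ᶠ y in 𝓝 x, D.T^[p] y = y}

/-- points whose orbit avoids `Neu`, the break points and the flat pieces -/
def BL.Lam (D : BL) : Set ℝ :=
  {x | ∀ i : ℕ, D.T^[i] x ∉ D.Neu ∧ ∃ j, D.c j ≠ 0 ∧ D.T^[i] x ∈ D.Piece j}

def BL.Cyl (D : BL) (n : ℕ) (ω : ℕ → Fin D.m) : Set ℝ := {x | ∀ i < n, D.T^[i] x ∈ D.Piece (ω i)}

noncomputable def BL.gam (D : BL) (n : ℕ) (ω : ℕ → Fin D.m) : ℝ :=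
  ∏ i ∈ Finset.range n, D.c (ω i)

def sh {ι : Type} (ω : ℕ → ι) (k : ℕ) : ℕ → ι := fun i => ω (i + k)

/-- some iterate expands by a factor `4` on all cylinders that meet `Lam` -/
def BL.Expd (D : BL) : Prop :=
  ∃ n : ℕ, 1 ≤ n ∧ ∀ ω, (D.Cyl n ω ∩ D.Lam).Nonempty → 4 ≤ |D.gam n ω|

end Pool.Agent.MP_8df504_an.C
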