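import Pool.Agent.MP_8df504_an.C.SysBase

set_option autoImplicit false

namespace Pool.Agent.MP_8df504_an.C

open Set Filter Topology MeasureTheory

/-! Basic facts on `Sys`.

Hints.  On a gap `g`, `T y = T g.1 + sl g.1 * (y - g.1)` (`sl_aff`, `gap_noB`, `gap_sub`).
`slopeAt_gap`: if `y < g.2` use `sl_eq` on `g`; if `y = g.2 ∉ B` then `NoB B g.1 v`.
`pull_cl`, `pull_op`: solve the affine equation.
`tail_prod`: let `Γ` be the supremum of the finite products (bounded by `G`), choose `F` with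
product `> Γ/(1+δ)`.  `finite_big_r`: `(1+ε)^n ≤ G`.
`expand_K`: for `a < a'` in `K`, show by induction on the number `k` of points of `B` strictly
between `p < q` (`p, q ∈ K ∩ [a,a']`) that `m (q - p) ≤ (k+1) * 2 G |T a' - T a|`, using
`three_point` (`|T q - T p| ≤ |T q - T a| + |T p - T a|`) and `B ⊆ K`.
`distortion`: induct on `r` keeping track of the number of `i < r` with `T^[i] '' Z ∩ B` nonempty,
which is at most `B.card` by disjointness; the segment between `T^[i] y` and `T^[i] w` lies in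
`T^[i] '' Z` (intermediate value theorem); if it contains no point of `B` the slope on it is
`sl (T^[i] y)` (use `sl_aff`, `sl_eq`; when `T^[i] y` is the right end of the segment, it is not in
`B`, so it is `< hi` and the segment extends a little to the right without meeting `B`). -/

namespace Sys

variable (S : Sys)

lemma dist_fold {a a' X : ℝ}
    (hX : ∀ p ∈ S.P.K, ∀ q ∈ S.P.K, a ≤ p → p ≤ q → q ≤ a' → |S.P.T q - S.P.T p| ≤ X)
    (hX0 : 0 ≤ X) (k : ℕ) :
    ∀ p ∈ S.P.K, ∀ q ∈ S.P.K, a ≤ p → p ≤ q → q ≤ a' →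
      (S.P.B.filter (fun b => p < b ∧ b < q)).card ≤ k → S.L.m * (q - p) ≤ (k + 1) * X := by
  have base : ∀ p ∈ S.P.K, ∀ q ∈ S.P.K, a ≤ p → p ≤ q → q ≤ a' → NoB S.P.B p q →
      S.L.m * (q - p) ≤ X := by
    intro p hp q hq h1 h2 h3 hn
    rcases h2.eq_or_lt with rfl | h4
    · simpa using hX0
    · have e := S.L.sl_aff p q (S.P.sub hp).1 h4 (S.P.sub hq).2 hn q ⟨h2, le_rfl⟩
      have e2 : |S.P.T q - S.P.T p| = |S.L.sl p| * (q - p) := by
        rw [e, add_sub_cancel_left, abs_mul, abs_of_nonneg (sub_nonneg.2 h2)]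
      have e3 := hX p hp q hq h1 h2 h3
      have e4 := mul_le_mul_of_nonneg_right (S.L.sl_lo p) (sub_nonneg.2 h2)
      linarith
  induction k with
  | zero =>
    intro p hp q hq h1 h2 h3 hc
    have hn : NoB S.P.B p q := fun b hb hpq => by
      have : 0 < (S.P.B.filter (fun b => p < b ∧ b < q)).card :=
        Finset.card_pos.2 ⟨b, Finset.mem_filter.2 ⟨hb, hpq⟩⟩
      exact absurd (this.trans_le hc) (lt_irrefl _)
    simpa using base p hp q hq h1 h2 h3 hn
  | succ k ih =>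
    intro p hp q hq h1 h2 h3 hc
    by_cases hn : NoB S.P.B p q
    · have := base p hp q hq h1 h2 h3 hn
      push_cast
      nlinarith [mul_nonneg (Nat.cast_nonneg (α := ℝ) k) hX0]
    · have hne : (S.P.B.filter (fun b => p < b ∧ b < q)).Nonempty := by
        unfold NoB at hn
        push Not at hn
        obtain ⟨b, hb, h4⟩ := hn
        exact ⟨b, Finset.mem_filter.2 ⟨hb, h4⟩⟩
      obtain ⟨b, hb, hbm⟩ := Finset.exists_min_image _ id hne
      have hb' := Finset.mem_filter.1 hb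
      have hbK := S.P.B_sub b hb'.1
      have e1 := base p hp b hbK h1 hb'.2.1.le (hb'.2.2.le.trans h3) (fun c hc hpc =>
        absurd (hbm c (Finset.mem_filter.2 ⟨hc, hpc.1, hpc.2.trans hb'.2.2⟩)) (not_le.2 hpc.2))
      have e2 : (S.P.B.filter (fun c => b < c ∧ c < q)).card ≤ k := by
        have : S.P.B.filter (fun c => b < c ∧ c < q) ⊆
            (S.P.B.filter (fun b => p < b ∧ b < q)).erase b := by
          intro c hc
          rw [Finset.mem_filter] at hc
          exact Finset.mem_erase.2 ⟨hc.2.1.ne', Finset.mem_filter.2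
            ⟨hc.1, hb'.2.1.trans hc.2.1, hc.2.2⟩⟩
        have h5 := Finset.card_le_card this
        rw [Finset.card_erase_of_mem hb] at h5
        omega
      have e3 := ih b hbK q hq (h1.trans hb'.2.1.le) hb'.2.2.le h3 e2
      push_cast
      linarith

lemma expand_K : ∃ c, 0 < c ∧ c ≤ S.L.M ∧
    ∀ a ∈ S.P.K, ∀ a' ∈ S.P.K, c * |a - a'| ≤ |S.P.T a - S.P.T a'| := by
  have hG : 1 ≤ S.P.G := S.P.one_le_G
  have hm := S.L.m_pos
  have hD : (1 : ℝ) ≤ (S.P.B.card + 1) * (2 * S.P.G) := by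
    nlinarith [Nat.cast_nonneg (α := ℝ) S.P.B.card]
  have key : ∀ a ∈ S.P.K, ∀ a' ∈ S.P.K, a ≤ a' →
      S.L.m / ((S.P.B.card + 1) * (2 * S.P.G)) * |a - a'| ≤ |S.P.T a - S.P.T a'| := by
    intro a ha a' ha' h
    have h1 := S.dist_fold (a := a) (a' := a') (X := 2 * S.P.G * |S.P.T a' - S.P.T a|)
      (fun p hp q hq h1 h2 h3 => by
        have e1 := (three_point S.P.inj S.P.gain ha hp ha' h1 (h2.trans h3)).1
        have e2 := (three_point S.P.inj S.P.gain ha hq ha' (h1.trans h2) h3).1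
        have e3 := abs_sub_le (S.P.T q) (S.P.T a) (S.P.T p)
        rw [abs_sub_comm (S.P.T a)] at e3
        linarith) (by positivity) S.P.B.card a ha a' ha' le_rfl h le_rfl
        (Finset.card_filter_le _ _)
    rw [abs_sub_comm a, abs_of_nonneg (sub_nonneg.2 h), abs_sub_comm (S.P.T a),
      div_mul_eq_mul_div, div_le_iff₀ (by linarith)]
    linarith
  refine ⟨S.L.m / ((S.P.B.card + 1) * (2 * S.P.G)), div_pos hm (by linarith),
    (div_le_self hm.le hD).trans S.m_le_M, fun a ha a' ha' => ?_⟩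
  rcases le_total a a' with h | h
  · exact key a ha a' ha' h
  · rw [abs_sub_comm a, abs_sub_comm (S.P.T a)]
    exact key a' ha' a ha h

lemma dist_good {y w : ℝ} (hy : y ∈ Icc S.P.lo S.P.hi) (hw : w ∈ Icc S.P.lo S.P.hi)
    (h : ∀ b ∈ S.P.B, b ∉ uIcc y w) : |S.P.T w - S.P.T y| = |S.L.sl y| * |w - y| := by
  rcases lt_trichotomy y w with c | rfl | c
  · have hn : NoB S.P.B y w := fun b hb h1 =>
      h b hb (mem_uIcc_of_le h1.1.le h1.2.le)
    rw [S.L.sl_aff y w hy.1 c hw.2 hn w ⟨c.le, le_rfl⟩, add_sub_cancel_left, abs_mul]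
  · simp
  · have hyB : y < S.P.hi := lt_of_le_of_ne hy.2 fun e => h y (e ▸ S.P.hi_B) left_mem_uIcc
    obtain ⟨v, hv, hvm⟩ := Finset.exists_min_image (S.P.B.filter fun b => y < b) id
      ⟨S.P.hi, Finset.mem_filter.2 ⟨S.P.hi_B, hyB⟩⟩
    rw [Finset.mem_filter] at hv
    have hv2 : v ≤ S.P.hi := hvm _ (Finset.mem_filter.2 ⟨S.P.hi_B, hyB⟩)
    have hn : NoB S.P.B w v := fun b hb h1 => by
      rcases le_or_gt b y with c1 | c1
      · exact h b hb (mem_uIcc_of_ge h1.1.le c1)
      · exact absurd (hvm b (Finset.mem_filter.2 ⟨hb, c1⟩)) (not_le.2 h1.2)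
    have e1 := S.L.sl_eq w v hw.1 (c.trans hv.2) hv2 hn y c.le hv.2
    have e2 := S.L.sl_aff w v hw.1 (c.trans hv.2) hv2 hn y ⟨c.le, hv.2.le⟩
    rw [abs_sub_comm, e2, add_sub_cancel_left, abs_mul, e1, abs_sub_comm]

lemma dist_bad {y w : ℝ} (hy : y ∈ Icc S.P.lo S.P.hi) (hw : w ∈ Icc S.P.lo S.P.hi) :
    |S.P.T w - S.P.T y| ≤ S.L.M / S.L.m * (|S.L.sl y| * |w - y|) := by
  have hm := S.L.m_pos
  have hM : 0 ≤ S.L.M := hm.le.trans S.m_le_M
  refine (S.L.lip w hw y hy).trans ?_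
  calc S.L.M * |w - y| = S.L.M / S.L.m * (S.L.m * |w - y|) := by field_simp
    _ ≤ S.L.M / S.L.m * (|S.L.sl y| * |w - y|) := by
      gcongr
      exact S.L.sl_lo y

lemma distortion {y w : ℝ} (hy : y ∈ Icc S.P.lo S.P.hi) (hw : w ∈ Icc S.P.lo S.P.hi) (r : ℕ)
    (hd : ∀ i l, i < l → l < r → ∀ z ∈ uIcc y w, ∀ z' ∈ uIcc y w, S.P.T^[i] z ≠ S.P.T^[l] z') :
    |S.P.T^[r] w - S.P.T^[r] y| ≤
      (S.L.M / S.L.m) ^ S.P.B.card * (∏ i ∈ Finset.range r, |S.L.sl (S.P.T^[i] y)|) * |w - y| := by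
  classical
  have hm := S.L.m_pos
  have hq : 1 ≤ S.L.M / S.L.m := (one_le_div hm).2 S.m_le_M
  let bad : ℕ → Prop := fun i => ∃ b ∈ S.P.B, b ∈ uIcc (S.P.T^[i] y) (S.P.T^[i] w)
  have h1 : ∀ n : ℕ, |S.P.T^[n] w - S.P.T^[n] y| ≤
      (S.L.M / S.L.m) ^ ((Finset.range n).filter bad).card *
        (∏ i ∈ Finset.range n, |S.L.sl (S.P.T^[i] y)|) * |w - y| := by
    intro n
    induction n with
    | zero => simp
    | succ n ih =>
      have hy' := S.P.mapsI.iterate n hy
      have hw' := S.P.mapsI.iterate n hw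
      rw [Function.iterate_succ_apply', Function.iterate_succ_apply', Finset.prod_range_succ,
        Finset.range_add_one, Finset.filter_insert]
      have e0 := mul_le_mul_of_nonneg_left ih (abs_nonneg (S.L.sl (S.P.T^[n] y)))
      by_cases hb : bad n
      · rw [if_pos hb, Finset.card_insert_of_notMem (by simp), pow_succ]
        refine (S.dist_bad hy' hw').trans
          ((mul_le_mul_of_nonneg_left e0 (by linarith)).trans (le_of_eq ?_))
        ring
      · rw [if_neg hb, S.dist_good hy' hw' (fun b hb1 hb2 => hb ⟨b, hb1, hb2⟩)]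
        refine e0.trans (le_of_eq ?_)
        ring
  have h2 : ((Finset.range r).filter bad).card ≤ S.P.B.card := by
    have hex : ∀ i : ℕ, ∃ b : ℝ, bad i → b ∈ S.P.B ∧ ∃ z ∈ uIcc y w, S.P.T^[i] z = b := by
      intro i
      by_cases hb : bad i
      · obtain ⟨b, hb1, hb2⟩ := hb
        exact ⟨b, fun _ => ⟨hb1,
          intermediate_value_uIcc (S.P.cont.iterate i).continuousOn hb2⟩⟩
      · exact ⟨0, fun h => absurd h hb⟩
    choose f hf using hex
    refine Finset.card_le_card_of_injOn f (fun i hi => ?_) (fun i hi l hl e => ?_)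
    · exact (hf i (Finset.mem_filter.1 (Finset.mem_coe.1 hi)).2).1
    · have hi' := Finset.mem_filter.1 (Finset.mem_coe.1 hi)
      have hl' := Finset.mem_filter.1 (Finset.mem_coe.1 hl)
      obtain ⟨z, hz, ez⟩ := (hf i hi'.2).2
      obtain ⟨z', hz', ez'⟩ := (hf l hl'.2).2
      rcases lt_trichotomy i l with c | c | c
      · exact absurd (by rw [ez, ez', e]) (hd i l c (Finset.mem_range.1 hl'.1) z hz z' hz')
      · exact c
      · exact absurd (by rw [ez, ez', e]) (hd l i c (Finset.mem_range.1 hi'.1) z' hz' z hz)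
  refine (h1 r).trans ?_
  have h3 : 0 ≤ ∏ i ∈ Finset.range r, |S.L.sl (S.P.T^[i] y)| :=
    Finset.prod_nonneg fun i _ => abs_nonneg _
  gcongr

end Sys

end Pool.Agent.MP_8df504_an.C
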