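import Pool.Agent.MP_8df504_an.C.SysBase

set_option autoImplicit false

namespace Pool.Agent.MP_8df504_an.C

open Set Filter Topology MeasureTheory

/-! Points that follow the `pi`-orbit of a gap.

Hints.  Let `I k = {y | ∀ i ≤ k, T^[i] y ∈ cl (pi^[i] f)}`.  By induction on `k` (generalizing `f`,
peeling off the first step, or using `gap_aff` for the last step), `I k = [p k, q k]`, `T^[k]` is
affine on `I k` with slope `σ k = ∏ i<k, sl (pi^[i] f).1` and maps it onto `cl (pi^[k] f)`, so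
`(q k - p k) * ∏ i<k, r (pi^[i] f) = len f` (`prod_sl_chain`).  `chain_seg` packages this.  The
following points are the intersection of the nested segments (`p` increases, `q` decreases).
`fol_periodic`: uniqueness because `|T^[p n] y - T^[p n] y'| = s^n |y - y'| ≤ len f`; `T^[p] y`
follows `f` again, so `T^[p] y = y`; then distinguish the sign of the slope of `T^[p]` on `I p`, with
`x = p p`, `x' = q p` in the increasing case. -/

/-- an affine segment of full length inside `[u, v]` starts at one of the ends -/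
private lemma ep1_ends {a σ p q u v : ℝ} (_hpq : p < q) (huv : u < v) (h1 : a ∈ Icc u v)
    (h2 : a + σ * (q - p) ∈ Icc u v) (h3 : |σ| * (q - p) = v - u) :
    (0 < σ ∧ a = u) ∨ (σ < 0 ∧ a = v) := by
  rcases lt_trichotomy σ 0 with c | c | c
  · rw [abs_of_neg c] at h3
    exact Or.inr ⟨c, by linarith [h1.2, h2.1]⟩
  · rw [c, abs_zero, zero_mul] at h3
    linarith
  · rw [abs_of_pos c] at h3
    exact Or.inl ⟨c, by linarith [h1.1, h2.2]⟩

private lemma ep1_onto {a σ p q u v : ℝ} (hpq : p < q) (huv : u < v) (h1 : a ∈ Icc u v)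
    (h2 : a + σ * (q - p) ∈ Icc u v) (h3 : |σ| * (q - p) = v - u) {z : ℝ} (hz : z ∈ Icc u v) :
    ∃ y ∈ Icc p q, a + σ * (y - p) = z := by
  rcases ep1_ends hpq huv h1 h2 h3 with ⟨c, e⟩ | ⟨c, e⟩
  · rw [abs_of_pos c] at h3
    have e1 : σ * ((z - a) / σ) = z - a := mul_div_cancel₀ _ c.ne'
    refine ⟨p + (z - a) / σ, ⟨?_, ?_⟩, by rw [add_sub_cancel_left, e1]; ring⟩
    · have : 0 ≤ (z - a) / σ := div_nonneg (by linarith [hz.1]) c.le
      linarith
    · have : (z - a) / σ ≤ q - p := by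
        rw [div_le_iff₀ c]
        linarith [hz.2]
      linarith
  · rw [abs_of_neg c] at h3
    have e1 : σ * ((z - a) / σ) = z - a := mul_div_cancel₀ _ c.ne
    refine ⟨p + (z - a) / σ, ⟨?_, ?_⟩, by rw [add_sub_cancel_left, e1]; ring⟩
    · have : 0 ≤ (z - a) / σ := div_nonneg_of_nonpos (by linarith [hz.2]) c.le
      linarith
    · have : (z - a) / σ ≤ q - p := by
        rw [div_le_iff_of_neg c]
        linarith [hz.1]
      linarith

/-- the preimage of `[u, v]` under an affine function that takes the values `u` and `v` -/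
private lemma ep1_pre {a σ p u v y1 y2 : ℝ} (huv : u < v) (h1 : a + σ * (y1 - p) = u)
    (h2 : a + σ * (y2 - p) = v) :
    min y1 y2 < max y1 y2 ∧ |σ| * (max y1 y2 - min y1 y2) = v - u ∧
      ∀ y, y ∈ Icc (min y1 y2) (max y1 y2) ↔ a + σ * (y - p) ∈ Icc u v := by
  have e : σ * (y2 - y1) = v - u := by linarith
  rcases lt_trichotomy σ 0 with c | c | c
  · have hl : y2 < y1 := by
      by_contra hc
      have := mul_nonpos_of_nonpos_of_nonneg c.le (sub_nonneg.2 (not_lt.1 hc))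
      linarith
    rw [min_eq_right hl.le, max_eq_left hl.le, abs_of_neg c]
    refine ⟨hl, by linarith, fun y => ⟨fun hy => ⟨?_, ?_⟩, fun hy => ⟨?_, ?_⟩⟩⟩
    · nlinarith [hy.2]
    · nlinarith [hy.1]
    · by_contra hc
      nlinarith [hy.2, not_le.1 hc]
    · by_contra hc
      nlinarith [hy.1, not_le.1 hc]
  · rw [c, zero_mul] at e
    linarith
  · have hl : y1 < y2 := by
      by_contra hc
      have := mul_nonpos_of_nonneg_of_nonpos c.le (sub_nonpos.2 (not_lt.1 hc))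
      linarith
    rw [min_eq_left hl.le, max_eq_right hl.le, abs_of_pos c]
    refine ⟨hl, by linarith, fun y => ⟨fun hy => ⟨?_, ?_⟩, fun hy => ⟨?_, ?_⟩⟩⟩
    · nlinarith [hy.1]
    · nlinarith [hy.2]
    · by_contra hc
      nlinarith [hy.1, not_le.1 hc]
    · by_contra hc
      nlinarith [hy.2, not_le.1 hc]

namespace Sys

variable (S : Sys)

lemma chain_seg {f : ℝ × ℝ} (hf : f ∈ Gap S.P.K) (k : ℕ) :
    ∃ p q σ : ℝ, p < q ∧
      (∀ y, y ∈ Icc p q ↔ ∀ i ≤ k, S.P.T^[i] y ∈ cl (S.pi^[i] f)) ∧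
      (∀ y ∈ Icc p q, S.P.T^[k] y = S.P.T^[k] p + σ * (y - p)) ∧
      |σ| * (q - p) = len (S.pi^[k] f) ∧
      (q - p) * ∏ i ∈ Finset.range k, S.r (S.pi^[i] f) = len f := by
  induction k with
  | zero =>
    refine ⟨f.1, f.2, 1, hf.2.2.1, fun y => ⟨fun hy i hi => ?_, fun hy => hy 0 le_rfl⟩,
      fun y _ => by simp, by simp [len], by simp [len]⟩
    obtain rfl : i = 0 := by omega
    exact hy
  | succ k ih =>
    obtain ⟨p, q, σ, hpq, hI, hA, hL, hP⟩ := ih
    have hg := S.pi_iter_mem hf k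
    have hγ := S.pi_mem hg
    have hp : p ∈ Icc p q := ⟨le_rfl, hpq.le⟩
    have hq : q ∈ Icc p q := ⟨hpq.le, le_rfl⟩
    have hmem : ∀ y ∈ Icc p q, S.P.T^[k] y ∈ cl (S.pi^[k] f) := fun y hy => (hI y).1 hy k le_rfl
    have hA' : ∀ y ∈ Icc p q, S.P.T^[k + 1] y =
        S.P.T^[k + 1] p + (S.L.sl (S.pi^[k] f).1 * σ) * (y - p) := by
      intro y hy
      rw [Function.iterate_succ_apply', Function.iterate_succ_apply', S.gap_aff hg (hmem y hy),
        S.gap_aff hg (hmem p hp), hA y hy]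
      ring
    have hon : ∀ z ∈ cl (S.pi (S.pi^[k] f)), ∃ y ∈ Icc p q, S.P.T^[k + 1] y = z := by
      intro z hz
      obtain ⟨w, hw, e⟩ := S.pull_cl hg hz
      have h2 := hmem q hq
      rw [hA q hq] at h2
      obtain ⟨y, hy, e'⟩ := ep1_onto hpq hg.2.2.1 (hmem p hp) h2 hL hw
      refine ⟨y, hy, ?_⟩
      rw [Function.iterate_succ_apply', hA y hy, e', e]
    obtain ⟨y1, hy1, e1⟩ := hon _ ⟨le_rfl, hγ.2.2.1.le⟩
    obtain ⟨y2, hy2, e2⟩ := hon _ ⟨hγ.2.2.1.le, le_rfl⟩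
    rw [hA' y1 hy1] at e1
    rw [hA' y2 hy2] at e2
    obtain ⟨h1, h2, h3⟩ := ep1_pre hγ.2.2.1 e1 e2
    have hsub : ∀ y ∈ Icc (min y1 y2) (max y1 y2), y ∈ Icc p q := fun y hy =>
      ⟨(le_min hy1.1 hy2.1).trans hy.1, hy.2.trans (max_le hy1.2 hy2.2)⟩
    have hm : min y1 y2 ∈ Icc p q := hsub _ ⟨le_rfl, h1.le⟩
    refine ⟨min y1 y2, max y1 y2, S.L.sl (S.pi^[k] f).1 * σ, h1, fun y => ⟨fun hy i hi => ?_,
      fun hy => ?_⟩, fun y hy => ?_, ?_, ?_⟩
    · rcases Nat.lt_or_ge i (k + 1) with c | c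
      · exact (hI y).1 (hsub y hy) i (by omega)
      · obtain rfl : i = k + 1 := by omega
        rw [hA' y (hsub y hy), Function.iterate_succ_apply' S.pi]
        exact (h3 y).1 hy
    · have hy' : y ∈ Icc p q := (hI y).2 fun i hi => hy i (by omega)
      have h4 := hy (k + 1) le_rfl
      rw [hA' y hy', Function.iterate_succ_apply' S.pi] at h4
      exact (h3 y).2 h4
    · rw [hA' y (hsub y hy), hA' _ hm]
      ring
    · rw [Function.iterate_succ_apply' S.pi]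
      exact h2
    · have hr : S.r (S.pi^[k] f) * len (S.pi (S.pi^[k] f)) = img S.P.T (S.pi^[k] f) := by
        unfold Sys.r
        exact div_mul_cancel₀ _ (Gap.len_pos hγ).ne'
      rw [S.img_gap hg, ← hL] at hr
      have h2' : |S.L.sl (S.pi^[k] f).1 * σ| * (max y1 y2 - min y1 y2) =
          len (S.pi (S.pi^[k] f)) := h2
      have hne : |S.L.sl (S.pi^[k] f).1 * σ| ≠ 0 := by
        intro h0
        rw [h0, zero_mul] at h2'
        exact (Gap.len_pos hγ).ne h2'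
      have h5 : (max y1 y2 - min y1 y2) * S.r (S.pi^[k] f) = q - p := by
        refine mul_left_cancel₀ hne ?_
        rw [← mul_assoc, h2', mul_comm, hr, abs_mul, mul_assoc]
      rw [Finset.prod_range_succ, ← hP, ← h5]
      ring

lemma Fol.iter {S : Sys} {f : ℝ × ℝ} {y : ℝ} (h : S.Fol f y) (k : ℕ) :
    S.Fol (S.pi^[k] f) (S.P.T^[k] y) := by
  intro j
  rw [← Function.iterate_add_apply, ← Function.iterate_add_apply]
  exact h (j + k)

private lemma ep1_nest {f : ℝ × ℝ} (hf : f ∈ Gap S.P.K) {c : ℝ} (hc : 0 ≤ c)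
    (h : ∀ k, c * ∏ i ∈ Finset.range k, S.r (S.pi^[i] f) ≤ len f) :
    ∃ y, S.Fol f y ∧ S.Fol f (y + c) := by
  choose p q σ hpq hI _ _ hP using S.chain_seg hf
  have hcle : ∀ k, c ≤ q k - p k := by
    intro k
    have hpos : 0 < ∏ i ∈ Finset.range k, S.r (S.pi^[i] f) :=
      Finset.prod_pos fun i _ => lt_of_lt_of_le one_pos (S.one_le_r (S.pi_iter_mem hf i))
    have h1 := h k
    rw [← hP k] at h1
    exact le_of_mul_le_mul_right h1 hpos
  have hsub : ∀ k, ∀ y ∈ Icc (p (k + 1)) (q (k + 1)), y ∈ Icc (p k) (q k) := fun k y hy =>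
    (hI k y).2 fun i hi => (hI (k + 1) y).1 hy i (by omega)
  obtain ⟨y, hy⟩ := IsCompact.nonempty_iInter_of_sequence_nonempty_isCompact_isClosed
    (fun k => Icc (p k) (q k - c))
    (fun k y hy => ⟨(hsub k _ ⟨le_rfl, (hpq _).le⟩).1.trans hy.1,
      hy.2.trans (sub_le_sub_right (hsub k _ ⟨(hpq _).le, le_rfl⟩).2 c)⟩)
    (fun k => ⟨p k, le_rfl, by linarith [hcle k]⟩) isCompact_Icc (fun _ => isClosed_Icc)
  rw [mem_iInter] at hy
  refine ⟨y, fun k => (hI k _).1 ⟨(hy k).1, ?_⟩ k le_rfl, fun k => (hI k _).1 ⟨?_, ?_⟩ k le_rfl⟩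
  · linarith [(hy k).2]
  · linarith [(hy k).1]
  · linarith [(hy k).2]

lemma exists_fol {f : ℝ × ℝ} (hf : f ∈ Gap S.P.K) : ∃ y, S.Fol f y := by
  obtain ⟨y, hy, _⟩ := S.ep1_nest hf (c := 0) le_rfl fun k => by
    rw [zero_mul]
    exact (Gap.len_pos hf).le
  exact ⟨y, hy⟩

lemma fol_pull {f : ℝ × ℝ} (hf : f ∈ Gap S.P.K) (k : ℕ) {z : ℝ} (hz : S.Fol (S.pi^[k] f) z) :
    ∃ y, S.Fol f y ∧ S.P.T^[k] y = z := by
  obtain ⟨p, q, σ, hpq, hI, hA, hL, _⟩ := S.chain_seg hf k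
  have hg := S.pi_iter_mem hf k
  have hq : q ∈ Icc p q := ⟨hpq.le, le_rfl⟩
  have h2 := (hI q).1 hq k le_rfl
  rw [hA q hq] at h2
  obtain ⟨y, hy, e⟩ := ep1_onto hpq hg.2.2.1 ((hI p).1 ⟨le_rfl, hpq.le⟩ k le_rfl) h2 hL (hz 0)
  rw [← hA y hy] at e
  refine ⟨y, fun i => ?_, e⟩
  rcases le_total i k with c | c
  · exact (hI y).1 hy i c
  · obtain ⟨j, rfl⟩ := Nat.exists_eq_add_of_le' c
    rw [Function.iterate_add_apply, Function.iterate_add_apply, e]
    exact hz j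

lemma fol_nonper {f : ℝ × ℝ} (hf : f ∈ Gap S.P.K) (h : ∀ k, 0 < k → S.pi^[k] f ≠ f) :
    ∃ y y', S.Fol f y ∧ S.Fol f y' ∧ len f ≤ S.P.G * (y' - y) := by
  have hG : 0 < S.P.G := lt_of_lt_of_le one_pos ((S.one_le_r hf).trans (S.r_le_G hf))
  have hc : 0 ≤ len f / S.P.G := div_nonneg (Gap.len_pos hf).le hG.le
  have e : S.P.G * (len f / S.P.G) = len f := mul_div_cancel₀ _ hG.ne'
  obtain ⟨y, hy, hy'⟩ := S.ep1_nest hf hc fun k => by
    have h1 := mul_le_mul_of_nonneg_left (S.prod_r_chain_le hf k fun i hi _ => h i hi) hc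
    linarith
  refine ⟨y, _, hy, hy', ?_⟩
  rw [add_sub_cancel_left, e]

lemma fol_periodic {f : ℝ × ℝ} (hf : f ∈ Gap S.P.K) {p : ℕ} (hp : 1 ≤ p) (h : S.pi^[p] f = f)
    {s : ℝ} (hs : s = ∏ i ∈ Finset.range p, S.r (S.pi^[i] f)) (h1 : 1 < s) :
    (∀ y y', S.Fol f y → S.Fol f y' → y = y') ∧
    ∀ y, S.Fol f y →
      (len f ≤ (1 + s) * (y - f.1) ∧ len f ≤ (1 + s) * (f.2 - y)) ∨
      ∃ x ∈ cl f, ∃ x' ∈ cl f, S.P.T x ∈ cl (S.pi f) ∧ S.P.T x' ∈ cl (S.pi f) ∧
        s * (x - f.1) = (s - 1) * (y - f.1) ∧ s * (f.2 - x') = (s - 1) * (f.2 - y) := by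
  obtain ⟨a, b, σ, hab, hI, hA, hL, hP⟩ := S.chain_seg hf p
  rw [h] at hL
  rw [← hs] at hP
  have hσ : |σ| = s := by
    refine mul_right_cancel₀ (sub_pos.2 hab).ne' ?_
    rw [hL, ← hP, mul_comm]
  have hin : ∀ y, S.Fol f y → y ∈ Icc a b := fun y hy => (hI y).2 fun i _ => hy i
  have hnext : ∀ y, S.Fol f y → S.Fol f (S.P.T^[p] y) := by
    intro y hy
    have := hy.iter p
    rwa [h] at this
  have hpow : ∀ n : ℕ, ∀ y y', S.Fol f y → S.Fol f y' → s ^ n * |y - y'| ≤ len f := by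
    intro n
    induction n with
    | zero =>
      intro y y' hy hy'
      have h2 : y ∈ cl f := hy 0
      have h3 : y' ∈ cl f := hy' 0
      rw [pow_zero, one_mul, abs_le]
      unfold len
      constructor <;> linarith [h2.1, h2.2, h3.1, h3.2]
    | succ n ih =>
      intro y y' hy hy'
      have h2 := ih _ _ (hnext y hy) (hnext y' hy')
      have h3 : S.P.T^[p] y - S.P.T^[p] y' = σ * (y - y') := by
        rw [hA y (hin y hy), hA y' (hin y' hy')]
        ring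
      rw [h3, abs_mul, hσ, ← mul_assoc] at h2
      rwa [pow_succ]
  have huniq : ∀ y y', S.Fol f y → S.Fol f y' → y = y' := by
    intro y y' hy hy'
    by_contra hne
    have hpos : 0 < |y - y'| := abs_pos.2 (sub_ne_zero.2 hne)
    obtain ⟨n, hn⟩ := pow_unbounded_of_one_lt (len f / |y - y'|) h1
    rw [div_lt_iff₀ hpos] at hn
    linarith [hpow n y y' hy hy']
  refine ⟨huniq, fun y hy => ?_⟩
  have ha : a ∈ Icc a b := ⟨le_rfl, hab.le⟩
  have hb : b ∈ Icc a b := ⟨hab.le, le_rfl⟩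
  have hfix : S.P.T^[p] y = y := huniq _ _ (hnext y hy) hy
  rw [hA y (hin y hy)] at hfix
  have ha0 : a ∈ cl f := (hI a).1 ha 0 (by omega)
  have hb0 : b ∈ cl f := (hI b).1 hb 0 (by omega)
  have hap := (hI a).1 ha p le_rfl
  have hbp := (hI b).1 hb p le_rfl
  rw [h] at hap hbp
  rw [hA b hb] at hbp
  have hlen : len f = f.2 - f.1 := rfl
  rcases ep1_ends hab hf.2.2.1 hap hbp hL with ⟨c, e⟩ | ⟨c, e⟩
  · rw [abs_of_pos c] at hσ
    rw [hσ, e] at hfix
    refine Or.inr ⟨a, ha0, b, hb0, (hI a).1 ha 1 hp, (hI b).1 hb 1 hp, ?_, ?_⟩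
    · linarith
    · linarith
  · rw [abs_of_neg c] at hσ
    have hσ' : σ = -s := by linarith
    rw [hσ', e] at hfix
    have h2 := mul_le_mul_of_nonneg_left ha0.1 (show 0 ≤ s by linarith)
    have h3 := mul_le_mul_of_nonneg_left hb0.2 (show 0 ≤ s by linarith)
    exact Or.inl ⟨by linarith, by linarith⟩

end Sys

end Pool.Agent.MP_8df504_an.C
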