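import Pool.Agent.MP_8df504_an.C.EP1
import Pool.Agent.MP_8df504_an.C.Avoid

set_option autoImplicit false

namespace Pool.Agent.MP_8df504_an.C

open Set Filter Topology MeasureTheory

/-! Escaping points in the two flanks.

Hints.  Fix `Λ > 0`, `δ = c1 / Λ`, `F` from `tail_prod δ`, and the finite set `Bad` of gaps on the
`pi`-orbits of the `pi`-periodic gaps of `F`.  Take `j` large: `avoid`; `Λ (1+G) (v-u) ≤ len fs`
and `Λ (v-u) ≤ c1 len fs`, for the small flank `fs = e (j+1)`; `len fs ≤ len fb`, `fb = e j`;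
`fs ∉ Bad` (`len_tendsto`).  `D = Λ (v-u)`.  Call `y` far if `y ∉ (u-D, v+D)`.
(1) A point in `cl g` for a gap `g` that is not inner and not a flank is far
(`outside_of_not_inner`, `D ≤ len` of the flanks).  (2) Every point following `fb` is far (`s4`).
(3) There is `ys` following `fs` such that `T^[k] ys` is far whenever `pi^[k] fs = fs`: if `fs` is
not periodic use `fol_nonper`; otherwise take the minimal period `p`, `s = ∏ r ≤ G`
(`prod_r_chain_le`), `1 < s` (`long`, `one_le_r`), `s ≤ 1 + δ` (`tail_prod`, the gaps `pi^[i] fs`,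
`i < p`, are distinct and not in `F`), and `fol_periodic` with `s5`: `c1 (v-u) ≤ δ * dist`.
So the whole orbit of `ys` is far (`Fol.iter`, (1), (2), `avoid`).  (4) If `pi^[k] fb = fs` for some
minimal `k`, let `yb` be the pull-back of `ys` (`fol_pull`), otherwise any following point. -/

lemma ep2_small (S : Sys) {f : ℝ × ℝ} (hf : f ∈ Gap S.P.K) (hl : S.Long f) {u v D c δ : ℝ}
    (huv : u < v) (hc : 0 < c) (hδ : 0 < δ) (hfl : f.2 = u ∨ f.1 = v)
    (h1 : S.P.G * D ≤ len f) (h2 : (2 + δ) * D ≤ len f) (h3 : δ * D ≤ c)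
    (h5 : ∀ y ∈ cl f, S.P.T y ∈ cl (S.pi f) → y ≤ u - c ∨ v + c ≤ y)
    (hs : f ∈ Function.periodicPts S.pi →
      ∏ i ∈ Finset.range (Function.minimalPeriod S.pi f), S.r (S.pi^[i] f) ≤ 1 + δ) :
    ∃ y, S.Fol f y ∧ ∀ k, S.pi^[k] f = f → S.P.T^[k] y ≤ u - D ∨ v + D ≤ S.P.T^[k] y := by
  by_cases hp : f ∈ Function.periodicPts S.pi
  · have hp0 := Function.minimalPeriod_pos_of_mem_periodicPts hp
    have hs1 := hs hp
    obtain ⟨s, e⟩ : ∃ s, s = ∏ i ∈ Finset.range (Function.minimalPeriod S.pi f),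
      S.r (S.pi^[i] f) := ⟨_, rfl⟩
    have hs0 : 1 < s := by
      obtain ⟨q, hq⟩ := Nat.exists_eq_add_one.2 hp0
      have h4 : ∏ _i ∈ Finset.range q, (1 : ℝ) ≤ ∏ i ∈ Finset.range q, S.r (S.pi^[i + 1] f) :=
        Finset.prod_le_prod (fun _ _ => zero_le_one) fun i _ => S.one_le_r (S.pi_iter_mem hf _)
      rw [Finset.prod_const_one] at h4
      rw [e, hq, Finset.prod_range_succ']
      exact one_lt_mul_of_le_of_lt h4 hl
    rw [← e] at hs1
    obtain ⟨hu, hy⟩ := S.fol_periodic hf hp0 (Function.isPeriodicPt_minimalPeriod S.pi f) e hs0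
    obtain ⟨y, hf'⟩ := S.exists_fol hf
    refine ⟨y, hf', fun k hk => ?_⟩
    rw [hu (S.P.T^[k] y) y (hk ▸ hf'.iter k) hf']
    have h0 : f.1 ≤ y ∧ y ≤ f.2 := hf' 0
    rcases hy y hf' with h | ⟨x, hx, x', hx', h6, h7, h8, h9⟩
    · refine hfl.imp (fun e => ?_) fun e => ?_
      · nlinarith [h.2, h0.2]
      · nlinarith [h.1, h0.1]
    · refine hfl.imp (fun e => ?_) fun e => ?_
      · have h10 := (h5 x' hx' h7).resolve_right (by linarith [hx'.2])
        rw [e] at h9 h0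
        have h11 : δ * D ≤ δ * (u - y) := by nlinarith [h0.2]
        linarith [le_of_mul_le_mul_left h11 hδ]
      · have h10 := (h5 x hx h6).resolve_left (by linarith [hx.1])
        rw [e] at h8 h0
        have h11 : δ * D ≤ δ * (y - v) := by nlinarith [h0.1]
        linarith [le_of_mul_le_mul_left h11 hδ]
  · have hn : ∀ k, 0 < k → S.pi^[k] f ≠ f := fun k hk e => hp ⟨k, hk, e⟩
    obtain ⟨y, y', hy, hy', h⟩ := S.fol_nonper hf hn
    have h4 := le_of_mul_le_mul_left (h1.trans h) (zero_lt_one.trans_le S.P.one_le_G)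
    have h0 : f.1 ≤ y ∧ y ≤ f.2 := hy 0
    have h0' : f.1 ≤ y' ∧ y' ≤ f.2 := hy' 0
    have hk : ∀ k, S.pi^[k] f = f → k = 0 := fun k e =>
      (Nat.eq_zero_or_pos k).resolve_right fun h => hn k h e
    rcases hfl with e | e
    · refine ⟨y, hy, fun k e' => Or.inl ?_⟩
      rw [hk k e', Function.iterate_zero_apply]
      linarith [h0'.2]
    · refine ⟨y', hy', fun k e' => Or.inr ?_⟩
      rw [hk k e', Function.iterate_zero_apply]
      linarith [h0.1]

lemma ep2_pull (S : Sys) {f g : ℝ × ℝ} (hg : g ∈ Gap S.P.K) {Q : ℝ → Prop} {y : ℝ}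
    (hy : S.Fol f y) (h : ∀ k, S.pi^[k] f = f → Q (S.P.T^[k] y)) :
    ∃ z, S.Fol g z ∧ ∀ k, S.pi^[k] g = f → Q (S.P.T^[k] z) := by
  classical
  by_cases e : ∃ k, S.pi^[k] g = f
  · obtain ⟨z, hz, h1⟩ := S.fol_pull hg (Nat.find e) ((Nat.find_spec e).symm ▸ hy)
    refine ⟨z, hz, fun k hk => ?_⟩
    obtain ⟨l, rfl⟩ := Nat.exists_eq_add_of_le' (Nat.find_min' e hk)
    rw [Function.iterate_add_apply, Nat.find_spec e] at hk
    rw [Function.iterate_add_apply, h1]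
    exact h l hk
  · obtain ⟨z, hz⟩ := S.exists_fol hg
    exact ⟨z, hz, fun k hk => absurd ⟨k, hk⟩ e⟩

lemma ep2_esc (S : Sys) {fL fR : ℝ × ℝ} (hL : fL ∈ Gap S.P.K) (hR : fR ∈ Gap S.P.K) {D : ℝ}
    (huv : fL.2 ≤ fR.1) (h1 : D ≤ len fL) (h2 : D ≤ len fR)
    (h : ∀ f, f = fL ∨ f = fR → ∃ y, S.Fol f y ∧ ∀ k, ¬ Inner fL.2 fR.1 (S.pi^[k] f) ∧
      (S.pi^[k] f = fL ∨ S.pi^[k] f = fR →
        S.P.T^[k] y ≤ fL.2 - D ∨ fR.1 + D ≤ S.P.T^[k] y)) : S.P.Esc fL.2 fR.1 D := by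
  have key : ∀ f, f = fL ∨ f = fR → ∃ y ∈ cl f, ∀ k, S.P.T^[k] y ∉ Ioo (fL.2 - D) (fR.1 + D) := by
    intro f hf
    obtain ⟨y, hy, h3⟩ := h f hf
    refine ⟨y, hy 0, fun k hk => ?_⟩
    by_cases e : S.pi^[k] f = fL ∨ S.pi^[k] f = fR
    · rcases (h3 k).2 e with h4 | h4 <;> linarith [hk.1, hk.2]
    · unfold len at h1 h2
      rcases outside_of_not_inner hL hR (S.pi_iter_mem (hf.elim (· ▸ hL) (· ▸ hR)) k) huv
        (fun h => e (Or.inl h)) (fun h => e (Or.inr h)) (h3 k).1 with h4 | h4 <;>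
      linarith [hk.1, hk.2, (hy k).1, (hy k).2]
  obtain ⟨yL, h3, h4⟩ := key fL (Or.inl rfl)
  obtain ⟨yR, h5, h6⟩ := key fR (Or.inr rfl)
  exact ⟨yL, yR, h3.2, h5.1, fun z hz h7 h8 =>
    ⟨(Gap.le_or_ge hL hz).resolve_left (not_le.2 (h3.1.trans_lt h7)),
      (Gap.le_or_ge hR hz).resolve_right (not_le.2 (h8.trans_le h5.2))⟩, h4, h6⟩

lemma ep2_tail {S : Sys} (V : Lev S) {δ : ℝ} (hδ : 0 < δ) : ∀ᶠ j in atTop,
    V.e (j + 1) ∈ Function.periodicPts S.pi →
      ∏ i ∈ Finset.range (Function.minimalPeriod S.pi (V.e (j + 1))),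
        S.r (S.pi^[i] (V.e (j + 1))) ≤ 1 + δ := by
  classical
  obtain ⟨F, hF⟩ := S.tail_prod hδ
  have h1 : ∀ g ∈ F.biUnion fun g => (Finset.range (Function.minimalPeriod S.pi g)).image
      fun k => S.pi^[k] g, ∀ᶠ j in atTop, V.e (j + 1) ≠ g := fun g _ => by
    by_cases h : 0 < len g
    · exact ((tendsto_add_atTop_nat 1).eventually (V.len_tendsto.eventually_lt_const h)).mono
        fun j hj e => hj.ne (congrArg len e)
    · exact Eventually.of_forall fun j e => h (e ▸ Gap.len_pos (V.gap _))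
  filter_upwards [(Finset.eventually_all _).2 h1] with j hj hp
  have hg := V.gap (j + 1)
  generalize V.e (j + 1) = f at *
  rw [← Finset.prod_image (f := S.r) (g := fun i => S.pi^[i] f)
    (Finset.coe_range _ ▸ Function.iterate_injOn_Iio_minimalPeriod)]
  refine hF _ (fun g hg' => ?_) (Finset.disjoint_left.2 fun g hg' hgF => ?_)
  · obtain ⟨i, -, rfl⟩ := Finset.mem_image.1 hg'
    exact S.pi_iter_mem hg i
  · obtain ⟨i, hi, rfl⟩ := Finset.mem_image.1 hg'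
    refine hj f (Finset.mem_biUnion.2 ⟨_, hgF, Finset.mem_image.2
      ⟨(Function.minimalPeriod S.pi f - i) % _, Finset.mem_range.2 (Nat.mod_lt _ ?_), ?_⟩⟩) rfl
    · rw [Function.minimalPeriod_apply_iterate hp]
      exact Function.minimalPeriod_pos_of_mem_periodicPts hp
    · rw [Function.iterate_mod_minimalPeriod_eq, ← Function.iterate_add_apply,
        Nat.sub_add_cancel (Finset.mem_range.1 hi).le, Function.iterate_minimalPeriod]

lemma Lev.escape {S : Sys} (V : Lev S) {Λ : ℝ} (hΛ : 0 < Λ) :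
    ∀ᶠ j in atTop, S.P.Esc (V.u j) (V.v j) (Λ * (V.v j - V.u j)) := by
  have hc := V.c1_pos
  have hG := S.P.one_le_G
  have hδ : 0 < V.c1 / Λ := by positivity
  have hM : 0 < Λ * (S.P.G + 2 + V.c1 / Λ) := by positivity
  filter_upwards [V.avoid, ep2_tail V hδ, V.len_small one_pos, V.small _ hδ,
    V.small _ (inv_pos.2 hM)] with j h1 h2 h3 h4 h5
  have huv := V.uv j
  have hD : 0 < Λ * (V.v j - V.u j) := mul_pos hΛ (sub_pos.2 huv)
  rw [le_inv_mul_iff₀ hM, mul_right_comm] at h5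
  rw [div_mul_eq_mul_div, le_div_iff₀' hΛ] at h4
  have h6 := mul_pos hD hδ
  have h7 := mul_le_mul_of_nonneg_left hG hD.le
  obtain ⟨ys, hs, hs'⟩ := ep2_small S (D := Λ * (V.v j - V.u j)) (V.gap (j + 1)) (V.long _) huv
    (mul_pos hc (sub_pos.2 huv)) hδ ((V.flank j).imp And.left And.right) (by linarith)
    (by linarith) (le_of_eq (by field_simp)) (V.s5 j) h2
  obtain ⟨yb, hb, hb'⟩ := ep2_pull S (V.gap j)
    (Q := fun y => y ≤ V.u j - Λ * (V.v j - V.u j) ∨ V.v j + Λ * (V.v j - V.u j) ≤ y) hs hs'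
  have key : ∀ f, f = V.e (j + 1) ∨ f = V.e j → ∃ y, S.Fol f y ∧ ∀ k,
      ¬ Inner (V.u j) (V.v j) (S.pi^[k] f) ∧ (S.pi^[k] f = V.e (j + 1) ∨ S.pi^[k] f = V.e j →
        S.P.T^[k] y ≤ V.u j - Λ * (V.v j - V.u j) ∨
          V.v j + Λ * (V.v j - V.u j) ≤ S.P.T^[k] y) := by
    have h8 : ∀ y, S.Fol (V.e j) y →
        y ≤ V.u j - Λ * (V.v j - V.u j) ∨ V.v j + Λ * (V.v j - V.u j) ≤ y := fun y hy =>
      (V.s4 j y (hy 0) (hy 1)).imp (fun h => by linarith) fun h => by linarith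
    rintro f (rfl | rfl)
    · exact ⟨ys, hs, fun k => ⟨h1 _ (Or.inr rfl) k,
        fun h => h.elim (hs' k) fun e => h8 _ (e ▸ hs.iter k)⟩⟩
    · exact ⟨yb, hb, fun k => ⟨h1 _ (Or.inl rfl) k,
        fun h => h.elim (hb' k) fun e => h8 _ (e ▸ hb.iter k)⟩⟩
  have h9 : Λ * (V.v j - V.u j) ≤ len (V.e (j + 1)) := by linarith
  generalize Λ * (V.v j - V.u j) = D at key h9 ⊢
  rcases V.flank j with ⟨e1, e2⟩ | ⟨e1, e2⟩ <;> rw [← e1, ← e2] at key huv ⊢
  · exact ep2_esc S (V.gap _) (V.gap _) huv.le h9 (by linarith) key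
  · exact ep2_esc S (V.gap _) (V.gap _) huv.le (by linarith) h9 fun f hf => by
      simpa only [or_comm (a := S.pi^[_] f = V.e j)] using key f hf.symm

end Pool.Agent.MP_8df504_an.C
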