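import Pool.Agent.MP_8df504_an.C.BLBase

set_option autoImplicit false

namespace Pool.Agent.MP_8df504_an.C

open Set Filter Topology MeasureTheory

/-! Krylov-Bogolyubov on the symbolic extension.

Hints.  For `n ≥ 1` take `x n ∈ Cyl n ω ∩ Lam` with `|gam n ω| < 4` and its itinerary `w n`
(`exists_itin`; it agrees with `ω` below `n` by `piece_unique`).  On the compact metrizable space
`E = Icc 0 1 × (ℕ → Fin m)` let `F` be the continuous map `(x, ω) ↦ (T x, sh ω 1)` and `μ n` the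
average of the Dirac masses at `F^[i] (x n, w n)`, `i < n`.  `ProbabilityMeasure E` is compact; take
the limit `μ` along `hyperfilter ℕ` (or a cluster point).  Invariance: for bounded continuous `φ`,
`∫ φ ∘ F dμ n - ∫ φ dμ n → 0` (`ext_of_forall_integral_eq_of_IsFiniteMeasure` or
`FiniteMeasure.ext_of_forall_integral_eq`).  The sets
`Y k = {z | z.1 ∈ closure (Cyl k z.2 ∩ Lam)}` are closed (finite union over the first `k` symbols)
and have full `μ n` measure (`T^[i] x ∈ Cyl k (sh w i) ∩ Lam`), so full `μ` measure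
(`ProbabilityMeasure.limsup_measure_closed_le_of_tendsto`, or integrate the bounded continuous
function `min 1 (infDist · (Y k))`).  `z ↦ log |c (z.2 0)|` is continuous and its `μ n` integral is
`log |gam n| / n ≤ log 4 / n`.  Finally push `μ` forward to `ℝ × (ℕ → Fin m)`. -/

section Gen

open scoped ENNReal BoundedContinuousFunction

variable {E : Type*} [MeasurableSpace E]

/-- the empirical measure of the first `n + 1` terms of a sequence -/
noncomputable def kb_emp (y : ℕ → E) (n : ℕ) : Measure E :=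
  ((n + 1 : ℕ) : ℝ≥0∞)⁻¹ • ∑ i ∈ Finset.range (n + 1), Measure.dirac (y i)

lemma kb_emp_prob (y : ℕ → E) (n : ℕ) : IsProbabilityMeasure (kb_emp y n) := by
  constructor
  simp only [kb_emp, Measure.smul_apply, Measure.coe_finset_sum, Finset.sum_apply, measure_univ,
    Finset.sum_const, Finset.card_range, nsmul_eq_mul, mul_one, smul_eq_mul]
  exact ENNReal.inv_mul_cancel (Nat.cast_ne_zero.2 n.succ_ne_zero) (ENNReal.natCast_ne_top _)

lemma kb_emp_null {y : ℕ → E} (n : ℕ) {Y : Set E} (hY : MeasurableSet Y) (h : ∀ i, y i ∈ Y) :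
    kb_emp y n Yᶜ = 0 := by
  simp only [kb_emp, Measure.smul_apply, Measure.coe_finset_sum, Finset.sum_apply, smul_eq_mul]
  rw [Finset.sum_eq_zero fun i _ => ?_, mul_zero]
  rw [Measure.dirac_apply' _ hY.compl, indicator_of_notMem (not_not.2 (h i))]

lemma kb_emp_int [MeasurableSingletonClass E] (y : ℕ → E) (n : ℕ) (φ : E → ℝ) :
    ∫ x, φ x ∂kb_emp y n = (∑ i ∈ Finset.range (n + 1), φ (y i)) / ((n : ℝ) + 1) := by
  rw [kb_emp, integral_smul_measure,
    integral_finset_sum_measure fun i _ => integrable_dirac (by simp)]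
  simp only [integral_dirac, ENNReal.toReal_inv, ENNReal.toReal_natCast, smul_eq_mul]
  push_cast
  ring

lemma kb_gen [TopologicalSpace E] [T2Space E] [BorelSpace E] [HasOuterApproxClosed E]
    {F : E → E} (hF : Continuous F) {K : Set E} (hK : IsCompact K) (z : ℕ → E)
    (hz : ∀ n i, F^[i] (z n) ∈ K) :
    ∃ μ : Measure E, IsProbabilityMeasure μ ∧ MeasurePreserving F μ μ ∧
      (∀ Y, IsClosed Y → (∀ n i, F^[i] (z n) ∈ Y) → ∀ᵐ x ∂μ, x ∈ Y) ∧
      ∀ (φ : E →ᵇ ℝ) (C : ℝ), (∀ n, ∑ i ∈ Finset.range (n + 1), φ (F^[i] (z n)) ≤ C) →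
        ∫ x, φ x ∂μ ≤ 0 := by
  let ν : ℕ → ProbabilityMeasure E := fun n => ⟨kb_emp (fun i => F^[i] (z n)) n, kb_emp_prob _ _⟩
  have hν : ∀ n, (ν n : Measure E) = kb_emp (fun i => F^[i] (z n)) n := fun n => rfl
  have hc := isCompact_setOfPred_probabilityMeasure_mass_eq_compl_isCompact_le (E := E)
    (u := fun _ => 0) (K := fun _ => K) tendsto_const_nhds (fun _ => hK) (Or.inr monotone_const)
  obtain ⟨μ, -, hμ⟩ := hc.ultrafilter_le_nhds (Ultrafilter.map ν (hyperfilter ℕ)) (by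
    rw [Ultrafilter.coe_map, le_principal_iff, mem_map]
    refine univ_mem' fun n _ => le_of_eq ?_
    rw [ProbabilityMeasure.null_iff_toMeasure_null, hν]
    exact kb_emp_null n hK.isClosed.measurableSet (hz n))
  have ht : Tendsto ν (hyperfilter ℕ) (𝓝 μ) := hμ
  have hi := ProbabilityMeasure.tendsto_iff_forall_integral_tendsto.1 ht
  have h0 : ∀ C : ℝ, Tendsto (fun n : ℕ => C / ((n : ℝ) + 1)) (hyperfilter ℕ) (𝓝 0) := fun C =>
    (tendsto_const_nhds.div_atTop (tendsto_atTop_add_const_right _ _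
      tendsto_natCast_atTop_atTop)).mono_left Nat.hyperfilter_le_atTop
  refine ⟨μ, inferInstance, ⟨hF.measurable, ?_⟩, fun Y hY h => ?_, fun φ C h => ?_⟩
  · refine ext_of_forall_integral_eq_of_IsFiniteMeasure fun φ => ?_
    rw [integral_map hF.aemeasurable φ.continuous.aestronglyMeasurable]
    have h1 := (hi (φ.compContinuous ⟨F, hF⟩)).sub (hi φ)
    refine sub_eq_zero.1 (tendsto_nhds_unique h1 (squeeze_zero_norm (fun n => ?_) (h0 (2 * ‖φ‖))))
    rw [hν, kb_emp_int, kb_emp_int, ← sub_div, ← Finset.sum_sub_distrib, norm_div,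
      Real.norm_of_nonneg (by positivity : (0 : ℝ) ≤ n + 1)]
    gcongr
    have h2 := Finset.sum_range_sub (fun i => φ (F^[i] (z n))) (n + 1)
    simp only [Function.iterate_succ_apply'] at h2
    refine le_of_eq_of_le (congrArg norm h2) ((norm_sub_le _ _).trans ?_)
    linarith [φ.norm_coe_le_norm (F (F^[n] (z n))), φ.norm_coe_le_norm (F^[0] (z n))]
  · have h1 := ProbabilityMeasure.le_liminf_measure_open_of_tendsto ht hY.isOpen_compl
    simp only [hν, kb_emp_null _ hY.measurableSet (h _), liminf_const] at h1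
    exact le_antisymm h1 zero_le
  · refine le_of_tendsto_of_tendsto' (hi φ) (h0 C) fun n => ?_
    rw [hν, kb_emp_int]
    gcongr
    exact h n

end Gen

lemma kb_iter (D : BL) (x : ℝ) (w : ℕ → Fin D.m) (i : ℕ) :
    (fun z : ℝ × (ℕ → Fin D.m) => (D.T z.1, sh z.2 1))^[i] (x, w) = (D.T^[i] x, sh w i) := by
  induction i with
  | zero => rfl
  | succ i ih =>
    rw [Function.iterate_succ_apply', ih, Function.iterate_succ_apply']
    refine Prod.ext rfl (funext fun j => ?_)
    simp only [sh]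
    congr 1
    omega

lemma kb_closed (D : BL) (k : ℕ) :
    IsClosed {z : ℝ × (ℕ → Fin D.m) | z.1 ∈ closure (D.Cyl k z.2 ∩ D.Lam)} := by
  rw [← isOpen_compl_iff, isOpen_iff_mem_nhds]
  intro z0 h0
  have h1 : ∀ᶠ z in 𝓝 z0, ∀ i ∈ Finset.range k, z.2 i = z0.2 i := by
    rw [Filter.eventually_all_finset]
    intro i _
    have h1 : IsOpen ((fun z : ℝ × (ℕ → Fin D.m) => z.2 i) ⁻¹' {z0.2 i}) :=
      (isOpen_discrete _).preimage ((continuous_apply i).comp continuous_snd)
    exact h1.mem_nhds rfl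
  have h2 : ∀ᶠ z in 𝓝 z0, z.1 ∉ closure (D.Cyl k z0.2 ∩ D.Lam) :=
    (isClosed_closure.isOpen_compl.preimage continuous_fst).mem_nhds h0
  filter_upwards [h1, h2] with z h3 h4 h5
  refine h4 (closure_mono (inter_subset_inter_left _ fun x hx i hi => ?_) h5)
  rw [← h3 i (Finset.mem_range.2 hi)]
  exact hx i hi

lemma BL.kb (D : BL) (h : ¬ D.Expd) :
    ∃ μ : Measure (ℝ × (ℕ → Fin D.m)), IsProbabilityMeasure μ ∧
      MeasurePreserving (fun z : ℝ × (ℕ → Fin D.m) => (D.T z.1, sh z.2 1)) μ μ ∧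
      (∀ᵐ z ∂μ, ∀ k, z.1 ∈ closure (D.Cyl k z.2 ∩ D.Lam)) ∧
      ∫ z, Real.log |D.c (z.2 0)| ∂μ ≤ 0 := by
  have h1 : ∀ n : ℕ, ∃ x ∈ D.Lam, ∃ w : ℕ → Fin D.m, (∀ k, x ∈ D.Cyl k w) ∧
      |D.gam (n + 1) w| < 4 := by
    intro n
    by_contra h2
    refine h ⟨n + 1, Nat.le_add_left 1 n, fun ω ⟨x, hx, hx'⟩ => le_of_not_gt fun h3 => h2 ?_⟩
    obtain ⟨w, hw⟩ := D.exists_itin hx'
    refine ⟨x, hx', w, hw, lt_of_eq_of_lt (congrArg abs (Finset.prod_congr rfl fun i hi => ?_)) h3⟩
    have h4 := Finset.mem_range.1 hi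
    rw [D.piece_unique (hw (n + 1) i h4) (hx i h4)]
  choose x hx w hw hg using h1
  have hF : Continuous fun z : ℝ × (ℕ → Fin D.m) => (D.T z.1, sh z.2 1) :=
    (D.cont.comp continuous_fst).prodMk
      (continuous_pi fun i => (continuous_apply (i + 1)).comp continuous_snd)
  have hL : ∀ n i, D.T^[i] (x n) ∈ D.Lam := fun n i => D.lam_maps.iterate i (hx n)
  obtain ⟨μ, h2, h3, h4, h5⟩ := kb_gen hF (K := Icc 0 1 ×ˢ univ)
    (isCompact_Icc.prod isCompact_univ) (fun n => (x n, w n)) fun n i => by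
      rw [kb_iter]
      exact ⟨Ioo_subset_Icc_self (D.lam_sub (hL n i)), mem_univ _⟩
  refine ⟨μ, h2, h3, ae_all_iff.2 fun k => h4 _ (kb_closed D k) fun n i => ?_, ?_⟩
  · rw [kb_iter]
    exact subset_closure ⟨(D.cyl_add (hw n (i + k))).2, hL n i⟩
  · refine h5 ((BoundedContinuousFunction.mkOfCompact ⟨fun j : Fin D.m => Real.log |D.c j|,
      continuous_of_discreteTopology⟩).compContinuous
      ⟨fun z => z.2 0, (continuous_apply 0).comp continuous_snd⟩) (Real.log 4) fun n => ?_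
    have h6 : ∀ i ∈ Finset.range (n + 1), |D.c (w n i)| ≠ 0 := fun i hi =>
      abs_ne_zero.2 (D.c_ne ⟨x n, hw n (n + 1), hx n⟩ (Finset.mem_range.1 hi))
    have h7 := hg n
    rw [BL.gam, Finset.abs_prod] at h7
    have h8 := Real.log_le_log (Finset.prod_pos fun i hi =>
      lt_of_le_of_ne (abs_nonneg _) (h6 i hi).symm) h7.le
    rw [Real.log_prod h6] at h8
    refine le_of_eq_of_le (Finset.sum_congr rfl fun i _ => ?_) h8
    rw [kb_iter]
    show Real.log |D.c (w n (0 + i))| = _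
    rw [zero_add]

end Pool.Agent.MP_8df504_an.C
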