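import Pool.Agent.MP_8df504_an.C.Base

set_option autoImplicit false

namespace Pool.Agent.MP_8df504_an.C

open Set Filter Topology MeasureTheory

/-! Removing forward invariant parts on which the integral is positive.

Hints.  `restrict_preserving`: `E ⊆ F ⁻¹' E` with equal finite measures, so `F ⁻¹' E =ᵐ E`; use
`MeasurePreserving.restrict_preimage` and `Measure.restrict_congr_set`; the same a.e. equality holds
for complements.  `remove_pos`: `k p * ∫ (E p) ψ = ∫ (E p) ∑ i<k p, ψ (F^[l p + i] z)`, which is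
`≥ 0`, and `> 0` if `μ (E p) ≠ 0` (`integral_pos_iff_support_of_nonneg_ae`).  Sum over `p`
(`hasSum_integral_iUnion` or `integral_iUnion`); `∫ ψ = ∫ (⋃ E) ψ + ∫ (⋃ E)ᶜ ψ`. -/

lemma restrict_preserving {X : Type} [MeasurableSpace X] (μ : Measure X) [IsFiniteMeasure μ]
    {F : X → X} (hF : MeasurePreserving F μ μ) {E : Set X} (hE : MeasurableSet E)
    (hm : MapsTo F E E) :
    MeasurePreserving F (μ.restrict E) (μ.restrict E) ∧
      MeasurePreserving F (μ.restrict Eᶜ) (μ.restrict Eᶜ) := by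
  have h1 : E =ᵐ[μ] F ⁻¹' E :=
    ae_eq_of_subset_of_measure_ge (fun x hx => hm hx) (hF.measure_preimage hE.nullMeasurableSet).le
      hE.nullMeasurableSet (measure_ne_top _ _)
  have h2 : (Eᶜ : Set X) =ᵐ[μ] F ⁻¹' Eᶜ := by
    rw [preimage_compl]
    exact h1.compl
  constructor
  · have := hF.restrict_preimage hE
    rwa [← Measure.restrict_congr_set h1] at this
  · have := hF.restrict_preimage hE.compl
    rwa [← Measure.restrict_congr_set h2] at this

private lemma nper_one {X : Type} [MeasurableSpace X] (ν : Measure X)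
    {F : X → X} (hF : MeasurePreserving F ν ν) {ψ : X → ℝ} (hψ : Integrable ψ ν) (k l : ℕ)
    (hpos : ∀ᵐ z ∂ν, 0 < ∑ i ∈ Finset.range k, ψ (F^[l + i] z)) (hν : ν ≠ 0) :
    0 < ∫ z, ψ z ∂ν := by
  have hi : ∀ n, Integrable (fun z => ψ (F^[n] z)) ν := fun n =>
    (hF.iterate n).integrable_comp_of_integrable hψ
  have he : ∀ n, ∫ z, ψ (F^[n] z) ∂ν = ∫ z, ψ z ∂ν := fun n => by
    have h1 := integral_map (μ := ν) (hF.iterate n).measurable.aemeasurable
      (f := ψ) (by rw [(hF.iterate n).map_eq]; exact hψ.aestronglyMeasurable)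
    rw [(hF.iterate n).map_eq] at h1
    exact h1.symm
  have hs : ∫ z, ∑ i ∈ Finset.range k, ψ (F^[l + i] z) ∂ν = k * ∫ z, ψ z ∂ν := by
    rw [integral_finsetSum _ fun i _ => hi _]
    simp [he]
  have hp : 0 < ∫ z, ∑ i ∈ Finset.range k, ψ (F^[l + i] z) ∂ν := by
    rw [integral_pos_iff_support_of_nonneg_ae (hpos.mono fun z hz => hz.le)
      (integrable_finsetSum _ fun i _ => hi _), pos_iff_ne_zero]
    intro h0
    have h1 : ∀ᵐ z ∂ν, False := by
      filter_upwards [hpos, measure_eq_zero_iff_ae_notMem.1 h0] with z a1 a2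
      exact a2 a1.ne'
    exact hν (ae_eq_bot.1 (eventually_false_iff_eq_bot.1 h1))
  rw [hs] at hp
  exact pos_of_mul_pos_left (mul_comm (k : ℝ) _ ▸ hp) (Nat.cast_nonneg k)

lemma remove_pos {X : Type} [MeasurableSpace X] (μ : Measure X) [IsProbabilityMeasure μ]
    {F : X → X} (hF : MeasurePreserving F μ μ) {ψ : X → ℝ} (hψ : Integrable ψ μ)
    (hint : ∫ z, ψ z ∂μ ≤ 0) (E : ℕ → Set X) (hE : ∀ p, MeasurableSet (E p))
    (hd : Pairwise (fun p q => Disjoint (E p) (E q))) (hm : ∀ p, MapsTo F (E p) (E p))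
    (k l : ℕ → ℕ)
    (hpos : ∀ p, ∀ᵐ z ∂μ, z ∈ E p → 0 < ∑ i ∈ Finset.range (k p), ψ (F^[l p + i] z)) :
    μ (⋃ p, E p)ᶜ ≠ 0 ∧ ∫ z in (⋃ p, E p)ᶜ, ψ z ∂μ ≤ 0 := by
  have h1 : ∀ p, μ (E p) ≠ 0 → 0 < ∫ z in E p, ψ z ∂μ := fun p hp =>
    nper_one _ (restrict_preserving μ hF (hE p) (hm p)).1 hψ.restrict (k p) (l p)
      ((ae_restrict_iff' (hE p)).2 (hpos p)) fun h => hp (Measure.restrict_eq_zero.1 h)
  have h2 : ∀ p, 0 ≤ ∫ z in E p, ψ z ∂μ := fun p => by
    by_cases hp : μ (E p) = 0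
    · rw [Measure.restrict_eq_zero.2 hp, integral_zero_measure]
    · exact (h1 p hp).le
  have h3 := hasSum_integral_iUnion hE hd hψ.integrableOn
  have h4 := integral_add_compl (MeasurableSet.iUnion hE) hψ
  have h5 := h3.nonneg h2
  refine ⟨fun h0 => ?_, by linarith⟩
  have h6 : ∃ p, μ (E p) ≠ 0 := by
    by_contra hc
    push Not at hc
    have h7 := measure_add_measure_compl (μ := μ) (MeasurableSet.iUnion hE)
    rw [h0, measure_iUnion_null hc, measure_univ] at h7
    simp at h7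
  obtain ⟨p, hp⟩ := h6
  have h8 := le_hasSum h3 p fun q _ => h2 q
  rw [Measure.restrict_eq_zero.2 h0, integral_zero_measure] at h4
  linarith [h1 p hp]

end Pool.Agent.MP_8df504_an.C
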