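import Pool.Agent.MP_8df504_an.C.SysBase

set_option autoImplicit false

namespace Pool.Agent.MP_8df504_an.C

open Set Filter Topology MeasureTheory

/-! Infinitely many long gaps give a two-sided turning point; reflection; heights.

`exists_turn`: the left ends of infinitely many long gaps accumulate at some `z ∈ K` and their
lengths tend to `0` (`finite_big`), so every neighbourhood of `z` contains (the closure of) a long
gap.  `T` is affine with
nonzero slope on `[z, z+δ]` (if `z < hi`) and on `[z-δ, z]` (if `lo < z`).  Suppose not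
(`TwoMax z` or `TwoMin z`).  Then there is an interval `N` (`[z-δ,z+δ]` if the slopes have the same
sign, `[z,z+δ]` or `[z-δ,z]` if `K` does not accumulate at `z` from the other side) on which `T` is
strictly monotone or antitone and which contains `K ∩ (z-δ', z+δ')`.  With `inv_cont`, for a gap `g`
close to `z` any point of `K` strictly between `T g.1` and `T g.2` is `T y` with `y ∈ K ∩ N`
(`surjK`), hence `y` strictly between `g.1` and `g.2`: impossible; so `g` is not long
(`not_long_of_no_point`).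

`exists_neg`: `T' y = - T (-y)`, `K' = -K`, `lo' = -hi`, `B' = B.image (-·)`, `x' = -x`; the edges of
`A.image (-·)` are the pairs `(-g.2, -g.1)`.

`exists_ht`: `sp = |sl c|`, `sm = |sl (c - δ₀)|` for a small `δ₀` with no break point in
`(c - δ₀, c)` and in `(c, c+δ₀)`; the signs of the slopes come from `TwoMax`.  `cover` from `surjK`
and `inv_cont`. -/

lemma Sys.exists_ht (S : Sys) {c : ℝ} (h : S.P.TwoMax c) : Nonempty (Ht S) := by
  obtain ⟨⟨hc, hR, hL⟩, δ0, hδ0, hmax⟩ := h
  have hchi : c < S.P.hi := by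
    obtain ⟨z, hz, h1, -⟩ := hR 1 one_pos
    exact h1.trans_le (S.P.sub hz).2
  have hloc : S.P.lo < c := by
    obtain ⟨z, hz, -, h1⟩ := hL 1 one_pos
    exact (S.P.sub hz).1.trans_lt h1
  obtain ⟨d, hd0, hdδ, hdB⟩ : ∃ d : ℝ, 0 < d ∧ d < δ0 ∧ ∀ b ∈ S.P.B, b ≠ c → d ≤ |b - c| := by
    have h1 : ∀ᶠ d in 𝓝[>] (0 : ℝ), ∀ b ∈ S.P.B, b ≠ c → d ≤ |b - c| := by
      refine (Finset.eventually_all S.P.B).2 fun b _ => ?_
      by_cases hb : b = c
      · exact Eventually.of_forall fun d h => absurd hb h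
      · have hpos : 0 < |b - c| := abs_pos.2 (sub_ne_zero.2 hb)
        exact (eventually_nhdsWithin_of_eventually_nhds (ge_mem_nhds hpos)).mono fun d hd _ => hd
    have h2 : ∀ᶠ d in 𝓝[>] (0 : ℝ), d < δ0 :=
      eventually_nhdsWithin_of_eventually_nhds (gt_mem_nhds hδ0)
    have h3 : ∀ᶠ d in 𝓝[>] (0 : ℝ), 0 < d := self_mem_nhdsWithin
    obtain ⟨d, h4, h5, h6⟩ := (h3.and (h2.and h1)).exists
    exact ⟨d, h4, h5, h6⟩
  have hhi : c + d ≤ S.P.hi := by
    have := hdB _ S.P.hi_B hchi.ne'
    rw [abs_of_pos (sub_pos.2 hchi)] at this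
    linarith
  have hlo : S.P.lo ≤ c - d := by
    have := hdB _ S.P.lo_B hloc.ne
    rw [abs_of_neg (sub_neg.2 hloc)] at this
    linarith
  have hnR : NoB S.P.B c (c + d) := by
    rintro b hb ⟨h1, h2⟩
    have := hdB b hb h1.ne'
    rw [abs_of_pos (sub_pos.2 h1)] at this
    linarith
  have hnL : NoB S.P.B (c - d) c := by
    rintro b hb ⟨h1, h2⟩
    have := hdB b hb h2.ne
    rw [abs_of_neg (sub_neg.2 h2)] at this
    linarith
  have aR := S.L.sl_aff c (c + d) hloc.le (by linarith) hhi hnR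
  have aL := S.L.sl_aff (c - d) c hlo (by linarith) hchi.le hnL
  have hm := S.L.m_pos
  have s1 : S.L.sl c < 0 := by
    have h1 := aR (c + d) ⟨by linarith, le_rfl⟩
    have h2 := hmax (c + d) (by rw [add_sub_cancel_left, abs_of_pos hd0]; exact hdδ) (by linarith)
    rw [add_sub_cancel_left] at h1
    by_contra h3
    have := mul_nonneg (not_lt.1 h3) hd0.le
    linarith
  have aLc := aL c ⟨by linarith, le_rfl⟩
  have s2 : 0 < S.L.sl (c - d) := by
    have h2 := hmax (c - d) (by rw [sub_sub_cancel_left, abs_neg, abs_of_pos hd0]; exact hdδ)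
      (by linarith)
    rw [sub_sub_cancel] at aLc
    by_contra h3
    have := mul_nonneg (neg_nonneg.2 (not_lt.1 h3)) hd0.le
    linarith
  have hsp : S.L.m ≤ |S.L.sl c| := S.L.sl_lo c
  have hsm : S.L.m ≤ |S.L.sl (c - d)| := S.L.sl_lo (c - d)
  have vR : ∀ y ∈ Icc c (c + d), S.P.T y = S.P.T c - |S.L.sl c| * (y - c) := by
    intro y hy
    rw [aR y hy, abs_of_neg s1]
    ring
  have vL : ∀ y ∈ Icc (c - d) c, S.P.T y = S.P.T c - |S.L.sl (c - d)| * (c - y) := by
    intro y hy
    rw [aL y hy, aLc, abs_of_pos s2]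
    ring
  have hspM : |S.L.sl c| ≤ S.L.M := S.L.sl_hi c
  have hsmM : |S.L.sl (c - d)| ≤ S.L.M := S.L.sl_hi (c - d)
  generalize |S.L.sl c| = sp at hsp vR hspM
  generalize |S.L.sl (c - d)| = sm at hsm vL hsmM
  have hsp0 : 0 < sp := hm.trans_le hsp
  have hsm0 : 0 < sm := hm.trans_le hsm
  obtain ⟨η, hη, hinv⟩ := S.P.inv_cont hd0
  refine ⟨⟨c, sp, sm, min η (S.L.m * d), lt_min hη (mul_pos hm hd0), hsp, hspM, hsm, hsmM, hc,
    ?_, ?_, ?_⟩⟩
  · intro σ h h0 h1
    have h2 : h ≤ S.L.m * d := h1.trans (min_le_right _ _)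
    cases σ
    · have h3 : h / sm ≤ d := by
        rw [div_le_iff₀ hsm0]
        nlinarith
      have h4 : 0 ≤ h / sm := by positivity
      simp only [pt, Bool.false_eq_true, if_false]
      rw [vL _ ⟨by linarith, by linarith⟩]
      field_simp
      ring
    · have h3 : h / sp ≤ d := by
        rw [div_le_iff₀ hsp0]
        nlinarith
      have h4 : 0 ≤ h / sp := by positivity
      simp only [pt, if_true]
      rw [vR _ ⟨by linarith, by linarith⟩]
      field_simp
      ring
  · intro σ ε hε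
    cases σ
    · obtain ⟨z, hz, h1, h2⟩ := hL (ε / sm) (by positivity)
      refine ⟨(c - z) * sm, mul_pos (by linarith) hsm0, ?_, ?_⟩
      · rw [← lt_div_iff₀ hsm0]
        linarith
      · simp only [pt, Bool.false_eq_true, if_false]
        rwa [mul_div_cancel_right₀ _ hsm0.ne', sub_sub_cancel]
    · obtain ⟨z, hz, h1, h2⟩ := hR (ε / sp) (by positivity)
      refine ⟨(z - c) * sp, mul_pos (by linarith) hsp0, ?_, ?_⟩
      · rw [← lt_div_iff₀ hsp0]
        linarith
      · simp only [pt, if_true]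
        rwa [mul_div_cancel_right₀ _ hsp0.ne', add_sub_cancel]
  · intro h h0 h1 hK
    obtain ⟨y, hy, hTy⟩ := S.P.surjK hK
    have h2 : |y - c| < d := by
      refine hinv y hy c hc ?_
      rw [hTy, sub_sub_cancel_left, abs_neg, abs_of_nonneg h0]
      exact h1.trans (min_le_left _ _)
    rw [abs_lt] at h2
    rcases le_total c y with h3 | h3
    · refine ⟨true, ?_⟩
      have h4 := vR y ⟨h3, by linarith⟩
      have h5 : h = (y - c) * sp := by linarith
      simp only [pt, if_true]
      rwa [h5, mul_div_cancel_right₀ _ hsp0.ne', add_sub_cancel]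
    · refine ⟨false, ?_⟩
      have h4 := vL y ⟨by linarith, h3⟩
      have h5 : h = (c - y) * sm := by linarith
      simp only [pt, Bool.false_eq_true, if_false]
      rwa [h5, mul_div_cancel_right₀ _ hsm0.ne', sub_sub_cancel]

end Pool.Agent.MP_8df504_an.C
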