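import Pool.Agent.MP_8df504_an.C.SysBase

set_option autoImplicit false

namespace Pool.Agent.MP_8df504_an.C

open Set Filter Topology MeasureTheory

/-! Levels from clusters, and avoidance of the inner gaps.

`exists_lev`: choose `j0` with `b (i+1) ≤ (1/4)(a i - b (i+1))` for `i ≥ j0`, put `i = j + j0`,
`e j = gp (sd i) (b (i+2)) (a i)`; `u j`, `v j` are the inner ends `pt (sd i) (b (i+2))` and
`pt (sd (i+1)) (b (i+3))` (the one on side `false` is `u j`), `c1 = 3 m / (8 M)`.  A point of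
`cl (e j)` is `pt (sd i) h` with `h ∈ [b (i+2), a i]`, its image is `T c - h` (`val`), which lies in
`cl (pi (e j))` only if `b (i+1) ≤ h`.

`outside_of_not_inner`: if `g.1 < u` then `g.1 ≤ fL.1`, `g.2 ≤ u`, and `g.2 ≠ u`, so `g.2 ≤ fL.1`.

`avoid`: fix `j` large, `fL`, `fR` the flanks, `L = fL.1`, `R = fR.2`.  Suppose `pi^[k] f` is inner
for a flank `f`; take such a pair `(f,k)` with `k` minimal, so `k ≥ 1` and `f i = pi^[i] f` is
neither inner nor a flank for `0 < i < k`; the `f i`, `i ≤ k`, are distinct.  Pull the midpoint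
`y k` of `f k` back (`pull_op`) to `y i` in the open gap `f i`.  `mid y k` misses `(L,R)`.  `T1lo`
with slopes `|sl (f i).1|` (`slopeAt_gap`), `prod_sl_chain`, `prod_r_chain_le` give
`rho (y k) ≤ C G (len (f k) / len f) rho (y 0)`, `len (f k) ≤ v - u`.  `rho_cmp` (for `f = fR`:
`θ₂ = 1`, `θ₁ = len fL / (len fL + (v-u) + len fR)`, symmetric for `f = fL`) gives a contradiction
as soon as `3 C G (v - u) < len (e (j+1))`, `v - u ≤ len (e (j+1)) ≤ len (e j)`. -/

lemma levex_cmp {m M s t x : ℝ} (hm : 0 < m) (hs : m ≤ s) (ht0 : m ≤ t) (ht : t ≤ M) (hx : 0 ≤ x) :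
    m / M * (x / s) ≤ x / t := by
  have h1 : 0 < s := hm.trans_le hs
  have h2 : 0 < t := hm.trans_le ht0
  have h3 : 0 < M := h2.trans_le ht
  rw [div_mul_div_comm, div_le_div_iff₀ (mul_pos h3 h1) h2]
  have h4 : m * t ≤ s * M := mul_le_mul hs ht h2.le h1.le
  nlinarith [mul_le_mul_of_nonneg_left h4 hx]

variable {S : Sys}

lemma levex_bb (C : Clu S) (i : ℕ) : C.b (i + 1) < C.b i := (C.ba i).trans_le (C.ab i)

lemma levex_sp (C : Clu S) : 0 < C.sp := S.L.m_pos.trans_le C.sp_lo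

lemma levex_sm (C : Clu S) : 0 < C.sm := S.L.m_pos.trans_le C.sm_lo

/-- the gap number `i` -/
noncomputable def levex_E (C : Clu S) (i : ℕ) : ℝ × ℝ :=
  gp C.c C.sp C.sm (C.sd i) (C.b (i + 2)) (C.a i)

noncomputable def levex_u (C : Clu S) (i : ℕ) : ℝ :=
  C.c - (if C.sd i = true then C.b (i + 3) else C.b (i + 2)) / C.sm

noncomputable def levex_v (C : Clu S) (i : ℕ) : ℝ :=
  C.c + (if C.sd i = true then C.b (i + 2) else C.b (i + 3)) / C.sp

lemma levex_Et (C : Clu S) {i : ℕ} (h : C.sd i = true) :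
    levex_E C i = (C.c + C.b (i + 2) / C.sp, C.c + C.a i / C.sp) := by
  simp [levex_E, gp, pt, h]

lemma levex_Ef (C : Clu S) {i : ℕ} (h : C.sd i = false) :
    levex_E C i = (C.c - C.a i / C.sm, C.c - C.b (i + 2) / C.sm) := by
  simp [levex_E, gp, pt, h]

lemma levex_t (C : Clu S) {i : ℕ} (h : C.sd i = true) :
    C.sd (i + 1) = false ∧ levex_u C i = C.c - C.b (i + 3) / C.sm ∧
      levex_v C i = C.c + C.b (i + 2) / C.sp := by
  simp [levex_u, levex_v, C.sd_succ, h]

lemma levex_f (C : Clu S) {i : ℕ} (h : C.sd i = false) :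
    C.sd (i + 1) = true ∧ levex_u C i = C.c - C.b (i + 2) / C.sm ∧
      levex_v C i = C.c + C.b (i + 3) / C.sp := by
  simp [levex_u, levex_v, C.sd_succ, h]

lemma levex_pi (C : Clu S) (i : ℕ) :
    S.pi (levex_E C i) = (S.P.T C.c - C.a i, S.P.T C.c - C.b (i + 1)) := C.pi_eq i

lemma levex_long (C : Clu S) (i : ℕ) : S.Long (levex_E C i) := by
  have h1 := C.ba i
  have h2 := levex_bb C (i + 1)
  have h3 := C.b_pos (i + 2)
  have v1 := C.val (C.sd i) (C.b (i + 2)) h3.le (C.b_le _)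
  have v2 := C.val (C.sd i) (C.a i) (by linarith) ((C.ab i).trans (C.b_le i))
  have e : img S.P.T (levex_E C i) = C.a i - C.b (i + 2) := by
    unfold img levex_E gp
    split_ifs
    · simp only [v1, v2]
      rw [abs_of_neg (by linarith)]
      ring
    · simp only [v1, v2]
      rw [abs_of_pos (by linarith)]
      ring
  unfold Sys.Long Sys.r
  rw [e, levex_pi, len, one_lt_div (by simp only; linarith)]
  simp only
  linarith

lemma levex_yt (C : Clu S) {i : ℕ} (h : C.sd i = true) {y : ℝ} (hy : y ∈ cl (levex_E C i))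
    (hT : S.P.T y ∈ cl (S.pi (levex_E C i))) : C.c + C.b (i + 1) / C.sp ≤ y := by
  have hp := levex_sp C
  rw [levex_pi] at hT
  rw [levex_Et C h] at hy
  have h1 : C.b (i + 2) / C.sp ≤ y - C.c := by have := hy.1; simp only at this; linarith
  have h2 : y - C.c ≤ C.a i / C.sp := by have := hy.2; simp only at this; linarith
  rw [div_le_iff₀ hp] at h1
  rw [le_div_iff₀ hp] at h2
  have v := C.val true ((y - C.c) * C.sp) ((C.b_pos _).le.trans h1)
    (h2.trans ((C.ab i).trans (C.b_le i)))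
  have e : pt C.c C.sp C.sm true ((y - C.c) * C.sp) = y := by
    simp only [pt, if_true]
    field_simp
    ring
  rw [e] at v
  have h3 : C.b (i + 1) / C.sp ≤ y - C.c := by
    rw [div_le_iff₀ hp]
    have := hT.2
    simp only at this
    linarith
  linarith

lemma levex_yf (C : Clu S) {i : ℕ} (h : C.sd i = false) {y : ℝ} (hy : y ∈ cl (levex_E C i))
    (hT : S.P.T y ∈ cl (S.pi (levex_E C i))) : y ≤ C.c - C.b (i + 1) / C.sm := by
  have hp := levex_sm C
  rw [levex_pi] at hT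
  rw [levex_Ef C h] at hy
  have h1 : C.b (i + 2) / C.sm ≤ C.c - y := by have := hy.2; simp only at this; linarith
  have h2 : C.c - y ≤ C.a i / C.sm := by have := hy.1; simp only at this; linarith
  rw [div_le_iff₀ hp] at h1
  rw [le_div_iff₀ hp] at h2
  have v := C.val false ((C.c - y) * C.sm) ((C.b_pos _).le.trans h1)
    (h2.trans ((C.ab i).trans (C.b_le i)))
  have e : pt C.c C.sp C.sm false ((C.c - y) * C.sm) = y := by
    simp only [pt, Bool.false_eq_true, if_false]
    field_simp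
    ring
  rw [e] at v
  have h3 : C.b (i + 1) / C.sm ≤ C.c - y := by
    rw [div_le_iff₀ hp]
    have := hT.2
    simp only at this
    linarith
  linarith

lemma levex_uv (C : Clu S) (i : ℕ) : levex_u C i < levex_v C i := by
  have p2 := C.b_pos (i + 2)
  have p3 := C.b_pos (i + 3)
  have hp := levex_sp C
  have hm := levex_sm C
  cases h : C.sd i
  · rw [(levex_f C h).2.1, (levex_f C h).2.2]
    linarith [div_pos p2 hm, div_pos p3 hp]
  · rw [(levex_t C h).2.1, (levex_t C h).2.2]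
    linarith [div_pos p3 hm, div_pos p2 hp]

lemma levex_flank (C : Clu S) (i : ℕ) :
    ((levex_E C (i + 1)).2 = levex_u C i ∧ (levex_E C i).1 = levex_v C i) ∨
      ((levex_E C i).2 = levex_u C i ∧ (levex_E C (i + 1)).1 = levex_v C i) := by
  cases h : C.sd i
  · obtain ⟨h1, h2, h3⟩ := levex_f C h
    right
    rw [levex_Ef C h, levex_Et C h1, h2, h3]
    exact ⟨rfl, rfl⟩
  · obtain ⟨h1, h2, h3⟩ := levex_t C h
    left
    rw [levex_Et C h, levex_Ef C h1, h2, h3]
    exact ⟨rfl, rfl⟩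

lemma levex_nest (C : Clu S) (i : ℕ) :
    levex_u C i ≤ levex_u C (i + 1) ∧ levex_v C (i + 1) ≤ levex_v C i := by
  have q : C.b (i + 1 + 3) ≤ C.b (i + 2) := ((levex_bb C (i + 3)).trans (levex_bb C (i + 2))).le
  cases h : C.sd i
  · obtain ⟨h1, h2, h3⟩ := levex_f C h
    obtain ⟨-, h4, h5⟩ := levex_t C h1
    rw [h2, h3, h4, h5]
    exact ⟨by linarith [div_le_div_of_nonneg_right q (levex_sm C).le], le_rfl⟩
  · obtain ⟨h1, h2, h3⟩ := levex_t C h
    obtain ⟨-, h4, h5⟩ := levex_f C h1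
    rw [h2, h3, h4, h5]
    exact ⟨le_rfl, by linarith [div_le_div_of_nonneg_right q (levex_sp C).le]⟩

lemma levex_inner (C : Clu S) (i : ℕ) : Inner (levex_u C i) (levex_v C i) (levex_E C (i + 2)) := by
  have q := C.ab (i + 2)
  have p3 := C.b_pos (i + 3)
  have p4 := C.b_pos (i + 2 + 2)
  have hp := levex_sp C
  have hm := levex_sm C
  cases h : C.sd i
  · obtain ⟨h1, h2, h3⟩ := levex_f C h
    rw [h2, h3, levex_Ef C (levex_t C h1).1]
    exact ⟨by simp only; linarith [div_le_div_of_nonneg_right q hm.le],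
      by simp only; linarith [div_pos p3 hp, div_pos p4 hm]⟩
  · obtain ⟨h1, h2, h3⟩ := levex_t C h
    rw [h2, h3, levex_Et C (levex_f C h1).1]
    exact ⟨by simp only; linarith [div_pos p3 hm, div_pos p4 hp],
      by simp only; linarith [div_le_div_of_nonneg_right q hp.le]⟩

lemma levex_len (C : Clu S) (i : ℕ) :
    len (levex_E C i) = (C.a i - C.b (i + 2)) / (if C.sd i = true then C.sp else C.sm) := by
  cases h : C.sd i
  · rw [levex_Ef C h]
    simp only [len, Bool.false_eq_true, if_false]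
    ring
  · rw [levex_Et C h]
    simp only [len, if_true]
    ring

/-- the width of a level, measured with any slope -/
lemma levex_wid (C : Clu S) (i : ℕ) {t : ℝ} (h0 : S.L.m ≤ t) (h1 : t ≤ S.L.M) :
    S.L.m / S.L.M * (levex_v C i - levex_u C i) ≤ 2 * (C.b (i + 2) / t) := by
  have p2 := C.b_pos (i + 2)
  have p3 := C.b_pos (i + 3)
  have q := div_le_div_of_nonneg_right (levex_bb C (i + 2)).le (S.L.m_pos.trans_le h0).le
  have a1 := levex_cmp S.L.m_pos C.sp_lo h0 h1 p2.le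
  have a2 := levex_cmp S.L.m_pos C.sm_lo h0 h1 p2.le
  have a3 := levex_cmp S.L.m_pos C.sp_lo h0 h1 p3.le
  have a4 := levex_cmp S.L.m_pos C.sm_lo h0 h1 p3.le
  cases h : C.sd i
  · rw [(levex_f C h).2.1, (levex_f C h).2.2]
    linarith
  · rw [(levex_t C h).2.1, (levex_t C h).2.2]
    linarith

lemma levex_small (C : Clu S) (i : ℕ) {ε : ℝ} (hε : 0 < ε)
    (hr : C.b (i + 1 + 1) ≤ ε * (S.L.m / S.L.M) / 2 * (C.a (i + 1) - C.b (i + 1 + 1))) :
    levex_v C i - levex_u C i ≤ ε * len (levex_E C (i + 1)) := by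
  have hm := S.L.m_pos
  have hM : 0 < S.L.M := (levex_sp C).trans_le C.sp_hi
  have hq : 0 < S.L.m / S.L.M := div_pos hm hM
  obtain ⟨t, h0, h1, e⟩ : ∃ t, S.L.m ≤ t ∧ t ≤ S.L.M ∧
      len (levex_E C (i + 1)) = (C.a (i + 1) - C.b (i + 1 + 2)) / t := by
    refine ⟨_, ?_, ?_, levex_len C (i + 1)⟩ <;> split_ifs
    exacts [C.sp_lo, C.sm_lo, C.sp_hi, C.sm_hi]
  have ht : 0 < t := hm.trans_le h0
  have w := levex_wid C i h0 h1
  have q : C.b (i + 1 + 2) < C.b (i + 1 + 1) := levex_bb C (i + 2)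
  have h2 : 2 * C.b (i + 2) ≤ S.L.m / S.L.M * (ε * (C.a (i + 1) - C.b (i + 1 + 2))) := by
    have := mul_le_mul_of_nonneg_left (sub_le_sub_left q.le (C.a (i + 1))) (mul_pos hε hq).le
    have e2 : C.b (i + 2) = C.b (i + 1 + 1) := rfl
    rw [e2]
    linarith
  have h3 := div_le_div_of_nonneg_right h2 ht.le
  rw [e]
  refine le_of_mul_le_mul_left (w.trans ?_) hq
  calc 2 * (C.b (i + 2) / t) = 2 * C.b (i + 2) / t := by ring
    _ ≤ _ := h3
    _ = _ := by ring

lemma levex_s4 (C : Clu S) (i : ℕ)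
    (hr : C.b (i + 1 + 1) ≤ 1 / 4 * (C.a (i + 1) - C.b (i + 1 + 1))) {y : ℝ}
    (hy : y ∈ cl (levex_E C i)) (hT : S.P.T y ∈ cl (S.pi (levex_E C i))) :
    y ≤ levex_u C i - 3 / 8 * (S.L.m / S.L.M) * len (levex_E C (i + 1)) ∨
      levex_v C i + 3 / 8 * (S.L.m / S.L.M) * len (levex_E C (i + 1)) ≤ y := by
  have e2 : C.b (i + 1 + 1) = C.b (i + 2) := rfl
  rw [e2] at hr
  have p3 := C.b_pos (i + 1 + 2)
  have p2 := C.b_pos (i + 2)
  have q0 := C.ab (i + 1)
  have q1 : C.b (i + 1 + 2) < C.b (i + 2) := levex_bb C (i + 2)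
  have x0 : 0 ≤ C.a (i + 1) - C.b (i + 1 + 2) := by linarith
  have x1 : 3 / 8 * (C.a (i + 1) - C.b (i + 1 + 2)) ≤ C.b (i + 1) - C.b (i + 2) := by linarith
  rw [levex_len]
  cases h : C.sd i
  · obtain ⟨h1, h2, -⟩ := levex_f C h
    left
    have a1 := levex_yf C h hy hT
    have a2 := levex_cmp S.L.m_pos C.sp_lo C.sm_lo C.sm_hi x0
    have a3 := div_le_div_of_nonneg_right x1 (levex_sm C).le
    rw [mul_div_assoc, sub_div (C.b (i + 1))] at a3
    rw [h2, if_pos h1]
    linarith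
  · obtain ⟨h1, -, h3⟩ := levex_t C h
    right
    have a1 := levex_yt C h hy hT
    have a2 := levex_cmp S.L.m_pos C.sm_lo C.sp_lo C.sp_hi x0
    have a3 := div_le_div_of_nonneg_right x1 (levex_sp C).le
    rw [mul_div_assoc, sub_div (C.b (i + 1))] at a3
    rw [h3, if_neg (by simp [h1])]
    linarith

lemma levex_s5 (C : Clu S) (i : ℕ)
    (hr : C.b (i + 2 + 1) ≤ 1 / 4 * (C.a (i + 2) - C.b (i + 2 + 1))) {y : ℝ}
    (hy : y ∈ cl (levex_E C (i + 1))) (hT : S.P.T y ∈ cl (S.pi (levex_E C (i + 1)))) :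
    y ≤ levex_u C i - 3 / 8 * (S.L.m / S.L.M) * (levex_v C i - levex_u C i) ∨
      levex_v C i + 3 / 8 * (S.L.m / S.L.M) * (levex_v C i - levex_u C i) ≤ y := by
  have e2 : C.b (i + 1 + 1) = C.b (i + 2) := rfl
  have e3 : C.b (i + 2 + 1) = C.b (i + 3) := rfl
  rw [e3] at hr
  have q0 := C.ab (i + 2)
  have p3 := C.b_pos (i + 3)
  have x1 : 3 / 4 * C.b (i + 2) ≤ C.b (i + 2) - C.b (i + 3) := by linarith
  cases h : C.sd i
  · obtain ⟨h1, -, h3⟩ := levex_f C h
    right
    have a1 := levex_yt C h1 hy hT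
    have a2 := levex_wid C i C.sp_lo C.sp_hi
    have a3 := div_le_div_of_nonneg_right x1 (levex_sp C).le
    rw [mul_div_assoc, sub_div] at a3
    rw [e2] at a1
    linarith
  · obtain ⟨h1, h2, -⟩ := levex_t C h
    left
    have a1 := levex_yf C h1 hy hT
    have a2 := levex_wid C i C.sm_lo C.sm_hi
    have a3 := div_le_div_of_nonneg_right x1 (levex_sm C).le
    rw [mul_div_assoc, sub_div] at a3
    rw [e2] at a1
    linarith

lemma Sys.exists_lev (S : Sys) (C : Clu S) : Nonempty (Lev S) := by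
  obtain ⟨j0, hj⟩ := eventually_atTop.1 (C.ratio (1 / 4) (by norm_num))
  have hq : 0 < S.L.m / S.L.M := div_pos S.L.m_pos ((levex_sp C).trans_le C.sp_hi)
  refine ⟨{
    e := fun j => levex_E C (j0 + j)
    u := fun j => levex_u C (j0 + j)
    v := fun j => levex_v C (j0 + j)
    c1 := 3 / 8 * (S.L.m / S.L.M)
    c1_pos := by positivity
    gap := fun j => C.gap _
    long := fun j => levex_long C _
    uv := fun j => levex_uv C _
    flank := fun j => levex_flank C (j0 + j)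
    nest := fun j => levex_nest C (j0 + j)
    inner := fun j => levex_inner C (j0 + j)
    small := fun ε hε => ?_
    s4 := fun j y hy hT => levex_s4 C (j0 + j) (hj _ (by omega)) hy hT
    s5 := fun j y hy hT => levex_s5 C (j0 + j) (hj _ (by omega)) hy hT }⟩
  obtain ⟨j1, h1⟩ := eventually_atTop.1 (C.ratio (ε * (S.L.m / S.L.M) / 2) (by positivity))
  exact eventually_atTop.2 ⟨j1, fun j hj' => levex_small C (j0 + j) hε (h1 _ (by omega))⟩

end Pool.Agent.MP_8df504_an.C
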