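import Pool.Agent.MP_8df504_an.C.SysBase

set_option autoImplicit false

namespace Pool.Agent.MP_8df504_an.C

open Set Filter Topology MeasureTheory

/-! Outer gaps of a cycle of intervals.

Hints.  `a`, `b` only depend on `i % p`.  An outer gap `g` has `g.1 = b i` for the `i < p` with
`g.1 ∈ [a i, b i]`; conversely if `b i < hi` there is a gap starting at `b i` (up to the least
`a l > b i`), and it is outer.  `pi` maps inner gaps to inner gaps (`maps`, `Cov`), so by finiteness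
and bijectivity it permutes the outer gaps, and `∏ r = ∏ img / ∏ len = ∏ |sl g.1|` (`img_gap`).
`prod_compare`: `∏ O |sl g.1| = ∏ (i<p, b i ≠ hi) |sl (b i)|`.  Call `i` exceptional if some point of
`B` is in `((g i).1, b i]`; at most `card B` indices are exceptional (`disj`), `b i = hi` is
exceptional, and for the other `i`, `sl (g i).1 = sl (b i)` (`sl_eq` on the segment from `(g i).1`
to the right end of the gap starting at `b i`; `B ⊆ K`).  Take for `Φ` the quotients of two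
elements of the finite set given by `exists_prod_set`. -/

lemma exists_prod_set (Sl : Finset ℝ) (n : ℕ) : ∃ Q : Finset ℝ,
    ∀ (I : Finset ℕ) (t : ℕ → ℝ), I.card ≤ n → (∀ i ∈ I, t i ∈ Sl) → ∏ i ∈ I, t i ∈ Q := by
  induction n with
  | zero =>
    refine ⟨{1}, fun I t hI _ => ?_⟩
    rw [Finset.card_eq_zero.1 (Nat.le_zero.1 hI), Finset.prod_empty]
    exact Finset.mem_singleton_self _
  | succ n ih =>
    obtain ⟨Q, hQ⟩ := ih
    refine ⟨Q ∪ Finset.image₂ (· * ·) Sl Q, fun I t hI ht => ?_⟩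
    rcases I.eq_empty_or_nonempty with rfl | ⟨i, hi⟩
    · exact Finset.mem_union_left _ (hQ ∅ t (Nat.zero_le _) ht)
    · rw [← Finset.mul_prod_erase I t hi]
      refine Finset.mem_union_right _ (Finset.mem_image₂_of_mem (ht i hi)
        (hQ _ t ?_ fun j hj => ht j (Finset.mem_of_mem_erase hj)))
      rw [Finset.card_erase_of_mem hi]
      omega

namespace Cyc

lemma mt1_mod {P : Pre} (C : Cyc P) (i : ℕ) : ∃ l < C.p, C.a l = C.a i ∧ C.b l = C.b i :=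
  ⟨i % C.p, Nat.mod_lt _ C.p_pos, Function.Periodic.map_mod_nat C.a_per i,
    Function.Periodic.map_mod_nat C.b_per i⟩

lemma mt1_fst {P : Pre} (C : Cyc P) {g : ℝ × ℝ} (hg : g ∈ Gap P.K)
    (h : ∀ i, ¬ Inner (C.a i) (C.b i) g) : ∃ i < C.p, C.b i = g.1 := by
  obtain ⟨i, hi, h1, h2⟩ := C.cover _ hg.1
  rcases Gap.le_or_ge hg (C.b_mem i) with c | c
  · exact ⟨i, hi, le_antisymm c h2⟩
  · exact absurd ⟨h1, c⟩ (h i)

lemma mt1_sep {P : Pre} (C : Cyc P) {i l : ℕ} (hi : i < C.p) (hl : l < C.p) (h : C.b i < C.b l) :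
    C.b i < C.a l := by
  rcases C.disj i l hi hl (fun e => h.ne (e ▸ rfl)) with c | c
  · exact c
  · linarith [C.ab i]

lemma mt1_gap {P : Pre} (C : Cyc P) {i : ℕ} (hi : i < C.p) (h : C.b i ≠ P.hi) :
    ∃ g ∈ Gap P.K, g.1 = C.b i ∧ ∀ j, ¬ Inner (C.a j) (C.b j) g := by
  have h1 : C.b i < P.hi := lt_of_le_of_ne (P.sub (C.b_mem i)).2 h
  obtain ⟨l₀, hl₀, -, h2⟩ := C.cover _ P.hi_mem
  obtain ⟨l, hl, hm⟩ := ((Finset.range C.p).filter fun l => C.b i < C.a l).exists_min_image C.a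
    ⟨l₀, Finset.mem_filter.2 ⟨Finset.mem_range.2 hl₀, C.mt1_sep hi hl₀ (h1.trans_le h2)⟩⟩
  have h3 := (Finset.mem_filter.1 hl).2
  refine ⟨(C.b i, C.a l), ⟨C.b_mem i, C.a_mem l, h3, fun z hz hc => ?_⟩, rfl, fun j hj => ?_⟩
  · obtain ⟨k, hk, h4, h5⟩ := C.cover z hz
    exact absurd ((hm k (Finset.mem_filter.2 ⟨Finset.mem_range.2 hk,
      C.mt1_sep hi hk (hc.1.trans_le h5)⟩)).trans h4) (not_le.2 hc.2)
  · obtain ⟨k, hk, e1, e2⟩ := C.mt1_mod j
    rw [← e1, ← e2] at hj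
    exact absurd hj.1 (not_le.2 (C.mt1_sep hi hk (h3.trans_le hj.2)))

lemma mt1_eq {P : Pre} (C : Cyc P) {i l : ℕ} (hi : i < C.p) (hl : l < C.p) {z : ℝ}
    (h1 : C.a i ≤ z) (h2 : z ≤ C.b i) (h3 : C.a l ≤ z) (h4 : z ≤ C.b l) : i = l := by
  by_contra hne
  rcases C.disj i l hi hl hne with c | c <;> linarith

lemma mt1_inner {S : Sys} (C : Cyc S.P) {g : ℝ × ℝ} (hg : g ∈ Gap S.P.K) {i : ℕ}
    (h : Inner (C.a i) (C.b i) g) : Inner (C.a (i + 1)) (C.b (i + 1)) (S.pi g) := by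
  have h0 : g.1 ≤ g.2 := hg.2.2.1.le
  obtain ⟨h1, h2⟩ := C.maps i _ hg.1 h.1 (h0.trans h.2)
  obtain ⟨h3, h4⟩ := C.maps i _ hg.2.1 (h.1.trans h0) h.2
  exact ⟨(le_min h1 h3).trans (S.ok.cov g hg).1, (S.ok.cov g hg).2.trans (max_le h2 h4)⟩

open Classical in
lemma mt1_prod {P : Pre} (C : Cyc P) {O : Finset (ℝ × ℝ)} (hO : C.IsOuter O) (t : ℝ → ℝ) :
    ∏ g ∈ O, t g.1 = ∏ i ∈ (Finset.range C.p).filter fun i => C.b i ≠ P.hi, t (C.b i) := by
  rw [← Finset.prod_image (g := Prod.fst) (f := t)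
      fun g hg g' hg' e => Gap.eq_of_fst ((hO g).1 hg).1 ((hO g').1 hg').1 e,
    ← Finset.prod_image (g := C.b) (f := t) fun i hi l hl e =>
      C.mt1_eq (Finset.mem_range.1 (Finset.mem_filter.1 hi).1)
        (Finset.mem_range.1 (Finset.mem_filter.1 hl).1) (C.ab i) le_rfl (e ▸ C.ab l) e.le]
  congr 1
  ext z
  simp only [Finset.mem_image, Finset.mem_filter, Finset.mem_range]
  constructor
  · rintro ⟨g, hg, rfl⟩
    obtain ⟨h1, h2⟩ := (hO g).1 hg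
    obtain ⟨i, hi, e⟩ := C.mt1_fst h1 h2
    exact ⟨i, ⟨hi, (e.trans_lt (h1.2.2.1.trans_le (P.sub h1.2.1).2)).ne⟩, e⟩
  · rintro ⟨i, ⟨hi, h⟩, rfl⟩
    obtain ⟨g, h1, e, h2⟩ := C.mt1_gap hi h
    exact ⟨g, (hO g).2 ⟨h1, h2⟩, e⟩

lemma exists_outer {P : Pre} (C : Cyc P) : ∃ O, C.IsOuter O := by
  have h : {g | g ∈ Gap P.K ∧ ∀ i, ¬ Inner (C.a i) (C.b i) g}.Finite := by
    refine Finite.of_finite_image (f := Prod.fst) (((finite_Iio C.p).image C.b).subset ?_)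
      fun g hg g' hg' e => Gap.eq_of_fst hg.1 hg'.1 e
    rintro _ ⟨g, hg, rfl⟩
    exact C.mt1_fst hg.1 hg.2
  exact ⟨h.toFinset, fun g => h.mem_toFinset⟩

lemma outer_prod {S : Sys} (C : Cyc S.P) {O : Finset (ℝ × ℝ)} (hO : C.IsOuter O) :
    ∏ g ∈ O, S.r g = ∏ g ∈ O, |S.L.sl g.1| := by
  classical
  have hg : ∀ g ∈ O, g ∈ Gap S.P.K := fun g h => ((hO g).1 h).1
  have h1 : O = O.image S.pi := by
    refine Finset.eq_of_subset_of_card_le (fun γ hγ => ?_) Finset.card_image_le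
    obtain ⟨g, h2, rfl⟩ := S.ok.bij.surjOn (hg γ hγ)
    exact Finset.mem_image_of_mem _ ((hO g).2 ⟨h2, fun i hi =>
      ((hO _).1 hγ).2 (i + 1) (C.mt1_inner h2 hi)⟩)
  have h2 : ∏ g ∈ O, len (S.pi g) = ∏ g ∈ O, len g := by
    rw [← Finset.prod_image (g := S.pi) (f := len)
      fun g h g' h' e => S.ok.bij.injOn (hg g h) (hg g' h') e, ← h1]
  have h3 : 0 < ∏ g ∈ O, len g := Finset.prod_pos fun g h => Gap.len_pos (hg g h)
  unfold Sys.r
  rw [Finset.prod_div_distrib, h2, div_eq_iff h3.ne', ← Finset.prod_mul_distrib]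
  exact Finset.prod_congr rfl fun g h => S.img_gap (hg g h)

end Cyc

lemma Sys.prod_compare (S : Sys) : ∃ Φ : Finset ℝ, ∀ (C : Cyc S.P) (O : Finset (ℝ × ℝ)),
    C.IsOuter O → ∀ g : ℕ → ℝ × ℝ,
      (∀ i < C.p, g i ∈ Gap S.P.K ∧ Inner (C.a i) (C.b i) (g i)) →
      ∃ β ∈ Φ, ∏ i ∈ Finset.range C.p, |S.L.sl (g i).1| = β * ∏ g ∈ O, S.r g := by
  classical
  obtain ⟨Q, hQ⟩ := exists_prod_set S.L.Sl S.P.B.card
  refine ⟨Finset.image₂ (· / ·) Q Q, fun C O hO g hg => ?_⟩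
  let E : ℕ → Prop := fun i => ∃ β ∈ S.P.B, (g i).1 < β ∧ β ≤ C.b i
  have hE : ((Finset.range C.p).filter E).card ≤ S.P.B.card := by
    have : ∀ i, ∃ β, E i → β ∈ S.P.B ∧ (g i).1 < β ∧ β ≤ C.b i := fun i => by
      by_cases h : E i
      · obtain ⟨β, hβ⟩ := h
        exact ⟨β, fun _ => hβ⟩
      · exact ⟨0, fun h' => absurd h' h⟩
    choose f hf using this
    refine Finset.card_le_card_of_injOn f (fun i hi => (hf i (Finset.mem_filter.1 hi).2).1)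
      fun i hi l hl e => ?_
    obtain ⟨i1, i2⟩ := Finset.mem_filter.1 hi
    obtain ⟨l1, l2⟩ := Finset.mem_filter.1 hl
    rw [Finset.mem_range] at i1 l1
    exact C.mt1_eq i1 l1 ((hg i i1).2.1.trans (hf i i2).2.1.le) (hf i i2).2.2
      (e ▸ (hg l l1).2.1.trans (hf l l2).2.1.le) (e ▸ (hf l l2).2.2)
  have hlt : ∀ i < C.p, (g i).1 < C.b i := fun i hi => (hg i hi).1.2.2.1.trans_le (hg i hi).2.2
  have hne : ∀ i < C.p, ¬ E i → C.b i ≠ S.P.hi := fun i hi h e =>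
    h ⟨_, S.P.hi_B, e ▸ hlt i hi, e.ge⟩
  have hsl : ∀ i < C.p, ¬ E i → S.L.sl (C.b i) = S.L.sl (g i).1 := fun i hi h => by
    obtain ⟨γ, h1, e, -⟩ := C.mt1_gap hi (hne i hi h)
    have h2 : C.b i < γ.2 := e ▸ h1.2.2.1
    refine S.L.sl_eq _ γ.2 (S.P.sub (hg i hi).1.1).1 ((hlt i hi).trans h2) (S.P.sub h1.2.1).2
      (fun β hβ hc => ?_) _ (hlt i hi).le h2
    rcases le_or_gt β (C.b i) with c | c
    · exact h ⟨β, hβ, hc.1, c⟩
    · exact h1.2.2.2 β (S.P.B_sub β hβ) ⟨e ▸ c, hc.2⟩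
  have e1 : ((Finset.range C.p).filter fun i => C.b i ≠ S.P.hi).filter (fun i => ¬ E i) =
      (Finset.range C.p).filter fun i => ¬ E i := by
    ext i
    simp only [Finset.mem_filter, Finset.mem_range]
    exact ⟨fun h => ⟨h.1.1, h.2⟩, fun h => ⟨⟨h.1, hne i h.1 h.2⟩, h.2⟩⟩
  refine ⟨_, Finset.mem_image₂_of_mem (hQ _ (fun i => |S.L.sl (g i).1|) hE fun i _ => S.L.sl_mem _)
    (hQ (((Finset.range C.p).filter fun i => C.b i ≠ S.P.hi).filter E) (fun i => |S.L.sl (C.b i)|)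
      ((Finset.card_le_card (Finset.filter_subset_filter _ (Finset.filter_subset _ _))).trans hE)
      fun i _ => S.L.sl_mem _), ?_⟩
  have h0 : 0 < ∏ i ∈ ((Finset.range C.p).filter fun i => C.b i ≠ S.P.hi).filter E,
      |S.L.sl (C.b i)| := Finset.prod_pos fun i _ => S.L.m_pos.trans_le (S.L.sl_lo _)
  rw [C.outer_prod hO, C.mt1_prod hO fun z => |S.L.sl z|,
    ← Finset.prod_filter_mul_prod_filter_not (Finset.range C.p) E,
    ← Finset.prod_filter_mul_prod_filter_not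
      ((Finset.range C.p).filter fun i => C.b i ≠ S.P.hi) E, e1, ← mul_assoc,
    div_mul_cancel₀ _ h0.ne']
  refine congrArg _ (Finset.prod_congr rfl fun i hi => ?_)
  obtain ⟨i1, i2⟩ := Finset.mem_filter.1 hi
  rw [hsl i (Finset.mem_range.1 i1) i2]

end Pool.Agent.MP_8df504_an.C
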