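import Pool.Agent.MP_8df504_an.C.SysBase

set_option autoImplicit false

namespace Pool.Agent.MP_8df504_an.C

open Set Filter Topology MeasureTheory

/-! Nested cycles and a cycle of new gaps.

Hints.  `maps_I`: a point of `[a i, b i]` outside `K` is in a gap inside `[a i, b i]`
(`exists_gap_around`, `gap_between`).  `same_idx`: the intervals are disjoint modulo `p`.
`onto`: `z = T w` (`surjK`), `w ∈ [a l, b l]`, so `l + 1 ≡ i + 1`.  `nested`: induction with `onto`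
for `C'` and `maps` for `C`, applied to the points `a' (i+1)`, `b' (i+1)`.
`new_cycle`: `T^[p]` maps `[a 0, b 0]` into itself, so it has a fixed point `z` (intermediate value
theorem).  `C'.p` does not divide `C.p`: the point `z0` lies in `[a' i, b' i] ⊆ [a i, b i]` with
`0 < i < C'.p`, so `C.p ∣ i`.  If `T^[i] z ∈ [a' l, b' l]` then `T^[i + p] z = T^[i] z` lies in
`[a' (l+p), b' (l+p)]`, so `C'.p ∣ C.p`.  Hence `T^[i] z ∉ K`; let `g i` be the gap around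
`T^[i] z` (`g p = g 0` by `Gap.eq_of_mem`).  `Cov`: `T^[i+1] z` is between `T (g i).1` and
`T (g i).2` (`gap_between`), which are in `K`, so outside the open gap `g (i+1)`. -/

namespace Cyc

variable {P : Pre}

lemma mt2_congr (C : Cyc P) {i l : ℕ} (h : i % C.p = l % C.p) : C.a i = C.a l ∧ C.b i = C.b l := by
  have ha : Function.Periodic C.a C.p := C.a_per
  have hb : Function.Periodic C.b C.p := C.b_per
  exact ⟨by rw [← ha.map_mod_nat i, h, ha.map_mod_nat], by rw [← hb.map_mod_nat i, h, hb.map_mod_nat]⟩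

lemma maps_I (C : Cyc P) (i : ℕ) :
    MapsTo P.T (Icc (C.a i) (C.b i)) (Icc (C.a (i + 1)) (C.b (i + 1))) := by
  intro y hy
  by_cases hK : y ∈ P.K
  · exact C.maps i y hK hy.1 hy.2
  · obtain ⟨g, hg, h1, h2, h3, h4⟩ :=
      exists_gap_around P.cpt (C.a_mem i) (C.b_mem i) hy.1 hy.2 hK
    have h5 := hg.2.2.1.le
    exact uIcc_subset_Icc (C.maps i _ hg.1 h1 (h5.trans h4)) (C.maps i _ hg.2.1 (h1.trans h5) h4)
      (P.gap_between hg ⟨h2.le, h3.le⟩)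

lemma mt2_iter (C : Cyc P) (l i : ℕ) :
    MapsTo P.T^[i] (Icc (C.a l) (C.b l)) (Icc (C.a (l + i)) (C.b (l + i))) := by
  induction i with
  | zero => exact mapsTo_id _
  | succ i ih =>
    intro y hy
    rw [Function.iterate_succ_apply']
    exact C.maps_I (l + i) (ih hy)

lemma same_idx (C : Cyc P) {i l : ℕ} {z : ℝ} (h1 : z ∈ Icc (C.a i) (C.b i))
    (h2 : z ∈ Icc (C.a l) (C.b l)) : i % C.p = l % C.p := by
  by_contra hne
  obtain ⟨e1, e2⟩ := C.mt2_congr (Nat.mod_mod i C.p)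
  obtain ⟨e3, e4⟩ := C.mt2_congr (Nat.mod_mod l C.p)
  have := C.disj _ _ (Nat.mod_lt i C.p_pos) (Nat.mod_lt l C.p_pos) hne
  rw [e1, e2, e3, e4] at this
  rcases this with c | c <;> linarith [h1.1, h1.2, h2.1, h2.2]

lemma onto (C : Cyc P) (i : ℕ) {z : ℝ} (hz : z ∈ P.K)
    (h : z ∈ Icc (C.a (i + 1)) (C.b (i + 1))) :
    ∃ w ∈ P.K, w ∈ Icc (C.a i) (C.b i) ∧ P.T w = z := by
  obtain ⟨w, hw, rfl⟩ := P.surjK hz
  obtain ⟨l, -, hl⟩ := C.cover w hw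
  have h1 : l + 1 ≡ i + 1 [MOD C.p] := C.same_idx (C.maps l w hw hl.1 hl.2) h
  obtain ⟨e1, e2⟩ := C.mt2_congr (Nat.ModEq.add_right_cancel' 1 h1)
  exact ⟨w, hw, ⟨e1 ▸ hl.1, e2 ▸ hl.2⟩, rfl⟩

lemma nested (C C' : Cyc P) (h1 : C.a 0 ≤ C'.a 0) (h2 : C'.b 0 ≤ C.b 0) (i : ℕ) :
    C.a i ≤ C'.a i ∧ C'.b i ≤ C.b i := by
  induction i with
  | zero => exact ⟨h1, h2⟩
  | succ i ih =>
    have key : ∀ z ∈ P.K, z ∈ Icc (C'.a (i + 1)) (C'.b (i + 1)) →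
        C.a (i + 1) ≤ z ∧ z ≤ C.b (i + 1) := fun z hz h => by
      obtain ⟨w, hw, hw', rfl⟩ := C'.onto i hz h
      exact C.maps i w hw (ih.1.trans hw'.1) (hw'.2.trans ih.2)
    exact ⟨(key _ (C'.a_mem _) ⟨le_rfl, C'.ab _⟩).1, (key _ (C'.b_mem _) ⟨C'.ab _, le_rfl⟩).2⟩

lemma new_cycle (C C' : Cyc P) (h1 : C.a 0 ≤ C'.a 0) (h2 : C'.b 0 ≤ C.b 0) {z0 : ℝ}
    (hz : z0 ∈ P.K) (hz1 : z0 ∈ Icc (C.a 0) (C.b 0)) (hz2 : z0 ∉ Icc (C'.a 0) (C'.b 0)) :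
    ∃ g : ℕ → ℝ × ℝ, g C.p = g 0 ∧ ∀ i < C.p, g i ∈ Gap P.K ∧ Inner (C.a i) (C.b i) (g i) ∧
      (∀ l, ¬ Inner (C'.a l) (C'.b l) (g i)) ∧ Cov P.T (g i) (g (i + 1)) := by
  have hm := C.mt2_iter 0 C.p
  rw [C.a_per, C.b_per] at hm
  obtain ⟨z, hzI, hfix⟩ :=
    exists_mem_Icc_isFixedPt_of_mapsTo (P.cont.iterate C.p).continuousOn (C.ab 0) hm
  have hnd : ¬ C'.p ∣ C.p := fun hd => by
    obtain ⟨i, hi, hi'⟩ := C'.cover z0 hz
    obtain ⟨n1, n2⟩ := C.nested C' h1 h2 i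
    have h3 := C.same_idx ⟨n1.trans hi'.1, hi'.2.trans n2⟩ hz1
    rw [Nat.zero_mod] at h3
    have h4 : i = 0 := Nat.eq_zero_of_dvd_of_lt (hd.trans (Nat.dvd_of_mod_eq_zero h3)) hi
    exact hz2 (h4 ▸ hi')
  have hper : ∀ i, P.T^[C.p] (P.T^[i] z) = P.T^[i] z := fun i => by
    rw [← Function.iterate_add_apply, add_comm, Function.iterate_add_apply, hfix.eq]
  have hout : ∀ i l, P.T^[i] z ∉ Icc (C'.a l) (C'.b l) := fun i l h => by
    have h3 := C'.mt2_iter l C.p h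
    rw [hper] at h3
    have h4 : l + 0 ≡ l + C.p [MOD C'.p] := C'.same_idx h h3
    exact hnd ((Nat.modEq_zero_iff_dvd).1 (Nat.ModEq.add_left_cancel' l h4).symm)
  have hK : ∀ i, P.T^[i] z ∉ P.K := fun i h => by
    obtain ⟨l, -, hl⟩ := C'.cover _ h
    exact hout i l hl
  have hI : ∀ i, P.T^[i] z ∈ Icc (C.a i) (C.b i) := fun i => by
    simpa using C.mt2_iter 0 i hzI
  choose g hg g1 g2 g3 g4 using fun i =>
    exists_gap_around P.cpt (C.a_mem i) (C.b_mem i) (hI i).1 (hI i).2 (hK i)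
  refine ⟨g, Gap.eq_of_mem (hg _) (hg _) ⟨g2 _, g3 _⟩ (hfix.eq.symm ▸ ⟨g2 0, g3 0⟩),
    fun i _ => ⟨hg i, ⟨g1 i, g4 i⟩, fun l h => hout i l ⟨h.1.trans (g2 i).le, (g3 i).le.trans h.2⟩,
      ?_⟩⟩
  have h3 := P.gap_between (hg i) (y := P.T^[i] z) ⟨(g2 i).le, (g3 i).le⟩
  have h4 := g2 (i + 1)
  have h5 := g3 (i + 1)
  rw [Function.iterate_succ_apply'] at h4 h5
  have k1 := P.mapsK (hg i).1
  have k2 := P.mapsK (hg i).2.1
  have k3 : min (P.T (g i).1) (P.T (g i).2) ∈ P.K := by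
    rcases min_choice (P.T (g i).1) (P.T (g i).2) with e | e <;> rwa [e]
  have k4 : max (P.T (g i).1) (P.T (g i).2) ∈ P.K := by
    rcases max_choice (P.T (g i).1) (P.T (g i).2) with e | e <;> rwa [e]
  exact ⟨(Gap.le_or_ge (hg (i + 1)) k3).resolve_right (not_le.2 (h3.1.trans_lt h5)),
    (Gap.le_or_ge (hg (i + 1)) k4).resolve_left (not_le.2 (h4.trans_le h3.2))⟩

end Cyc

end Pool.Agent.MP_8df504_an.C
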