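import Pool.Agent.MP_8df504_an.C.MT3a
import Pool.Agent.MP_8df504_an.C.MT1
import Pool.Agent.MP_8df504_an.C.MT2

set_option autoImplicit false

namespace Pool.Agent.MP_8df504_an.C

open Set Filter Topology MeasureTheory

/-! The Martens-Tresser type contradiction.

`seq_MT`: `Γ` converges to `Γ∞ > Γ j ≥ 1`, `τ j = Γ (j+1) / Γ j → 1`.  The `β` are bounded above, so
the second alternative fails for large `j`; some `β` occurs infinitely often; `β > 0`; in the limit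
`β Γ∞ ≤ 1`, but `β Γ∞ > β Γ j ≥ 1`.

`step_MT`: `Λ = ∏ i<p |sl (g i).1| = ∏ img (g i) / len (g i) = ∏ img (g i) / len (g (i+1))` (cyclic,
`g p = g 0`), each factor `≥ 1` (`Cov.len_le`).  `O ⊆ O'` (`nested`), `τ = ∏ (O' \ O) r`, the `g i`
are distinct elements of `O' \ O` (`same_idx`).  If `pi (g i) = g (i+1)` for all `i < p` then
`Λ = ∏ r (g i) ≤ τ`.  Otherwise for some `i` the segment `T (g i)` contains the two different gaps
`pi (g i)`, `g (i+1)` (`Gap.sep`), so `len (g (i+1)) ≤ img (1 - 1 / r (g i)) ≤ img (1 - 1/τ)`.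

`no_cycles`: choose cycles `C j` for `j ≥ j0`, outer sets `O j`, `Γ j = ∏ (O j) r ≤ G`.  The gap
`e (j+2)` is long, inner at level `j`, outer at level `j+1` (it is a flank of `[u (j+1), v (j+1)]`:
one end is in that interval and the other is not; use `same_idx` and periodicity), so
`Γ j < Γ (j+1)`; its outer end is the point `z0` for `new_cycle`. -/

lemma mt3_idx {P : Pre} (C : Cyc P) {i : ℕ} {z : ℝ} (h1 : z ∈ Icc (C.a i) (C.b i))
    (h2 : z ∈ Icc (C.a 0) (C.b 0)) : C.a i = C.a 0 ∧ C.b i = C.b 0 := by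
  have e := C.same_idx h1 h2
  have ha : Function.Periodic C.a C.p := C.a_per
  have hb : Function.Periodic C.b C.p := C.b_per
  rw [← ha.map_mod_nat i, ← hb.map_mod_nat i, e, Nat.zero_mod]
  exact ⟨rfl, rfl⟩

lemma mt3_flank {P : Pre} (C : Cyc P) {e : ℝ × ℝ} (he : e ∈ Gap P.K)
    (h : e.2 = C.a 0 ∨ e.1 = C.b 0) : (∀ i, ¬ Inner (C.a i) (C.b i) e) ∧
      ∃ z ∈ P.K, e.1 ≤ z ∧ z ≤ e.2 ∧ z ∉ Icc (C.a 0) (C.b 0) := by
  have h0 := he.2.2.1
  have h1 := C.ab 0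
  rcases h with h | h
  · refine ⟨fun i hi => ?_, e.1, he.1, le_rfl, h0.le, fun hz => ?_⟩
    · have := (mt3_idx C (z := e.2) ⟨hi.1.trans h0.le, hi.2⟩ ⟨h.ge, h.le.trans h1⟩).1
      linarith [hi.1]
    · linarith [hz.1]
  · refine ⟨fun i hi => ?_, e.2, he.2.1, h0.le, le_rfl, fun hz => ?_⟩
    · have := (mt3_idx C (z := e.1) ⟨hi.1, h0.le.trans hi.2⟩ ⟨h1.trans h.ge, h.le⟩).2
      linarith [hi.2]
    · linarith [hz.2]

lemma Lev.no_cycles {S : Sys} (V : Lev S)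
    (h : ∀ᶠ j in atTop, ∃ C : Cyc S.P, C.a 0 = V.u j ∧ C.b 0 = V.v j) : False := by
  classical
  obtain ⟨j0, hj0⟩ := eventually_atTop.1 h
  choose C ha hb using fun j => hj0 (j0 + j) (Nat.le_add_right _ _)
  choose O hO using fun j => (C j).exists_outer
  obtain ⟨Φ, hΦ⟩ := S.prod_compare
  have hr : ∀ j, ∀ g ∈ O j, 1 ≤ S.r g := fun j g hg => S.one_le_r ((hO j g).1 hg).1
  have h1 : ∀ j, 1 ≤ ∏ g ∈ O j, S.r g := fun j => Finset.one_le_prod (hr j)
  have n1 : ∀ j, (C j).a 0 ≤ (C (j + 1)).a 0 := fun j => by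
    rw [ha, ha]
    exact (V.nest (j0 + j)).1
  have n2 : ∀ j, (C (j + 1)).b 0 ≤ (C j).b 0 := fun j => by
    rw [hb, hb]
    exact (V.nest (j0 + j)).2
  have hin : ∀ j, Inner ((C j).a 0) ((C j).b 0) (V.e (j0 + j + 2)) := fun j => by
    rw [ha, hb]
    exact V.inner (j0 + j)
  have hfl := fun j => mt3_flank (C (j + 1)) (V.gap (j0 + j + 2)) (by
    rw [ha, hb]
    exact (V.flank (j0 + j + 1)).imp And.left And.right)
  refine seq_MT (fun j => ∏ g ∈ O j, S.r g) S.P.G Φ h1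
    (fun j => S.prod_r_le _ fun g hg => ((hO j g).1 hg).1) (fun j => ?_) fun j => ?_
  · have e1 : V.e (j0 + j + 2) ∉ O j := fun hg => ((hO j _).1 hg).2 0 (hin j)
    have e2 : insert (V.e (j0 + j + 2)) (O j) ⊆ O (j + 1) := by
      refine Finset.insert_subset ((hO _ _).2 ⟨V.gap _, (hfl j).1⟩) fun g hg => ?_
      obtain ⟨g1, g2⟩ := (hO j g).1 hg
      refine (hO _ _).2 ⟨g1, fun i hi => g2 i ?_⟩
      obtain ⟨b1, b2⟩ := (C j).nested (C (j + 1)) (n1 j) (n2 j) i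
      exact ⟨b1.trans hi.1, hi.2.trans b2⟩
    have e3 := Finset.prod_le_prod_of_subset_of_one_le (f := S.r) e2
      (fun g hg => zero_le_one.trans (hr _ g (e2 hg))) fun g hg _ => hr _ g hg
    rw [Finset.prod_insert e1] at e3
    exact (lt_mul_of_one_lt_left (zero_lt_one.trans_le (h1 j)) (V.long _)).trans_le e3
  · obtain ⟨z, z1, z2, z3, z4⟩ := (hfl j).2
    obtain ⟨g, g1, g2⟩ := (C j).new_cycle (C (j + 1)) (n1 j) (n2 j) z1
      ⟨(hin j).1.trans z2, z3.trans (hin j).2⟩ z4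
    obtain ⟨β, b1, b2⟩ := hΦ (C j) (O j) (hO j) g fun i hi => ⟨(g2 i hi).1, (g2 i hi).2.1⟩
    exact ⟨β, b1, S.step_MT (C j) (C (j + 1)) (n1 j) (n2 j) (hO j) (hO _) g g1 g2 b2.symm rfl⟩

end Pool.Agent.MP_8df504_an.C
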