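import Pool.Agent.MP_8df504_an.C.Fin1

set_option autoImplicit false

namespace Pool.Agent.MP_8df504_an.C

open Set Filter Topology MeasureTheory

/-! Matching of the edges of `A` with the edges of `T A`, by induction on the maximum. -/

/-- a matching compatible with the relation `R` -/
def fin2_M {α : Type} (R : α → α → Prop) (s t : Finset α) : Prop :=
  ∃ μ : α → α, BijOn μ (s : Set α) (t : Set α) ∧ ∀ g ∈ s, R g (μ g)

lemma fin2_ins {α : Type} [DecidableEq α] {R : α → α → Prop} {s t : Finset α} {e ε : α}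
    (h : fin2_M R s t) (he : e ∉ s) (hε : ε ∉ t) (hR : R e ε) :
    fin2_M R (insert e s) (insert ε t) := by
  obtain ⟨μ, hμ, hc⟩ := h
  have h1 : ∀ g ∈ s, Function.update μ e ε g = μ g := fun g hg =>
    Function.update_of_ne (ne_of_mem_of_not_mem hg he) _ _
  refine ⟨Function.update μ e ε, ?_, fun g hg => ?_⟩
  · have h2 := (hμ.congr fun g hg => (h1 g hg).symm).insert (a := e) (by simpa using hε)
    simpa using h2
  · rcases Finset.mem_insert.1 hg with rfl | hg
    · simpa using hR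
    · rw [h1 g hg]
      exact hc g hg

lemma fin2_split {α : Type} [DecidableEq α] {R : α → α → Prop} {s t : Finset α} {e γ γ₁ γ₂ : α}
    (h : fin2_M R s t) (he : e ∉ s) (hγ : γ ∈ t) (h1 : γ₁ ∉ t) (h2 : γ₂ ∉ t) (h12 : γ₁ ≠ γ₂)
    (hR : R e γ₁) (hR' : ∀ g, R g γ → R g γ₂) :
    fin2_M R (insert e s) (insert γ₁ (insert γ₂ (t.erase γ))) := by
  obtain ⟨μ, hμ, hc⟩ := h
  obtain ⟨g, hg, rfl⟩ := hμ.surjOn hγ
  have h3 : fin2_M R (s.erase g) (t.erase (μ g)) :=
    ⟨μ, by simpa using hμ.sdiff_singleton hg, fun g' hg' => hc g' (Finset.mem_of_mem_erase hg')⟩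
  have h4 := fin2_ins h3 (Finset.notMem_erase g s) (fun h => h2 (Finset.mem_of_mem_erase h))
    (hR' g (hc g hg))
  rw [Finset.insert_erase hg] at h4
  refine fin2_ins h4 he (fun h => ?_) hR
  rcases Finset.mem_insert.1 h with h | h
  · exact h12 h
  · exact h1 (Finset.mem_of_mem_erase h)

lemma exists_match (T : ℝ → ℝ) (A : Finset ℝ) (hinj : InjOn T (A : Set ℝ)) :
    ∃ μ : ℝ × ℝ → ℝ × ℝ, BijOn μ (gaps A : Set (ℝ × ℝ)) (gaps (A.image T) : Set (ℝ × ℝ)) ∧
      ∀ g ∈ gaps A, Cov T g (μ g) := by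
  change fin2_M (Cov T) (gaps A) (gaps (A.image T))
  induction A using Finset.induction_on_max with
  | empty => exact ⟨id, by simp [gaps_empty], by simp [gaps_empty]⟩
  | insert y A hy ih =>
    rcases A.eq_empty_or_nonempty with rfl | hA
    · exact ⟨id, by simp [gaps_singleton], by simp [gaps_singleton]⟩
    have hM := ih (hinj.mono (by simp))
    have ha := A.max'_mem hA
    obtain ⟨he, hg⟩ := gaps_insert_max ha (fun z hz => A.le_max' z hz) (hy _ ha)
    have hTa : T (A.max' hA) ∈ A.image T := Finset.mem_image_of_mem T ha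
    have hTy : T y ∉ A.image T := by
      intro h
      obtain ⟨z, hz, e⟩ := Finset.mem_image.1 h
      exact (hy z hz).ne (hinj (by simp [hz]) (by simp) e)
    rw [hg, Finset.image_insert]
    rcases insert_cases _ _ hTy with h | ⟨b, hb, h1, h2⟩ | ⟨b, hb, h1, h2⟩ | ⟨γ, hγ, h1, h2⟩
    · simp [h] at hTa
    · obtain ⟨h3, h4⟩ := gaps_insert_max hb h1 h2
      rw [h4]
      exact fin2_ins hM he h3 ⟨min_le_of_left_le (h1 _ hTa), le_max_right _ _⟩
    · obtain ⟨h3, h4⟩ := gaps_insert_min hb h1 h2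
      rw [h4]
      exact fin2_ins hM he h3 ⟨min_le_right _ _, le_max_of_le_left (h1 _ hTa)⟩
    · obtain ⟨h3, h4, h5, h6⟩ := gaps_insert_mid hγ h1 h2
      rw [h6]
      rcases Gap.le_or_ge (mem_gaps.1 hγ) hTa with h7 | h7
      · exact fin2_split hM he hγ h3 h4 h5 ⟨min_le_of_left_le h7, le_max_right _ _⟩
          fun g hg => ⟨hg.1.trans h1.le, hg.2⟩
      · rw [Finset.insert_comm]
        exact fin2_split hM he hγ h4 h3 h5.symm ⟨min_le_right _ _, le_max_of_le_left h7⟩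
          fun g hg => ⟨hg.1, h2.le.trans hg.2⟩

lemma match_prod {T : ℝ → ℝ} {A : Finset ℝ} {μ : ℝ × ℝ → ℝ × ℝ}
    (hμ : BijOn μ (gaps A : Set (ℝ × ℝ)) (gaps (A.image T) : Set (ℝ × ℝ))) :
    ∏ g ∈ gaps A, img T g / len (μ g) = Pt T A / Dl (A.image T) := by
  rw [Finset.prod_div_distrib, Pt, Dl]
  congr 1
  exact Finset.prod_nbij μ (fun _ h => hμ.mapsTo h) hμ.injOn hμ.surjOn fun _ _ => rfl

/-- sub-products of a matching are bounded by the gain -/
lemma match_prod_le {T : ℝ → ℝ} {A : Finset ℝ} {μ : ℝ × ℝ → ℝ × ℝ} {G : ℝ}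
    (hμ : BijOn μ (gaps A : Set (ℝ × ℝ)) (gaps (A.image T) : Set (ℝ × ℝ)))
    (hc : ∀ g ∈ gaps A, Cov T g (μ g)) (hG : Pt T A ≤ G * Dl (A.image T))
    (F : Finset (ℝ × ℝ)) (hF : F ⊆ gaps A) : ∏ g ∈ F, img T g / len (μ g) ≤ G := by
  have h1 : ∀ g ∈ gaps A, 1 ≤ img T g / len (μ g) := fun g hg =>
    (one_le_div (Gap.len_pos (mem_gaps.1 (hμ.mapsTo hg)))).2 (hc g hg).len_le
  refine (Finset.prod_le_prod_of_subset_of_one_le hF
    (fun g hg => zero_le_one.trans (h1 g (hF hg))) fun g hg _ => h1 g hg).trans ?_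
  rw [match_prod hμ]
  exact (div_le_iff₀ (Dl_pos _)).2 hG

end Pool.Agent.MP_8df504_an.C
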