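import Pool.Agent.MP_8df504_an.C.Basic
import Pool.Agent.MP_8df504_an.C.Fin2

set_option autoImplicit false

namespace Pool.Agent.MP_8df504_an.C

open Set Filter Topology MeasureTheory

/-! The matching `pi` of the gaps of `K`.

Hints.  `fine_edge`: if `A ⊆ K` is finite, `η`-dense in `K` and contains the ends of all gaps of
`K` of length `≥ η`, then every edge of `A` of length `≥ 3η` is a gap of `K` (the midpoint of the
edge is not in `K`, take the gap of `K` around it with `exists_gap_around`; it has length `≥ η`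
because points of `K` inside the edge are within `η` of an end of the edge).
Choose finite sets `A n ⊆ K` such that both `A n` and `(A n).image T` are `1/(n+1)`-dense in `K` and
contain the ends of all gaps of length `≥ 1/(n+1)` (`finite_big`, `surjK`, compactness), and
matchings `μ n` (`exists_match`).  For a gap `g` of `K` and `n` large `g ∈ gaps (A n)` and
`img T g / len (μ n g) ≤ G` (`match_prod_le` with `F = {g}`), `img T g > 0`, so `μ n g` lies in the
finite set of gaps of `K` of length `≥ img T g / G`.  Fix the ultrafilter `hyperfilter ℕ`; `μ n g`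
is constant for hyperfilter-many `n` (`Ultrafilter.eventually_exists_mem_iff` or
`Ultrafilter.finite_biUnion_mem_iff`); call the value `pi g`.  Injectivity, `Cov` and the product
bound pass to the limit.  Surjectivity: for a gap `γ` and `n` large `γ = μ n (g n)` with
`len γ ≤ img T (g n) ≤ M len (g n)`, so `g n` is one of finitely many gaps of `K`. -/

lemma fine_edge {K : Set ℝ} (hK : IsCompact K) {A : Finset ℝ} (hA : (A : Set ℝ) ⊆ K) {η : ℝ}
    (hη : 0 < η) (hd : ∀ z ∈ K, ∃ a ∈ A, |z - a| < η)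
    (he : ∀ g ∈ Gap K, η ≤ len g → g.1 ∈ A ∧ g.2 ∈ A) {e : ℝ × ℝ} (h : e ∈ gaps A)
    (hl : 3 * η ≤ len e) : e ∈ Gap K := by
  rw [mem_gaps] at h
  have hlt := h.2.2.1
  unfold len at hl
  have hm : (e.1 + e.2) / 2 ∉ K := by
    intro hm
    obtain ⟨a, ha, hd'⟩ := hd _ hm
    rw [abs_lt] at hd'
    exact h.2.2.2 a ha ⟨by linarith [hd'.2], by linarith [hd'.1]⟩
  obtain ⟨g, hg, h1, h2, h3, h4⟩ := exists_gap_around hK (hA h.1) (hA h.2.1)
    (by linarith) (by linarith) hm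
  have h5 : g.1 < e.1 + η := by
    obtain ⟨a, ha, hd'⟩ := hd _ hg.1
    rw [abs_lt] at hd'
    rcases Gap.le_or_ge h (Finset.mem_coe.2 ha) with c | c <;> linarith [hd'.1, hd'.2]
  have h6 : e.2 - η < g.2 := by
    obtain ⟨a, ha, hd'⟩ := hd _ hg.2.1
    rw [abs_lt] at hd'
    rcases Gap.le_or_ge h (Finset.mem_coe.2 ha) with c | c <;> linarith [hd'.1, hd'.2]
  obtain ⟨h7, h8⟩ := he g hg (by unfold len; linarith)
  have h9 : g.1 = e.1 := by
    rcases Gap.le_or_ge h (Finset.mem_coe.2 h7) with c | c <;> linarith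
  have h10 : g.2 = e.2 := by
    rcases Gap.le_or_ge h (Finset.mem_coe.2 h8) with c | c <;> linarith
  rwa [← Prod.ext h9 h10]

/-- a finite subset of `K` that is `η`-dense and sees the gaps of length at least `η` -/
def piex_Fine (K : Set ℝ) (η : ℝ) (A : Finset ℝ) : Prop :=
  (A : Set ℝ) ⊆ K ∧ (∀ z ∈ K, ∃ a ∈ A, |z - a| < η) ∧
    ∀ g ∈ Gap K, η ≤ len g → g.1 ∈ A ∧ g.2 ∈ A

lemma piex_mono {K : Set ℝ} {η : ℝ} {A A' : Finset ℝ} (h : piex_Fine K η A) (hs : A ⊆ A')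
    (hK : (A' : Set ℝ) ⊆ K) : piex_Fine K η A' := by
  refine ⟨hK, fun z hz => ?_, fun g hg hl => ⟨hs (h.2.2 g hg hl).1, hs (h.2.2 g hg hl).2⟩⟩
  obtain ⟨a, ha, hd⟩ := h.2.1 z hz
  exact ⟨a, hs ha, hd⟩

lemma piex_mem {K : Set ℝ} {η : ℝ} {A : Finset ℝ} (h : piex_Fine K η A) {g : ℝ × ℝ}
    (hg : g ∈ Gap K) (hl : η ≤ len g) : g ∈ gaps A :=
  mem_gaps.2 ⟨(h.2.2 g hg hl).1, (h.2.2 g hg hl).2, hg.2.2.1, fun z hz => hg.2.2.2 z (h.1 hz)⟩

lemma piex_fine0 (P : Pre) {η : ℝ} (hη : 0 < η) : ∃ A : Finset ℝ, piex_Fine P.K η A := by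
  classical
  obtain ⟨t, htK, htf, hcov⟩ := finite_cover_balls_of_compact P.cpt hη
  have hb := P.finite_big hη
  refine ⟨htf.toFinset ∪ hb.toFinset.image Prod.fst ∪ hb.toFinset.image Prod.snd, ?_, ?_, ?_⟩
  · intro z hz
    simp only [Finset.coe_union, mem_union, Finite.coe_toFinset, Finset.coe_image, mem_image,
      mem_ofPred_eq] at hz
    rcases hz with (hz | ⟨g, hg, rfl⟩) | ⟨g, hg, rfl⟩
    · exact htK hz
    · exact hg.1.1
    · exact hg.1.2.1
  · intro z hz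
    obtain ⟨a, ha, hd⟩ := mem_iUnion₂.1 (hcov hz)
    refine ⟨a, Finset.mem_union_left _ (Finset.mem_union_left _ (htf.mem_toFinset.2 ha)), ?_⟩
    rwa [Metric.mem_ball, Real.dist_eq] at hd
  · intro g hg hl
    have hgm : g ∈ hb.toFinset := hb.mem_toFinset.2 ⟨hg, hl⟩
    exact ⟨Finset.mem_union_left _ (Finset.mem_union_right _ (Finset.mem_image_of_mem _ hgm)),
      Finset.mem_union_right _ (Finset.mem_image_of_mem _ hgm)⟩

lemma piex_fine (P : Pre) {η : ℝ} (hη : 0 < η) :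
    ∃ A : Finset ℝ, piex_Fine P.K η A ∧ piex_Fine P.K η (A.image P.T) := by
  classical
  obtain ⟨A, hA⟩ := piex_fine0 P hη
  have hs : ∀ a, ∃ b, a ∈ P.K → b ∈ P.K ∧ P.T b = a := by
    intro a
    by_cases ha : a ∈ P.K
    · obtain ⟨b, hb, e⟩ := P.surjK ha
      exact ⟨b, fun _ => ⟨hb, e⟩⟩
    · exact ⟨a, fun h => absurd h ha⟩
  choose s hs using hs
  have hK : ((A ∪ A.image s : Finset ℝ) : Set ℝ) ⊆ P.K := by
    intro z hz
    rcases Finset.mem_union.1 (Finset.mem_coe.1 hz) with hz | hz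
    · exact hA.1 hz
    · obtain ⟨a, ha, rfl⟩ := Finset.mem_image.1 hz
      exact (hs a (hA.1 ha)).1
  refine ⟨A ∪ A.image s, piex_mono hA Finset.subset_union_left hK, piex_mono hA ?_ ?_⟩
  · intro a ha
    exact Finset.mem_image.2 ⟨s a, Finset.mem_union_right _ (Finset.mem_image_of_mem _ ha),
      (hs a (hA.1 ha)).2⟩
  · intro z hz
    obtain ⟨a, ha, rfl⟩ := Finset.mem_image.1 (Finset.mem_coe.1 hz)
    exact P.mapsK (hK ha)

lemma piex_small {c : ℝ} (hc : 0 < c) :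
    ∀ᶠ n : ℕ in (hyperfilter ℕ : Filter ℕ), 1 / ((n : ℝ) + 1) ≤ c := by
  have h : ∀ᶠ n : ℕ in atTop, 1 / ((n : ℝ) + 1) ≤ c :=
    (tendsto_one_div_add_atTop_nhds_zero_nat (𝕜 := ℝ)).eventually (ge_mem_nhds hc)
  rw [← Nat.cofinite_eq_atTop] at h
  exact h.filter_mono hyperfilter_le_cofinite

lemma Pre.exists_pi (P : Pre) (L : Slp P) : ∃ pi : ℝ × ℝ → ℝ × ℝ, PiOK P pi := by
  classical
  have hpos : ∀ n : ℕ, (0 : ℝ) < 1 / ((n : ℝ) + 1) := fun n => Nat.one_div_pos_of_nat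
  choose A hA hA' using fun n : ℕ => piex_fine P (hpos n)
  choose μ hμ hcov using fun n : ℕ => exists_match P.T (A n) (P.inj.mono (hA n).1)
  have hG : 0 < P.G := lt_of_lt_of_le one_pos P.one_le_G
  have hM : 0 < L.M := lt_of_lt_of_le L.m_pos ((L.sl_lo 0).trans (L.sl_hi 0))
  have hle : ∀ n (F : Finset (ℝ × ℝ)), F ⊆ gaps (A n) →
      ∏ g ∈ F, img P.T g / len (μ n g) ≤ P.G :=
    fun n F hF => match_prod_le (hμ n) (hcov n) (P.gain _ (hA n).1) F hF
  have hex : ∀ g, ∃ γ, g ∈ Gap P.K → γ ∈ Gap P.K ∧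
      ∀ᶠ n in (hyperfilter ℕ : Filter ℕ), g ∈ gaps (A n) ∧ μ n g = γ := by
    intro g
    by_cases hg : g ∈ Gap P.K
    swap
    · exact ⟨g, fun h => absurd h hg⟩
    have himg : 0 < img P.T g :=
      abs_pos.2 (sub_ne_zero.2 fun e => hg.2.2.1.ne' (P.inj hg.2.1 hg.1 e))
    have hc : 0 < img P.T g / P.G := div_pos himg hG
    have h1 : ∀ᶠ n in (hyperfilter ℕ : Filter ℕ), ∃ γ ∈ {γ | γ ∈ Gap P.K ∧
        img P.T g / P.G ≤ len γ}, g ∈ gaps (A n) ∧ μ n g = γ := by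
      filter_upwards [piex_small (Gap.len_pos hg), piex_small (div_pos hc three_pos)] with n h2 h3
      have h4 := piex_mem (hA n) hg h2
      have h5 : μ n g ∈ gaps ((A n).image P.T) := (hμ n).mapsTo (Finset.mem_coe.2 h4)
      have h6 := hle n {g} (Finset.singleton_subset_iff.2 h4)
      rw [Finset.prod_singleton, div_le_iff₀ (Gap.len_pos (mem_gaps.1 h5))] at h6
      have h7 : img P.T g / P.G ≤ len (μ n g) := by
        rw [div_le_iff₀ hG]
        linarith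
      exact ⟨μ n g, ⟨fine_edge P.cpt (hA' n).1 (hpos n) (hA' n).2.1 (hA' n).2.2 h5
        (by linarith), h7⟩, h4, rfl⟩
    obtain ⟨γ, hγ, h2⟩ := (Ultrafilter.eventually_exists_mem_iff (P.finite_big hc)).1 h1
    exact ⟨γ, fun _ => ⟨hγ.1, h2⟩⟩
  choose pi hpi using hex
  refine ⟨pi, ⟨fun g hg => (hpi g hg).1, fun g hg g' hg' e => ?_, fun γ hγ => ?_⟩,
    fun g hg => ?_, fun F hF => ?_⟩
  · obtain ⟨n, h1, h2⟩ := ((hpi g hg).2.and (hpi g' hg').2).exists
    exact (hμ n).injOn (Finset.mem_coe.2 h1.1) (Finset.mem_coe.2 h2.1) (by rw [h1.2, h2.2, e])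
  · have hc : 0 < len γ / L.M := div_pos (Gap.len_pos hγ) hM
    have h1 : ∀ᶠ n in (hyperfilter ℕ : Filter ℕ), ∃ g ∈ {g | g ∈ Gap P.K ∧
        len γ / L.M ≤ len g}, μ n g = γ := by
      filter_upwards [piex_small (Gap.len_pos hγ), piex_small (div_pos hc three_pos)] with n h2 h3
      obtain ⟨g, hg, e⟩ := (hμ n).surjOn (Finset.mem_coe.2 (piex_mem (hA' n) hγ h2))
      have hg' : g ∈ gaps (A n) := Finset.mem_coe.1 hg
      have h4 := (hcov n g hg').len_le
      rw [e] at h4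
      have hg2 := mem_gaps.1 hg'
      have h5 := L.lip g.2 (P.sub ((hA n).1 hg2.2.1)) g.1 (P.sub ((hA n).1 hg2.1))
      rw [abs_of_pos (sub_pos.2 hg2.2.2.1)] at h5
      have h7 : len γ / L.M ≤ len g := by
        rw [div_le_iff₀ hM]
        unfold img at h4
        unfold len at h4 ⊢
        linarith
      exact ⟨g, ⟨fine_edge P.cpt (hA n).1 (hpos n) (hA n).2.1 (hA n).2.2 hg'
        (by linarith), h7⟩, e⟩
    obtain ⟨g, hg, h2⟩ := (Ultrafilter.eventually_exists_mem_iff (P.finite_big hc)).1 h1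
    obtain ⟨n, h3, h4⟩ := (h2.and (hpi g hg.1).2).exists
    exact ⟨g, hg.1, by rw [← h4.2, h3]⟩
  · obtain ⟨n, h1, h2⟩ := (hpi g hg).2.exists
    rw [← h2]
    exact hcov n g h1
  · have h1 : ∀ᶠ n in (hyperfilter ℕ : Filter ℕ), ∀ g ∈ F, g ∈ gaps (A n) ∧ μ n g = pi g :=
      (eventually_all_finset F).2 fun g hg => (hpi g (hF g hg)).2
    obtain ⟨n, h2⟩ := h1.exists
    refine le_trans (le_of_eq ?_) (hle n F fun g hg => (h2 g hg).1)
    exact Finset.prod_congr rfl fun g hg => by rw [(h2 g hg).2]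

end Pool.Agent.MP_8df504_an.C
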