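import Pool.Agent.MP_8df504_an.C.Dist
import Pool.Agent.MP_8df504_an.C.SysBase
import Pool.Agent.MP_8df504_an.C.Fin3

set_option autoImplicit false

namespace Pool.Agent.MP_8df504_an.C

open Set Filter Topology MeasureTheory

/-! From escaping points to a cycle of intervals.

`ret_of_esc`: let `c` be from `expand_K`, `C' = G M (M/c)^card B`, `Λ = 8 C' (M/m)^card B + 2`
(any larger constant works).  `X` = closure of the two orbits: closed, forward invariant, disjoint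
from the interval from `u-D` to `v+D`.  `α = sSup (X ∩ [yL,u])`, `β = sInf (X ∩ [v,yR])`, `U = (α,β)` misses `X`,
`α ≤ u - D`, `v + D ≤ β`.  Orbit points visit `[u,v]` infinitely often (`visit` at `u`; `K` has no
point in the open flanks).  Let `y = x k ∈ [u,v]`, `r ≥ 1` its first return time to `[u,v]`,
`y i = x (k+i)`; `mid y r` misses `Ioo fL.1 fR.2`; `T1up` (`slopeAt_self`) and `rho_cmp` with
`θ₁ = θ₂ = 1/2` give `∏ i<r |sl (y i)| ≤ 4 C'`.  Claim A: if `T^[r]` maps the segment `Z` from `y`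
to `w` into `U` then `T^[i] Z` misses `U` for `0<i<r` (else by the intermediate value theorem some
`T^[i] z ∈ {α,β} ⊆ X`, so `T^[r] z ∈ X`), and the `T^[i] Z`, `i<r`, are disjoint (if
`T^[i] z = T^[l] z'`, apply `T^[r-l]`).  Claim B: `T^[r] w ∈ (u - D/2, v + D/2)` for all
`w ∈ [u,v]`: otherwise take the first `w*` on the segment from `y` to `w` where this fails; `T^[r]`
maps the segment from `y` to `w*` into `[u-D/2, v+D/2] ⊆ U` and `distortion` gives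
`D/2 ≤ (M/m)^card B * 4 C' * (v-u)`.

`cyc_of_ret`: `H = K ∩ [u,v]`, `a i = sInf (T^[i % r] '' H)`, `b i = sSup (...)` (compact sets).
`[a i, b i] ⊆ T^[i % r] '' [u,v]` and these images are pairwise disjoint for different `i < r`.
`T^[r]` maps `H` into `K ∩ U ⊆ H`, so `⋃ i<r, T^[i] '' H` is closed, forward invariant, contains a
tail of `x`, hence contains `K`.  So `K ∩ [a i, b i] = T^[i % r] '' H`. -/

/-- leaving an open interval through one of its ends -/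
lemma rn_cross {f : ℝ → ℝ} (hf : Continuous f) {a b y z : ℝ} (hy : f y ∈ Ioo a b)
    (hz : f z ∉ Ioo a b) : ∃ z' ∈ uIcc y z, f z' = a ∨ f z' = b := by
  have h := intermediate_value_uIcc (a := y) (b := z) hf.continuousOn
  rcases not_and_or.1 hz with c | c
  · obtain ⟨z', h1, h2⟩ := h (mem_uIcc.2 (Or.inr ⟨not_lt.1 c, hy.1.le⟩))
    exact ⟨z', h1, Or.inl h2⟩
  · obtain ⟨z', h1, h2⟩ := h (mem_uIcc.2 (Or.inl ⟨hy.2.le, not_lt.1 c⟩))
    exact ⟨z', h1, Or.inr h2⟩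

lemma rn_exit {f : ℝ → ℝ} (hf : Continuous f) {a b y w₀ : ℝ} (hy : f y ∈ Ioo a b)
    (h : ∀ w ∈ uIcc y w₀, (∀ z ∈ uIcc y w, f z ∈ Icc a b) → f w ∈ Ioo a b) : f w₀ ∈ Ioo a b := by
  by_contra h0
  have hE : IsCompact (uIcc y w₀ ∩ f ⁻¹' (Ioo a b)ᶜ) :=
    isCompact_uIcc.inter_right (isOpen_Ioo.isClosed_compl.preimage hf)
  obtain ⟨w, hw, hmin⟩ := hE.exists_isMinOn ⟨w₀, right_mem_uIcc, h0⟩
    (f := fun z => |z - y|) (by fun_prop)
  refine hw.2 (h w hw.1 fun z hz => ?_)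
  by_contra hz'
  obtain ⟨z', h1, h2⟩ := rn_cross hf hy fun c => hz' (Ioo_subset_Icc_self c)
  have hab : a ≤ b := (hy.1.trans hy.2).le
  have h3 : |w - y| ≤ |z' - y| := hmin ⟨uIcc_subset_uIcc_left hw.1 (uIcc_subset_uIcc_left hz h1),
    fun c => by rcases h2 with e | e <;> [exact c.1.ne' e; exact c.2.ne e]⟩
  have h4 : |z - y| ≤ |z' - y| := (abs_sub_left_of_mem_uIcc hz).trans h3
  have h5 : z' = z := by
    rcases mem_uIcc.1 h1 with ⟨c1, c2⟩ | ⟨c1, c2⟩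
    · rw [abs_of_nonneg (by linarith), abs_of_nonneg (by linarith)] at h4
      linarith
    · rw [abs_of_nonpos (by linarith), abs_of_nonpos (by linarith)] at h4
      linarith
  rw [h5] at h2
  rcases h2 with e | e
  · exact hz' ⟨e.ge, e ▸ hab⟩
  · exact hz' ⟨e ▸ hab, e.le⟩

lemma rn_claimA {T : ℝ → ℝ} (hT : Continuous T) {X : Set ℝ} (hX : MapsTo T X X) {α β y w : ℝ}
    (hα : α ∈ X) (hβ : β ∈ X) (hU : ∀ z ∈ X, z ∉ Ioo α β) {r : ℕ}
    (hr : ∀ z ∈ uIcc y w, T^[r] z ∈ Ioo α β) {i : ℕ} (hi : i < r) (hy : T^[i] y ∉ Ioo α β) :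
    ∀ z ∈ uIcc y w, T^[i] z ∉ Ioo α β := by
  intro z hz hc
  obtain ⟨z', h1, h2⟩ := rn_cross (hT.iterate i) hc hy
  have h3 : T^[i] z' ∈ X := by rcases h2 with e | e <;> rw [e] <;> assumption
  refine hU _ (hX.iterate (r - i) h3) ?_
  rw [← Function.iterate_add_apply, Nat.sub_add_cancel hi.le]
  exact hr z' (uIcc_subset_uIcc hz left_mem_uIcc h1)

/-- the invariant closed set and the ends of the free interval -/
lemma rn_ends {T : ℝ → ℝ} (hT : Continuous T) {u v D yL yR : ℝ} (huv : u < v) (hD : 0 < D)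
    (hL : yL ≤ u) (hR : v ≤ yR) (h1 : ∀ k : ℕ, T^[k] yL ∉ Ioo (u - D) (v + D))
    (h2 : ∀ k : ℕ, T^[k] yR ∉ Ioo (u - D) (v + D)) :
    ∃ (X : Set ℝ) (α β : ℝ), MapsTo T X X ∧ α ∈ X ∧ β ∈ X ∧ (∀ z ∈ X, z ∉ Ioo α β) ∧
      yL ≤ α ∧ α ≤ u - D ∧ v + D ≤ β ∧ β ≤ yR := by
  set Y : Set ℝ := {z | ∃ k : ℕ, z = T^[k] yL ∨ z = T^[k] yR} with hY
  have hm : MapsTo T Y Y := by
    rintro z ⟨k, hk⟩
    refine ⟨k + 1, ?_⟩
    simp only [Function.iterate_succ_apply']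
    exact hk.imp (congrArg T) (congrArg T)
  have hout : closure Y ⊆ (Ioo (u - D) (v + D))ᶜ := by
    refine closure_minimal ?_ isOpen_Ioo.isClosed_compl
    rintro z ⟨k, rfl | rfl⟩
    exacts [h1 k, h2 k]
  obtain ⟨α, hα, hαm⟩ := ((isCompact_Icc (a := yL) (b := u)).inter_left
    (isClosed_closure (s := Y))).exists_isGreatest
    ⟨yL, subset_closure ⟨0, Or.inl rfl⟩, le_rfl, hL⟩
  obtain ⟨β, hβ, hβm⟩ := ((isCompact_Icc (a := v) (b := yR)).inter_left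
    (isClosed_closure (s := Y))).exists_isLeast
    ⟨yR, subset_closure ⟨0, Or.inr rfl⟩, hR, le_rfl⟩
  refine ⟨closure Y, α, β, hm.closure hT, hα.1, hβ.1, fun z hz hc => ?_, hα.2.1, ?_, ?_, hβ.2.2⟩
  · rcases le_or_gt z u with c | c
    · exact (hαm ⟨hz, hα.2.1.trans hc.1.le, c⟩).not_gt hc.1
    · rcases le_or_gt v z with c' | c'
      · exact (hβm ⟨hz, c', hc.2.le.trans hβ.2.2⟩).not_gt hc.2
      · exact hout hz ⟨by linarith, by linarith⟩
  · by_contra c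
    exact hout hα.1 ⟨not_le.1 c, by linarith [hα.2.2]⟩
  · by_contra c
    exact hout hβ.1 ⟨by linarith [hβ.2.1], not_le.1 c⟩

/-- the product of the slopes up to the first return is bounded -/
lemma rn_prod (S : Sys) : ∃ C > 0, ∀ (fL fR : ℝ × ℝ), fL ∈ Gap S.P.K → fR ∈ Gap S.P.K →
    fL.2 < fR.1 → fR.1 - fL.2 ≤ len fL → fR.1 - fL.2 ≤ len fR → ∀ k r : ℕ, 1 ≤ r →
    S.P.x k ∈ Icc fL.2 fR.1 → S.P.x (k + r) ∈ Icc fL.2 fR.1 →
    (∀ i, 0 < i → i < r → S.P.x (k + i) ∉ Icc fL.2 fR.1) →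
    ∏ i ∈ Finset.range r, |S.L.sl (S.P.x (k + i))| ≤ C := by
  obtain ⟨c, hc, hcM, hexp⟩ := S.expand_K
  have hM : 0 < S.L.M := hc.trans_le hcM
  have hG : 0 < S.P.G := one_pos.trans_le S.P.one_le_G
  have hκ : 0 < (c / S.L.M) ^ S.P.B.card / S.L.M := by positivity
  refine ⟨4 * S.P.G / ((c / S.L.M) ^ S.P.B.card / S.L.M), by positivity,
    fun fL fR hL hR huv h1 h2 k r hr h0 h3 hmid => ?_⟩
  have hK : ∀ z ∈ orb (fun i => S.P.x (k + i)) r, z ∈ S.P.K := fun z hz => by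
    obtain ⟨i, -, rfl⟩ := Finset.mem_image.1 hz
    exact S.P.x_mem _
  have hT := T1up (T := S.P.T) (lo := S.P.lo) (hi := S.P.hi) (B := S.P.B) (G := S.P.G)
    (y := fun i => S.P.x (k + i)) (s := fun i => |S.L.sl (S.P.x (k + i))|) S.L.m_pos hr
    (fun i _ => S.P.x_succ _) (fun i _ j _ e => Nat.add_left_cancel (S.P.x_inj e))
    (fun i _ => S.P.sub (S.P.x_mem _))
    (fun i _ => ⟨S.L.sl_lo _, S.L.sl_hi _, S.slopeAt_self (S.P.sub (S.P.x_mem _)).1⟩) hc hcM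
    (fun e he => by
      have he' := mem_gaps.1 he
      have := hexp e.2 (hK _ he'.2.1) e.1 (hK _ he'.1)
      rwa [abs_of_pos (sub_pos.2 he'.2.2.1)] at this)
    (S.P.gain _ hK)
  have hl := hL.2.2.1
  have hl' := hR.2.2.1
  unfold len at h1 h2
  have hρ := rho_cmp (O := mid (fun i => S.P.x (k + i)) r) (L := fL.1) (R := fR.2)
    (y := S.P.x (k + 0)) (y' := S.P.x (k + r)) (θ₁ := 1 / 2) (θ₂ := 1 / 2) (fun z hz hc => by
      obtain ⟨i, hi, rfl⟩ := Finset.mem_image.1 hz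
      refine hmid i (Finset.mem_Ioo.1 hi).1 (Finset.mem_Ioo.1 hi).2 ⟨?_, ?_⟩
      · exact (Gap.le_or_ge hL (S.P.x_mem _)).resolve_left hc.1.not_ge
      · exact (Gap.le_or_ge hR (S.P.x_mem _)).resolve_right hc.2.not_ge)
    ⟨hl.trans_le h0.1, h0.2.trans_lt hl'⟩ ⟨hl.trans_le h3.1, h3.2.trans_lt hl'⟩
    (by norm_num) (by norm_num) (by rw [add_zero]; linarith [h0.1, h3.2])
    (by rw [add_zero]; linarith [h0.2, h3.1])
  rw [le_div_iff₀ hκ, mul_comm]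
  refine le_of_mul_le_mul_right (hT.trans ?_) (rho_pos _ _)
  nlinarith

lemma Sys.ret_of_esc (S : Sys) : ∃ Λ > 0, ∀ (fL fR : ℝ × ℝ), fL ∈ Gap S.P.K → fR ∈ Gap S.P.K →
    fL.2 < fR.1 → fR.1 - fL.2 ≤ len fL → fR.1 - fL.2 ≤ len fR →
    S.P.Esc fL.2 fR.1 (Λ * (fR.1 - fL.2)) → S.P.Ret fL.2 fR.1 := by
  classical
  obtain ⟨C, hC, hprod⟩ := rn_prod S
  have hA : 0 < (S.L.M / S.L.m) ^ S.P.B.card :=
    pow_pos (div_pos (S.L.m_pos.trans_le S.m_le_M) S.L.m_pos) _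
  refine ⟨2 * ((S.L.M / S.L.m) ^ S.P.B.card * C) + 2, by positivity,
    fun fL fR hL hR huv h1 h2 hesc => ?_⟩
  obtain ⟨yL, yR, hyL, hyR, hKs, hoL, hoR⟩ := hesc
  set D := (2 * ((S.L.M / S.L.m) ^ S.P.B.card * C) + 2) * (fR.1 - fL.2) with hD
  have hd : 0 < fR.1 - fL.2 := sub_pos.2 huv
  have hD0 : 0 < D := by positivity
  obtain ⟨X, α, β, hX, hα, hβ, hU, e1, e2, e3, e4⟩ := rn_ends S.P.cont huv hD0 hyL hyR hoL hoR
  have hKU : ∀ z ∈ S.P.K, α < z → z < β → fL.2 ≤ z ∧ z ≤ fR.1 := fun z hz c1 c2 =>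
    hKs z hz (e1.trans_lt c1) (c2.trans_le e4)
  have hvis : ∀ N, ∃ n, N ≤ n ∧ S.P.x n ∈ Icc fL.2 fR.1 := fun N => by
    obtain ⟨n, hn, -, hx⟩ := S.P.visit hL.2.1 hd N
    have hx' := abs_lt.1 hx
    unfold len at h1
    exact ⟨n, hn, (Gap.le_or_ge hL (S.P.x_mem n)).resolve_left (not_le.2 (by linarith [hx'.1])),
      by linarith [hx'.2]⟩
  obtain ⟨k, -, hk⟩ := hvis 0
  have hex : ∃ r, 1 ≤ r ∧ S.P.x (k + r) ∈ Icc fL.2 fR.1 := by
    obtain ⟨n, hn, hx⟩ := hvis (k + 1)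
    exact ⟨n - k, by omega, by rwa [Nat.add_sub_cancel' (by omega)]⟩
  obtain ⟨hr, hkr⟩ := Nat.find_spec hex
  have hmid : ∀ i, 0 < i → i < Nat.find hex → S.P.x (k + i) ∉ Icc fL.2 fR.1 :=
    fun i h0 hi hc => Nat.find_min hex hi ⟨h0, hc⟩
  generalize Nat.find hex = r at hr hkr hmid
  have hP := hprod fL fR hL hR huv h1 h2 k r hr hk hkr hmid
  have hyU : ∀ i, 0 < i → i < r → S.P.T^[i] (S.P.x k) ∉ Ioo α β := fun i h0 hi hc => by
    rw [S.P.x_iter] at hc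
    exact hmid i h0 hi (hKU _ (S.P.x_mem _) hc.1 hc.2)
  have hB : ∀ w ∈ Icc fL.2 fR.1, S.P.T^[r] w ∈ Ioo α β := by
    intro w₀ hw₀
    have hsub : Icc (fL.2 - D / 2) (fR.1 + D / 2) ⊆ Ioo α β :=
      Icc_subset_Ioo (by linarith) (by linarith)
    refine hsub (Ioo_subset_Icc_self (rn_exit (S.P.cont.iterate r) (y := S.P.x k) ?_
      fun w hw hZ => ?_))
    · rw [S.P.x_iter]
      exact ⟨by linarith [hkr.1], by linarith [hkr.2]⟩
    · have hw' : w ∈ Icc fL.2 fR.1 := uIcc_subset_Icc hk hw₀ hw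
      have hdist := S.distortion (S.P.sub (S.P.x_mem k))
        ⟨(S.P.sub hL.2.1).1.trans hw'.1, hw'.2.trans (S.P.sub hR.1).2⟩ r
        fun i l hil hl z hz z' hz' e => by
          refine rn_claimA S.P.cont hX hα hβ hU (fun z hz => hsub (hZ z hz))
            (i := r - l + i) (by omega) (hyU _ (by omega) (by omega)) z hz ?_
          rw [Function.iterate_add_apply, e, ← Function.iterate_add_apply,
            Nat.sub_add_cancel hl.le]
          exact hsub (hZ z' hz')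
      simp only [S.P.x_iter] at hdist
      have h5 : |w - S.P.x k| ≤ fR.1 - fL.2 :=
        abs_le.2 ⟨by linarith [hw'.1, hk.2], by linarith [hw'.2, hk.1]⟩
      have h6 := abs_le.1 (hdist.trans (mul_le_mul (mul_le_mul_of_nonneg_left hP hA.le) h5
        (abs_nonneg _) (by positivity)))
      have h7 : (S.L.M / S.L.m) ^ S.P.B.card * C * (fR.1 - fL.2) < D / 2 := by
        rw [hD]
        linarith
      exact ⟨by linarith [h6.1, hkr.1], by linarith [h6.2, hkr.2]⟩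
  refine ⟨α, β, r, hr, by linarith, by linarith, hKU, hB, fun i h0 hi w hw => ?_⟩
  exact rn_claimA S.P.cont hX hα hβ hU (fun z hz => hB z (uIcc_subset_Icc hk hw hz)) hi
    (hyU i h0 hi) w right_mem_uIcc

end Pool.Agent.MP_8df504_an.C
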