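import Pool.Agent.MP_8df504_an.C.Basic

set_option autoImplicit false

namespace Pool.Agent.MP_8df504_an.C

open Set Filter Topology MeasureTheory

/-! From escaping points to a cycle of intervals.

`ret_of_esc`: let `c` be from `expand_K`, `C' = G M (M/c)^card B`, `Λ = 8 C' (M/m)^card B + 2`
(any larger constant works).  `X` = closure of the two orbits: closed, forward invariant, disjoint
from `(u-D, v+D)`.  `α = sSup (X ∩ [yL,u])`, `β = sInf (X ∩ [v,yR])`, `U = (α,β)` misses `X`,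
`α ≤ u - D`, `v + D ≤ β`.  Orbit points visit `[u,v]` infinitely often (`visit` at `u`; `K` has no
point in the open flanks).  Let `y = x k ∈ [u,v]`, `r ≥ 1` its first return time to `[u,v]`,
`y i = x (k+i)`; `mid y r` misses `(fL.1, fR.2)`; `T1up` (`slopeAt_self`) and `rho_cmp` with
`θ₁ = θ₂ = 1/2` give `∏ i<r |sl (y i)| ≤ 4 C'`.  Claim A: if `T^[r]` maps the segment `Z` from `y`
to `w` into `U` then `T^[i] Z` misses `U` for `0<i<r` (else by the intermediate value theorem some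
`T^[i] z ∈ {α,β} ⊆ X`, so `T^[r] z ∈ X`), and the `T^[i] Z`, `i<r`, are disjoint (if
`T^[i] z = T^[l] z'`, apply `T^[r-l]`).  Claim B: `T^[r] w ∈ (u - D/2, v + D/2)` for all
`w ∈ [u,v]`: otherwise take the first `w*` on the segment from `y` to `w` where this fails; `T^[r]`
maps the segment from `y` to `w*` into `[u-D/2, v+D/2] ⊆ U` and `distortion` gives
`D/2 ≤ (M/m)^card B * 4 C' * (v-u)`.

`cyc_of_ret`: `H = K ∩ [u,v]`, `a i = sInf (T^[i % r] '' H)`, `b i = sSup (...)` (compact sets).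
`[a i, b i] ⊆ T^[i % r] '' [u,v]` and these images are pairwise disjoint for different `i < r`.
`T^[r]` maps `H` into `K ∩ U ⊆ H`, so `⋃ i<r, T^[i] '' H` is closed, forward invariant, contains a
tail of `x`, hence contains `K`.  So `K ∩ [a i, b i] = T^[i % r] '' H`. -/

lemma Pre.cyc_of_ret (P : Pre) {u v : ℝ} (hu : u ∈ P.K) (hv : v ∈ P.K) (huv : u < v)
    (h : P.Ret u v) : ∃ C : Cyc P, C.a 0 = u ∧ C.b 0 = v := by
  obtain ⟨α, β, r, hr, hα, hβ, hK, hret, havo⟩ := h
  have hr0 : 0 < r := hr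
  have hiterK : ∀ n, MapsTo P.T^[n] P.K P.K := fun n => P.mapsK.iterate n
  -- disjointness of the images of the interval
  have hdis0 : ∀ i l, i < l → l < r → ∀ w ∈ Icc u v, ∀ w' ∈ Icc u v,
      P.T^[i] w ≠ P.T^[l] w' := by
    intro i l hil hl w hw w' hw' e
    have e1 : P.T^[r - l + i] w = P.T^[r] w' := by
      rw [Function.iterate_add_apply, e, ← Function.iterate_add_apply, Nat.sub_add_cancel hl.le]
    exact havo (r - l + i) (by omega) (by omega) w hw (e1 ▸ hret w' hw')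
  have hdis : ∀ i l, i < r → l < r → ∀ z, z ∈ P.T^[i] '' Icc u v → z ∈ P.T^[l] '' Icc u v →
      i = l := by
    rintro i l hi hl z ⟨w, hw, e⟩ ⟨w', hw', e'⟩
    rcases lt_trichotomy i l with c | c | c
    · exact absurd (e.trans e'.symm) (hdis0 i l c hl w hw w' hw')
    · exact c
    · exact absurd (e'.trans e.symm) (hdis0 l i c hi w' hw' w hw)
  set H : Set ℝ := P.K ∩ Icc u v with hH
  have hHc : IsCompact H := P.cpt.inter_right isClosed_Icc
  have huH : u ∈ H := ⟨hu, le_rfl, huv.le⟩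
  have hvH : v ∈ H := ⟨hv, huv.le, le_rfl⟩
  have hHr : ∀ w ∈ H, P.T^[r] w ∈ H := fun w hw =>
    ⟨hiterK r hw.1, hK _ (hiterK r hw.1) (hret w hw.2).1 (hret w hw.2).2⟩
  obtain ⟨S, hS⟩ : ∃ S : ℕ → Set ℝ, ∀ i, S i = P.T^[i % r] '' H := ⟨_, fun _ => rfl⟩
  have hSc : ∀ i, IsCompact (S i) := fun i => by
    rw [hS]; exact hHc.image (P.cont.iterate _)
  have hSn : ∀ i, (S i).Nonempty := fun i => by
    rw [hS]; exact ⟨_, mem_image_of_mem _ huH⟩
  have hSK : ∀ i, S i ⊆ P.K := fun i => by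
    rw [hS]; rintro _ ⟨w, hw, rfl⟩; exact hiterK _ hw.1
  have hSJ : ∀ i, S i ⊆ P.T^[i % r] '' Icc u v := fun i => by
    rw [hS]; exact image_mono inter_subset_right
  have hSmod : ∀ i l, i % r = l % r → S i = S l := fun i l e => by rw [hS, hS, e]
  have hSsucc : ∀ i, ∀ z ∈ S i, P.T z ∈ S (i + 1) := by
    intro i z hz
    rw [hS] at hz ⊢
    obtain ⟨w, hw, rfl⟩ := hz
    have hlt : i % r < r := Nat.mod_lt _ hr0
    have e0 : (i + 1) % r = (i % r + 1) % r := by simp
    rw [← Function.iterate_succ_apply' P.T, e0]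
    rcases Nat.lt_or_ge (i % r + 1) r with c | c
    · rw [Nat.mod_eq_of_lt c]
      exact mem_image_of_mem _ hw
    · have e1 : i % r + 1 = r := by omega
      rw [Nat.succ_eq_add_one, e1, Nat.mod_self]
      exact ⟨_, hHr w hw, rfl⟩
  have hcov : ∀ z ∈ P.K, ∃ i < r, z ∈ S i := by
    obtain ⟨k, -, -, hk⟩ := P.visit hu (lt_min (sub_pos.2 hα) (sub_pos.2 (huv.trans hβ))) 0
    rw [lt_min_iff, abs_lt, abs_lt] at hk
    have hkH : P.x k ∈ H :=
      ⟨P.x_mem k, hK _ (P.x_mem k) (by linarith [hk.1.1]) (by linarith [hk.2.2])⟩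
    have hall : ∀ j, P.x (k + j) ∈ S j := by
      intro j
      induction j with
      | zero =>
        rw [hS, Nat.zero_mod]
        exact ⟨_, hkH, rfl⟩
      | succ j ih =>
        rw [← add_assoc, P.x_succ]
        exact hSsucc j _ ih
    have hcl : IsClosed (⋃ i ∈ Finset.range r, S i) :=
      isClosed_biUnion_finset fun i _ => (hSc i).isClosed
    have hsub : P.x '' Ici k ⊆ ⋃ i ∈ Finset.range r, S i := by
      rintro _ ⟨n, hn, rfl⟩
      obtain ⟨j, rfl⟩ := Nat.exists_eq_add_of_le (mem_Ici.1 hn)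
      refine mem_iUnion₂.2 ⟨j % r, Finset.mem_range.2 (Nat.mod_lt _ hr0), ?_⟩
      rw [hSmod (j % r) j (Nat.mod_mod _ _)]
      exact hall j
    intro z hz
    obtain ⟨i, hi, hzi⟩ := mem_iUnion₂.1 (closure_minimal hsub hcl (P.dense k hz))
    exact ⟨i, Finset.mem_range.1 hi, hzi⟩
  have ha : ∀ i, sInf (S i) ∈ S i := fun i => (hSc i).sInf_mem (hSn i)
  have hb : ∀ i, sSup (S i) ∈ S i := fun i => (hSc i).sSup_mem (hSn i)
  have hle : ∀ i, ∀ z ∈ S i, sInf (S i) ≤ z ∧ z ≤ sSup (S i) := fun i z hz =>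
    ⟨csInf_le (hSc i).bddBelow hz, le_csSup (hSc i).bddAbove hz⟩
  have hJ : ∀ i z, sInf (S i) ≤ z → z ≤ sSup (S i) → z ∈ P.T^[i % r] '' Icc u v := by
    intro i z h1 h2
    have hc : IsPreconnected (P.T^[i % r] '' Icc u v) :=
      isPreconnected_Icc.image _ (P.cont.iterate _).continuousOn
    exact hc.Icc_subset (hSJ i (ha i)) (hSJ i (hb i)) ⟨h1, h2⟩
  have hS0 : S 0 = H := by rw [hS, Nat.zero_mod]; simp
  refine ⟨{ p := r
            a := fun i => sInf (S i)
            b := fun i => sSup (S i)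
            p_pos := hr
            a_per := fun i => by rw [hSmod (i + r) i (by simp)]
            b_per := fun i => by rw [hSmod (i + r) i (by simp)]
            a_mem := fun i => hSK i (ha i)
            b_mem := fun i => hSK i (hb i)
            ab := fun i => (hle i _ (ha i)).2
            disj := ?_
            cover := ?_
            maps := ?_ }, ?_, ?_⟩
  · intro i l hi hl hne
    by_contra hc
    push Not at hc
    have h1 := hJ i (max (sInf (S i)) (sInf (S l))) (le_max_left _ _)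
      (max_le (hle i _ (ha i)).2 hc.1)
    have h2 := hJ l (max (sInf (S i)) (sInf (S l))) (le_max_right _ _)
      (max_le hc.2 (hle l _ (ha l)).2)
    rw [Nat.mod_eq_of_lt hi] at h1
    rw [Nat.mod_eq_of_lt hl] at h2
    exact hne (hdis i l hi hl _ h1 h2)
  · intro z hz
    obtain ⟨i, hi, hzi⟩ := hcov z hz
    exact ⟨i, hi, hle i z hzi⟩
  · intro i z hz h1 h2
    obtain ⟨l, hl, hzl⟩ := hcov z hz
    have h3 := hSJ l hzl
    rw [Nat.mod_eq_of_lt hl] at h3
    have e : i % r = l := hdis _ _ (Nat.mod_lt _ hr0) hl z (hJ i z h1 h2) h3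
    have e' : S l = S i := hSmod l i (by rw [← e, Nat.mod_mod])
    exact hle (i + 1) _ (hSsucc i z (e' ▸ hzl))
  · show sInf (S 0) = u
    rw [hS0]
    exact IsLeast.csInf_eq ⟨huH, fun z hz => hz.2.1⟩
  · show sSup (S 0) = v
    rw [hS0]
    exact IsGreatest.csSup_eq ⟨hvH, fun z hz => hz.2.2⟩

end Pool.Agent.MP_8df504_an.C
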