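import Pool.Agent.MP_8df504_an.C.Basic

set_option autoImplicit false

namespace Pool.Agent.MP_8df504_an.C

open Set Filter Topology MeasureTheory

/-! Slope data.

Hints.  For `y ∈ [lo,hi)` let `nb y` be the least element of `B` above `y` and
`sl y = (T (nb y) - T y) / (nb y - y)`; for other `y` put `sl y = sl lo`.  With `pb y` the largest
element of `B` that is `≤ y` one has `NoB B (pb y) (nb y)` and `sl y = sl (pb y)`, so `|sl|` takes
values in the finite set `Sl = image (fun b => |sl b|) (B.erase hi)`; `m`, `M` are its min, max.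
`lip_of_pieces`: induction on the number of break points strictly between `u` and `v`. -/

lemma lip_of_pieces {T : ℝ → ℝ} {lo hi M : ℝ} {B : Finset ℝ}
    (h : ∀ u v, lo ≤ u → u < v → v ≤ hi → NoB B u v → |T v - T u| ≤ M * (v - u)) :
    LipOn T lo hi M := by
  induction B using Finset.induction_on with
  | empty =>
    intro u hu v hv
    rcases lt_trichotomy u v with huv | rfl | huv
    · rw [abs_sub_comm, abs_sub_comm u, abs_of_pos (sub_pos.2 huv)]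
      exact h u v hu.1 huv hv.2 fun b hb => by simp at hb
    · simp
    · rw [abs_of_pos (sub_pos.2 huv)]
      exact h v u hv.1 huv hu.2 fun b hb => by simp at hb
  | insert b B _ ih =>
    refine ih fun u v hu huv hv hB => ?_
    by_cases hb : u < b ∧ b < v
    · have h1 := h u b hu hb.1 (hb.2.le.trans hv) (Finset.forall_mem_insert _ _ _ |>.2
        ⟨fun h' => lt_irrefl _ h'.2, fun c hc h' => hB c hc ⟨h'.1, h'.2.trans hb.2⟩⟩)
      have h2 := h b v (hu.trans hb.1.le) hb.2 hv (Finset.forall_mem_insert _ _ _ |>.2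
        ⟨fun h' => lt_irrefl _ h'.1, fun c hc h' => hB c hc ⟨hb.1.trans h'.1, h'.2⟩⟩)
      have h3 := abs_sub_le (T v) (T b) (T u)
      linarith
    · exact h u v hu huv hv (Finset.forall_mem_insert _ _ _ |>.2 ⟨hb, hB⟩)

lemma slopes_next (P : Pre) {y : ℝ} (h : y < P.hi) :
    ∃ b, y < b ∧ b ≤ P.hi ∧ b ∈ P.B ∧ ∀ c ∈ P.B, y < c → b ≤ c := by
  obtain ⟨b, hb, h'⟩ := (P.B.filter (y < ·)).exists_min_image id
    ⟨_, Finset.mem_filter.2 ⟨P.hi_B, h⟩⟩
  obtain ⟨h1, h2⟩ := Finset.mem_filter.1 hb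
  exact ⟨b, h2, (P.sub (P.B_sub b h1)).2, h1, fun c hc hy => h' c (Finset.mem_filter.2 ⟨hc, hy⟩)⟩

lemma slopes_prev (P : Pre) {y : ℝ} (h : P.lo ≤ y) :
    ∃ b, b ≤ y ∧ P.lo ≤ b ∧ b ∈ P.B ∧ ∀ c ∈ P.B, c ≤ y → c ≤ b := by
  obtain ⟨b, hb, h'⟩ := (P.B.filter (· ≤ y)).exists_max_image id
    ⟨_, Finset.mem_filter.2 ⟨P.lo_B, h⟩⟩
  obtain ⟨h1, h2⟩ := Finset.mem_filter.1 hb
  exact ⟨b, h2, (P.sub (P.B_sub b h1)).1, h1, fun c hc hy => h' c (Finset.mem_filter.2 ⟨hc, hy⟩)⟩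

lemma slopes_ex (P : Pre) (y : ℝ) : ∃ σ : ℝ, σ ≠ 0 ∧ (P.lo ≤ y → ∀ v, y < v → v ≤ P.hi →
    NoB P.B y v → ∀ z ∈ Icc y v, P.T z = P.T y + σ * (z - y)) := by
  by_cases h : P.lo ≤ y ∧ y < P.hi
  · obtain ⟨b, h1, h2, h3, h4⟩ := slopes_next P h.2
    obtain ⟨σ, h5, h6⟩ := P.aff y b h.1 h1 h2 fun c hc h' => (h4 c hc h'.1).not_gt h'.2
    exact ⟨σ, h5, fun _ v _ _ hB z hz =>
      h6 z ⟨hz.1, hz.2.trans (not_lt.1 fun h' => hB b h3 ⟨h1, h'⟩)⟩⟩
  · exact ⟨1, one_ne_zero, fun h1 v h2 h3 => absurd ⟨h1, h2.trans_le h3⟩ h⟩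

lemma Pre.exists_slp (P : Pre) : Nonempty (Slp P) := by
  classical
  choose s h0 hs using slopes_ex P
  have heq : ∀ u v, P.lo ≤ u → u < v → v ≤ P.hi → NoB P.B u v →
      ∀ y, u ≤ y → y < v → s y = s u := by
    intro u v hu huv hv hB y h1 h2
    have e1 := hs u hu v huv hv hB v ⟨huv.le, le_rfl⟩
    have e2 := hs u hu v huv hv hB y ⟨h1, h2.le⟩
    have e3 := hs y (hu.trans h1) v h2 hv (fun c hc h' => hB c hc ⟨h1.trans_lt h'.1, h'.2⟩) v
      ⟨h2.le, le_rfl⟩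
    refine mul_right_cancel₀ (sub_pos.2 h2).ne' ?_
    linarith
  let sl : ℝ → ℝ := fun y => if P.lo ≤ y ∧ y < P.hi then s y else s P.lo
  have hsl : ∀ y, P.lo ≤ y → y < P.hi → sl y = s y := fun y h1 h2 => if_pos ⟨h1, h2⟩
  have hmem : ∀ y, |sl y| ∈ P.B.image fun b => |s b| := by
    intro y
    by_cases h : P.lo ≤ y ∧ y < P.hi
    · obtain ⟨b, h1, h2, -, h4⟩ := slopes_next P h.2
      obtain ⟨a, g1, g2, g3, g4⟩ := slopes_prev P h.1
      refine Finset.mem_image.2 ⟨a, g3, ?_⟩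
      rw [hsl y h.1 h.2, heq a b g2 (g1.trans_lt h1) h2 (fun c hc h' => ?_) y g1 h1]
      rcases le_or_gt c y with h5 | h5
      · exact (g4 c hc h5).not_gt h'.1
      · exact (h4 c hc h5).not_gt h'.2
    · exact Finset.mem_image.2 ⟨_, P.lo_B, by simp only [sl, if_neg h]⟩
  have hpos : ∀ t ∈ P.B.image fun b => |s b|, 0 < t := by
    intro t ht
    obtain ⟨b, -, rfl⟩ := Finset.mem_image.1 ht
    exact abs_pos.2 (h0 b)
  have hne : (P.B.image fun b => |s b|).Nonempty := ⟨_, hmem 0⟩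
  refine ⟨⟨_, Finset.max' _ hne, sl, _, hpos _ (Finset.min'_mem _ hne), fun y => Finset.min'_le _ _ (hmem y),
    fun y => Finset.le_max' _ _ (hmem y), hmem, hpos, fun u v hu huv hv hB => ?_,
    fun u v hu huv hv hB y h1 h2 => ?_, lip_of_pieces (B := P.B) fun u v hu huv hv hB => ?_⟩⟩
  · rw [hsl u hu (huv.trans_le hv)]
    exact hs u hu v huv hv hB
  · rw [hsl u hu (huv.trans_le hv), hsl y (hu.trans h1) (h2.trans_le hv)]
    exact heq u v hu huv hv hB y h1 h2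
  · rw [hs u hu v huv hv hB v ⟨huv.le, le_rfl⟩, add_sub_cancel_left, abs_mul,
      abs_of_pos (sub_pos.2 huv), ← hsl u hu (huv.trans_le hv)]
    exact mul_le_mul_of_nonneg_right (Finset.le_max' _ _ (hmem u)) (sub_pos.2 huv).le

end Pool.Agent.MP_8df504_an.C
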