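import Pool.Agent.MP_8df504_an.C.SysBase

set_option autoImplicit false

namespace Pool.Agent.MP_8df504_an.C

open Set Filter Topology MeasureTheory

/-! Infinitely many long gaps give a two-sided turning point; reflection; heights.

`exists_turn`: the left ends of infinitely many long gaps accumulate at some `z ∈ K` and their
lengths tend to `0` (`finite_big`), so every neighbourhood of `z` contains (the closure of) a long
gap.  `T` is affine with
nonzero slope on `[z, z+δ]` (if `z < hi`) and on `[z-δ, z]` (if `lo < z`).  Suppose not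
(`TwoMax z` or `TwoMin z`).  Then there is an interval `N` (`[z-δ,z+δ]` if the slopes have the same
sign, `[z,z+δ]` or `[z-δ,z]` if `K` does not accumulate at `z` from the other side) on which `T` is
strictly monotone or antitone and which contains `K ∩ (z-δ', z+δ')`.  With `inv_cont`, for a gap `g`
close to `z` any point of `K` strictly between `T g.1` and `T g.2` is `T y` with `y ∈ K ∩ N`
(`surjK`), hence `y` strictly between `g.1` and `g.2`: impossible; so `g` is not long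
(`not_long_of_no_point`).

`exists_neg`: `T' y = - T (-y)`, `K' = -K`, `lo' = -hi`, `B' = B.image (-·)`, `x' = -x`; the edges of
`A.image (-·)` are the pairs `(-g.2, -g.1)`.

`exists_ht`: `sp = |sl c|`, `sm = |sl (c - δ₀)|` for a small `δ₀` with no break point in
`(c - δ₀, c)` and in `(c, c+δ₀)`; the signs of the slopes come from `TwoMax`.  `cover` from `surjK`
and `inv_cont`. -/

lemma turn_acc (S : Sys) (h : {g | g ∈ Gap S.P.K ∧ S.Long g}.Infinite) :
    ∃ z ∈ S.P.K, ∀ ε > 0, ∃ g ∈ Gap S.P.K, S.Long g ∧ |g.1 - z| < ε ∧ |g.2 - z| < ε := by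
  have h1 : ∀ n : ℕ, ∃ g ∈ Gap S.P.K, S.Long g ∧ len g < 1 / ((n : ℝ) + 1) := fun n => by
    obtain ⟨g, hg, hn⟩ := (h.sdiff (S.P.finite_big (δ := 1 / ((n : ℝ) + 1))
      (by positivity))).nonempty
    exact ⟨g, hg.1, hg.2, lt_of_not_ge fun hc => hn ⟨hg.1, hc⟩⟩
  choose g hg hl hs using h1
  obtain ⟨z, hz, φ, hφ, ht⟩ := S.P.cpt.tendsto_subseq (x := fun n => (g n).1) fun n => (hg n).1
  refine ⟨z, hz, fun ε hε => ?_⟩
  have h2 := (Metric.tendsto_nhds.1 ht) (ε / 2) (by positivity)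
  have h3 := ((tendsto_one_div_add_atTop_nhds_zero_nat (𝕜 := ℝ)).comp
    hφ.tendsto_atTop).eventually (gt_mem_nhds (show 0 < ε / 2 by positivity))
  obtain ⟨n, a, b⟩ := (h2.and h3).exists
  have c := (hs (φ n)).trans b
  have d := Gap.len_pos (hg (φ n))
  simp only [Function.comp, Real.dist_eq, abs_lt, len] at a c d
  exact ⟨g (φ n), hg _, hl _, abs_lt.2 ⟨by linarith [a.1], by linarith [a.2]⟩,
    abs_lt.2 ⟨by linarith [a.1], by linarith [a.2]⟩⟩

lemma turn_key (S : Sys) {z δ σ τ : ℝ} (hz : z ∈ S.P.K) (hδ : 0 < δ) (hs : 0 < σ * τ)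
    (hR : ∀ y ∈ S.P.K, |y - z| < δ → z ≤ y → S.P.T y = S.P.T z + σ * (y - z))
    (hL : ∀ y ∈ S.P.K, |y - z| < δ → y ≤ z → S.P.T y = S.P.T z + τ * (y - z))
    (h : ∀ ε > 0, ∃ g ∈ Gap S.P.K, S.Long g ∧ |g.1 - z| < ε ∧ |g.2 - z| < ε) : False := by
  have mono : ∀ y ∈ S.P.K, |y - z| < δ → ∀ w ∈ S.P.K, |w - z| < δ → y ≤ w →
      0 ≤ σ * (S.P.T w - S.P.T y) := by
    intro y hy hy' w hw hw' hyw
    have h2 := mul_self_nonneg σ
    rcases le_total z y with c | c
    · rw [hR y hy hy' c, hR w hw hw' (c.trans hyw)]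
      nlinarith [mul_nonneg h2 (sub_nonneg.2 hyw)]
    rcases le_total w z with d | d
    · rw [hL y hy hy' c, hL w hw hw' d]
      nlinarith [mul_nonneg hs.le (sub_nonneg.2 hyw)]
    · rw [hL y hy hy' c, hR w hw hw' d]
      nlinarith [mul_nonneg h2 (sub_nonneg.2 d), mul_nonneg hs.le (sub_nonneg.2 c)]
  obtain ⟨η, hη, hinv⟩ := S.P.inv_cont hδ
  obtain ⟨δ', hδ', hc⟩ := Metric.continuousAt_iff.1 (S.P.cont.continuousAt (x := z)) η hη
  obtain ⟨g, hg, hl, g1, g2⟩ := h (min δ δ') (lt_min hδ hδ')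
  rw [lt_min_iff] at g1 g2
  refine S.not_long_of_no_point hg (fun w hw hb => ?_) hl
  obtain ⟨y, hy, rfl⟩ := S.P.surjK hw
  have a1 := abs_lt.1 (hc (x := g.1) g1.2)
  have a2 := abs_lt.1 (hc (x := g.2) g2.2)
  have b1 := min_lt_iff.1 hb.1
  have b2 := lt_max_iff.1 hb.2
  have hy' : |y - z| < δ := hinv y hy z hz (abs_le.2
    ⟨by rcases b1 with b | b <;> linarith [a1.1, a2.1],
      by rcases b2 with b | b <;> linarith [a1.2, a2.2]⟩)
  have m0 := mono _ hg.1 g1.1 _ hg.2.1 g2.1 hg.2.2.1.le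
  have hσ : σ ≠ 0 := fun e => by simp [e] at hs
  rcases Gap.le_or_ge hg hy with c | c
  · have m1 := mono _ hy hy' _ hg.1 g1.1 c
    rcases lt_or_gt_of_ne hσ with d | d
    · rcases b2 with b | b <;> nlinarith
    · rcases b1 with b | b <;> nlinarith
  · have m1 := mono _ hg.2.1 g2.1 _ hy hy' c
    rcases lt_or_gt_of_ne hσ with d | d
    · rcases b1 with b | b <;> nlinarith
    · rcases b2 with b | b <;> nlinarith

lemma turn_delta (B : Finset ℝ) (z : ℝ) : ∃ δ > 0, ∀ b ∈ B, |b - z| < δ → b = z := by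
  have h : ∀ᶠ δ in 𝓝[>] (0 : ℝ), ∀ b ∈ B, |b - z| < δ → b = z := by
    refine (eventually_all_finset B).2 fun b _ => ?_
    by_cases e : b = z
    · exact Eventually.of_forall fun _ _ => e
    · filter_upwards [nhdsWithin_le_nhds (gt_mem_nhds (abs_pos.2 (sub_ne_zero.2 e)))] with δ h1 h2
      exact absurd h1 (not_lt.2 h2.le)
  obtain ⟨δ, h1, h2⟩ := (h.and self_mem_nhdsWithin).exists
  exact ⟨δ, h2, h1⟩

lemma Sys.exists_turn (S : Sys) (h : {g | g ∈ Gap S.P.K ∧ S.Long g}.Infinite) :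
    ∃ c, S.P.TwoMax c ∨ S.P.TwoMin c := by
  obtain ⟨z, hz, hacc⟩ := turn_acc S h
  obtain ⟨δ, hδ, hB⟩ := turn_delta S.P.B z
  have hzI := S.P.sub hz
  have right : ∃ σ : ℝ, σ ≠ 0 ∧ ∀ y, |y - z| < δ → z ≤ y → z < S.P.hi ∨ y ≤ S.P.hi →
      S.P.T y = S.P.T z + σ * (y - z) := by
    rcases hzI.2.eq_or_lt with e | e
    · refine ⟨1, one_ne_zero, fun y _ h1 h2 => ?_⟩
      have : y = z := le_antisymm (by rcases h2 with h2 | h2 <;> linarith) h1
      simp [this]
    · have h1 : z + δ ≤ S.P.hi := le_of_not_gt fun c =>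
        e.ne' (hB _ S.P.hi_B (abs_lt.2 ⟨by linarith, by linarith⟩))
      obtain ⟨σ, h2, h3⟩ := S.P.aff z (z + δ) hzI.1 (by linarith) h1 fun b hb c =>
        c.1.ne' (hB b hb (abs_lt.2 ⟨by linarith [c.1], by linarith [c.2]⟩))
      exact ⟨σ, h2, fun y a b _ => h3 y ⟨b, by linarith [(abs_lt.1 a).2]⟩⟩
  have left : ∃ τ : ℝ, τ ≠ 0 ∧ ∀ y, |y - z| < δ → y ≤ z → S.P.lo < z ∨ S.P.lo ≤ y →
      S.P.T y = S.P.T z + τ * (y - z) := by
    rcases hzI.1.eq_or_lt with e | e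
    · refine ⟨1, one_ne_zero, fun y _ h1 h2 => ?_⟩
      have : y = z := le_antisymm h1 (by rcases h2 with h2 | h2 <;> linarith)
      simp [this]
    · have h1 : S.P.lo ≤ z - δ := le_of_not_gt fun c =>
        e.ne (hB _ S.P.lo_B (abs_lt.2 ⟨by linarith, by linarith⟩))
      obtain ⟨σ, h2, h3⟩ := S.P.aff (z - δ) z h1 (by linarith) hzI.2 fun b hb c =>
        c.2.ne (hB b hb (abs_lt.2 ⟨by linarith [c.1], by linarith [c.2]⟩))
      refine ⟨σ, h2, fun y a b _ => ?_⟩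
      rw [h3 y ⟨by linarith [(abs_lt.1 a).1], b⟩, h3 z ⟨by linarith, le_rfl⟩]
      ring
  obtain ⟨σ, hσ, hR⟩ := right
  obtain ⟨τ, hτ, hL⟩ := left
  have hR' := fun y (hy : y ∈ S.P.K) a b => hR y a b (Or.inr (S.P.sub hy).2)
  have hL' := fun y (hy : y ∈ S.P.K) a b => hL y a b (Or.inr (S.P.sub hy).1)
  by_cases aR : ∀ ε > 0, ∃ w ∈ S.P.K, z < w ∧ w < z + ε
  swap
  · push Not at aR
    obtain ⟨ε, hε, aR⟩ := aR
    refine (turn_key S hz (lt_min hδ hε) (mul_self_pos.2 hτ) (fun y hy a b => ?_)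
      (fun y hy a b => hL' y hy (lt_min_iff.1 a).1 b) hacc).elim
    rcases b.eq_or_lt with rfl | c
    · simp
    · linarith [aR y hy c, (abs_lt.1 (lt_min_iff.1 a).2).2]
  by_cases aL : ∀ ε > 0, ∃ w ∈ S.P.K, z - ε < w ∧ w < z
  swap
  · push Not at aL
    obtain ⟨ε, hε, aL⟩ := aL
    refine (turn_key S hz (lt_min hδ hε) (mul_self_pos.2 hσ)
      (fun y hy a b => hR' y hy (lt_min_iff.1 a).1 b) (fun y hy a b => ?_) hacc).elim
    have : y = z := le_antisymm b (aL y hy (by linarith [(abs_lt.1 (lt_min_iff.1 a).2).1]))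
    simp [this]
  have zhi : z < S.P.hi := by
    obtain ⟨w, hw, c, -⟩ := aR 1 one_pos
    exact c.trans_le (S.P.sub hw).2
  have zlo : S.P.lo < z := by
    obtain ⟨w, hw, -, c⟩ := aL 1 one_pos
    exact (S.P.sub hw).1.trans_lt c
  have two : S.P.TwoSided z := ⟨hz, aR, aL⟩
  rcases lt_or_gt_of_ne hσ with s | s <;> rcases lt_or_gt_of_ne hτ with t | t
  · exact (turn_key S hz hδ (mul_pos_of_neg_of_neg s t) hR' hL' hacc).elim
  · refine ⟨z, Or.inl ⟨two, δ, hδ, fun y a b => ?_⟩⟩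
    rcases lt_or_gt_of_ne b with c | c
    · rw [hL y a c.le (Or.inl zlo)]; nlinarith
    · rw [hR y a c.le (Or.inl zhi)]; nlinarith
  · refine ⟨z, Or.inr ⟨two, δ, hδ, fun y a b => ?_⟩⟩
    rcases lt_or_gt_of_ne b with c | c
    · rw [hL y a c.le (Or.inl zlo)]; nlinarith
    · rw [hR y a c.le (Or.inl zhi)]; nlinarith
  · exact (turn_key S hz hδ (mul_pos s t) hR' hL' hacc).elim

end Pool.Agent.MP_8df504_an.C
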