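import Pool.Agent.MP_8df504_an.C.Neg
import Pool.Agent.MP_8df504_an.C.HtEx
import Pool.Agent.MP_8df504_an.C.RN2
import Pool.Agent.MP_8df504_an.C.LevEx
import Pool.Agent.MP_8df504_an.C.Slopes
import Pool.Agent.MP_8df504_an.C.PiEx
import Pool.Agent.MP_8df504_an.C.CaseA
import Pool.Agent.MP_8df504_an.C.Turn
import Pool.Agent.MP_8df504_an.C.CluEx
import Pool.Agent.MP_8df504_an.C.EP2
import Pool.Agent.MP_8df504_an.C.RN
import Pool.Agent.MP_8df504_an.C.MT3

set_option autoImplicit false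

namespace Pool.Agent.MP_8df504_an.C

open Set Filter Topology MeasureTheory

/-! No `Pre` exists. -/

lemma Pre.exists_sys (P : Pre) : ∃ S : Sys, S.P = P := by
  obtain ⟨L⟩ := P.exists_slp
  obtain ⟨pi, h⟩ := P.exists_pi L
  exact ⟨⟨P, L, pi, h⟩, rfl⟩

lemma Lev.false {S : Sys} (V : Lev S) : False := by
  obtain ⟨Λ, hΛ, hR⟩ := S.ret_of_esc
  refine V.no_cycles ?_
  filter_upwards [V.escape hΛ, V.small 1 one_pos, V.len_small one_pos] with j h1 h2 h3
  have huv := V.uv j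
  rcases V.flank j with ⟨e1, e2⟩ | ⟨e1, e2⟩
  · have := hR (V.e (j + 1)) (V.e j) (V.gap _) (V.gap _) (by rw [e1, e2]; exact huv)
      (by rw [e1, e2]; linarith) (by rw [e1, e2]; linarith) (by rw [e1, e2]; exact h1)
    rw [e1, e2] at this
    exact S.P.cyc_of_ret (e1 ▸ (V.gap (j + 1)).2.1) (e2 ▸ (V.gap j).1) huv this
  · have := hR (V.e j) (V.e (j + 1)) (V.gap _) (V.gap _) (by rw [e1, e2]; exact huv)
      (by rw [e1, e2]; linarith) (by rw [e1, e2]; linarith) (by rw [e1, e2]; exact h1)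
    rw [e1, e2] at this
    exact S.P.cyc_of_ret (e1 ▸ (V.gap j).2.1) (e2 ▸ (V.gap (j + 1)).1) huv this

lemma Pre.not_twoMax (P : Pre) {c : ℝ} (h : P.TwoMax c) : False := by
  obtain ⟨S, rfl⟩ := P.exists_sys
  obtain ⟨H⟩ := S.exists_ht h
  obtain ⟨C⟩ := S.exists_clu H
  obtain ⟨V⟩ := S.exists_lev C
  exact V.false

theorem Pre.false (P : Pre) : False := by
  obtain ⟨S, rfl⟩ := P.exists_sys
  by_cases h : {g | g ∈ Gap S.P.K ∧ S.Long g}.Finite
  · exact S.caseA h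
  · obtain ⟨c, hc | hc⟩ := S.exists_turn h
    · exact S.P.not_twoMax hc
    · obtain ⟨P', h'⟩ := S.P.exists_neg hc
      exact P'.not_twoMax h'

end Pool.Agent.MP_8df504_an.C
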