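import Pool.Agent.MP_8df504_an.C.Clos
import Pool.Agent.MP_8df504_an.C.Fin1

set_option autoImplicit false

namespace Pool.Agent.MP_8df504_an.C

open Set Filter Topology MeasureTheory

/-! From a recurrent orbit with frequently bounded gain to `Raw`.

`gaps_image_mono`: a map that is strictly increasing on `A` transports the edges.
`gain_closure`: let `A ⊆ closure S` be finite.  Choose `φ n z ∈ S` with `φ n z → z` for `z ∈ A`
(`mem_closure_iff_seq_limit`).  For large `n`, `φ n` is strictly increasing on `A`, and the map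
`ψ n (T z) = T (φ n z)` (use `Function.invFunOn T A`) is strictly increasing on `A.image T`.  So
`Pt T (φ n A) = ∏ g ∈ gaps A, |T (φ n g.2) - T (φ n g.1)| → Pt T A` and
`Dl (T (φ n A)) = ∏ γ ∈ gaps (T A), (ψ n γ.2 - ψ n γ.1) → Dl (T A)`; pass to the limit.
`fold_bound`: induction on `k`.  `k = 0`: `T` is affine on `[p,q]` with slope `σ`; the edge from `p`
(`exists_edge_from`) gives `c ≤ |σ|`.  Step: take `b ∈ B ∩ (p,q)`, `p'` the largest point of `A` that
is `≤ b`, `q'` the least point of `A` that is `> b`; `(p',q')` is an edge.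
`raw_of_orbit`: `K = closure (range x)`.  `Gain T (range x) G` by `mono_gain`.  For orbit points
`a < a'`, `three_point` and `fold_bound` on `A = (orb x n) ∩ [a,a']` (its edges are edges of
`orb x n`) with `X = 2 G |T a' - T a|` give `c (a' - a) ≤ (2 card B + 1) X`; this passes to the
closure, so `T` is injective on `K`.  Dense tails: `x 0 ∈ closure (x '' Ici N)` and continuity. -/

lemma gt0a_base {T : ℝ → ℝ} {lo hi c X : ℝ} {B A : Finset ℝ} (hPL : PLz T lo hi B)
    (hsub : ∀ a ∈ A, a ∈ Icc lo hi) (he : ∀ e ∈ gaps A, c * len e ≤ img T e)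
    (hX : ∀ p ∈ A, ∀ q ∈ A, |T q - T p| ≤ X) {p q : ℝ} (hp : p ∈ A) (hq : q ∈ A) (hpq : p ≤ q)
    (hB : NoB B p q) : c * (q - p) ≤ X := by
  rcases hpq.eq_or_lt with rfl | hlt
  · simpa using hX p hp p hp
  obtain ⟨σ, hσ⟩ := hPL p q (hsub p hp).1 hlt (hsub q hq).2 hB
  obtain ⟨g, hg, h1, h2⟩ := exists_edge_from hp hq hlt
  have h3 := he g hg
  have h4 : p < g.2 := h1 ▸ (mem_gaps.1 hg).2.2.1
  rw [len, img, h1, hσ g.2 ⟨h4.le, h2⟩, add_sub_cancel_left, abs_mul,
    abs_of_pos (sub_pos.2 h4)] at h3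
  have h5 := hX p hp q hq
  rw [hσ q ⟨hlt.le, le_rfl⟩, add_sub_cancel_left, abs_mul, abs_of_pos (sub_pos.2 hlt)] at h5
  exact (mul_le_mul_of_nonneg_right (le_of_mul_le_mul_right h3 (sub_pos.2 h4))
    (sub_pos.2 hlt).le).trans h5

lemma fold_bound {T : ℝ → ℝ} {lo hi c X : ℝ} {B A : Finset ℝ} (hPL : PLz T lo hi B)
    (hsub : ∀ a ∈ A, a ∈ Icc lo hi) (hc : 0 < c) (he : ∀ e ∈ gaps A, c * len e ≤ img T e)
    (hX : ∀ p ∈ A, ∀ q ∈ A, |T q - T p| ≤ X) (k : ℕ) :
    ∀ p ∈ A, ∀ q ∈ A, p ≤ q → (B.filter (fun b => p < b ∧ b < q)).card ≤ k →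
      c * (q - p) ≤ (2 * k + 1) * X := by
  have _ := hc
  induction k with
  | zero =>
    intro p hp q hq hpq hk
    rw [Nat.le_zero, Finset.card_eq_zero, Finset.filter_eq_empty_iff] at hk
    simpa using gt0a_base hPL hsub he hX hp hq hpq fun b hb => hk hb
  | succ k ih =>
    intro p hp q hq hpq hk
    have hX0 : 0 ≤ X := (abs_nonneg _).trans (hX p hp p hp)
    rcases (B.filter (fun b => p < b ∧ b < q)).eq_empty_or_nonempty with h0 | h0
    · have := ih p hp q hq hpq (by rw [h0]; exact Nat.zero_le _)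
      push_cast
      linarith
    obtain ⟨b, hb, hbm⟩ := Finset.exists_min_image _ id h0
    have hb' := Finset.mem_filter.1 hb
    obtain ⟨p', hp', hpm⟩ := (A.filter (fun z => z ≤ b)).exists_max_image id
      ⟨p, Finset.mem_filter.2 ⟨hp, hb'.2.1.le⟩⟩
    obtain ⟨q', hq', hqm⟩ := (A.filter (fun z => b < z)).exists_min_image id
      ⟨q, Finset.mem_filter.2 ⟨hq, hb'.2.2⟩⟩
    rw [Finset.mem_filter] at hp' hq'
    have h1 : p ≤ p' := hpm p (Finset.mem_filter.2 ⟨hp, hb'.2.1.le⟩)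
    have h2 : q' ≤ q := hqm q (Finset.mem_filter.2 ⟨hq, hb'.2.2⟩)
    have h3 : c * (p' - p) ≤ X := gt0a_base hPL hsub he hX hp hp'.1 h1 fun z hz hz' =>
      absurd (hbm z (Finset.mem_filter.2 ⟨hz, hz'.1, hz'.2.trans_le (hp'.2.trans hb'.2.2.le)⟩))
        (not_le.2 (hz'.2.trans_le hp'.2))
    have h4 : c * (q' - p') ≤ X := (he (p', q') (mem_gaps.2 ⟨hp'.1, hq'.1, hp'.2.trans_lt hq'.2,
      fun z hz hz' => by
        rcases le_or_gt z b with e | e
        · exact absurd (hpm z (Finset.mem_filter.2 ⟨hz, e⟩)) (not_le.2 hz'.1)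
        · exact absurd (hqm z (Finset.mem_filter.2 ⟨hz, e⟩)) (not_le.2 hz'.2)⟩)).trans
      (hX p' hp'.1 q' hq'.1)
    have h5 := ih q' hq'.1 q hq h2 (by
      have : B.filter (fun z => q' < z ∧ z < q) ⊆ (B.filter (fun b => p < b ∧ b < q)).erase b := by
        intro z hz
        rw [Finset.mem_filter] at hz
        have := hq'.2.trans hz.2.1
        exact Finset.mem_erase.2 ⟨this.ne', Finset.mem_filter.2 ⟨hz.1, hb'.2.1.trans this, hz.2.2⟩⟩
      have h6 := Finset.card_le_card this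
      rw [Finset.card_erase_of_mem hb] at h6
      omega)
    push_cast
    linarith

lemma gt0a_orb {x : ℕ → ℝ} {A : Finset ℝ} (h : (A : Set ℝ) ⊆ range x) :
    ∀ᶠ n in atTop, A ⊆ orb x n := by
  have : ∀ a ∈ A, ∀ᶠ n in atTop, a ∈ orb x n := fun a ha => by
    obtain ⟨m, rfl⟩ := h ha
    filter_upwards [eventually_gt_atTop m] with n hn
    exact Finset.mem_image_of_mem x (Finset.mem_range.2 hn)
  filter_upwards [(Finset.eventually_all A).2 this] with n hn a ha using hn a ha

lemma gt0a_sub (x : ℕ → ℝ) (n : ℕ) : (orb x n : Set ℝ) ⊆ range x := fun a ha => by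
  obtain ⟨m, -, rfl⟩ := Finset.mem_image.1 ha
  exact mem_range_self m

lemma raw_of_orbit {T : ℝ → ℝ} (hT : Continuous T) {B : Finset ℝ} (hPL : PLz T 0 1 B)
    {x : ℕ → ℝ} (hx : ∀ n, x (n + 1) = T (x n)) (hI : ∀ n, x n ∈ Icc (0 : ℝ) 1)
    (hinj : Function.Injective x) (hrec : ∀ N, x 0 ∈ closure (x '' Ici N)) {G c : ℝ} (hc : 0 < c)
    (h : ∃ᶠ n in atTop, Pt T (orb x n) ≤ G * Dl ((orb x n).image T) ∧
      ∀ e ∈ gaps (orb x n), c * len e ≤ img T e) : Nonempty Raw := by
  have hTi : InjOn T (range x) := by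
    rintro _ ⟨n, rfl⟩ _ ⟨m, rfl⟩ e
    rw [← hx, ← hx] at e
    rw [Nat.succ_injective (hinj e)]
  have hG : Gain T (range x) G := fun A hA => by
    obtain ⟨n, h1, h2⟩ := (h.and_eventually (gt0a_orb hA)).exists
    have h3 := mono_gain h2 (hTi.mono (gt0a_sub x n))
    refine le_of_mul_le_mul_right (h3.trans ?_) (Dl_pos ((orb x n).image T))
    rw [mul_right_comm]
    exact mul_le_mul_of_nonneg_right h1.1 (Dl_pos _).le
  have key : ∀ a ∈ range x, ∀ a' ∈ range x, a ≤ a' →
      c * (a' - a) ≤ (2 * B.card + 1) * (2 * G * |T a' - T a|) := by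
    intro a ha a' ha' hle
    obtain ⟨n, h1, h2⟩ := (h.and_eventually (gt0a_orb (A := {a, a'}) (by
      rw [Finset.coe_pair]
      exact pair_subset ha ha'))).exists
    have m1 : a ∈ orb x n := h2 (by simp)
    have m2 : a' ∈ orb x n := h2 (by simp)
    refine fold_bound (A := (orb x n).filter fun z => a ≤ z ∧ z ≤ a') hPL (fun z hz => ?_) hc
      (fun e he => h1.2 e ?_) (fun p hp q hq => ?_) B.card a
      (Finset.mem_filter.2 ⟨m1, le_rfl, hle⟩) a' (Finset.mem_filter.2 ⟨m2, hle, le_rfl⟩) hle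
      (Finset.card_filter_le _ _)
    · obtain ⟨m, rfl⟩ := gt0a_sub x n (Finset.mem_filter.1 hz).1
      exact hI m
    · obtain ⟨e1, e2, e3, e4⟩ := mem_gaps.1 he
      have e5 := Finset.mem_filter.1 e1
      have e6 := Finset.mem_filter.1 e2
      exact mem_gaps.2 ⟨e5.1, e6.1, e3, fun z hz hz' => e4 z (Finset.mem_filter.2
        ⟨hz, e5.2.1.trans hz'.1.le, hz'.2.le.trans e6.2.2⟩) hz'⟩
    · rw [Finset.mem_filter] at hp hq
      have e1 := (three_point hTi hG ha (gt0a_sub x n hp.1) ha' hp.2.1 hp.2.2).1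
      have e2 := (three_point hTi hG ha (gt0a_sub x n hq.1) ha' hq.2.1 hq.2.2).1
      have e3 := abs_sub_le (T q) (T a) (T p)
      rw [abs_sub_comm (T a) (T p)] at e3
      linarith
  have key2 : ∀ a ∈ range x, ∀ a' ∈ range x,
      c * |a' - a| ≤ (2 * B.card + 1) * (2 * G * |T a' - T a|) := by
    intro a ha a' ha'
    rcases le_total a a' with e | e
    · rw [abs_of_nonneg (sub_nonneg.2 e)]
      exact key a ha a' ha' e
    · rw [abs_sub_comm, abs_of_nonneg (sub_nonneg.2 e), abs_sub_comm]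
      exact key a' ha' a ha e
  have key3 : ∀ a' ∈ closure (range x), ∀ a ∈ closure (range x),
      c * |a' - a| ≤ (2 * B.card + 1) * (2 * G * |T a' - T a|) := by
    intro a' ha'
    refine closure_minimal (t := {a | c * |a' - a| ≤ (2 * B.card + 1) * (2 * G * |T a' - T a|)})
      (fun a ha => ?_) (isClosed_le (by fun_prop) (by fun_prop))
    exact closure_minimal (t := {a' | c * |a' - a| ≤ (2 * B.card + 1) * (2 * G * |T a' - T a|)})
      (key2 a ha) (isClosed_le (by fun_prop) (by fun_prop)) ha'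
  have hK : InjOn T (closure (range x)) := fun a ha a' ha' e => by
    have h1 := key3 a ha a' ha'
    rw [e, sub_self, abs_zero, mul_zero, mul_zero] at h1
    exact sub_eq_zero.1 (abs_nonpos_iff.1 (nonpos_of_mul_nonpos_right h1 hc))
  have hsub : closure (range x) ⊆ Icc 0 1 :=
    closure_minimal (range_subset_iff.2 hI) isClosed_Icc
  refine ⟨⟨T, hT, closure (range x), isCompact_Icc.of_isClosed_subset isClosed_closure hsub, hsub,
    B, hPL, hK, x, hx, fun n => subset_closure (mem_range_self n), hinj, fun N => ?_, G,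
    gain_closure hT hK hG⟩⟩
  refine closure_minimal (range_subset_iff.2 fun n => ?_) isClosed_closure
  induction n with
  | zero => exact hrec N
  | succ n ih =>
    rw [hx]
    refine map_mem_closure hT ih ?_
    rintro _ ⟨m, hm, rfl⟩
    exact ⟨m + 1, le_trans hm (Nat.le_succ m), hx m⟩

end Pool.Agent.MP_8df504_an.C
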