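import Pool.Agent.MP_8df504_an.C.Slopes

set_option autoImplicit false

namespace Pool.Agent.MP_8df504_an.C

open Set Filter Topology MeasureTheory

/-! Straightening `T` on the gaps of `K`.

Hints.  `lo`, `hi` = min, max of `K`.  For `y ∈ [lo,hi]` let `p y = sSup (K ∩ Iic y)`,
`q y = sInf (K ∩ Ici y)`, `T1 y = T y` if `y ∈ K`, else the affine interpolation between
`(p y, T (p y))` and `(q y, T (q y))`; `T' y = T1 (max lo (min y hi))`.
`B' = {lo, hi} ∪ (B ∩ K) ∪` ends `p b`, `q b` for `b ∈ B ∩ [lo,hi]` (for `b ∈ K` both are `b`).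
Let `lo ≤ u < v ≤ hi` with `NoB B' u v`.  Either `(u,v)` is inside a gap of `K`, where `T'` is affine
with nonzero slope (`inj`), or no point of `B` is in `(u,v)` and every gap of `K` that meets `[u,v]`
in an interior point of the gap is free of `B`, so `T' = T` on `[u,v]` and `T` is affine there; the
slope is nonzero since otherwise `(u,v)` has at most one point of `K`, so a subinterval lies in a
break-free gap `g` where `T` is affine with `T g.1 ≠ T g.2`.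
Continuity of `T'`: `lip_of_pieces` gives a Lipschitz bound on `[lo,hi]` (the slopes are bounded:
finitely many, or bound them by a Lipschitz constant of `T` on `[0,1]`).  `Pt`, `image` only
depend on `T` on `K`. -/

/-- a piecewise affine map with both ends among the break points is Lipschitz -/
lemma gt0b_lip {T : ℝ → ℝ} {lo hi : ℝ} {B : Finset ℝ} (h : PLz T lo hi B) (hlo : lo ∈ B)
    (hhi : hi ∈ B) : ∃ M, LipOn T lo hi M := by
  obtain ⟨M, hM⟩ := ((B ×ˢ B).image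
    (fun g : ℝ × ℝ => |T g.2 - T g.1| / (g.2 - g.1))).finite_toSet.bddAbove
  refine ⟨M, lip_of_pieces (B := B) fun u v hu huv hv hB => ?_⟩
  obtain ⟨a, ha, ham⟩ := (B.filter (fun z => z ≤ u)).exists_max_image id
    ⟨lo, Finset.mem_filter.2 ⟨hlo, hu⟩⟩
  obtain ⟨b, hb, hbm⟩ := (B.filter (fun z => v ≤ z)).exists_min_image id
    ⟨hi, Finset.mem_filter.2 ⟨hhi, hv⟩⟩
  rw [Finset.mem_filter] at ha hb
  have h1 : lo ≤ a := ham lo (Finset.mem_filter.2 ⟨hlo, hu⟩)
  have h2 : b ≤ hi := hbm hi (Finset.mem_filter.2 ⟨hhi, hv⟩)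
  have hab : a < b := lt_of_le_of_lt ha.2 (lt_of_lt_of_le huv hb.2)
  have hN : NoB B a b := by
    intro c hc hh
    by_cases c1 : c ≤ u
    · exact absurd (ham c (Finset.mem_filter.2 ⟨hc, c1⟩)) (not_le.2 hh.1)
    by_cases c2 : v ≤ c
    · exact absurd (hbm c (Finset.mem_filter.2 ⟨hc, c2⟩)) (not_le.2 hh.2)
    exact hB c hc ⟨not_le.1 c1, not_le.1 c2⟩
  obtain ⟨σ, hσ⟩ := h a b h1 hab h2 hN
  have e1 := hσ u ⟨ha.2, huv.le.trans hb.2⟩
  have e2 := hσ v ⟨ha.2.trans huv.le, hb.2⟩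
  have e3 := hσ b ⟨hab.le, le_rfl⟩
  have hba : 0 < b - a := sub_pos.2 hab
  have hs : |σ| ≤ M := by
    have := hM (Finset.mem_coe.2 (Finset.mem_image.2
      ⟨(a, b), Finset.mem_product.2 ⟨ha.1, hb.1⟩, rfl⟩))
    have e4 : T b - T a = σ * (b - a) := by rw [e3]; ring
    simp only [e4, abs_mul, abs_of_pos hba] at this
    rwa [mul_div_assoc, div_self hba.ne', mul_one] at this
  have e5 : T v - T u = σ * (v - u) := by rw [e1, e2]; ring
  rw [e5, abs_mul, abs_of_pos (sub_pos.2 huv)]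
  exact mul_le_mul_of_nonneg_right hs (sub_pos.2 huv).le

/-- the largest point of `K` that is `≤ y` -/
noncomputable def gt0b_p (K : Set ℝ) (y : ℝ) : ℝ := sSup (K ∩ Iic y)

/-- the least point of `K` that is `≥ y` -/
noncomputable def gt0b_q (K : Set ℝ) (y : ℝ) : ℝ := sInf (K ∩ Ici y)

lemma gt0b_p_spec {K : Set ℝ} (hK : IsCompact K) {y z : ℝ} (hz : z ∈ K) (hzy : z ≤ y) :
    gt0b_p K y ∈ K ∧ gt0b_p K y ≤ y ∧ z ≤ gt0b_p K y := by
  have h := (hK.inter_right (isClosed_Iic (a := y))).isGreatest_sSup ⟨z, hz, hzy⟩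
  exact ⟨h.1.1, h.1.2, h.2 ⟨hz, hzy⟩⟩

lemma gt0b_q_spec {K : Set ℝ} (hK : IsCompact K) {y z : ℝ} (hz : z ∈ K) (hzy : y ≤ z) :
    gt0b_q K y ∈ K ∧ y ≤ gt0b_q K y ∧ gt0b_q K y ≤ z := by
  have h := (hK.inter_right (isClosed_Ici (a := y))).isLeast_sInf ⟨z, hz, hzy⟩
  exact ⟨h.1.1, h.1.2, h.2 ⟨hz, hzy⟩⟩

/-- affine interpolation of `T` on the gaps of `K` -/
noncomputable def gt0b_T (T : ℝ → ℝ) (K : Set ℝ) (y : ℝ) : ℝ :=
  T (gt0b_p K y) + (T (gt0b_q K y) - T (gt0b_p K y)) / (gt0b_q K y - gt0b_p K y) *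
    (y - gt0b_p K y)

lemma gt0b_T_mem (T : ℝ → ℝ) {K : Set ℝ} (hK : IsCompact K) {y : ℝ} (hy : y ∈ K) :
    gt0b_T T K y = T y := by
  have h := gt0b_p_spec hK hy le_rfl
  have e : gt0b_p K y = y := le_antisymm h.2.1 h.2.2
  simp [gt0b_T, e]

lemma gt0b_T_gap (T : ℝ → ℝ) {K : Set ℝ} (hK : IsCompact K) {a b : ℝ} (ha : a ∈ K) (hb : b ∈ K)
    (hab : a < b) (hg : ∀ z ∈ K, ¬ (a < z ∧ z < b)) {y : ℝ} (hy : y ∈ Icc a b) :
    gt0b_T T K y = T a + (T b - T a) / (b - a) * (y - a) := by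
  have hba : b - a ≠ 0 := (sub_pos.2 hab).ne'
  rcases eq_or_lt_of_le hy.1 with c | c
  · rw [← c, gt0b_T_mem T hK ha]; simp
  rcases eq_or_lt_of_le hy.2 with d | d
  · rw [d, gt0b_T_mem T hK hb]; field_simp; ring
  have h1 := gt0b_p_spec hK ha c.le
  have h2 := gt0b_q_spec hK hb d.le
  have e1 : gt0b_p K y = a := by
    by_contra hne
    exact hg _ h1.1 ⟨lt_of_le_of_ne h1.2.2 (Ne.symm hne), lt_of_le_of_lt h1.2.1 d⟩
  have e2 : gt0b_q K y = b := by
    by_contra hne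
    exact hg _ h2.1 ⟨lt_of_lt_of_le c h2.2.1, lt_of_le_of_ne h2.2.2 hne⟩
  rw [gt0b_T, e1, e2]

lemma gt0b_T_aff (T : ℝ → ℝ) {K : Set ℝ} (hK : IsCompact K) {a b σ : ℝ} (ha : a ∈ K) (hb : b ∈ K)
    (hσ : ∀ y ∈ Icc a b, T y = T a + σ * (y - a)) {y : ℝ} (hy : y ∈ Icc a b) :
    gt0b_T T K y = T y := by
  have h1 := gt0b_p_spec hK ha hy.1
  have h2 := gt0b_q_spec hK hb hy.2
  by_cases e : gt0b_q K y - gt0b_p K y = 0
  · have e' : gt0b_p K y = y := by linarith [h1.2.1, h2.2.1]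
    exact gt0b_T_mem T hK (e' ▸ h1.1)
  · have e1 := hσ _ ⟨h1.2.2, h1.2.1.trans hy.2⟩
    have e2 := hσ _ ⟨hy.1.trans h2.2.1, h2.2.2⟩
    have e3 : T (gt0b_q K y) - T (gt0b_p K y) = σ * (gt0b_q K y - gt0b_p K y) := by
      rw [e1, e2]; ring
    rw [gt0b_T, e3, mul_div_assoc, div_self e, mul_one, e1, hσ y hy]
    ring

open Classical in
/-- the new break points -/
noncomputable def gt0b_B (K : Set ℝ) (lo hi : ℝ) (B : Finset ℝ) : Finset ℝ :=
  insert lo (insert hi (((B.filter (fun b => lo ≤ b ∧ b ≤ hi)).image (gt0b_p K)) ∪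
    ((B.filter (fun b => lo ≤ b ∧ b ≤ hi)).image (gt0b_q K))))

lemma gt0b_B_sub {K : Set ℝ} (hK : IsCompact K) {lo hi : ℝ} (hlo : lo ∈ K) (hhi : hi ∈ K)
    (B : Finset ℝ) : ∀ b ∈ gt0b_B K lo hi B, b ∈ K := by
  intro b hb
  simp only [gt0b_B, Finset.mem_insert, Finset.mem_union, Finset.mem_image,
    Finset.mem_filter] at hb
  rcases hb with rfl | rfl | ⟨c, hc, rfl⟩ | ⟨c, hc, rfl⟩
  · exact hlo
  · exact hhi
  · exact (gt0b_p_spec hK hlo hc.2.1).1
  · exact (gt0b_q_spec hK hhi hc.2.2).1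

lemma gt0b_aff (R : Raw) {lo hi : ℝ} (hlo : lo ∈ R.K) (hhi : hi ∈ R.K)
    {u v : ℝ} (hu : lo ≤ u) (huv : u < v) (hv : v ≤ hi) (hB : NoB (gt0b_B R.K lo hi R.B) u v) :
    ∃ σ : ℝ, σ ≠ 0 ∧ ∀ y ∈ Icc u v, gt0b_T R.T R.K y = gt0b_T R.T R.K u + σ * (y - u) := by
  have hK := R.cpt
  by_cases hz : ∃ z ∈ R.K, u < z ∧ z < v
  · obtain ⟨z, hz, huz, hzv⟩ := hz
    have h1 := gt0b_p_spec hK hlo hu
    have h2 := gt0b_q_spec hK hhi hv
    have hab : gt0b_p R.K u < gt0b_q R.K v := lt_of_le_of_lt h1.2.1 (lt_of_lt_of_le huv h2.2.1)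
    have hN : NoB R.B (gt0b_p R.K u) (gt0b_q R.K v) := by
      intro c hc hh
      have hc' : lo ≤ c ∧ c ≤ hi := ⟨h1.2.2.trans hh.1.le, hh.2.le.trans h2.2.2⟩
      rcases le_total c z with d | d
      · have h3 := gt0b_q_spec hK hz d
        have hm : gt0b_q R.K c ∈ gt0b_B R.K lo hi R.B := by
          simp only [gt0b_B, Finset.mem_insert, Finset.mem_union, Finset.mem_image,
            Finset.mem_filter]
          exact Or.inr (Or.inr (Or.inr ⟨c, ⟨hc, hc'⟩, rfl⟩))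
        have h4 : gt0b_q R.K c ≤ u := by
          by_contra hn
          exact hB _ hm ⟨not_le.1 hn, lt_of_le_of_lt h3.2.2 hzv⟩
        have h5 := (gt0b_p_spec hK h3.1 h4).2.2
        linarith [hh.1, h3.2.1]
      · have h3 := gt0b_p_spec hK hz d
        have hm : gt0b_p R.K c ∈ gt0b_B R.K lo hi R.B := by
          simp only [gt0b_B, Finset.mem_insert, Finset.mem_union, Finset.mem_image,
            Finset.mem_filter]
          exact Or.inr (Or.inr (Or.inl ⟨c, ⟨hc, hc'⟩, rfl⟩))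
        have h4 : v ≤ gt0b_p R.K c := by
          by_contra hn
          exact hB _ hm ⟨lt_of_lt_of_le huz h3.2.2, not_le.1 hn⟩
        have h5 := (gt0b_q_spec hK h3.1 h4).2.2
        linarith [hh.2, h3.2.1]
    obtain ⟨σ, hσ⟩ := R.pl _ _ (R.sub h1.1).1 hab (R.sub h2.1).2 hN
    refine ⟨σ, fun h0 => ?_, fun y hy => ?_⟩
    · have e := hσ _ ⟨hab.le, le_rfl⟩
      rw [h0, zero_mul, add_zero] at e
      exact hab.ne' (R.inj h2.1 h1.1 e)
    · have hy' : y ∈ Icc (gt0b_p R.K u) (gt0b_q R.K v) := ⟨h1.2.1.trans hy.1, hy.2.trans h2.2.1⟩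
      have hu' : u ∈ Icc (gt0b_p R.K u) (gt0b_q R.K v) := ⟨h1.2.1, huv.le.trans h2.2.1⟩
      rw [gt0b_T_aff R.T hK h1.1 h2.1 hσ hy', gt0b_T_aff R.T hK h1.1 h2.1 hσ hu', hσ y hy',
        hσ u hu']
      ring
  · push Not at hz
    have hm : (u + v) / 2 ∉ R.K := fun h => by
      have := hz _ h (by linarith)
      linarith
    obtain ⟨g, hg, -, hg1, hg2, -⟩ := exists_gap_around hK hlo hhi (y := (u + v) / 2)
      (by linarith) (by linarith) hm
    have h1 : g.1 ≤ u := by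
      by_contra hn
      have := hz _ hg.1 (not_le.1 hn)
      linarith
    have h2 : v ≤ g.2 := hz _ hg.2.1 (by linarith)
    refine ⟨(R.T g.2 - R.T g.1) / (g.2 - g.1), ?_, fun y hy => ?_⟩
    · refine div_ne_zero (sub_ne_zero.2 fun e => ?_) (sub_pos.2 hg.2.2.1).ne'
      exact hg.2.2.1.ne' (R.inj hg.2.1 hg.1 e)
    · rw [gt0b_T_gap R.T hK hg.1 hg.2.1 hg.2.2.1 hg.2.2.2 ⟨h1.trans hy.1, hy.2.trans h2⟩,
        gt0b_T_gap R.T hK hg.1 hg.2.1 hg.2.2.1 hg.2.2.2 ⟨h1, huv.le.trans h2⟩]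
      ring

lemma Raw.exists_pre (R : Raw) : Nonempty Pre := by
  have hK := R.cpt
  obtain ⟨lo, hlo⟩ := hK.exists_isLeast ⟨_, R.x_mem 0⟩
  obtain ⟨hi, hhi⟩ := hK.exists_isGreatest ⟨_, R.x_mem 0⟩
  have hsub : R.K ⊆ Icc lo hi := fun z hz => ⟨hlo.2 hz, hhi.2 hz⟩
  have hlh : lo ≤ hi := hlo.2 hhi.1
  have hloB : lo ∈ gt0b_B R.K lo hi R.B := by simp [gt0b_B]
  have hhiB : hi ∈ gt0b_B R.K lo hi R.B := by simp [gt0b_B]
  obtain ⟨M, hM⟩ := gt0b_lip (T := gt0b_T R.T R.K) (B := gt0b_B R.K lo hi R.B)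
    (fun u v hu huv hv hB => by
      obtain ⟨σ, -, h⟩ := gt0b_aff R hlo.1 hhi.1 hu huv hv hB
      exact ⟨σ, h⟩) hloB hhiB
  have hc : ContinuousOn (gt0b_T R.T R.K) (Icc lo hi) := by
    refine (LipschitzOnWith.of_dist_le_mul (K := Real.toNNReal M) fun a ha b hb => ?_).continuousOn
    rw [Real.dist_eq, Real.dist_eq]
    exact (hM a ha b hb).trans
      (mul_le_mul_of_nonneg_right (Real.le_coe_toNNReal M) (abs_nonneg _))
  have hcl : ∀ y ∈ Icc lo hi, max lo (min y hi) = y := fun y hy => by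
    rw [min_eq_left hy.2, max_eq_right hy.1]
  have hK' : ∀ y ∈ R.K, gt0b_T R.T R.K (max lo (min y hi)) = R.T y := fun y hy => by
    rw [hcl y (hsub hy), gt0b_T_mem R.T hK hy]
  refine ⟨{ T := fun y => gt0b_T R.T R.K (max lo (min y hi))
            cont := hc.comp_continuous (by fun_prop) fun y =>
              ⟨le_max_left _ _, max_le hlh (min_le_right _ _)⟩
            K := R.K
            cpt := hK
            lo := lo
            hi := hi
            lo_mem := hlo.1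
            hi_mem := hhi.1
            sub := hsub
            B := gt0b_B R.K lo hi R.B
            lo_B := hloB
            hi_B := hhiB
            B_sub := gt0b_B_sub hK hlo.1 hhi.1 R.B
            aff := fun u v hu huv hv hB => ?_
            inj := fun a ha b hb e => R.inj ha hb (by rw [← hK' a ha, ← hK' b hb]; exact e)
            x := R.x
            x_succ := fun n => by rw [hK' _ (R.x_mem n)]; exact R.x_succ n
            x_mem := R.x_mem
            x_inj := R.x_inj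
            dense := R.dense
            G := R.G
            gain := fun A hA => ?_ }⟩
  · obtain ⟨σ, h0, h⟩ := gt0b_aff R hlo.1 hhi.1 hu huv hv hB
    refine ⟨σ, h0, fun y hy => ?_⟩
    rw [hcl y ⟨hu.trans hy.1, hy.2.trans hv⟩, hcl u ⟨hu, huv.le.trans hv⟩]
    exact h y hy
  · have e1 : Pt (fun y => gt0b_T R.T R.K (max lo (min y hi))) A = Pt R.T A := by
      refine Finset.prod_congr rfl fun g hg => ?_
      have hg' := mem_gaps.1 hg
      simp only [img]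
      rw [hK' _ (hA hg'.1), hK' _ (hA hg'.2.1)]
    have e2 : A.image (fun y => gt0b_T R.T R.K (max lo (min y hi))) = A.image R.T :=
      Finset.image_congr fun y hy => hK' y (hA hy)
    rw [e1, e2]
    exact R.gain A hA

end Pool.Agent.MP_8df504_an.C
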