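import Pool.Agent.MP_8df504_an.C.MeasDl
import Pool.Agent.MP_8df504_an.C.GT
import Pool.Agent.MP_8df504_an.C.GT0a
import Pool.Agent.MP_8df504_an.C.GT0b
import Pool.Agent.MP_8df504_an.C.CB
import Pool.Agent.MP_8df504_an.C.Fin3

set_option autoImplicit false

namespace Pool.Agent.MP_8df504_an.C

open Set Filter Topology MeasureTheory

/-! An invariant measure that lives on non-periodic points has a positive exponent.

Hints.  The a.e. property holds along whole orbits (`hinv.iterate`, `quasiMeasurePreserving.ae`,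
`ae_all_iff`), so a.e. orbit is injective; a.e. point is recurrent
(`MeasurePreserving.conservative`, `Conservative.ae_frequently_mem_of_mem_nhds`).  With `D` from
`exists_meas_Dl`, put `u n x = log (D (n+1) x)`, `f n x = log (cC m M B) + ∑ i<n+1, log (s (T^[i] x))`;
`∫ f n ≤ log (cC) * ν.real univ`.  With `A = orb (T^[·] x) (n+1)`, `A.image T` is
`orb (T^[·] (T x)) (n+1)`, and `Dl (A.image T) ≤ Pt T A ≤ cC * Dl A * ∏ s` (`Dl_image_le`, `up`), so
`w n = f n + u n - u n ∘ T ≥ 0`.  If `w n x ≤ W` then `cC * Dl A * ∏ s ≤ exp W * Dl (A.image T)`,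
hence `Pt T A ≤ exp W * Dl (A.image T)` and (`up_edge`, `Dl (A.image T) ≤ Pt T A`, `0 < Pt`)
`m * len e ≤ exp W * img T e` for all edges.  `cob_frequently`, `raw_of_orbit`, `Raw.exists_pre`,
`Pre.false`. -/

lemma tb_inj {T : ℝ → ℝ} {x : ℝ} (h : ∀ i p : ℕ, 1 ≤ p → T^[p] (T^[i] x) ≠ T^[i] x) :
    Function.Injective fun i : ℕ => T^[i] x := by
  refine Function.Injective.of_lt_imp_ne fun i j hij he => h i (j - i) (by omega) ?_
  rw [← Function.iterate_add_apply, Nat.sub_add_cancel hij.le]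
  exact he.symm

lemma tb_point {T : ℝ → ℝ} {B : Finset ℝ} {m M : ℝ} (hm : 0 < m) (hlip : LipOn T 0 1 M)
    {s : ℝ → ℝ} {x : ℝ} (hinj : Function.Injective fun i : ℕ => T^[i] x)
    (hx : ∀ i : ℕ, T^[i] x ∈ Icc (0 : ℝ) 1 ∧ m ≤ s (T^[i] x) ∧ s (T^[i] x) ≤ M ∧
      SlopeAt T 1 B (T^[i] x) (s (T^[i] x))) (n : ℕ) {w : ℝ}
    (hw : w = Real.log (cC m M B) + ∑ i ∈ Finset.range (n + 1), Real.log (s (T^[i] x)) +
      Real.log (Dl (orb (fun i => T^[i] x) (n + 1))) -
      Real.log (Dl (orb (fun i => T^[i] (T x)) (n + 1)))) :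
    0 ≤ w ∧ ∀ W, w ≤ W → Pt T (orb (fun i => T^[i] x) (n + 1)) ≤
      Real.exp W * Dl ((orb (fun i => T^[i] x) (n + 1)).image T) ∧
      ∀ e ∈ gaps (orb (fun i => T^[i] x) (n + 1)), m / Real.exp W * len e ≤ img T e := by
  have him : orb (fun i => T^[i] (T x)) (n + 1) = (orb (fun i => T^[i] x) (n + 1)).image T := by
    rw [orb, orb, Finset.image_image]
    exact Finset.image_congr fun i _ => Function.iterate_succ_apply' T i x
  rw [him] at hw
  set A := orb (fun i => T^[i] x) (n + 1) with hA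
  have hmem : ∀ a ∈ A, ∃ i, T^[i] x = a := fun a ha => by
    obtain ⟨i, -, h⟩ := Finset.mem_image.1 ha
    exact ⟨i, h⟩
  have hsub : ∀ a ∈ A, a ∈ Icc (0 : ℝ) 1 := fun a ha => by
    obtain ⟨i, rfl⟩ := hmem a ha
    exact (hx i).1
  have hs : ∀ a ∈ A, m ≤ s a ∧ s a ≤ M ∧ SlopeAt T 1 B a (s a) := fun a ha => by
    obtain ⟨i, rfl⟩ := hmem a ha
    exact (hx i).2
  have hi : InjOn T (A : Set ℝ) := fun a ha b hb hab => by
    obtain ⟨i, rfl⟩ := hmem a ha
    obtain ⟨j, rfl⟩ := hmem b hb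
    rw [← Function.iterate_succ_apply' T, ← Function.iterate_succ_apply' T] at hab
    rw [Nat.succ_injective (hinj hab)]
  have hC : 0 < cC m M B := by
    have : 0 < M := hm.trans_le ((hx 0).2.1.trans (hx 0).2.2.1)
    unfold cC
    positivity
  have hsp : ∀ i, 0 < s (T^[i] x) := fun i => hm.trans_le (hx i).2.1
  have hP : ∏ a ∈ A, s a = ∏ i ∈ Finset.range (n + 1), s (T^[i] x) :=
    Finset.prod_image hinj.injOn
  have hPp : 0 < ∏ a ∈ A, s a := hP ▸ Finset.prod_pos fun i _ => hsp i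
  have h1 := Dl_image_le hi
  have h2 := up hm hlip (Finset.nonempty_range_add_one.image _) hsub hs
  have hD := Dl_pos (A.image T)
  have hDA := Dl_pos A
  set E := cC m M B * Dl A * ∏ a ∈ A, s a with hE
  have hE0 : 0 < E := by positivity
  have hw' : w = Real.log E - Real.log (Dl (A.image T)) := by
    rw [hw, hE, Real.log_mul (by positivity) hPp.ne', Real.log_mul hC.ne' hDA.ne', hP,
      Real.log_prod fun i _ => (hsp i).ne']
    ring
  refine ⟨hw' ▸ sub_nonneg.2 (Real.log_le_log hD (h1.trans h2)), fun W hW => ?_⟩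
  have h3 : E ≤ Real.exp W * Dl (A.image T) := by
    rw [← Real.exp_log hD, ← Real.exp_add, ← Real.log_le_iff_le_exp hE0]
    linarith
  refine ⟨h2.trans h3, fun e he => ?_⟩
  have h4 := (up_edge hm hlip hsub hs he).trans (mul_le_mul_of_nonneg_left
    (h3.trans (mul_le_mul_of_nonneg_left h1 (Real.exp_pos W).le)) (img_nonneg T e))
  rw [← mul_assoc] at h4
  rw [div_mul_eq_mul_div, div_le_iff₀ (Real.exp_pos W)]
  exact le_of_mul_le_mul_right h4 (hD.trans_le h1)

theorem TB {T : ℝ → ℝ} (hT : Continuous T) {B : Finset ℝ} (hPL : PLz T 0 1 B) {m M : ℝ}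
    (hm : 0 < m) (hlip : LipOn T 0 1 M) (ν : Measure ℝ) [IsFiniteMeasure ν] (hν : ν ≠ 0)
    (hinv : MeasurePreserving T ν ν) {s : ℝ → ℝ} (hs : Measurable s)
    (hae : ∀ᵐ x ∂ν, x ∈ Icc (0 : ℝ) 1 ∧ (∀ p : ℕ, 1 ≤ p → T^[p] x ≠ x) ∧ m ≤ s x ∧ s x ≤ M ∧
      SlopeAt T 1 B x (s x))
    (hint : ∫ x, Real.log (s x) ∂ν ≤ 0) : False := by
  have hall := ae_all_iff.2 fun i : ℕ => (hinv.iterate i).quasiMeasurePreserving.ae hae
  obtain ⟨D, hDm, hD⟩ := exists_meas_Dl hT.measurable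
  have hg : Integrable (fun x => Real.log (s x)) ν :=
    Integrable.of_mem_Icc (Real.log m) (Real.log M) hs.log.aemeasurable (hae.mono fun x hx =>
      ⟨Real.log_le_log hm hx.2.2.1, Real.log_le_log (hm.trans_le hx.2.2.1) hx.2.2.2.1⟩)
  have hgi : ∀ i : ℕ, Integrable (fun x => Real.log (s (T^[i] x))) ν := fun i =>
    (hinv.iterate i).integrable_comp_of_integrable hg
  have hgI : ∀ i : ℕ, ∫ x, Real.log (s (T^[i] x)) ∂ν ≤ 0 := fun i => by
    have := integral_map (μ := ν) (hinv.iterate i).measurable.aemeasurable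
      hs.log.aestronglyMeasurable
    rwa [← this, (hinv.iterate i).map_eq]
  have key : ∀ᵐ x ∂ν, (Function.Injective fun i : ℕ => T^[i] x) ∧
      (∀ i : ℕ, T^[i] x ∈ Icc (0 : ℝ) 1) ∧ ∀ n : ℕ, ∀ w, w = Real.log (cC m M B) +
        ∑ i ∈ Finset.range (n + 1), Real.log (s (T^[i] x)) + Real.log (D (n + 1) x) -
        Real.log (D (n + 1) (T x)) → 0 ≤ w ∧ ∀ W, w ≤ W → Pt T (orb (fun i => T^[i] x) (n + 1)) ≤
      Real.exp W * Dl ((orb (fun i => T^[i] x) (n + 1)).image T) ∧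
      ∀ e ∈ gaps (orb (fun i => T^[i] x) (n + 1)), m / Real.exp W * len e ≤ img T e := by
    filter_upwards [hall] with x hx
    have h1 := tb_inj fun i => (hx i).2.1
    have h2 := tb_inj (x := T x) fun i => (hx (i + 1)).2.1
    refine ⟨h1, fun i => (hx i).1, fun n w hw => ?_⟩
    rw [hD _ _ h1, hD _ _ h2] at hw
    exact tb_point hm hlip h1 (fun i => ⟨(hx i).1, (hx i).2.2⟩) n hw
  have hfr := cob_frequently ν hinv (u := fun n x => Real.log (D (n + 1) x))
    (f := fun n x => Real.log (cC m M B) + ∑ i ∈ Finset.range (n + 1), Real.log (s (T^[i] x)))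
    (fun n => (hDm _).log)
    (fun n => (integrable_const _).add (integrable_finsetSum _ fun i _ => hgi i))
    (C := ∫ _, Real.log (cC m M B) ∂ν) (fun n => by
      rw [integral_add (integrable_const _) (integrable_finsetSum _ fun i _ => hgi i),
        integral_finsetSum _ fun i _ => hgi i]
      exact add_le_of_nonpos_right (Finset.sum_nonpos fun i _ => hgI i))
    fun n => key.mono fun x hx => (hx.2.2 n _ rfl).1
  haveI : (ae ν).NeBot := ae_neBot.2 hν
  obtain ⟨x, ⟨⟨h1, h2, h3⟩, W, hW⟩, hr⟩ :=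
    ((key.and hfr).and hinv.conservative.ae_frequently_mem_of_mem_nhds).exists
  obtain ⟨R⟩ := raw_of_orbit hT hPL (x := fun i => T^[i] x)
    (fun n => Function.iterate_succ_apply' T n x) h2 h1 (fun N => mem_closure_iff_nhds.2
      fun t ht => by
        obtain ⟨n, hn, hN⟩ := ((hr t ht).and_eventually (eventually_ge_atTop N)).exists
        exact ⟨_, hn, n, hN, rfl⟩) (div_pos hm (Real.exp_pos W))
    ((tendsto_add_atTop_nat 1).frequently (hW.mono fun n hn => (h3 n _ rfl).2 W hn))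
  obtain ⟨P⟩ := R.exists_pre
  exact P.false

end Pool.Agent.MP_8df504_an.C
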