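import Pool.Agent.MP_8df504_an.C.PP
import Pool.Agent.MP_8df504_an.C.KB
import Pool.Agent.MP_8df504_an.C.NPer
import Pool.Agent.MP_8df504_an.C.TB

set_option autoImplicit false

namespace Pool.Agent.MP_8df504_an.C

open Set Filter Topology MeasureTheory

/-! No attracting cycle implies eventual expansion on `Lam`.

Hints.  Suppose not; take `μ` from `kb`, `F z = (T z.1, sh z.2 1)`, `ψ z = log |c (z.2 0)|`.
`E p = {z | Function.minimalPeriod T z.1 = p + 1}` (measurable: `T^[p+1] x = x` and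
`T^[q] x ≠ x` for `0 < q ≤ p`; forward invariant by `Function.minimalPeriod_apply`), `k p = 2 (p+1)`,
`l p = p + 1`; `∑ i<2(p+1), ψ (F^[p+1+i] z) = log |gam (2(p+1)) (sh z.2 (p+1))| > 0` by `pp` and
`c_ne`.  `remove_pos`, `restrict_preserving`; `ν = map Prod.fst (μ.restrict N)`, `N = (⋃ E)ᶜ`.
`ν`-a.e. point is in `[0,1]` and not periodic; `ν {b} = 0` for every `b` (otherwise
`Conservative.exists_mem_iterate_mem` makes `b` periodic), so a.e. `z.1 ∉ B`, hence
`z.1 ∈ Piece (z.2 0)` and `c (z.2 0) ≠ 0`.  Take the measurable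
`s x = ∑ j, (Piece j).indicator (fun _ => |c j|) x`; apply `TB` with `exists_bounds`, `slopeAt`. -/

lemma exp_iter (D : BL) (n : ℕ) (z : ℝ × (ℕ → Fin D.m)) :
    (fun z : ℝ × (ℕ → Fin D.m) => (D.T z.1, sh z.2 1))^[n] z = (D.T^[n] z.1, sh z.2 n) := by
  induction n with
  | zero => rfl
  | succ n ih =>
    rw [Function.iterate_succ_apply', ih, Function.iterate_succ_apply']
    refine Prod.ext rfl (funext fun i => ?_)
    exact congrArg z.2 (by omega : i + 1 + n = i + (n + 1))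

/-- points of exact period `p + 1` -/
def exp_E (T : ℝ → ℝ) (p : ℕ) : Set ℝ := {x | T^[p + 1] x = x ∧ ∀ q < p, T^[q + 1] x ≠ x}

lemma exp_fix {T : ℝ → ℝ} (hT : Continuous T) (p : ℕ) : MeasurableSet {x | T^[p] x = x} :=
  (isClosed_eq (hT.iterate p) continuous_id).measurableSet

lemma exp_meas {T : ℝ → ℝ} (hT : Continuous T) (p : ℕ) : MeasurableSet (exp_E T p) := by
  have e : exp_E T p = {x | T^[p + 1] x = x} ∩ ⋂ q, ⋂ _ : q < p, {x | T^[q + 1] x = x}ᶜ := by
    ext x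
    simp [exp_E]
  rw [e]
  exact (exp_fix hT _).inter
    (MeasurableSet.iInter fun q => MeasurableSet.iInter fun _ => (exp_fix hT _).compl)

lemma exp_maps (T : ℝ → ℝ) (p : ℕ) : MapsTo T (exp_E T p) (exp_E T p) := by
  rintro x ⟨h1, h2⟩
  refine ⟨?_, fun q hq h => h2 q hq ?_⟩
  · rw [← Function.iterate_succ_apply, Function.iterate_succ_apply', h1]
  · have e := congrArg T^[p] h
    rw [← Function.iterate_add_apply, add_comm, Function.iterate_add_apply,
      ← Function.iterate_succ_apply T p, Nat.succ_eq_add_one, h1] at e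
    exact e

lemma exp_disj (T : ℝ → ℝ) {p q : ℕ} (h : p ≠ q) : Disjoint (exp_E T p) (exp_E T q) := by
  rw [Set.disjoint_left]
  rintro x ⟨h1, h2⟩ ⟨h3, h4⟩
  rcases lt_or_gt_of_ne h with c | c
  · exact h4 p c h1
  · exact h2 q c h3

lemma exp_nper {T : ℝ → ℝ} {x : ℝ} (h : ∀ p, x ∉ exp_E T p) (p : ℕ) : T^[p + 1] x ≠ x := by
  induction p using Nat.strong_induction_on with
  | _ p ih => exact fun e => h p ⟨e, ih⟩

lemma exp_s (D : BL) {x : ℝ} {j : Fin D.m} (h : x ∈ D.Piece j) :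
    ∑ i, (D.Piece i).indicator (fun _ => |D.c i|) x = |D.c j| := by
  rw [Finset.sum_eq_single j (fun i _ hi => indicator_of_notMem
    (fun h' => hi (D.piece_unique h' h)) _) (fun h' => absurd (Finset.mem_univ j) h'),
    indicator_of_mem h]

lemma exp_piece (D : BL) {x : ℝ} {ω : ℕ → Fin D.m} (h : x ∈ closure (D.Cyl 1 ω ∩ D.Lam))
    (hB : ∀ b ∈ D.B, x ≠ b) : D.c (ω 0) ≠ 0 ∧ x ∈ D.Piece (ω 0) := by
  refine ⟨D.c_ne (Set.Nonempty.of_closure ⟨x, h⟩) one_pos, ?_⟩
  have h1 : x ∈ Icc (D.a (ω 0).castSucc) (D.a (ω 0).succ) :=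
    closure_minimal (fun y hy => Ioo_subset_Icc_self (hy.1 0 one_pos)) isClosed_Icc h
  exact ⟨lt_of_le_of_ne h1.1 (hB _ (Finset.mem_image_of_mem _ (Finset.mem_univ _))).symm,
    lt_of_le_of_ne h1.2 (hB _ (Finset.mem_image_of_mem _ (Finset.mem_univ _)))⟩

theorem BL.expd (D : BL) (h : ¬ HasAttr D.T) : D.Expd := by
  by_contra hE
  obtain ⟨μ, hμ, hF, hcl, hint⟩ := D.kb hE
  have hT := D.cont.measurable
  have hψm : Measurable fun z : ℝ × (ℕ → Fin D.m) => Real.log |D.c (z.2 0)| :=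
    (Measurable.of_discrete (f := fun j : Fin D.m => Real.log |D.c j|)).comp
      ((measurable_pi_apply 0).comp measurable_snd)
  have hψ : Integrable (fun z : ℝ × (ℕ → Fin D.m) => Real.log |D.c (z.2 0)|) μ :=
    Integrable.of_bound hψm.aestronglyMeasurable (∑ j, ‖Real.log |D.c j|‖)
      (Eventually.of_forall fun z => Finset.single_le_sum
        (f := fun j => ‖Real.log |D.c j|‖) (fun _ _ => norm_nonneg _) (Finset.mem_univ (z.2 0)))
  let E : ℕ → Set (ℝ × (ℕ → Fin D.m)) := fun p => Prod.fst ⁻¹' exp_E D.T p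
  have hEm : ∀ p, MeasurableSet (E p) := fun p => measurable_fst (exp_meas D.cont p)
  have hEF : ∀ p, MapsTo (fun z : ℝ × (ℕ → Fin D.m) => (D.T z.1, sh z.2 1)) (E p) (E p) :=
    fun p z hz => exp_maps D.T p hz
  obtain ⟨hN0, hNi⟩ := remove_pos μ hF hψ hint E hEm
    (fun p q hpq => (exp_disj D.T hpq).preimage _) hEF (fun p => 2 * (p + 1)) (fun p => p + 1)
    (fun p => by
      filter_upwards [hcl] with z hz hp
      have h1 := D.pp h (Nat.le_add_left 1 p) hp.1 (hz _)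
      have h2 : D.gam (2 * (p + 1)) (sh z.2 (p + 1)) ≠ 0 := fun e => by
        rw [e, abs_zero] at h1
        exact absurd h1 (by norm_num)
      have h3 := Real.log_pos h1
      rw [Real.log_abs, BL.gam, Real.log_prod (Finset.prod_ne_zero_iff.1 h2)] at h3
      refine h3.trans_eq (Finset.sum_congr rfl fun i _ => ?_)
      simp only [exp_iter, Real.log_abs, sh]
      rw [zero_add, add_comm i])
  have hU : MeasurableSet (⋃ p, E p) := MeasurableSet.iUnion hEm
  have hF' := (restrict_preserving μ hF hU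
    (fun z hz => by
      obtain ⟨p, hp⟩ := mem_iUnion.1 hz
      exact mem_iUnion.2 ⟨p, hEF p hp⟩)).2
  have hnp : ∀ᵐ z ∂μ.restrict (⋃ p, E p)ᶜ, ∀ p, D.T^[p + 1] z.1 ≠ z.1 := by
    filter_upwards [ae_restrict_mem hU.compl] with z hz
    exact exp_nper fun p hp => hz (mem_iUnion.2 ⟨p, hp⟩)
  have hcl' : ∀ᵐ z ∂μ.restrict (⋃ p, E p)ᶜ, ∀ k, z.1 ∈ closure (D.Cyl k z.2 ∩ D.Lam) :=
    ae_restrict_of_ae hcl
  have hμ0 : μ.restrict (⋃ p, E p)ᶜ ≠ 0 := fun e => hN0 (Measure.restrict_eq_zero.1 e)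
  have hfin : IsFiniteMeasure (μ.restrict (⋃ p, E p)ᶜ) := inferInstance
  generalize μ.restrict (⋃ p, E p)ᶜ = μ' at hF' hnp hcl' hμ0 hfin hNi
  have hinv : MeasurePreserving D.T (μ'.map Prod.fst) (μ'.map Prod.fst) := by
    refine ⟨hT, ?_⟩
    rw [Measure.map_map hT measurable_fst]
    conv_rhs => rw [← hF'.map_eq, Measure.map_map measurable_fst hF'.measurable]
    rfl
  have hb : ∀ b : ℝ, ∀ᵐ z ∂μ', z.1 ≠ b := by
    intro b
    by_cases h0 : μ'.map Prod.fst {b} = 0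
    · rw [Measure.map_apply measurable_fst (measurableSet_singleton b)] at h0
      exact measure_eq_zero_iff_ae_notMem.1 h0
    · obtain ⟨x, hx, k, hk, hxk⟩ := hinv.conservative.exists_mem_iterate_mem
        (measurableSet_singleton b).nullMeasurableSet h0
      obtain ⟨k, rfl⟩ := Nat.exists_eq_succ_of_ne_zero hk
      rw [mem_singleton_iff] at hx hxk
      filter_upwards [hnp] with z hz e
      exact hz k (by rw [e, ← hx, hxk, hx])
  have hP : ∀ᵐ z ∂μ', D.c (z.2 0) ≠ 0 ∧ z.1 ∈ D.Piece (z.2 0) := by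
    filter_upwards [hcl', (eventually_all_finset D.B).2 fun b _ => hb b] with z h1 h2
    exact exp_piece D (h1 1) h2
  have hs : Measurable fun x => ∑ i, (D.Piece i).indicator (fun _ => |D.c i|) x :=
    Finset.measurable_sum _ fun i _ => measurable_const.indicator measurableSet_Ioo
  obtain ⟨m, M, hm, -, hlip, hbd⟩ := D.exists_bounds
  have hG : MeasurableSet ((⋃ j, ⋃ _ : D.c j ≠ 0, D.Piece j) ∩
      ⋂ p, {x | D.T^[p + 1] x = x}ᶜ) :=
    (MeasurableSet.iUnion fun j => MeasurableSet.iUnion fun _ => measurableSet_Ioo).inter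
      (MeasurableSet.iInter fun p => (exp_fix D.cont _).compl)
  have hGa : ∀ᵐ x ∂μ'.map Prod.fst, x ∈ (⋃ j, ⋃ _ : D.c j ≠ 0, D.Piece j) ∩
      ⋂ p, {x | D.T^[p + 1] x = x}ᶜ := by
    refine (ae_map_iff measurable_fst.aemeasurable hG).2 ?_
    filter_upwards [hP, hnp] with z h1 h2
    exact ⟨mem_iUnion₂.2 ⟨_, h1.1, h1.2⟩, mem_iInter.2 h2⟩
  refine TB D.cont D.plz hm hlip (μ'.map Prod.fst)
    (fun e => hμ0 ((Measure.map_eq_zero_iff measurable_fst.aemeasurable).1 e)) hinv hs ?_ ?_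
  · filter_upwards [hGa] with x hx
    obtain ⟨j, hj, hxj⟩ := mem_iUnion₂.1 hx.1
    rw [exp_s D hxj]
    refine ⟨Ioo_subset_Icc_self (D.piece_sub j hxj), fun p hp => ?_, (hbd j hj).1, (hbd j hj).2,
      D.slopeAt hxj⟩
    obtain ⟨p, rfl⟩ := Nat.exists_eq_add_of_le' hp
    exact mem_iInter.1 hx.2 p
  · rw [integral_map measurable_fst.aemeasurable hs.log.aestronglyMeasurable]
    refine le_of_eq_of_le (integral_congr_ae ?_) hNi
    filter_upwards [hP] with z hz
    rw [exp_s D hz.2]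

end Pool.Agent.MP_8df504_an.C
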