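import Pool.Agent.MP_8df504_an.C.SysBase

set_option autoImplicit false

namespace Pool.Agent.MP_8df504_an.C

open Set Filter Topology MeasureTheory

/-! Finitely many long gaps: the left end of a gap returns to its left.

`exact_piece` (Lemma X): on `[w,w']`, points of `K` go injectively to `K`, and each open gap `g`
goes injectively (affine, slope nonzero) onto the open gap `pi g` (`exact_ends`, `gap_aff`);
`pi` is injective.  A continuous injective map on an interval is monotone or antitone, so the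
image is the segment between `T w` and `T w'`; a gap `γ` inside the image has its midpoint equal to
`T y` with `y` in an open gap `g` inside `[w,w']`, and then `γ = pi g` (`Gap.eq_of_mem`).

`ret_left`: let `a = g0.1`.  Choose (`acc_left`, `exists_gap_between`) a gap `fL` with
`a - ε ≤ fL.1` and `fL.2 < a`; `J = [fL.2, a]`, with flanks `fL` and `g0`.  Call a gap `g` inside `J`
bad if for some `k`, `pi^[k] g` is long or a flank and `pi^[i] g` is not inside `J` for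
`0 < i ≤ k`.  Each long gap or flank `γ` comes from at most one bad `g` (if `pi^[k] g = pi^[k'] g'`,
`k ≤ k'`, then `g = pi^[k'-k] g'` by injectivity, so `k = k'`), hence finitely many bad gaps; pick
`w ∈ K`, `fL.2 ≤ w < a`, to the right of all bad gaps (no gap has right end `a`, by `acc_left`).
Pick an orbit point `y ∈ (w,a)` and its first return time `n ≥ 1` to `J` (`acc_left`).  By
induction on `j ≤ n`: `T^[j]` is injective on `[w,a]`, `T^[j] y' ∈ K ↔ y' ∈ K` there, the image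
`P j` is the segment between `T^[j] w` and `T^[j] a`, every gap inside `P j` is `pi^[j] g` with
`g` a gap inside `[w,a]` and conversely `pi^[j] g` is inside `P j`, and `P j` is disjoint from `J`
for `0 < j < n`.  (If `P j` contains a point of `J` and a point of `K` outside `J`, then it contains
a flank, which makes a gap bad.)  For `j = n` the same argument gives `P n ⊆ J`. -/

namespace Sys

variable (S : Sys)

lemma f2a_sl_ne (y : ℝ) : S.L.sl y ≠ 0 := abs_pos.1 (S.L.m_pos.trans_le (S.L.sl_lo y))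

lemma f2a_open {g : ℝ × ℝ} (hg : g ∈ Gap S.P.K) (h : ¬ S.Long g) {y : ℝ} (h1 : g.1 < y)
    (h2 : y < g.2) : (S.pi g).1 < S.P.T y ∧ S.P.T y < (S.pi g).2 := by
  have a := S.gap_aff hg (y := y) ⟨h1.le, h2.le⟩
  have b := S.gap_aff hg (y := g.2) ⟨hg.2.2.1.le, le_rfl⟩
  have c := (S.pi_mem hg).2.2.1
  have d := sub_pos.2 hg.2.2.1
  rcases S.exact_ends hg h with ⟨e1, e2⟩ | ⟨e1, e2⟩
  · have s : 0 < S.L.sl g.1 := (mul_pos_iff_of_pos_right d).1 (by linarith)
    constructor <;> nlinarith [mul_pos s (sub_pos.2 h1), mul_pos s (sub_pos.2 h2)]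
  · have s : 0 < -S.L.sl g.1 := (mul_pos_iff_of_pos_right d).1 (by linarith)
    constructor <;> nlinarith [mul_pos s (sub_pos.2 h1), mul_pos s (sub_pos.2 h2)]

lemma exact_piece {w w' : ℝ} (hw : w ∈ S.P.K) (hw' : w' ∈ S.P.K) (h : w ≤ w')
    (hex : ∀ g ∈ Gap S.P.K, Inner w w' g → ¬ S.Long g) :
    InjOn S.P.T (Icc w w') ∧ (∀ y ∈ Icc w w', S.P.T y ∈ S.P.K → y ∈ S.P.K) ∧
      S.P.T '' Icc w w' = uIcc (S.P.T w) (S.P.T w') ∧
      (∀ g ∈ Gap S.P.K, Inner w w' g →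
        Inner (min (S.P.T w) (S.P.T w')) (max (S.P.T w) (S.P.T w')) (S.pi g)) ∧
      (∀ γ ∈ Gap S.P.K, Inner (min (S.P.T w) (S.P.T w')) (max (S.P.T w) (S.P.T w')) γ →
        ∃ g ∈ Gap S.P.K, Inner w w' g ∧ S.pi g = γ) := by
  have h1 : ∀ y ∈ Icc w w', y ∉ S.P.K → ∃ g ∈ Gap S.P.K, Inner w w' g ∧ y ∈ cl g ∧
      (S.pi g).1 < S.P.T y ∧ S.P.T y < (S.pi g).2 := fun y hy hK => by
    obtain ⟨g, hg, a, b, c, d⟩ := exists_gap_around S.P.cpt hw hw' hy.1 hy.2 hK
    exact ⟨g, hg, ⟨a, d⟩, ⟨b.le, c.le⟩, S.f2a_open hg (hex g hg ⟨a, d⟩) b c⟩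
  have h2 : ∀ y ∈ Icc w w', S.P.T y ∈ S.P.K → y ∈ S.P.K := fun y hy hT => by
    by_contra hK
    obtain ⟨g, hg, -, -, a⟩ := h1 y hy hK
    exact (S.pi_mem hg).2.2.2 _ hT a
  have h3 : InjOn S.P.T (Icc w w') := fun y hy y' hy' e => by
    by_cases hK : y ∈ S.P.K
    · exact S.P.inj hK (h2 y' hy' (e ▸ S.P.mapsK hK)) e
    · obtain ⟨g, hg, -, a, b⟩ := h1 y hy hK
      obtain ⟨g', hg', -, a', b'⟩ := h1 y' hy' fun hK' => hK (h2 y hy (e ▸ S.P.mapsK hK'))
      obtain rfl : g = g' := S.ok.bij.injOn hg hg'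
        (Gap.eq_of_mem (S.pi_mem hg) (S.pi_mem hg') b (e ▸ b'))
      rw [S.gap_aff hg a, S.gap_aff hg a', add_right_inj, mul_right_inj' (S.f2a_sl_ne _),
        sub_left_inj] at e
      exact e
  have h4 : S.P.T '' Icc w w' = uIcc (S.P.T w) (S.P.T w') := by
    refine Subset.antisymm ?_ (uIcc_of_le h ▸ intermediate_value_uIcc S.P.cont.continuousOn)
    rintro _ ⟨y, hy, rfl⟩
    have a := left_mem_Icc.2 h
    have b := right_mem_Icc.2 h
    rcases S.P.cont.continuousOn.strictMonoOn_of_injOn_Icc' h h3 with m | m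
    · exact mem_uIcc_of_le (m.monotoneOn a hy hy.1) (m.monotoneOn hy b hy.2)
    · exact mem_uIcc_of_ge (m.antitoneOn hy b hy.2) (m.antitoneOn a hy hy.1)
  refine ⟨h3, h2, h4, fun g hg hi => ?_, fun γ hγ hi => ?_⟩
  · have a : S.P.T g.1 ∈ uIcc (S.P.T w) (S.P.T w') :=
      h4 ▸ mem_image_of_mem _ ⟨hi.1, hg.2.2.1.le.trans hi.2⟩
    have b : S.P.T g.2 ∈ uIcc (S.P.T w) (S.P.T w') :=
      h4 ▸ mem_image_of_mem _ ⟨hi.1.trans hg.2.2.1.le, hi.2⟩
    rcases S.exact_ends hg (hex g hg hi) with ⟨e1, e2⟩ | ⟨e1, e2⟩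
    · exact ⟨e1 ▸ a.1, e2 ▸ b.2⟩
    · exact ⟨e2 ▸ b.1, e1 ▸ a.2⟩
  · have a := hγ.2.2.1
    have b : γ.1 < (γ.1 + γ.2) / 2 ∧ (γ.1 + γ.2) / 2 < γ.2 := ⟨by linarith, by linarith⟩
    have c : (γ.1 + γ.2) / 2 ∈ S.P.T '' Icc w w' :=
      h4 ▸ ⟨hi.1.trans b.1.le, b.2.le.trans hi.2⟩
    obtain ⟨y, hy, e⟩ := c
    obtain ⟨g, hg, d, -, f⟩ := h1 y hy fun hK => hγ.2.2.2 _ (S.P.mapsK hK) (e ▸ b)
    exact ⟨g, hg, d, Gap.eq_of_mem (S.pi_mem hg) hγ f (e ▸ b)⟩

end Sys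

end Pool.Agent.MP_8df504_an.C
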