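import Pool.Agent.MP_8df504_an.C.F2

set_option autoImplicit false

namespace Pool.Agent.MP_8df504_an.C

open Set Filter Topology MeasureTheory

/-! Finitely many long gaps is impossible.

`not_periodic_left`: let `a = g0.1` be periodic.  Take `ε` smaller than the distance from `a` to
the other points of its finite orbit; `ret_left` gives `F = T^[n]` with `F a = a`, `F` injective
and continuous on `[w,a]` with values `≤ a`, so strictly increasing there.  If some orbit point
`x k ∈ (w,a)` has `x k ≤ F (x k)`, then `x (k + j n)` increases and stays in `[w,a]`: contradiction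
with `noconv`.  Otherwise `F z < z` for all orbit points `z ∈ (w,a)`.  No orbit point equals `a`
(`x` is injective and `a` periodic).  Take (`acc_left`) `x l ∈ (t, a)` where `t < a` is larger than
`w`, `F w` and all `x i < a` with `i < n`.  If `l ≥ n` then `x l = F y` with `y ∈ [w,a]`
(intermediate values), `y ∈ K`, so `y = x (l - n)` (`iter_inj`), and `x l < y < a`; descend to get
`i < n` with `x i ∈ (t,a)`, contradiction.

`exists_exact_chain`: if the `pi`-orbit of `g` meets the finite set of long gaps infinitely often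
then `g` is `pi`-periodic and lies on the orbit of a periodic long gap; there are finitely many such
`g` but infinitely many gaps (`gap_infinite`); shift.

`seq_W`: `d (n+1) ≥ d n * (1 - ℓ n)`, `ℓ` summable: for `N` with tail sum `≤ 1/2`,
`d (N + k) ≥ d N * (1 - ∑ ℓ) ≥ d N / 2`.

`caseA`: take `g0` from `exists_exact_chain`, `g i = pi^[i] g0`, `y i = T^[i] a`, `a = g0.1`.
By `exact_ends`, `y i` is an end of `g i` and `T^[i]` maps the two ends of `g0` to the two ends of
`g i`.  `y` is injective (`not_periodic_left`, `iter_inj`); the `g i` are distinct (else `a` is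
periodic), so `len (g i)` is summable (`sum_len_le`).  All `r (g i) = 1`, so
`∏ i<n |sl (g i).1| = len (g n) / len g0` (`prod_sl_chain`).  By `ret_left` there are `n ≥ 1` with
`y n ∈ [a-ε, a)` for every `ε`.  Fix `n0 ≥ 1` with `y n0 < a`, and for `n ≥ n0` let `p n` be the
largest `y i < a` with `1 ≤ i ≤ n`, `d n = a - p n`.  If `p (n+1) ≠ p n` then
`p n < y (n+1) < a`; apply `T1lo` (slopes from `slopeAt_gap`) to `y 0, ..., y (n+1)` and `rho_cmp`
with `L = p n`, `R = g0.2`, `θ₁ = (y (n+1) - p n)/(a - p n)`, `θ₂ = 1` to get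
`d n - d (n+1) ≤ d n * C * len (g (n+1)) / len g0`.  Then `seq_W` contradicts `inf d = 0`. -/

lemma f3_below (f : ℕ → ℝ) (a : ℝ) (N : ℕ) : ∃ t < a, ∀ i < N, f i < a → f i < t := by
  induction N with
  | zero => exact ⟨a - 1, by linarith, fun i hi => absurd hi (Nat.not_lt_zero i)⟩
  | succ N ih =>
    obtain ⟨t, ht, h⟩ := ih
    by_cases hN : f N < a
    · obtain ⟨t', h1, h2⟩ := exists_between (max_lt ht hN)
      refine ⟨t', h2, fun i hi hf => ?_⟩
      rcases (Nat.lt_succ_iff.1 hi).eq_or_lt with rfl | hi'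
      · exact (le_max_right _ _).trans_lt h1
      · exact (h i hi' hf).trans ((le_max_left _ _).trans_lt h1)
    · refine ⟨t, ht, fun i hi hf => ?_⟩
      rcases (Nat.lt_succ_iff.1 hi).eq_or_lt with rfl | hi'
      · exact absurd hf hN
      · exact h i hi' hf

namespace Sys

variable (S : Sys)

lemma not_periodic_left (hfin : {g | g ∈ Gap S.P.K ∧ S.Long g}.Finite) {g0 : ℝ × ℝ}
    (hg0 : g0 ∈ Gap S.P.K) (p : ℕ) (hp : 1 ≤ p) : S.P.T^[p] g0.1 ≠ g0.1 := by
  intro hper
  obtain ⟨t0, ht0, h0⟩ := f3_below (fun i => S.P.T^[i] g0.1) g0.1 p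
  obtain ⟨w, n, -, hw, hn, hinj, hK, hmap⟩ := S.ret_left hfin hg0 (sub_pos.2 ht0)
  have hFa : S.P.T^[n] g0.1 = g0.1 := by
    obtain ⟨h1, h2⟩ := hmap ⟨hw.le, le_rfl⟩
    have e : S.P.T^[n % p] g0.1 = S.P.T^[n] g0.1 :=
      Function.IsPeriodicPt.iterate_mod_apply (f := S.P.T) hper n
    by_contra hne
    have := h0 (n % p) (Nat.mod_lt _ hp) (by simpa only [e] using lt_of_le_of_ne h2 hne)
    simp only [e] at this
    linarith
  have hc : ContinuousOn S.P.T^[n] (Icc w g0.1) := (S.P.cont.iterate n).continuousOn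
  have hm : StrictMonoOn S.P.T^[n] (Icc w g0.1) :=
    hc.strictMonoOn_of_injOn_Icc hw.le (by rw [hFa]; exact (hmap ⟨le_rfl, hw.le⟩).2) hinj
  by_cases hk : ∃ k, S.P.x k ∈ Icc w g0.1 ∧ S.P.x k ≤ S.P.T^[n] (S.P.x k)
  · obtain ⟨k, hk1, hk2⟩ := hk
    have e : ∀ j, S.P.x (k + (j + 1) * n) = S.P.T^[n] (S.P.x (k + j * n)) := fun j => by
      rw [S.P.x_iter, add_mul, one_mul, add_assoc]
    have key : ∀ j, S.P.x (k + j * n) ∈ Icc w g0.1 ∧
        S.P.x (k + j * n) ≤ S.P.T^[n] (S.P.x (k + j * n)) := by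
      intro j
      induction j with
      | zero => simpa using ⟨hk1, hk2⟩
      | succ j ih =>
        have h1 : S.P.T^[n] (S.P.x (k + j * n)) ∈ Icc w g0.1 := ⟨ih.1.1.trans ih.2, (hmap ih.1).2⟩
        rw [e]
        exact ⟨h1, hm.monotoneOn ih.1 h1 ih.2⟩
    refine S.P.noconv k n hn _ (tendsto_atTop_ciSup (monotone_nat_of_le_succ fun j => ?_)
      ⟨g0.1, ?_⟩)
    · rw [e]
      exact (key j).2
    · rintro _ ⟨j, rfl⟩
      exact (key j).1.2
  push Not at hk
  have hFw : S.P.T^[n] w < g0.1 := by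
    have := hm ⟨le_rfl, hw.le⟩ ⟨hw.le, le_rfl⟩ hw
    rwa [hFa] at this
  obtain ⟨t, ht, h1⟩ := f3_below S.P.x g0.1 n
  have key : ∀ l, max t (S.P.T^[n] w) < S.P.x l → ¬ S.P.x l < g0.1 := by
    intro l
    induction l using Nat.strong_induction_on with
    | _ l ih =>
      intro hl hl'
      rcases lt_or_ge l n with h | h
      · exact absurd (h1 l h hl') (not_lt.2 ((le_max_left _ _).trans hl.le))
      obtain ⟨y, hy, e⟩ := intermediate_value_Icc hw.le hc
        (show S.P.x l ∈ Icc _ _ from ⟨(le_max_right _ _).trans hl.le, by rw [hFa]; exact hl'.le⟩)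
      have e' : S.P.T^[n] (S.P.x (l - n)) = S.P.x l := by rw [S.P.x_iter, Nat.sub_add_cancel h]
      obtain rfl : y = S.P.x (l - n) :=
        S.P.iter_inj n (hK y hy (e ▸ S.P.x_mem l)) (S.P.x_mem _) (e.trans e'.symm)
      have h2 := hk _ hy
      refine ih (l - n) (by omega) (hl.trans (e ▸ h2)) (lt_of_le_of_ne hy.2 fun h3 => ?_)
      rw [h3, hFa] at h2
      exact lt_irrefl _ h2
  obtain ⟨l, -, h2, h3⟩ := S.P.acc_left hg0 (sub_pos.2 (max_lt ht hFw)) 0
  exact key l (by linarith) h3

end Sys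

end Pool.Agent.MP_8df504_an.C
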