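import Pool.Agent.MP_8df504_an.C.AC

set_option autoImplicit false

namespace Pool.Agent.MP_8df504_an.C

open Set Filter Topology MeasureTheory

/-! Finitely many values on `Lam`.

`finite_support`: the atoms have mass `≥ δ`, so form a finite set `F`
(`Measure.finite_const_le_meas_of_disjoint_iUnion` or a direct count).  If `κ Fᶜ ≠ 0`, let
`t = sInf {t | δ ≤ κ (Fᶜ ∩ Iic t)}`; continuity from above and below give `δ ≤ κ (Fᶜ ∩ Iic t)` and
`κ (Fᶜ ∩ Iio t) = 0`, so `t ∈ Fᶜ` is an atom: contradiction.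
`fin_Lam`: for measurable `R'` a.e. equal to `R`, `L* x = limsup (ergAvg T R' x)` is measurable
(`Measurable.limsup`, `avg_meas`) and `L* (T x) = L* x` (`avg_diff`, `avg_mem`).  Apply
`finite_support` to `κ = map L* (volume.restrict Lam)` with `gap_delta`; `null_visit`,
`avg_congr`. -/

lemma finite_support (κ : Measure ℝ) [IsFiniteMeasure κ] {δ : ENNReal} (hδ : 0 < δ)
    (h : ∀ V, MeasurableSet V → κ V = 0 ∨ δ ≤ κ V) : ∃ F : Finset ℝ, κ (F : Set ℝ)ᶜ = 0 := by
  have hF : {t : ℝ | δ ≤ κ {t}}.Finite :=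
    Measure.finite_const_le_meas_of_disjoint_iUnion κ hδ (As := fun t : ℝ => {t})
      (fun t => measurableSet_singleton t) (fun _ _ hne => disjoint_singleton.2 hne)
      (measure_ne_top _ _)
  refine ⟨hF.toFinset, measure_null_of_locally_null _ fun x hx => ?_⟩
  have h1 : κ {x} < δ := by simpa using hx
  obtain ⟨U, hU, ho, h2⟩ := Set.exists_isOpen_lt_of_lt _ _ h1
  exact ⟨U, mem_nhdsWithin_of_mem_nhds (ho.mem_nhds (hU rfl)),
    (h U ho.measurableSet).resolve_right (not_le.2 h2)⟩

lemma BL.fin_Lam (D : BL) (h : D.Expd) {R : Set ℝ} (hR : NullMeasurableSet R volume) :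
    ∃ F : Finset ℝ, ∀ᵐ p ∂(volume.restrict D.Lam),
      ∀ L, Tendsto (ergAvg D.T R p) atTop (𝓝 L) → L ∈ F := by
  obtain ⟨δ, hδ, hg⟩ := D.gap_delta h
  have hs : D.Lam ⊆ Icc 0 1 := D.lam_sub.trans Ioo_subset_Icc_self
  have : IsFiniteMeasure (volume.restrict D.Lam) :=
    isFiniteMeasure_restrict.2 ((measure_mono hs).trans_lt measure_Icc_lt_top).ne
  obtain ⟨R', -, hR', he⟩ := hR.exists_measurable_superset_ae_eq
  let f : ℝ → ℝ := fun x => limUnder atTop fun N => ergAvg D.T R' x N
  have hf : Measurable f := (StronglyMeasurable.limUnder (l := atTop)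
    (f := fun N x => ergAvg D.T R' x N)
    fun N => (avg_meas D.cont.measurable hR' N).stronglyMeasurable).measurable
  have hi : ∀ x, f (D.T x) = f x := fun x =>
    congrArg Classical.epsilon (funext fun L => propext (avg_shift D.T R' x 1 L))
  obtain ⟨F, hF⟩ := finite_support ((volume.restrict D.Lam).map f) hδ fun V hV => by
    rw [Measure.map_apply hf hV, Measure.restrict_apply' D.lam_meas, inter_comm]
    exact hg _ fun x hx => by rwa [mem_preimage, hi]
  rw [Measure.map_apply hf F.measurableSet.compl] at hF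
  have h1 : ∀ᵐ p ∂(volume.restrict D.Lam), f p ∈ (F : Set ℝ) := hF
  refine ⟨F, ?_⟩
  filter_upwards [h1, D.null_visit h (ae_iff.1 he.mem_iff)] with p hp hq L hL
  rw [avg_congr (T' := D.T) (R' := R') (x' := p) fun i _ => (not_not.1 (hq i)).symm] at hL
  rwa [show f p = L from hL.limUnder_eq] at hp

end Pool.Agent.MP_8df504_an.C
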