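import Pool.Agent.MP_8df504_an.C.Avg

set_option autoImplicit false

namespace Pool.Agent.MP_8df504_an.C

open Set Filter Topology MeasureTheory

/-! Counterexamples from a wandering interval or a flat piece.

`neg1`: `R = ⋃ i ∈ S, T^[i] '' Ioo α β` (images of intervals are order-connected, hence measurable).
`neg1_flat`: the orbit of `u` is injective, `R = {T^[i] u | i ∈ S}` is countable.
`neg2`: `U k = Ioo (α + (β-α)/(k+1)) (α + (β-α)/k)`, `k ≥ 1`, `R = ⋃ k≥1, ⋃ i (k ∣ i), T^[i] '' U k`.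
For `y ∈ U k` the limit is `1/k` (`avg_dvd`); for `y ∈ Ioo α β` in no `U k` it is `0`; if
`T^[l] p = T^[i] y` with `y ∈ Ioo α β` use `avg_shift` twice; otherwise the orbit of `p` misses `R`.
Choose `L`.  A finite `F` misses some `1/k` and `U k` has positive measure. -/

lemma negq_ae {P : ℝ → Prop} {a b : ℝ} (h0 : 0 ≤ a) (hab : a < b) (h1 : b ≤ 1)
    (h : ∀ᵐ p ∂(volume.restrict (Icc (0 : ℝ) 1)), P p) : ∃ y ∈ Ioo a b, P y :=
  Measure.exists_mem_of_measure_ne_zero_of_ae (μ := volume) (by simpa using hab)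
    (ae_restrict_of_ae_restrict_of_subset (Ioo_subset_Icc_self.trans (Icc_subset_Icc h0 h1)) h)

lemma negq_mem {T : ℝ → ℝ} (hm : ∀ x, T x ∈ Icc (0 : ℝ) 1) {y : ℝ} (hy : y ∈ Icc (0 : ℝ) 1) :
    ∀ i, T^[i] y ∈ Icc (0 : ℝ) 1
  | 0 => hy
  | i + 1 => by rw [Function.iterate_succ_apply']; exact hm _

lemma negq_meas {T : ℝ → ℝ} (hT : Continuous T) (i : ℕ) (a b : ℝ) :
    MeasurableSet (T^[i] '' Ioo a b) :=
  (isPreconnected_Ioo.image _ (hT.iterate i).continuousOn).ordConnected.measurableSet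

lemma neg1 {T : ℝ → ℝ} (hT : Continuous T) (hm : ∀ x, T x ∈ Icc (0 : ℝ) 1) {α β : ℝ}
    (h0 : 0 ≤ α) (hαβ : α < β) (h1 : β ≤ 1)
    (hw : ∀ (i j : ℕ), ∀ y ∈ Ioo α β, ∀ y' ∈ Ioo α β, T^[i] y = T^[j] y' → i = j ∧ y = y') :
    ∃ R : Set ℝ, MeasurableSet R ∧ R ⊆ Icc 0 1 ∧
      ¬ ∀ᵐ p ∂(volume.restrict (Icc (0 : ℝ) 1)), ∃ L, Tendsto (ergAvg T R p) atTop (𝓝 L) := by
  obtain ⟨S, hS⟩ := exists_osc
  refine ⟨⋃ i ∈ S, T^[i] '' Ioo α β, MeasurableSet.biUnion S.to_countable fun i _ =>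
    negq_meas hT i α β, iUnion₂_subset fun i _ => ?_, fun h => ?_⟩
  · rintro _ ⟨y, hy, rfl⟩
    exact negq_mem hm ⟨h0.trans hy.1.le, hy.2.le.trans h1⟩ i
  obtain ⟨y, hy, hL⟩ := negq_ae h0 hαβ h1 h
  revert hL
  refine hS T _ y fun i _ => ⟨fun hi => ?_, fun hi => mem_biUnion hi ⟨y, hy, rfl⟩⟩
  obtain ⟨j, hj, y', hy', e⟩ := mem_iUnion₂.1 hi
  exact (hw j i y' hy' y hy e).1 ▸ hj

lemma neg1_flat {T : ℝ → ℝ} (hm : ∀ x, T x ∈ Icc (0 : ℝ) 1) (h : ¬ FlatEvPer T) :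
    ∃ R : Set ℝ, MeasurableSet R ∧ R ⊆ Icc 0 1 ∧
      ¬ ∀ᵐ p ∂(volume.restrict (Icc (0 : ℝ) 1)), ∃ L, Tendsto (ergAvg T R p) atTop (𝓝 L) := by
  obtain ⟨S, hS⟩ := exists_osc
  simp only [FlatEvPer, not_forall, not_exists, not_and] at h
  obtain ⟨u, v, h0, huv, h1, hc, hn⟩ := h
  have inj : Function.Injective fun i => T^[i] u := by
    refine Function.Injective.of_lt_imp_ne fun i j hij e => hn i (j - i) (by omega) ?_
    rw [Nat.add_sub_cancel' hij.le]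
    exact e.symm
  refine ⟨(fun i => T^[i] u) '' S, (S.to_countable.image _).measurableSet, ?_, fun h => ?_⟩
  · rintro _ ⟨i, -, rfl⟩
    exact negq_mem hm ⟨h0, huv.le.trans h1⟩ i
  obtain ⟨y, hy, hL⟩ := negq_ae h0 huv h1 h
  refine hS T _ y (fun i hi => ?_) hL
  obtain ⟨i, rfl⟩ := Nat.exists_eq_add_of_le' hi
  rw [Function.iterate_succ_apply, hc y (Ioo_subset_Icc_self hy), ← Function.iterate_succ_apply]
  exact inj.mem_set_image

lemma neg2 {T : ℝ → ℝ} (hT : Continuous T) (hm : ∀ x, T x ∈ Icc (0 : ℝ) 1) {α β : ℝ}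
    (h0 : 0 ≤ α) (hαβ : α < β) (h1 : β ≤ 1)
    (hw : ∀ (i j : ℕ), ∀ y ∈ Ioo α β, ∀ y' ∈ Ioo α β, T^[i] y = T^[j] y' → i = j ∧ y = y') :
    ∃ (R : Set ℝ) (L : ℝ → ℝ), MeasurableSet R ∧ R ⊆ Icc 0 1 ∧
      (∀ p, Tendsto (ergAvg T R p) atTop (𝓝 (L p))) ∧
      ∀ F : Finset ℝ, ¬ ∀ᵐ p ∂(volume.restrict (Icc (0 : ℝ) 1)), L p ∈ F := by
  set a : ℕ → ℝ := fun k => α + (β - α) / (k + 1) with ha
  have hd := sub_pos.2 hαβ
  have anti : StrictAnti a := strictAnti_nat_of_succ_lt fun k => by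
    simp only [ha, add_lt_add_iff_left]
    exact div_lt_div_of_pos_left hd (by positivity) (by push_cast; linarith)
  have lo : ∀ k, α < a k := fun k => lt_add_of_pos_right _ (by positivity)
  have hi : ∀ k, a k ≤ β := fun k => (anti.antitone (Nat.zero_le k)).trans_eq (by simp [ha])
  have sub : ∀ k, Ioo (a (k + 1)) (a k) ⊆ Ioo α β := fun k => Ioo_subset_Ioo (lo _).le (hi k)
  set R : Set ℝ := ⋃ k : ℕ, ⋃ i ∈ {i | k + 1 ∣ i}, T^[i] '' Ioo (a (k + 1)) (a k) with hR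
  have mem : ∀ y ∈ Ioo α β, ∀ i, T^[i] y ∈ R ↔ ∃ k, k + 1 ∣ i ∧ y ∈ Ioo (a (k + 1)) (a k) := by
    refine fun y hy i => ⟨fun h => ?_, fun ⟨k, h, h'⟩ =>
      mem_iUnion.2 ⟨k, mem_biUnion h ⟨y, h', rfl⟩⟩⟩
    obtain ⟨k, h⟩ := mem_iUnion.1 h
    obtain ⟨j, hj, y', hy', e⟩ := mem_iUnion₂.1 h
    obtain ⟨rfl, rfl⟩ := hw j i y' (sub k hy') y hy e
    exact ⟨k, hj, hy'⟩
  have lim : ∀ k : ℕ, ∀ y ∈ Ioo (a (k + 1)) (a k),
      Tendsto (ergAvg T R y) atTop (𝓝 (1 / ((k + 1 : ℕ) : ℝ))) := fun k y hy => by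
    refine avg_dvd (by omega) fun i _ => (mem y (sub k hy) i).trans
      ⟨fun ⟨l, h, h'⟩ => ?_, fun h => ⟨k, h, hy⟩⟩
    have e1 := anti.lt_iff_gt.1 (hy.1.trans h'.2)
    have e2 := anti.lt_iff_gt.1 (h'.1.trans hy.2)
    rwa [show k = l by omega]
  have ex0 : ∀ y ∈ Ioo α β, ∃ L, Tendsto (ergAvg T R y) atTop (𝓝 L) := fun y hy => by
    by_cases h : ∃ k, y ∈ Ioo (a (k + 1)) (a k)
    · exact ⟨_, lim _ y h.choose_spec⟩
    · exact ⟨0, avg_zero fun i _ hi => h (((mem y hy i).1 hi).imp fun _ h => h.2)⟩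
  have ex : ∀ p, ∃ L, Tendsto (ergAvg T R p) atTop (𝓝 L) := fun p => by
    by_cases h : ∃ l, T^[l] p ∈ R
    · obtain ⟨l, h⟩ := h
      obtain ⟨k, h⟩ := mem_iUnion.1 h
      obtain ⟨j, -, y, hy, e⟩ := mem_iUnion₂.1 h
      obtain ⟨L, hL⟩ := ex0 y (sub k hy)
      exact ⟨L, (avg_shift T R p l L).1 (e ▸ (avg_shift T R y j L).2 hL)⟩
    · exact ⟨0, avg_zero fun i _ hi => h ⟨i, hi⟩⟩
  choose L hL using ex
  refine ⟨R, L, MeasurableSet.iUnion fun k => MeasurableSet.biUnion (to_countable _) fun i _ =>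
    negq_meas hT i _ _, iUnion_subset fun k => iUnion₂_subset fun i _ => ?_, hL, fun F h => ?_⟩
  · rintro _ ⟨y, hy, rfl⟩
    exact negq_mem hm ⟨h0.trans (sub k hy).1.le, (sub k hy).2.le.trans h1⟩ i
  have inj : Function.Injective fun k : ℕ => 1 / ((k + 1 : ℕ) : ℝ) := fun k l e => by
    simpa using e
  obtain ⟨k, hk⟩ := Infinite.exists_notMem_finset (F.preimage _ inj.injOn)
  obtain ⟨y, hy, hF⟩ := negq_ae (h0.trans (lo _).le) (anti k.lt_succ_self) ((hi k).trans h1) h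
  rw [tendsto_nhds_unique (hL y) (lim k y hy)] at hF
  exact hk (Finset.mem_preimage.2 hF)

end Pool.Agent.MP_8df504_an.C
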