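import Pool.Agent.MP_8df504_an.C.BLBase

set_option autoImplicit false

namespace Pool.Agent.MP_8df504_an.C

open Set Filter Topology MeasureTheory

/-! A common period on `Neu`; local affinity of iterates; wandering intervals.

`iter_aff_of_noB`: induct on `n`; near a point of `[0,1]` outside `B`, `T` is affine
(`exists_piece`).
`neu_period`: let `P` be a common period of all periodic points of `B`.  Let `x ∈ Neu`,
`T^[p] = id` near `x`, `[α,β]` the largest segment around `x` on which `T^[p] = id` (`⊆ [0,1]`,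
closed).  The orbit of `α` meets `B`: otherwise `T^[p]` is affine near `α` and the identity on the
right of `α`, so on a neighbourhood.  As `α` is periodic it is on the orbit of a periodic point of
`B`, so `T^[P] α = α`, and `T^[P] β = β`.  `f = T^[P]` is continuous and injective on `[α,β]`
(`T^[p P] = id` there), so increasing, maps `[α,β]` to itself and `f^[p] = id`; if `x < f x` then
`f^[k] x` increases strictly: contradiction; same for `f x < x`.

`germ_aff`: one-sided version: for `z ∈ [0,1]` and a side there is a small segment at `z` that is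
break-free or outside `[0,1]`; induct on `n`, shrinking `q''` towards `q`; images of the segment are
in `[0,1]`.
`wander`: with `q, q', p, σ` from `HasAttr`, take `q''` from `germ_aff` with `n = p`.  `T^[p]` maps
`uIcc q q''` into itself, so `T^[i] y = T^[i] q + κ i (y - q)` for all `i` with
`κ (i + p) = σ κ i`, `κ i ≠ 0` (`κ p = σ`, and `T^[p]` is injective on the segment).  Shrink `q''` so
that `|κ i| |q'' - q|` is less than half the distance between different points of the finite orbit
of `q`.  The set of the ratios `κ j / κ i` has no accumulation point in `(0,∞)` (they are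
`σ^a * κ j0 / κ i0`, `a ∈ ℤ`, `i0, j0 < p`), so for small `η` a ratio in `(1-η, 1/(1-η))` is `1`.
`U = {q + t (q'' - q) | 1 - η < t < 1}`.  If `T^[i] y = T^[j] y'` then `T^[i] q = T^[j] q`,
`κ i = κ j`, `y = y'`; if `i < j` then `T^[i] = T^[j]` on the segment, so `κ (i + l) = κ (j + l)`
for all `l`, and `κ i = κ (i + p (j-i)) = σ^(j-i) κ i`: contradiction. -/

lemma np_fix {f : ℝ → ℝ} {α β x : ℝ} {p : ℕ} (hp : 1 ≤ p) (hf : Continuous f) (ha : f α = α)
    (hb : f β = β) (hx : x ∈ Icc α β) (h : ∀ y ∈ Icc α β, f^[p] y = y) : f x = x := by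
  have hab : α ≤ β := hx.1.trans hx.2
  obtain ⟨q, rfl⟩ : ∃ q, p = q + 1 := ⟨p - 1, by omega⟩
  have hm : StrictMonoOn f (Icc α β) :=
    hf.continuousOn.strictMonoOn_of_injOn_Icc hab (by rwa [ha, hb]) fun y hy z hz e => by
      rw [← h y hy, ← h z hz, Function.iterate_succ_apply, Function.iterate_succ_apply, e]
  have hM : MapsTo f (Icc α β) (Icc α β) := fun y hy =>
    ⟨ha ▸ hm.monotoneOn (left_mem_Icc.2 hab) hy hy.1, hb ▸ hm.monotoneOn hy (right_mem_Icc.2 hab) hy.2⟩
  rcases lt_trichotomy (f x) x with c | c | c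
  · have : ∀ k, f^[k + 1] x < x := fun k => by
      induction k with
      | zero => exact c
      | succ k ih =>
        rw [Function.iterate_succ_apply']
        exact (hm (hM.iterate _ hx) hx ih).trans c
    exact absurd (h x hx) (this q).ne
  · exact c
  · have : ∀ k, x < f^[k + 1] x := fun k => by
      induction k with
      | zero => exact c
      | succ k ih =>
        rw [Function.iterate_succ_apply']
        exact c.trans (hm hx (hM.iterate _ hx) ih)
    exact absurd (h x hx) (this q).ne'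

namespace BL

variable (D : BL)

lemma iter_aff_of_noB {z : ℝ} (hz : z ∈ Icc (0 : ℝ) 1) (n : ℕ) (h : ∀ i < n, D.T^[i] z ∉ D.B) :
    ∃ κ : ℝ, ∀ᶠ y in 𝓝 z, D.T^[n] y = D.T^[n] z + κ * (y - z) := by
  induction n with
  | zero => exact ⟨1, Eventually.of_forall fun y => by simp⟩
  | succ n ih =>
    obtain ⟨κ, hκ⟩ := ih fun i hi => h i (Nat.lt_succ_of_lt hi)
    have h1 : D.T^[n] z ∈ Icc (0 : ℝ) 1 := by
      cases n with
      | zero => exact hz
      | succ n =>
        rw [Function.iterate_succ_apply']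
        exact D.maps _
    obtain ⟨j, hj⟩ := D.exists_piece h1 (h n n.lt_succ_self)
    refine ⟨D.c j * κ, ?_⟩
    filter_upwards [hκ, (D.cont.iterate n).continuousAt.eventually (isOpen_Ioo.mem_nhds hj)]
      with y h2 h3
    rw [Function.iterate_succ_apply', Function.iterate_succ_apply',
      D.aff j _ (Ioo_subset_Icc_self h3), D.aff j _ (Ioo_subset_Icc_self hj), h2]
    ring

lemma np_mem {p : ℕ} (hp : 1 ≤ p) {y : ℝ} (h : D.T^[p] y = y) : y ∈ Icc (0 : ℝ) 1 := by
  obtain ⟨q, rfl⟩ : ∃ q, p = q + 1 := ⟨p - 1, by omega⟩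
  rw [← h, Function.iterate_succ_apply']
  exact D.maps _

lemma np_end {p : ℕ} (hp : 1 ≤ p) {z : ℝ} (h1 : z ∉ interior {y | D.T^[p] y = y})
    (h2 : ∃ᶠ y in 𝓝[≠] z, D.T^[p] y = y) :
    D.T^[p] z = z ∧ D.T^[(D.B.sup (Function.minimalPeriod D.T)).factorial] z = z := by
  have hz : D.T^[p] z = z :=
    (isClosed_eq (D.cont.iterate p) continuous_id).mem_of_frequently_of_tendsto
      (h2.filter_mono nhdsWithin_le_nhds) tendsto_id
  refine ⟨hz, ?_⟩
  have hper : z ∈ Function.periodicPts D.T := ⟨p, hp, hz⟩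
  by_cases hB : ∀ i < p, D.T^[i] z ∉ D.B
  · obtain ⟨κ, hκ⟩ := D.iter_aff_of_noB (D.np_mem hp hz) p hB
    obtain ⟨y, ⟨e1, e2⟩, e3⟩ := ((h2.and_eventually (hκ.filter_mono nhdsWithin_le_nhds)).and_eventually
      self_mem_nhdsWithin).exists
    have e4 : κ = 1 := by
      have e5 : y - z ≠ 0 := sub_ne_zero.2 e3
      refine mul_right_cancel₀ e5 ?_
      rw [e1, hz] at e2
      linarith
    refine absurd (mem_interior_iff_mem_nhds.2 (hκ.mono fun w hw => ?_)) h1
    rw [hw, hz, e4]
    ring
  · push Not at hB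
    obtain ⟨i, -, hi⟩ := hB
    have e1 := Finset.le_sup (f := Function.minimalPeriod D.T) hi
    rw [Function.minimalPeriod_apply_iterate hper] at e1
    exact Function.isPeriodicPt_iff_minimalPeriod_dvd.2
      (Nat.dvd_factorial (Function.minimalPeriod_pos_of_mem_periodicPts hper) e1)

lemma neu_period : ∃ P : ℕ, 1 ≤ P ∧ ∀ x ∈ D.Neu, D.T^[P] x = x := by
  refine ⟨_, Nat.factorial_pos (D.B.sup (Function.minimalPeriod D.T)), ?_⟩
  rintro x ⟨p, hp, hx⟩
  have hx' : x ∈ interior {y | D.T^[p] y = y} := mem_interior_iff_mem_nhds.2 hx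
  have h01 := D.np_mem hp hx.self_of_nhds
  have hout : ∀ y, y ∉ Icc (0 : ℝ) 1 → y ∉ interior {y | D.T^[p] y = y} := fun y hy h =>
    hy (D.np_mem hp (interior_subset (s := {y | D.T^[p] y = y}) h))
  have hcl := (isOpen_interior (s := {y | D.T^[p] y = y})).isClosed_compl
  obtain ⟨α, ⟨a1, a2⟩, a3⟩ := (isCompact_Icc.inter_right hcl).exists_isGreatest
    (s := Icc (-1) x ∩ (interior {y | D.T^[p] y = y})ᶜ)
    ⟨-1, ⟨le_rfl, by linarith [h01.1]⟩, hout _ fun h => by linarith [h.1]⟩
  obtain ⟨β, ⟨b1, b2⟩, b3⟩ := (isCompact_Icc.inter_right hcl).exists_isLeast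
    (s := Icc x 2 ∩ (interior {y | D.T^[p] y = y})ᶜ)
    ⟨2, ⟨by linarith [h01.2], le_rfl⟩, hout _ fun h => by linarith [h.2]⟩
  have a4 : α < x := lt_of_le_of_ne a1.2 fun e => a2 (e ▸ hx')
  have b4 : x < β := lt_of_le_of_ne b1.1 fun e => b2 (e ▸ hx')
  have hin : ∀ y ∈ Ioo α β, D.T^[p] y = y := fun y hy => by
    refine interior_subset (s := {y | D.T^[p] y = y}) (by_contra fun h => ?_)
    rcases le_total y x with c | c
    · exact absurd (a3 ⟨⟨a1.1.trans hy.1.le, c⟩, h⟩) hy.1.not_ge
    · exact absurd (b3 ⟨⟨c, hy.2.le.trans b1.2⟩, h⟩) hy.2.not_ge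
  obtain ⟨a5, a6⟩ := D.np_end hp a2 ((Eventually.frequently (f := 𝓝[>] α)
    (mem_of_superset (Ioo_mem_nhdsGT (a4.trans b4)) hin)).filter_mono (nhdsGT_le_nhdsNE α))
  obtain ⟨b5, b6⟩ := D.np_end hp b2 ((Eventually.frequently (f := 𝓝[<] β)
    (mem_of_superset (Ioo_mem_nhdsLT (a4.trans b4)) hin)).filter_mono (nhdsLT_le_nhdsNE β))
  refine np_fix hp (D.cont.iterate _) a6 b6 ⟨a4.le, b4.le⟩ fun y hy => ?_
  rw [← Function.iterate_mul, mul_comm, Function.iterate_mul]
  refine Function.iterate_fixed ?_ _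
  rcases hy.1.eq_or_lt with c | c
  · rwa [← c]
  · rcases hy.2.eq_or_lt with c' | c'
    · rwa [c']
    · exact hin y ⟨c, c'⟩

end BL

end Pool.Agent.MP_8df504_an.C
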