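import Pool.Agent.MP_8df504_an.C.FV
import Pool.Agent.MP_8df504_an.C.NP

set_option autoImplicit false

namespace Pool.Agent.MP_8df504_an.C

open Set Filter Topology MeasureTheory

/-! The positive halves.

`trichotomy`: follow the orbit; if it never meets `Neu`, `B` or a flat piece, the point is in `Lam`
(`exists_piece`).  `ae_trichotomy`: the sets `N 0 = B`,
`N (i+1) = ⋃ j (c j ≠ 0), Piece j ∩ T ⁻¹' N i` are finite, so their union is null; a point outside
whose orbit meets `B` meets a flat piece before.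
`pos1`: on `Lam` use `conv_Lam` (`ae_restrict_iff'`, `lam_meas`); `Neu`: `neu_period`,
`avg_periodic`, `avg_shift`; flat piece `j`: `T (T^[i] p) = T (a j.castSucc)` and `a j.castSucc` is
eventually periodic.
`pos2`: `F` = values from `fin_Lam`, the numbers `k / P`, and for each `z` in the finite set
`B ∪ {d j}` the limit of `ergAvg T R z` when it exists (`limUnder`, `tendsto_nhds_unique`). -/

namespace BL

variable (D : BL)

lemma posq_iter {p : ℝ} (hp : p ∈ Icc (0 : ℝ) 1) (i : ℕ) : D.T^[i] p ∈ Icc (0 : ℝ) 1 := by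
  cases i with
  | zero => exact hp
  | succ i => rw [Function.iterate_succ_apply']; exact D.maps _

/-- points that reach `B` at time `i` through pieces of nonzero slope -/
def posq_S (i : ℕ) : Set ℝ :=
  {p | D.T^[i] p ∈ D.B ∧ ∀ k < i, ∃ j, D.c j ≠ 0 ∧ D.T^[k] p ∈ D.Piece j}

lemma posq_S_finite (i : ℕ) : (D.posq_S i).Finite := by
  induction i with
  | zero => exact D.B.finite_toSet.subset fun p hp => hp.1
  | succ i ih =>
    have h1 : ∀ j : Fin D.m, {p | D.c j ≠ 0 ∧ p ∈ D.Piece j ∧ D.T p ∈ D.posq_S i}.Finite := by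
      intro j
      refine Set.Finite.of_finite_image (f := D.T) (ih.subset ?_) ?_
      · rintro _ ⟨p, hp, rfl⟩
        exact hp.2.2
      · intro x hx y hy hxy
        rw [D.aff j x (Ioo_subset_Icc_self hx.2.1), D.aff j y (Ioo_subset_Icc_self hy.2.1)] at hxy
        exact mul_left_cancel₀ hx.1 (add_right_cancel hxy)
    refine (Set.finite_iUnion h1).subset fun p hp => ?_
    obtain ⟨j, hj, hpj⟩ := hp.2 0 (Nat.succ_pos i)
    refine mem_iUnion.2 ⟨j, hj, hpj, ?_, fun k hk => ?_⟩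
    · exact hp.1
    · exact hp.2 (k + 1) (Nat.succ_lt_succ hk)

lemma trichotomy {p : ℝ} (hp : p ∈ Icc (0 : ℝ) 1) :
    p ∈ D.Lam ∨ (∃ i, D.T^[i] p ∈ D.Neu) ∨ (∃ i j, D.c j = 0 ∧ D.T^[i] p ∈ D.Piece j) ∨
      ∃ i, D.T^[i] p ∈ D.B := by
  by_contra hc
  simp only [not_or, not_exists, not_and] at hc
  obtain ⟨h1, h2, h3, h4⟩ := hc
  apply h1
  intro i
  refine ⟨h2 i, ?_⟩
  obtain ⟨j, hj⟩ := D.exists_piece (D.posq_iter hp i) (h4 i)
  exact ⟨j, fun h0 => h3 i j h0 hj, hj⟩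

lemma ae_trichotomy : ∀ᵐ p ∂(volume.restrict (Icc (0 : ℝ) 1)),
    p ∈ D.Lam ∨ (∃ i, D.T^[i] p ∈ D.Neu) ∨ (∃ i j, D.c j = 0 ∧ D.T^[i] p ∈ D.Piece j) := by
  have hfin : ∀ i : ℕ, (D.posq_S i).Finite := D.posq_S_finite
  have hnull : volume (⋃ i : ℕ, D.posq_S i) = 0 :=
    measure_iUnion_null fun i => (hfin i).measure_zero volume
  have h1 : ∀ᵐ p ∂(volume : Measure ℝ), p ∉ ⋃ i : ℕ, D.posq_S i :=
    measure_eq_zero_iff_ae_notMem.1 hnull
  filter_upwards [ae_restrict_of_ae h1, ae_restrict_mem measurableSet_Icc] with p hp1 hp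
  rcases D.trichotomy hp with h | h | h | h
  · exact Or.inl h
  · exact Or.inr (Or.inl h)
  · exact Or.inr (Or.inr h)
  · classical
    by_contra hc
    simp only [not_or, not_exists, not_and] at hc
    obtain ⟨_, _, h3⟩ := hc
    apply hp1
    refine mem_iUnion.2 ⟨Nat.find h, Nat.find_spec h, fun k hk => ?_⟩
    obtain ⟨j, hj⟩ := D.exists_piece (D.posq_iter hp k) (Nat.find_min h hk)
    exact ⟨j, fun h0 => h3 k j h0 hj, hj⟩

lemma pos1 (h : D.Expd) (hf : FlatEvPer D.T) {R : Set ℝ} (hR : NullMeasurableSet R volume) :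
    ∀ᵐ p ∂(volume.restrict (Icc (0 : ℝ) 1)), ∃ L, Tendsto (ergAvg D.T R p) atTop (𝓝 L) := by
  have h1 := (ae_restrict_iff' D.lam_meas).1 (D.conv_Lam h hR)
  obtain ⟨P, hP, hper⟩ := D.neu_period
  filter_upwards [ae_restrict_of_ae h1, D.ae_trichotomy] with p hp1 hp
  rcases hp with hp | ⟨i, hi⟩ | ⟨i, j, hj, hi⟩
  · exact hp1 hp
  · obtain ⟨k, _, hk⟩ := avg_periodic D.T R hP (hper _ hi)
    exact ⟨_, (avg_shift D.T R p i _).1 hk⟩
  · have hlt : D.a j.castSucc < D.a j.succ := D.mono Fin.castSucc_lt_succ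
    have hconst : ∀ y ∈ Icc (D.a j.castSucc) (D.a j.succ), D.T y = D.d j := by
      intro y hy
      rw [D.aff j y hy, hj]; ring
    have hu : D.T (D.a j.castSucc) = D.d j := hconst _ (left_mem_Icc.2 hlt.le)
    obtain ⟨n, Q, hQ, hn⟩ := hf _ _ (D.a_mem _).1 hlt (D.a_mem _).2
      (fun y hy => by rw [hconst y hy, hu])
    have hx : D.T (D.T^[i] p) = D.d j := hconst _ (Ioo_subset_Icc_self hi)
    have e1 : D.T^[n + 1 + i] p = D.T^[n + 1] (D.a j.castSucc) := by
      rw [Function.iterate_add_apply, Function.iterate_succ_apply, Function.iterate_succ_apply,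
        hx, hu]
    have e2 : D.T^[Q] (D.T^[n + 1 + i] p) = D.T^[n + 1 + i] p := by
      rw [e1, ← Function.iterate_add_apply, show Q + (n + 1) = (n + Q) + 1 by ring,
        Function.iterate_succ_apply', hn, Function.iterate_succ_apply']
    obtain ⟨k, _, hk⟩ := avg_periodic D.T R hQ e2
    exact ⟨_, (avg_shift D.T R p _ _).1 hk⟩

lemma pos2 (h : D.Expd) {R : Set ℝ} (hR : NullMeasurableSet R volume) :
    ∃ F : Finset ℝ, ∀ᵐ p ∂(volume.restrict (Icc (0 : ℝ) 1)),
      ∀ L, Tendsto (ergAvg D.T R p) atTop (𝓝 L) → L ∈ F := by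
  classical
  obtain ⟨F0, hF0⟩ := D.fin_Lam h hR
  have h1 := (ae_restrict_iff' D.lam_meas).1 hF0
  obtain ⟨P, hP, hper⟩ := D.neu_period
  refine ⟨F0 ∪ ((Finset.range (P + 1)).image (fun k : ℕ => (k : ℝ) / P) ∪
    Finset.univ.image (fun j : Fin D.m => limUnder atTop (ergAvg D.T R (D.d j)))), ?_⟩
  filter_upwards [ae_restrict_of_ae h1, D.ae_trichotomy] with p hp1 hp L hL
  rcases hp with hp | ⟨i, hi⟩ | ⟨i, j, hj, hi⟩
  · exact Finset.mem_union_left _ (hp1 hp L hL)
  · obtain ⟨k, hkP, hk⟩ := avg_periodic D.T R hP (hper _ hi)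
    have e := tendsto_nhds_unique hL ((avg_shift D.T R p i _).1 hk)
    refine Finset.mem_union_right _ (Finset.mem_union_left _ ?_)
    exact Finset.mem_image.2 ⟨k, Finset.mem_range.2 (Nat.lt_succ_of_le hkP), e.symm⟩
  · have hx : D.T^[i + 1] p = D.d j := by
      rw [Function.iterate_succ_apply', D.aff j _ (Ioo_subset_Icc_self hi), hj]; ring
    have h2 := (avg_shift D.T R p (i + 1) L).2 hL
    rw [hx] at h2
    refine Finset.mem_union_right _ (Finset.mem_union_right _ ?_)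
    exact Finset.mem_image.2 ⟨j, Finset.mem_univ _, h2.limUnder_eq⟩

end BL

end Pool.Agent.MP_8df504_an.C
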