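import Pool.Agent.MP_8df504_an.C.WU
import Pool.Agent.MP_8df504_an.C.EXP
import Pool.Agent.MP_8df504_an.C.PosQ
import Pool.Agent.MP_8df504_an.C.NegQ

set_option autoImplicit false

namespace Pool.Agent.MP_8df504_an.C

open Set Filter Topology MeasureTheory

/-! Assembly. -/

noncomputable def clamp (x : ℝ) : ℝ := max 0 (min x 1)

lemma clamp_mem (x : ℝ) : clamp x ∈ Icc (0 : ℝ) 1 :=
  ⟨le_max_left _ _, max_le zero_le_one (min_le_right _ _)⟩

lemma clamp_eq {x : ℝ} (hx : x ∈ Icc (0 : ℝ) 1) : clamp x = x := by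
  unfold clamp
  rw [min_eq_left hx.2, max_eq_right hx.1]

lemma clamp_cont : Continuous clamp := by
  unfold clamp
  fun_prop

lemma exists_BL {T : ℝ → ℝ} (h : IsBrokenLinear T) :
    ∃ D : BL, ∀ (i : ℕ), ∀ x ∈ Icc (0 : ℝ) 1, D.T^[i] x = T^[i] x := by
  obtain ⟨hc, hm, m, a, ha, h0, h1, haff⟩ := h
  choose c d hcd using haff
  refine ⟨⟨fun x => T (clamp x), hc.comp_continuous clamp_cont clamp_mem,
    fun x => hm (clamp_mem x), m, a, ha, h0, h1, c, d, fun j x hx => ?_⟩, ?_⟩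
  · have e : x ∈ Icc (0 : ℝ) 1 :=
      ⟨h0 ▸ (ha.monotone (Fin.zero_le _)).trans hx.1,
        h1 ▸ hx.2.trans (ha.monotone (Fin.le_last _))⟩
    show T (clamp x) = _
    rw [clamp_eq e]
    exact hcd j x hx
  · intro i
    induction i with
    | zero => intro x _; rfl
    | succ n ih =>
      intro x hx
      rw [Function.iterate_succ_apply, Function.iterate_succ_apply]
      show (fun x => T (clamp x))^[n] (T (clamp x)) = _
      rw [clamp_eq hx]
      exact ih _ (hm hx)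

section transfer

variable {T T' : ℝ → ℝ} (h : ∀ (i : ℕ), ∀ x ∈ Icc (0 : ℝ) 1, T'^[i] x = T^[i] x)
include h

lemma hasAttr_iff : HasAttr T' ↔ HasAttr T := by
  unfold HasAttr
  refine exists_congr fun p => and_congr_right fun _ => exists_congr fun q =>
    and_congr_right fun hq => exists_congr fun q' => and_congr_right fun hq' =>
    and_congr_right fun _ => exists_congr fun σ => and_congr_right fun _ =>
    and_congr_right fun _ => forall_congr' fun y => forall_congr' fun hy => ?_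
  rw [h p y (uIcc_subset_Icc hq hq' hy)]

lemma flatEvPer_iff : FlatEvPer T' ↔ FlatEvPer T := by
  unfold FlatEvPer
  refine forall_congr' fun u => forall_congr' fun v => forall_congr' fun hu =>
    forall_congr' fun huv => forall_congr' fun hv => ?_
  have hu' : u ∈ Icc (0 : ℝ) 1 := ⟨hu, huv.le.trans hv⟩
  have e : ∀ y ∈ Icc u v, T' y = T y := fun y hy => h 1 y ⟨hu.trans hy.1, hy.2.trans hv⟩
  refine imp_congr ?_ ?_
  · refine forall_congr' fun y => forall_congr' fun hy => ?_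
    rw [e y hy, e u ⟨le_rfl, huv.le⟩]
  · refine exists_congr fun i => exists_congr fun p => ?_
    rw [h _ u hu', h _ u hu']

lemma ergAvg_eq (R : Set ℝ) {p : ℝ} (hp : p ∈ Icc (0 : ℝ) 1) : ergAvg T' R p = ergAvg T R p :=
  avg_congr fun i _ => by rw [h i p hp]

lemma ae_avg_iff (R : Set ℝ) (Q : ℝ → (ℕ → ℝ) → Prop) :
    (∀ᵐ p ∂(volume.restrict (Icc (0 : ℝ) 1)), Q p (ergAvg T' R p)) ↔
      ∀ᵐ p ∂(volume.restrict (Icc (0 : ℝ) 1)), Q p (ergAvg T R p) := by
  refine Filter.eventually_congr ?_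
  filter_upwards [ae_restrict_mem measurableSet_Icc] with p hp
  rw [ergAvg_eq h R hp]

end transfer

theorem q1_class {T : ℝ → ℝ} (hT : IsBrokenLinear T) :
    (∀ R : Set ℝ, NullMeasurableSet R volume → R ⊆ Icc 0 1 →
      ∀ᵐ p ∂(volume.restrict (Icc (0 : ℝ) 1)), ∃ L, Tendsto (ergAvg T R p) atTop (𝓝 L)) ↔
    (¬ HasAttr T ∧ FlatEvPer T) := by
  obtain ⟨D, h⟩ := exists_BL hT
  rw [← hasAttr_iff h, ← flatEvPer_iff h]
  have key := fun R => ae_avg_iff h R (fun _ A => ∃ L, Tendsto A atTop (𝓝 L))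
  constructor
  · intro H
    constructor
    · intro hA
      obtain ⟨α, β, h0, hαβ, h1, hw⟩ := D.wander hA
      obtain ⟨R, hR, hs, hn⟩ := neg1 D.cont D.maps h0 hαβ h1 hw
      exact hn ((key R).2 (H R hR.nullMeasurableSet hs))
    · by_contra hF
      obtain ⟨R, hR, hs, hn⟩ := neg1_flat D.maps hF
      exact hn ((key R).2 (H R hR.nullMeasurableSet hs))
  · rintro ⟨hA, hF⟩ R hR _
    exact (key R).1 (D.pos1 (D.expd hA) hF hR)

theorem q2_class {T : ℝ → ℝ} (hT : IsBrokenLinear T) :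
    (∀ (R : Set ℝ) (L : ℝ → ℝ), NullMeasurableSet R volume → R ⊆ Icc 0 1 →
      (∀ᵐ p ∂(volume.restrict (Icc (0 : ℝ) 1)), Tendsto (ergAvg T R p) atTop (𝓝 (L p))) →
      ∃ F : Finset ℝ, ∀ᵐ p ∂(volume.restrict (Icc (0 : ℝ) 1)), L p ∈ F) ↔ ¬ HasAttr T := by
  obtain ⟨D, h⟩ := exists_BL hT
  rw [← hasAttr_iff h]
  constructor
  · intro H hA
    obtain ⟨α, β, h0, hαβ, h1, hw⟩ := D.wander hA
    obtain ⟨R, L, hR, hs, hL, hn⟩ := neg2 D.cont D.maps h0 hαβ h1 hw
    obtain ⟨F, hF⟩ := H R L hR.nullMeasurableSet hs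
      ((ae_avg_iff h R (fun p A => Tendsto A atTop (𝓝 (L p)))).1 (ae_of_all _ hL))
    exact hn F hF
  · intro hA R L hR _ hL
    obtain ⟨F, hF⟩ := D.pos2 (D.expd hA) hR
    refine ⟨F, ?_⟩
    filter_upwards [hF, (ae_avg_iff h R (fun p A => Tendsto A atTop (𝓝 (L p)))).2 hL] with p h1 h2
    exact h1 _ h2

end Pool.Agent.MP_8df504_an.C
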