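import Pool.Agent.MP_8df504_an.C.BLBase

set_option autoImplicit false

namespace Pool.Agent.MP_8df504_an.C

open Set Filter Topology MeasureTheory

/-! Lasota-Yorke type growth lemma.  No measurability of `E` is needed (outer measure).

`vol_affine`: on `J`, `f y = f x0 + γ (y - x0)`; `Real.volume_preimage_mul_left`,
`measure_preimage_add` hold for all sets.
`jac`: `Lam ⊆ ⋃ j (c j ≠ 0), Piece j`.
`growth`: the cylinders `Cyl n ω` only depend on the restriction of `ω` to `Fin n`; the finitely many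
that meet `Lam` are disjoint bounded intervals `(α,β)` (`cyl_open`, `cyl_ord`), of length
`≥ ℓ > 0`, and cover `Lam`.  `M0 = 1 / (2 ℓ)`.  Prove by induction on `k` (for all `u ≤ v`) the bound
with `(1/2)^k + M0 (1 - (1/2)^k) (v - u)`: on a cylinder `Z` meeting `[u,v]`, `S = T^[n]` maps
`Z ∩ [u,v]` (of length `ℓ Z`) affinely into a segment of length `|γ| ℓ Z`, `|γ| ≥ 4`, `S Lam ⊆ Lam`;
the contribution is `≤ ((1/2)^k / 4 + M0 (1 - (1/2)^k) ℓ Z) vol E`; `∑ ℓ Z ≤ v - u`; at most two `Z`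
contain `u` or `v`, the other ones are inside `(u,v)`, so `1 ≤ ℓ Z / ℓ`.
`unif`: `i = n k + l`, `l < n`, apply `growth` on `[0,1]` to `Lam ∩ T^[l] ⁻¹' E`, iterate `jac`.
`gap_delta`: `A = Lam ∩ E`; at a density point (`Besicovitch.ae_tendsto_measure_inter_div`) there is
`[u,v]`, `u < v`, with `vol (A ∩ [u,v]) ≥ (v-u)/2`; `A ⊆ T^[n k] ⁻¹' A`; let `k → ∞` in `growth`. -/

lemma vol_affine {f : ℝ → ℝ} {J : Set ℝ} {γ x0 y0 : ℝ} (hγ : γ ≠ 0)
    (h : ∀ y ∈ J, f y = y0 + γ * (y - x0)) (E : Set ℝ) :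
    volume (J ∩ f ⁻¹' E) ≤ ENNReal.ofReal (1 / |γ|) * volume (f '' J ∩ E) := by
  have h1 : J ∩ f ⁻¹' E ⊆ (γ * ·) ⁻¹' ((fun z => (y0 - γ * x0) + z) ⁻¹' (f '' J ∩ E)) := by
    rintro y ⟨hy, hE⟩
    have e : y0 - γ * x0 + γ * y = f y := by rw [h y hy]; ring
    simp only [mem_preimage, e]
    exact ⟨⟨y, hy, rfl⟩, hE⟩
  refine (measure_mono h1).trans ?_
  rw [Real.volume_preimage_mul_left hγ, measure_preimage_add, abs_inv, one_div]

/-- a bounded interval lies in a segment whose length is its measure -/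
lemma gl_seg {W : Set ℝ} {u v : ℝ} (hW : W.OrdConnected) (hne : W.Nonempty) (hs : W ⊆ Icc u v) :
    ∃ p, W ⊆ Icc p (p + volume.real W) := by
  have hb : BddBelow W := ⟨u, fun x hx => (hs hx).1⟩
  have ha : BddAbove W := ⟨v, fun x hx => (hs hx).2⟩
  have h1 : Ioo (sInf W) (sSup W) ⊆ W :=
    IsConnected.Ioo_csInf_csSup_subset ⟨hne, hW.isPreconnected⟩ hb ha
  have h2 : volume W ≠ ⊤ := ((measure_mono hs).trans_lt (by simp)).ne
  have h3 : volume.real (Ioo (sInf W) (sSup W)) ≤ volume.real W := measureReal_mono h1 h2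
  have h4 : sInf W ≤ sSup W := (csInf_le hb hne.some_mem).trans (le_csSup ha hne.some_mem)
  rw [Real.volume_real_Ioo_of_le h4] at h3
  exact ⟨sInf W, fun x hx => ⟨csInf_le hb hx, (le_csSup ha hx).trans (by linarith)⟩⟩

/-- the affine image of a segment -/
lemma gl_img {S : ℝ → ℝ} {W : Set ℝ} {p L γ x0 y0 : ℝ} (hW : W ⊆ Icc p (p + L))
    (h : ∀ y ∈ W, S y = y0 + γ * (y - x0)) : ∃ q, S '' W ⊆ Icc q (q + |γ| * L) := by
  rcases le_total 0 γ with hγ | hγ
  · refine ⟨y0 + γ * (p - x0), ?_⟩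
    rintro _ ⟨y, hy, rfl⟩
    rw [h y hy, abs_of_nonneg hγ]
    have h1 := (hW hy).1
    have h2 := (hW hy).2
    constructor <;> nlinarith
  · refine ⟨y0 + γ * (p + L - x0), ?_⟩
    rintro _ ⟨y, hy, rfl⟩
    rw [h y hy, abs_of_nonpos hγ]
    have h1 := (hW hy).1
    have h2 := (hW hy).2
    constructor <;> nlinarith

open Classical in
lemma gl_one {ι : Type} (I : Finset ι) (Z : ι → Set ℝ) (hd : (I : Set ι).PairwiseDisjoint Z)
    (u : ℝ) : ∑ i ∈ I, (if u ∈ Z i then (1 : ℝ) else 0) ≤ 1 := by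
  rw [Finset.sum_boole]
  have h : (I.filter fun i => u ∈ Z i).card ≤ 1 := by
    refine Finset.card_le_one.2 fun a ha b hb => ?_
    rw [Finset.mem_filter] at ha hb
    by_contra hne
    exact Set.disjoint_left.1 (hd ha.1 hb.1 hne) ha.2 hb.2
  exact_mod_cast h

lemma gl_sum {ι : Type} (I : Finset ι) (Z : ι → Set ℝ) (hd : (I : Set ι).PairwiseDisjoint Z)
    (ho : ∀ i ∈ I, IsOpen (Z i)) {u v : ℝ} (huv : u ≤ v) :
    ∑ i ∈ I, volume.real (Z i ∩ Icc u v) ≤ v - u := by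
  have hd' : (I : Set ι).PairwiseDisjoint fun i => Z i ∩ Icc u v :=
    hd.mono fun i => inter_subset_left
  rw [← measureReal_biUnion_finset hd' (fun i hi => (ho i hi).measurableSet.inter measurableSet_Icc)
    (fun i _ => ((measure_mono inter_subset_right).trans_lt (by simp)).ne),
    ← Real.volume_real_Icc_of_le huv]
  exact measureReal_mono (iUnion₂_subset fun i _ => inter_subset_right) (by simp)

open Classical in
lemma gl_count {ι : Type} (I : Finset ι) (Z : ι → Set ℝ) (hd : (I : Set ι).PairwiseDisjoint Z)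
    (ho : ∀ i ∈ I, IsOpen (Z i)) (hc : ∀ i ∈ I, (Z i).OrdConnected) {l : ℝ} (hl : 0 < l)
    (hZ : ∀ i ∈ I, l ≤ volume.real (Z i)) {u v : ℝ} (huv : u ≤ v)
    (hne : ∀ i ∈ I, (Z i ∩ Icc u v).Nonempty) : ∑ _i ∈ I, (1 : ℝ) ≤ 2 + (v - u) / l := by
  have h1 : ∀ i ∈ I, (1 : ℝ) ≤ (if u ∈ Z i then (1 : ℝ) else 0) + (if v ∈ Z i then (1 : ℝ) else 0)
      + volume.real (Z i ∩ Icc u v) / l := by
    intro i hi
    have h0 : 0 ≤ volume.real (Z i ∩ Icc u v) / l := by positivity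
    by_cases hu : u ∈ Z i
    · rw [if_pos hu]
      split_ifs <;> linarith
    by_cases hv : v ∈ Z i
    · rw [if_neg hu, if_pos hv]
      linarith
    rw [if_neg hu, if_neg hv]
    obtain ⟨x, hx, hxu, hxv⟩ := hne i hi
    have hs : Z i ⊆ Icc u v := by
      intro y hy
      constructor
      · by_contra hlt
        exact hu ((hc i hi).out hy hx ⟨(not_le.1 hlt).le, hxu⟩)
      · by_contra hlt
        exact hv ((hc i hi).out hx hy ⟨hxv, (not_le.1 hlt).le⟩)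
    rw [inter_eq_left.2 hs, zero_add, zero_add, le_div_iff₀ hl, one_mul]
    exact hZ i hi
  refine (Finset.sum_le_sum h1).trans ?_
  rw [Finset.sum_add_distrib, Finset.sum_add_distrib, ← Finset.sum_div]
  have h2 := gl_one I Z hd u
  have h3 := gl_one I Z hd v
  have h4 := div_le_div_of_nonneg_right (gl_sum I Z hd ho huv) hl.le
  linarith

lemma gl_step {S : ℝ → ℝ} {L F E W : Set ℝ} {u v γ a b : ℝ} (hm : MapsTo S L L)
    (hW : W.OrdConnected) (hne : W.Nonempty) (hs : W ⊆ Icc u v) (hγ : 4 ≤ |γ|)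
    (haff : ∀ x ∈ W, ∀ y ∈ W, S y - S x = γ * (y - x)) (ha : 0 ≤ a)
    (ih : ∀ u v : ℝ, u ≤ v → volume (Icc u v ∩ L ∩ F) ≤
      ENNReal.ofReal (a + b * (v - u)) * volume E) :
    volume (W ∩ L ∩ S ⁻¹' F) ≤ ENNReal.ofReal (a / 4 + b * volume.real W) * volume E := by
  obtain ⟨p, hp⟩ := gl_seg hW hne hs
  obtain ⟨x0, hx0⟩ := hne
  have h1 : ∀ y ∈ W, S y = S x0 + γ * (y - x0) := fun y hy => by
    rw [← haff x0 hx0 y hy]; ring
  obtain ⟨q, hq⟩ := gl_img hp h1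
  have hγ0 : 0 < |γ| := by linarith
  have h2 : W ∩ L ∩ S ⁻¹' F ⊆ W ∩ S ⁻¹' (L ∩ F) := fun y hy => ⟨hy.1.1, hm hy.1.2, hy.2⟩
  have h0 : 0 ≤ |γ| * volume.real W := by positivity
  have h3 : S '' W ∩ (L ∩ F) ⊆ Icc q (q + |γ| * volume.real W) ∩ L ∩ F :=
    fun y hy => ⟨⟨hq hy.1, hy.2.1⟩, hy.2.2⟩
  refine (measure_mono h2).trans ((vol_affine (abs_pos.1 hγ0) h1 _).trans ?_)
  refine (mul_le_mul_right ((measure_mono h3).trans (ih _ _ (by linarith))) _).trans ?_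
  rw [← mul_assoc, ← ENNReal.ofReal_mul (by positivity)]
  refine mul_le_mul_left (ENNReal.ofReal_le_ofReal ?_) _
  have e : 1 / |γ| * (a + b * (q + |γ| * volume.real W - q)) = a / |γ| + b * volume.real W := by
    field_simp
    ring
  rw [e]
  have h4 : a / |γ| ≤ a / 4 := div_le_div_of_nonneg_left ha (by norm_num) hγ
  linarith

lemma gl_abs {ι : Type} (I : Finset ι) (Z : ι → Set ℝ) (γ : ι → ℝ) {S : ℝ → ℝ} {L : Set ℝ}
    (hd : (I : Set ι).PairwiseDisjoint Z) (ho : ∀ i ∈ I, IsOpen (Z i))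
    (hc : ∀ i ∈ I, (Z i).OrdConnected) {l : ℝ} (hl : 0 < l)
    (hZ : ∀ i ∈ I, l ≤ volume.real (Z i)) (hm : MapsTo S L L) (hcov : ∀ x ∈ L, ∃ i ∈ I, x ∈ Z i)
    (hγ : ∀ i ∈ I, 4 ≤ |γ i|) (haff : ∀ i ∈ I, ∀ x ∈ Z i, ∀ y ∈ Z i, S y - S x = γ i * (y - x))
    (E : Set ℝ) (k : ℕ) : ∀ u v : ℝ, u ≤ v → volume (Icc u v ∩ L ∩ S^[k] ⁻¹' E) ≤
      ENNReal.ofReal ((1 / 2) ^ k + 1 / (2 * l) * (1 - (1 / 2) ^ k) * (v - u)) * volume E := by
  classical
  induction k with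
  | zero =>
    intro u v _
    simp only [Function.iterate_zero, preimage_id_eq, id_eq, pow_zero, sub_self, mul_zero,
      zero_mul, add_zero, ENNReal.ofReal_one, one_mul]
    exact measure_mono inter_subset_right
  | succ k ih =>
    intro u v huv
    set J := I.filter fun i => (Z i ∩ Icc u v).Nonempty with hJ
    have hJI : ∀ i ∈ J, i ∈ I := fun i hi => (Finset.mem_filter.1 hi).1
    have hdJ : (J : Set ι).PairwiseDisjoint Z := hd.subset fun i hi => hJI i hi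
    set a : ℝ := (1 / 2) ^ k with ha
    have ha0 : 0 ≤ a := by positivity
    have ha1 : a ≤ 1 := pow_le_one₀ (by norm_num) (by norm_num)
    set b : ℝ := 1 / (2 * l) * (1 - a) with hb
    have hb0 : 0 ≤ b := mul_nonneg (by positivity) (by linarith)
    have h1 : Icc u v ∩ L ∩ S^[k + 1] ⁻¹' E ⊆
        ⋃ i ∈ J, (Z i ∩ Icc u v) ∩ L ∩ S ⁻¹' (S^[k] ⁻¹' E) := by
      rintro x ⟨⟨hx1, hx2⟩, hx3⟩
      obtain ⟨i, hi, hxi⟩ := hcov x hx2
      exact mem_iUnion₂.2 ⟨i, Finset.mem_filter.2 ⟨hi, x, hxi, hx1⟩, ⟨⟨hxi, hx1⟩, hx2⟩, hx3⟩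
    refine (measure_mono h1).trans ((measure_biUnion_finset_le _ _).trans ?_)
    have h2 : ∀ i ∈ J, volume ((Z i ∩ Icc u v) ∩ L ∩ S ⁻¹' (S^[k] ⁻¹' E)) ≤
        ENNReal.ofReal (a / 4 + b * volume.real (Z i ∩ Icc u v)) * volume E := fun i hi =>
      gl_step hm ((hc i (hJI i hi)).inter ordConnected_Icc) (Finset.mem_filter.1 hi).2
        inter_subset_right (hγ i (hJI i hi))
        (fun x hx y hy => haff i (hJI i hi) x hx.1 y hy.1) ha0 ih
    refine (Finset.sum_le_sum h2).trans ?_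
    rw [← Finset.sum_mul, ← ENNReal.ofReal_sum_of_nonneg fun i _ => by positivity]
    refine mul_le_mul_left (ENNReal.ofReal_le_ofReal ?_) _
    have h3 := gl_count J Z hdJ (fun i hi => ho i (hJI i hi)) (fun i hi => hc i (hJI i hi)) hl
      (fun i hi => hZ i (hJI i hi)) huv fun i hi => (Finset.mem_filter.1 hi).2
    have h4 := gl_sum J Z hdJ (fun i hi => ho i (hJI i hi)) huv
    have e1 : ∑ i ∈ J, (a / 4 + b * volume.real (Z i ∩ Icc u v)) =
        a / 4 * ∑ _i ∈ J, (1 : ℝ) + b * ∑ i ∈ J, volume.real (Z i ∩ Icc u v) := by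
      rw [Finset.mul_sum, Finset.mul_sum, ← Finset.sum_add_distrib]
      simp only [mul_one]
    have e2 : (1 / 2 : ℝ) ^ (k + 1) + 1 / (2 * l) * (1 - (1 / 2) ^ (k + 1)) * (v - u) =
        a / 4 * (2 + (v - u) / l) + b * (v - u) := by
      rw [pow_succ, ← ha, hb]
      field_simp
      ring
    rw [e1, e2]
    exact add_le_add (mul_le_mul_of_nonneg_left h3 (by positivity))
      (mul_le_mul_of_nonneg_left h4 hb0)

namespace BL

variable (D : BL)

lemma jac : ∃ J : NNReal, ∀ E : Set ℝ, volume (D.Lam ∩ D.T ⁻¹' E) ≤ J * volume E := by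
  classical
  refine ⟨∑ j : Fin D.m, Real.toNNReal (1 / |D.c j|), fun E => ?_⟩
  have h1 : D.Lam ∩ D.T ⁻¹' E ⊆
      ⋃ j ∈ Finset.univ.filter (fun j => D.c j ≠ 0), D.Piece j ∩ D.T ⁻¹' E := by
    rintro x ⟨hx, hE⟩
    obtain ⟨j, hj, hxj⟩ := (hx 0).2
    exact mem_iUnion₂.2 ⟨j, by simp [hj], hxj, hE⟩
  refine (measure_mono h1).trans ((measure_biUnion_finset_le _ _).trans ?_)
  have h2 : ∀ j ∈ Finset.univ.filter (fun j => D.c j ≠ 0), volume (D.Piece j ∩ D.T ⁻¹' E) ≤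
      ENNReal.ofReal (1 / |D.c j|) * volume E := by
    intro j hj
    have h3 : ∀ y ∈ D.Piece j, D.T y = D.d j + D.c j * (y - 0) := fun y hy => by
      rw [D.aff j y (Ioo_subset_Icc_self hy)]; ring
    exact (vol_affine (Finset.mem_filter.1 hj).2 h3 E).trans
      (mul_le_mul_right (measure_mono inter_subset_right) _)
  refine (Finset.sum_le_sum h2).trans ?_
  rw [← Finset.sum_mul, ENNReal.ofNNReal_finsetSum]
  exact mul_le_mul_left (Finset.sum_le_sum_of_subset (Finset.filter_subset _ _)) _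

lemma gl_cyl_congr {n : ℕ} {ω ω' : ℕ → Fin D.m} (h : ∀ i < n, ω i = ω' i) :
    D.Cyl n ω = D.Cyl n ω' := by
  ext x
  exact forall₂_congr fun i hi => by rw [h i hi]

lemma growth {n : ℕ} (hn : 1 ≤ n)
    (h : ∀ ω, (D.Cyl n ω ∩ D.Lam).Nonempty → 4 ≤ |D.gam n ω|) :
    ∃ M0 : ℝ, 0 < M0 ∧ ∀ (k : ℕ) (u v : ℝ) (E : Set ℝ), u ≤ v →
      volume (Icc u v ∩ D.Lam ∩ D.T^[n * k] ⁻¹' E) ≤
        ENNReal.ofReal ((1 / 2) ^ k + M0 * (v - u)) * volume E := by
  classical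
  let ex : (Fin n → Fin D.m) → ℕ → Fin D.m := fun w i => w ⟨i % n, Nat.mod_lt i hn⟩
  have hex : ∀ w (i : Fin n), ex w i = w i := fun w i => by
    simp only [ex, Nat.mod_eq_of_lt i.2]
  let Z : (Fin n → Fin D.m) → Set ℝ := fun w => D.Cyl n (ex w)
  let I : Finset (Fin n → Fin D.m) := Finset.univ.filter fun w => (Z w ∩ D.Lam).Nonempty
  have hI : ∀ w ∈ I, (Z w ∩ D.Lam).Nonempty := fun w hw => (Finset.mem_filter.1 hw).2
  have hpos : ∀ w ∈ I, 0 < volume.real (Z w) := by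
    intro w hw
    have h1 : Z w ⊆ Ioo 0 1 := fun x hx => D.piece_sub _ (hx 0 hn)
    refine ENNReal.toReal_pos ?_ ((measure_mono h1).trans_lt (by simp)).ne
    exact ((D.cyl_open n _).measure_pos volume ((hI w hw).mono inter_subset_left)).ne'
  obtain ⟨l, hl, hZ⟩ : ∃ l : ℝ, 0 < l ∧ ∀ w ∈ I, l ≤ volume.real (Z w) := by
    rcases I.eq_empty_or_nonempty with h0 | h0
    · exact ⟨1, one_pos, fun w hw => by simp [h0] at hw⟩
    · obtain ⟨w, hw, hmin⟩ := I.exists_min_image (fun w => volume.real (Z w)) h0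
      exact ⟨_, hpos w hw, hmin⟩
  have hd : (I : Set (Fin n → Fin D.m)).PairwiseDisjoint Z := by
    intro w _ w' _ hne
    refine Set.disjoint_left.2 fun x hx hx' => hne (funext fun i => ?_)
    rw [← hex w i, ← hex w' i]
    exact D.piece_unique (hx i i.2) (hx' i i.2)
  have hcov : ∀ x ∈ D.Lam, ∃ w ∈ I, x ∈ Z w := by
    intro x hx
    obtain ⟨ω, hω⟩ := D.exists_itin hx
    have h1 : x ∈ Z fun i => ω i := by
      have h2 : Z (fun i => ω i) = D.Cyl n ω :=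
        D.gl_cyl_congr fun i hi => hex (fun i => ω i) ⟨i, hi⟩
      rw [h2]
      exact hω n
    exact ⟨fun i => ω i, Finset.mem_filter.2 ⟨Finset.mem_univ _, x, h1, hx⟩, h1⟩
  refine ⟨1 / (2 * l), by positivity, fun k u v E huv => ?_⟩
  have key := gl_abs I Z (fun w => D.gam n (ex w)) hd (fun w _ => D.cyl_open n _)
    (fun w _ => D.cyl_ord n _) hl hZ (D.lam_maps.iterate n) hcov (fun w hw => h _ (hI w hw))
    (fun w _ x hx y hy => D.cyl_aff (subset_closure hx) (subset_closure hy)) E k u v huv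
  rw [Function.iterate_mul]
  refine key.trans (mul_le_mul_left (ENNReal.ofReal_le_ofReal ?_) _)
  have h1 : (0 : ℝ) ≤ 1 / (2 * l) * (1 / 2) ^ k * (v - u) :=
    mul_nonneg (by positivity) (by linarith)
  nlinarith

end BL

end Pool.Agent.MP_8df504_an.C
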