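import Pool.Agent.MP_8df504_an.C.GL

set_option autoImplicit false

namespace Pool.Agent.MP_8df504_an.C

open Set Filter Topology MeasureTheory

/-! Lasota-Yorke type growth lemma.  No measurability of `E` is needed (outer measure).

`vol_affine`: on `J`, `f y = f x0 + γ (y - x0)`; `Real.volume_preimage_mul_left`,
`measure_preimage_add` hold for all sets.
`jac`: `Lam ⊆ ⋃ j (c j ≠ 0), Piece j`.
`growth`: the cylinders `Cyl n ω` only depend on the restriction of `ω` to `Fin n`; the finitely many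
that meet `Lam` are disjoint bounded intervals `(α,β)` (`cyl_open`, `cyl_ord`), of length
`≥ ℓ > 0`, and cover `Lam`.  `M0 = 1 / (2 ℓ)`.  Prove by induction on `k` (for all `u ≤ v`) the bound
with `(1/2)^k + M0 (1 - (1/2)^k) (v - u)`: on a cylinder `Z` meeting `[u,v]`, `S = T^[n]` maps
`Z ∩ [u,v]` (of length `ℓ Z`) affinely into a segment of length `|γ| ℓ Z`, `|γ| ≥ 4`, `S Lam ⊆ Lam`;
the contribution is `≤ ((1/2)^k / 4 + M0 (1 - (1/2)^k) ℓ Z) vol E`; `∑ ℓ Z ≤ v - u`; at most two `Z`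
contain `u` or `v`, the other ones are inside `(u,v)`, so `1 ≤ ℓ Z / ℓ`.
`unif`: `i = n k + l`, `l < n`, apply `growth` on `[0,1]` to `Lam ∩ T^[l] ⁻¹' E`, iterate `jac`.
`gap_delta`: `A = Lam ∩ E`; at a density point (`Besicovitch.ae_tendsto_measure_inter_div`) there is
`[u,v]`, `u < v`, with `vol (A ∩ [u,v]) ≥ (v-u)/2`; `A ⊆ T^[n k] ⁻¹' A`; let `k → ∞` in `growth`. -/

namespace BL

variable (D : BL)

lemma gl2_jac : ∃ J : NNReal, 1 ≤ J ∧
    ∀ (l : ℕ) (E : Set ℝ), volume (D.Lam ∩ D.T^[l] ⁻¹' E) ≤ (J ^ l : NNReal) * volume E := by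
  obtain ⟨J, hJ⟩ := D.jac
  refine ⟨max J 1, le_max_right _ _, fun l E => ?_⟩
  induction l with
  | zero => simpa using measure_mono inter_subset_right
  | succ l ih =>
    have h1 : D.Lam ∩ D.T^[l + 1] ⁻¹' E ⊆ D.Lam ∩ D.T ⁻¹' (D.Lam ∩ D.T^[l] ⁻¹' E) :=
      fun x hx => ⟨hx.1, D.lam_maps hx.1, hx.2⟩
    refine ((measure_mono h1).trans (hJ _)).trans ?_
    rw [pow_succ', ENNReal.coe_mul, mul_assoc]
    exact mul_le_mul' (ENNReal.coe_le_coe.2 (le_max_left _ _)) ih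

lemma unif (h : D.Expd) :
    ∃ M1 : NNReal, ∀ (i : ℕ) (E : Set ℝ), volume (D.Lam ∩ D.T^[i] ⁻¹' E) ≤ M1 * volume E := by
  obtain ⟨n, hn, h⟩ := h
  obtain ⟨M0, -, hM⟩ := D.growth hn h
  obtain ⟨J, hJ1, hJ⟩ := D.gl2_jac
  refine ⟨(1 + M0).toNNReal * J ^ n, fun i E => ?_⟩
  have h1 : D.Lam ∩ D.T^[i] ⁻¹' E ⊆
      Icc 0 1 ∩ D.Lam ∩ D.T^[n * (i / n)] ⁻¹' (D.Lam ∩ D.T^[i % n] ⁻¹' E) := fun x hx => by
    refine ⟨⟨Ioo_subset_Icc_self (D.lam_sub hx.1), hx.1⟩, D.lam_maps.iterate _ hx.1, ?_⟩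
    rw [mem_preimage, ← Function.iterate_add_apply, Nat.mod_add_div]
    exact hx.2
  refine ((measure_mono h1).trans (hM _ 0 1 _ zero_le_one)).trans ?_
  rw [ENNReal.coe_mul, mul_assoc]
  refine mul_le_mul' (ENNReal.ofReal_le_ofReal ?_) ((hJ _ E).trans (mul_le_mul' ?_ le_rfl))
  · have h2 : ((1 : ℝ) / 2) ^ (i / n) ≤ 1 := pow_le_one₀ (by norm_num) (by norm_num)
    linarith
  · exact ENNReal.coe_le_coe.2 (pow_le_pow_right₀ hJ1 (Nat.mod_lt i hn).le)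

lemma gap_delta (h : D.Expd) : ∃ δ : ENNReal, 0 < δ ∧
    ∀ E : Set ℝ, MapsTo D.T E E → volume (D.Lam ∩ E) = 0 ∨ δ ≤ volume (D.Lam ∩ E) := by
  obtain ⟨n, hn, h⟩ := h
  obtain ⟨M0, h0, hM⟩ := D.growth hn h
  refine ⟨ENNReal.ofReal (1 / (2 * M0)), ENNReal.ofReal_pos.2 (by positivity), fun E hE => ?_⟩
  rw [or_iff_not_imp_left]
  intro hne
  have hA : MapsTo D.T (D.Lam ∩ E) (D.Lam ∩ E) := D.lam_maps.inter_inter hE
  have hsub : D.Lam ∩ E ⊆ D.Lam := inter_subset_left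
  generalize D.Lam ∩ E = A at hne hA hsub
  have hfin : volume A ≠ ⊤ :=
    ((measure_mono (hsub.trans D.lam_sub)).trans_lt measure_Ioo_lt_top).ne
  have : (ae (volume.restrict A)).NeBot := ae_neBot.2 fun e => hne (by
    rw [← Measure.restrict_apply_univ, e]; rfl)
  obtain ⟨x, hx⟩ := (Besicovitch.ae_tendsto_measure_inter_div volume A).exists
  obtain ⟨r, h1, hr⟩ := ((hx.eventually (lt_mem_nhds (ENNReal.one_half_lt_one))).and
    self_mem_nhdsWithin).exists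
  have hr0 : 0 < r := hr
  rw [Real.volume_closedBall, ENNReal.lt_div_iff_mul_lt (Or.inl (by simpa using hr0))
    (Or.inl ENNReal.ofReal_ne_top), Real.closedBall_eq_Icc] at h1
  have h2 : ENNReal.ofReal r ≤ volume (A ∩ Icc (x - r) (x + r)) := by
    refine le_of_eq_of_le ?_ h1.le
    rw [ENNReal.ofReal_mul zero_le_two, ENNReal.ofReal_ofNat, ← mul_assoc,
      ENNReal.inv_mul_cancel two_ne_zero ENNReal.ofNat_ne_top, one_mul]
  have h3 : ∀ k : ℕ, r ≤ ((1 / 2) ^ k + M0 * (x + r - (x - r))) * (volume A).toReal := fun k => by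
    have h4 := (h2.trans (measure_mono fun y hy =>
      (⟨⟨hy.2, hsub hy.1⟩, hA.iterate (n * k) hy.1⟩ :
        y ∈ Icc (x - r) (x + r) ∩ D.Lam ∩ D.T^[n * k] ⁻¹' A))).trans
      (hM k _ _ A (by linarith))
    have h5 : 0 ≤ (1 / 2 : ℝ) ^ k + M0 * (x + r - (x - r)) :=
      add_nonneg (by positivity) (mul_nonneg h0.le (by linarith))
    rwa [← ENNReal.ofReal_toReal hfin, ← ENNReal.ofReal_mul h5,
      ENNReal.ofReal_le_ofReal_iff (mul_nonneg h5 ENNReal.toReal_nonneg)] at h4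
  have h6 := ge_of_tendsto' (((tendsto_pow_atTop_nhds_zero_of_lt_one (r := (1 / 2 : ℝ))
    (by norm_num) (by norm_num)).add_const _).mul_const _) h3
  rw [ENNReal.ofReal_le_iff_le_toReal hfin, div_le_iff₀ (by positivity)]
  nlinarith

end BL

end Pool.Agent.MP_8df504_an.C
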