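import Pool.Agent.MP_8df504_an.C.MT2

set_option autoImplicit false

namespace Pool.Agent.MP_8df504_an.C

open Set Filter Topology MeasureTheory

/-! The Martens-Tresser type contradiction.

`seq_MT`: `Γ` converges to `Γ∞ > Γ j ≥ 1`, `τ j = Γ (j+1) / Γ j → 1`.  The `β` are bounded above, so
the second alternative fails for large `j`; some `β` occurs infinitely often; `β > 0`; in the limit
`β Γ∞ ≤ 1`, but `β Γ∞ > β Γ j ≥ 1`.

`step_MT`: `Λ = ∏ i<p |sl (g i).1| = ∏ img (g i) / len (g i) = ∏ img (g i) / len (g (i+1))` (cyclic,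
`g p = g 0`), each factor `≥ 1` (`Cov.len_le`).  `O ⊆ O'` (`nested`), `τ = ∏ (O' \ O) r`, the `g i`
are distinct elements of `O' \ O` (`same_idx`).  If `pi (g i) = g (i+1)` for all `i < p` then
`Λ = ∏ r (g i) ≤ τ`.  Otherwise for some `i` the segment `T (g i)` contains the two different gaps
`pi (g i)`, `g (i+1)` (`Gap.sep`), so `len (g (i+1)) ≤ img (1 - 1 / r (g i)) ≤ img (1 - 1/τ)`.

`no_cycles`: choose cycles `C j` for `j ≥ j0`, outer sets `O j`, `Γ j = ∏ (O j) r ≤ G`.  The gap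
`e (j+2)` is long, inner at level `j`, outer at level `j+1` (it is a flank of `[u (j+1), v (j+1)]`:
one end is in that interval and the other is not; use `same_idx` and periodicity), so
`Γ j < Γ (j+1)`; its outer end is the point `z0` for `new_cycle`. -/

lemma seq_MT (Γ : ℕ → ℝ) (G : ℝ) (Φ : Finset ℝ) (h1 : ∀ j, 1 ≤ Γ j) (hG : ∀ j, Γ j ≤ G)
    (hm : ∀ j, Γ j < Γ (j + 1))
    (h : ∀ j, ∃ β ∈ Φ, 1 ≤ β * Γ j ∧ (β * Γ j ≤ Γ (j + 1) / Γ j ∨
      Γ (j + 1) / Γ j ≤ β * Γ j * (Γ (j + 1) / Γ j - 1))) : False := by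
  have hmono : Monotone Γ := monotone_nat_of_le_succ fun j => (hm j).le
  have hbdd : BddAbove (range Γ) := ⟨G, by rintro _ ⟨j, rfl⟩; exact hG j⟩
  have hlim : Tendsto Γ atTop (𝓝 (⨆ j, Γ j)) := tendsto_atTop_ciSup hmono hbdd
  have hlt : ∀ j, Γ j < ⨆ j, Γ j := fun j => (hm j).trans_le (le_ciSup hbdd (j + 1))
  generalize ⨆ j, Γ j = L at hlim hlt
  have hL : 0 < L := by linarith [h1 0, hlt 0]
  have hτ : Tendsto (fun j => Γ (j + 1) / Γ j) atTop (𝓝 1) := by
    have := ((tendsto_add_atTop_iff_nat 1).2 hlim).div hlim hL.ne'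
    rwa [div_self hL.ne'] at this
  have key : ∀ β ∈ Φ, ∀ᶠ j in atTop, ¬ (1 ≤ β * Γ j ∧ (β * Γ j ≤ Γ (j + 1) / Γ j ∨
      Γ (j + 1) / Γ j ≤ β * Γ j * (Γ (j + 1) / Γ j - 1))) := by
    intro β _
    by_cases hβ : β * L ≤ 1
    · refine Eventually.of_forall fun j hj => ?_
      have h2 : 0 < β := by
        by_contra hc
        have := mul_nonpos_of_nonpos_of_nonneg (not_lt.1 hc) (zero_le_one.trans (h1 j))
        linarith [hj.1]
      have := mul_lt_mul_of_pos_left (hlt j) h2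
      linarith [hj.1]
    · have h2 := hlim.const_mul β
      have h3 := h2.mul (hτ.sub_const 1)
      rw [sub_self, mul_zero] at h3
      filter_upwards [hτ.eventually_lt h2 (not_le.1 hβ), h3.eventually_lt hτ zero_lt_one]
        with j e1 e2 hj
      rcases hj.2 with e | e
      · exact absurd e (not_le.2 e1)
      · exact absurd e (not_le.2 e2)
  obtain ⟨j, hj⟩ := ((Filter.eventually_all_finset Φ).2 key).exists
  obtain ⟨β, hβ, e⟩ := h j
  exact hj β hβ e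

lemma mt3a_sub {ι : Type} {F F' : Finset ι} {f : ι → ℝ} (h : F ⊆ F') (h1 : ∀ i ∈ F', 1 ≤ f i) :
    ∏ i ∈ F, f i ≤ ∏ i ∈ F', f i :=
  Finset.prod_le_prod_of_subset_of_one_le h (fun i hi => zero_le_one.trans (h1 i (h hi)))
    fun i hi _ => h1 i hi

lemma Sys.step_MT (S : Sys) (C C' : Cyc S.P) (h1 : C.a 0 ≤ C'.a 0) (h2 : C'.b 0 ≤ C.b 0)
    {O O' : Finset (ℝ × ℝ)} (hO : C.IsOuter O) (hO' : C'.IsOuter O') (g : ℕ → ℝ × ℝ)
    (hp : g C.p = g 0)
    (hg : ∀ i < C.p, g i ∈ Gap S.P.K ∧ Inner (C.a i) (C.b i) (g i) ∧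
      (∀ l, ¬ Inner (C'.a l) (C'.b l) (g i)) ∧ Cov S.P.T (g i) (g (i + 1)))
    {Λ τ : ℝ} (hΛ : Λ = ∏ i ∈ Finset.range C.p, |S.L.sl (g i).1|)
    (hτ : τ = (∏ g ∈ O', S.r g) / ∏ g ∈ O, S.r g) :
    1 ≤ Λ ∧ (Λ ≤ τ ∨ τ ≤ Λ * (τ - 1)) := by
  classical
  have hp0 : 0 < C.p := C.p_pos
  have hgap : ∀ i ≤ C.p, g i ∈ Gap S.P.K := fun i hi => by
    rcases hi.eq_or_lt with e | e
    · rw [e, hp]
      exact (hg 0 hp0).1
    · exact (hg i e).1
  have hlen : ∀ i ≤ C.p, 0 < len (g i) := fun i hi => Gap.len_pos (hgap i hi)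
  have hcyc : ∏ i ∈ Finset.range C.p, len (g (i + 1)) = ∏ i ∈ Finset.range C.p, len (g i) := by
    have e := Finset.prod_range_succ' (fun i => len (g i)) C.p
    rw [Finset.prod_range_succ, hp] at e
    exact (mul_right_cancel₀ (hlen 0 hp0.le).ne' e).symm
  have hΛ' : Λ = ∏ i ∈ Finset.range C.p, img S.P.T (g i) / len (g (i + 1)) := by
    rw [Finset.prod_div_distrib, hcyc, ← Finset.prod_div_distrib, hΛ]
    refine Finset.prod_congr rfl fun i hi => ?_
    have hi' := (Finset.mem_range.1 hi).le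
    rw [S.img_gap (hgap i hi'), mul_div_cancel_right₀ _ (hlen i hi').ne']
  have hq : ∀ i ∈ Finset.range C.p, 1 ≤ img S.P.T (g i) / len (g (i + 1)) := fun i hi => by
    have hi' := Finset.mem_range.1 hi
    rw [one_le_div (hlen (i + 1) hi')]
    exact (hg i hi').2.2.2.len_le
  have hsub : O ⊆ O' := fun γ hγ => by
    obtain ⟨e1, e2⟩ := (hO γ).1 hγ
    refine (hO' γ).2 ⟨e1, fun i hi => e2 i ?_⟩
    obtain ⟨e3, e4⟩ := Cyc.nested C C' h1 h2 i
    exact ⟨e3.trans hi.1, hi.2.trans e4⟩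
  have hr : ∀ γ ∈ O', 1 ≤ S.r γ := fun γ hγ => S.one_le_r ((hO' γ).1 hγ).1
  have hτ' : τ = ∏ γ ∈ O' \ O, S.r γ := by
    rw [hτ, ← Finset.prod_sdiff hsub, mul_div_cancel_right₀]
    exact (Finset.prod_pos fun γ hγ => zero_lt_one.trans_le (hr γ (hsub hγ))).ne'
  have hmem : ∀ i < C.p, g i ∈ O' \ O := fun i hi =>
    Finset.mem_sdiff.2 ⟨(hO' _).2 ⟨(hg i hi).1, (hg i hi).2.2.1⟩,
      fun h => ((hO _).1 h).2 i (hg i hi).2.1⟩
  have hinj : InjOn g (Finset.range C.p : Set ℕ) := fun i hi l hl e => by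
    have hi' : i < C.p := by simpa using hi
    have hl' : l < C.p := by simpa using hl
    have e1 := (hg i hi').2.1
    have e2 := (hg l hl').2.1
    have e3 := (hg i hi').1.2.2.1
    rw [← e] at e2
    have := C.same_idx (z := (g i).1) ⟨e1.1, e3.le.trans e1.2⟩ ⟨e2.1, e3.le.trans e2.2⟩
    rwa [Nat.mod_eq_of_lt hi', Nat.mod_eq_of_lt hl'] at this
  have hle : ∀ F : Finset (ℝ × ℝ), F ⊆ O' \ O → ∏ γ ∈ F, S.r γ ≤ τ := fun F hF => by
    rw [hτ']
    exact mt3a_sub hF fun γ hγ => hr γ (Finset.mem_sdiff.1 hγ).1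
  refine ⟨hΛ' ▸ Finset.one_le_prod hq, ?_⟩
  by_cases hall : ∀ i < C.p, S.pi (g i) = g (i + 1)
  · left
    refine le_trans (le_of_eq ?_) (hle ((Finset.range C.p).image g) fun γ hγ => ?_)
    · rw [Finset.prod_image hinj, hΛ']
      refine Finset.prod_congr rfl fun i hi => ?_
      rw [Sys.r, hall i (Finset.mem_range.1 hi)]
    · obtain ⟨i, hi, rfl⟩ := Finset.mem_image.1 hγ
      exact hmem i (Finset.mem_range.1 hi)
  · right
    push Not at hall
    obtain ⟨i, hi, hne⟩ := hall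
    have e1 : S.r (g i) ≤ τ := by
      have := hle {g i} (Finset.singleton_subset_iff.2 (hmem i hi))
      rwa [Finset.prod_singleton] at this
    have e2 : img S.P.T (g i) / len (g (i + 1)) ≤ Λ := by
      have := mt3a_sub (Finset.singleton_subset_iff.2 (Finset.mem_range.2 hi)) hq
      rwa [Finset.prod_singleton, ← hΛ'] at this
    have e3 : 1 ≤ τ := (S.one_le_r (hgap i hi.le)).trans e1
    have hA := Gap.len_pos (S.pi_mem (hgap i hi.le))
    have hB := hlen (i + 1) hi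
    rw [Sys.r, div_le_iff₀ hA] at e1
    rw [div_le_iff₀ hB] at e2
    have e4 : len (S.pi (g i)) + len (g (i + 1)) ≤ img S.P.T (g i) := by
      have c1 := S.ok.cov _ (hgap i hi.le)
      have c2 := (hg i hi).2.2.2
      have c3 := Gap.sep (S.pi_mem (hgap i hi.le)) (hgap (i + 1) hi) hne
      unfold len img
      rw [← max_sub_min_eq_abs]
      rcases c3 with c | c <;> linarith [c1.1, c1.2, c2.1, c2.2]
    refine le_of_mul_le_mul_right ?_ hB
    have e5 := mul_le_mul_of_nonneg_left e4 (zero_le_one.trans e3)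
    have e6 := mul_le_mul_of_nonneg_left e2 (sub_nonneg.2 e3)
    nlinarith

end Pool.Agent.MP_8df504_an.C
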