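import Pool.Agent.MP_8df504_an.C.Base

set_option autoImplicit false

namespace Pool.Agent.MP_8df504_an.C

open Set Filter Topology MeasureTheory

/-! Coboundaries and Fatou; measurability of `Dl` along orbits.

`cob_lintegral`: truncate `u` to `uN = max (-N) (min u N)`; `uN - uN ∘ T` has the sign of
`u - u ∘ T` and is smaller in absolute value, so `|f| + uN - uN ∘ T ≥ 0` a.e. and its integral is
`∫ |f|`.  Fatou (`lintegral_liminf_le'`) gives that `|f| + u - u ∘ T ≥ 0` is integrable with integral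
`≤ ∫ |f|`; subtract `|f| - f`.
`cob_frequently`: Fatou over `n`: the lintegral of the liminf is `≤ ofReal C < ∞`, so the liminf is
finite a.e. (`ae_lt_top'`), hence some `W` is frequently an upper bound.
`exists_meas_Dl`: take
`D n x = ∏ i<n, ∏ j<n, if T^[i] x < T^[j] x ∧ ∀ l<n, ¬ (T^[i] x < T^[l] x ∧ T^[l] x < T^[j] x)
then T^[j] x - T^[i] x else 1` (`Finset.prod_product'`, `Finset.prod_filter`, `Finset.prod_nbij`). -/

/-- the index pairs that give consecutive points -/
def measdl_P (y : ℕ → ℝ) (n : ℕ) (q : ℕ × ℕ) : Prop :=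
  y q.1 < y q.2 ∧ ∀ l ∈ Finset.range n, ¬ (y q.1 < y l ∧ y l < y q.2)

open Classical in
lemma measdl_eq {y : ℕ → ℝ} (hy : Function.Injective y) (n : ℕ) :
    (∏ q ∈ Finset.range n ×ˢ Finset.range n, if measdl_P y n q then y q.2 - y q.1 else 1) =
      Dl (orb y n) := by
  rw [← Finset.prod_filter]
  unfold Dl
  refine Finset.prod_nbij (fun q => (y q.1, y q.2)) ?_ ?_ ?_ ?_
  · intro q hq
    rw [Finset.mem_filter, Finset.mem_product] at hq
    refine mem_gaps.2 ⟨Finset.mem_coe.2 (Finset.mem_image_of_mem y hq.1.1),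
      Finset.mem_coe.2 (Finset.mem_image_of_mem y hq.1.2), hq.2.1, fun z hz => ?_⟩
    obtain ⟨l, hl, rfl⟩ := Finset.mem_image.1 (Finset.mem_coe.1 hz)
    exact hq.2.2 l hl
  · intro q _ q' _ h
    exact Prod.ext (hy (congrArg Prod.fst h)) (hy (congrArg Prod.snd h))
  · intro g hg
    obtain ⟨h1, h2, h3, h4⟩ := mem_gaps.1 (Finset.mem_coe.1 hg)
    obtain ⟨i, hi, hi'⟩ := Finset.mem_image.1 (Finset.mem_coe.1 h1)
    obtain ⟨j, hj, hj'⟩ := Finset.mem_image.1 (Finset.mem_coe.1 h2)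
    refine ⟨(i, j), Finset.mem_coe.2 (Finset.mem_filter.2 ⟨Finset.mem_product.2 ⟨hi, hj⟩, ?_, ?_⟩),
      Prod.ext hi' hj'⟩
    · show y i < y j
      rw [hi', hj']
      exact h3
    · intro l hl
      show ¬ (y i < y l ∧ y l < y j)
      rw [hi', hj']
      exact h4 _ (Finset.mem_coe.2 (Finset.mem_image_of_mem y hl))
  · intro q _
    rfl

lemma measdl_set {T : ℝ → ℝ} (hT : Measurable T) (n : ℕ) (q : ℕ × ℕ) :
    MeasurableSet {x : ℝ | measdl_P (fun i => T^[i] x) n q} := by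
  have h1 : ∀ i j : ℕ, MeasurableSet {x : ℝ | T^[i] x < T^[j] x} := fun i j =>
    measurableSet_lt (hT.iterate i) (hT.iterate j)
  have h2 : {x : ℝ | measdl_P (fun i => T^[i] x) n q} = {x : ℝ | T^[q.1] x < T^[q.2] x} ∩
      ⋂ l ∈ Finset.range n, ({x : ℝ | T^[q.1] x < T^[l] x} ∩ {x : ℝ | T^[l] x < T^[q.2] x})ᶜ := by
    ext x
    simp only [measdl_P, mem_inter_iff, mem_iInter, mem_compl_iff]
    rfl
  rw [h2]
  exact (h1 _ _).inter (Finset.measurableSet_biInter _ fun l _ => ((h1 _ _).inter (h1 _ _)).compl)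

lemma exists_meas_Dl {T : ℝ → ℝ} (hT : Measurable T) :
    ∃ D : ℕ → ℝ → ℝ, (∀ n, Measurable (D n)) ∧ ∀ n x,
      Function.Injective (fun i : ℕ => T^[i] x) → D n x = Dl (orb (fun i => T^[i] x) n) := by
  classical
  refine ⟨fun n x => ∏ q ∈ Finset.range n ×ˢ Finset.range n,
    if measdl_P (fun i => T^[i] x) n q then T^[q.2] x - T^[q.1] x else 1, fun n => ?_,
    fun n x hx => ?_⟩
  · refine Finset.measurable_prod _ fun q _ => ?_
    exact Measurable.ite (measdl_set hT n q) ((hT.iterate _).sub (hT.iterate _)) measurable_const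
  · convert measdl_eq hx n

end Pool.Agent.MP_8df504_an.C
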