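import Pool.Agent.MP_8df504_an.C.Basic

set_option autoImplicit false

namespace Pool.Agent.MP_8df504_an.C

open Set Filter Topology MeasureTheory

/-! Infinitely many long gaps give a two-sided turning point; reflection; heights.

`exists_turn`: the left ends of infinitely many long gaps accumulate at some `z ∈ K` and their
lengths tend to `0` (`finite_big`), so every neighbourhood of `z` contains (the closure of) a long
gap.  `T` is affine with
nonzero slope on `[z, z+δ]` (if `z < hi`) and on `[z-δ, z]` (if `lo < z`).  Suppose not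
(`TwoMax z` or `TwoMin z`).  Then there is an interval `N` (`[z-δ,z+δ]` if the slopes have the same
sign, `[z,z+δ]` or `[z-δ,z]` if `K` does not accumulate at `z` from the other side) on which `T` is
strictly monotone or antitone and which contains `K ∩ (z-δ', z+δ')`.  With `inv_cont`, for a gap `g`
close to `z` any point of `K` strictly between `T g.1` and `T g.2` is `T y` with `y ∈ K ∩ N`
(`surjK`), hence `y` strictly between `g.1` and `g.2`: impossible; so `g` is not long
(`not_long_of_no_point`).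

`exists_neg`: `T' y = - T (-y)`, `K' = -K`, `lo' = -hi`, `B' = B.image (-·)`, `x' = -x`; the edges of
`A.image (-·)` are the pairs `(-g.2, -g.1)`.

`exists_ht`: `sp = |sl c|`, `sm = |sl (c - δ₀)|` for a small `δ₀` with no break point in
`(c - δ₀, c)` and in `(c, c+δ₀)`; the signs of the slopes come from `TwoMax`.  `cover` from `surjK`
and `inv_cont`. -/

lemma neg_mem_img {A : Finset ℝ} {y : ℝ} : y ∈ A.image (fun z => -z) ↔ -y ∈ A := by
  rw [Finset.mem_image]
  exact ⟨fun ⟨z, hz, e⟩ => by rwa [← e, neg_neg], fun h => ⟨-y, h, neg_neg y⟩⟩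

lemma neg_gaps {A : Finset ℝ} {g : ℝ × ℝ} :
    (-g.2, -g.1) ∈ gaps (A.image fun z => -z) ↔ g ∈ gaps A := by
  simp only [mem_gaps, Gap, Finset.mem_coe, mem_ofPred_eq, neg_mem_img, neg_neg, neg_lt_neg_iff]
  constructor
  · rintro ⟨h1, h2, h3, h4⟩
    exact ⟨h2, h1, h3, fun z hz hc => h4 (-z) (by rwa [neg_neg]) ⟨by linarith [hc.2],
      by linarith [hc.1]⟩⟩
  · rintro ⟨h1, h2, h3, h4⟩
    exact ⟨h2, h1, h3, fun z hz hc => h4 (-z) hz ⟨by linarith [hc.2], by linarith [hc.1]⟩⟩

lemma neg_Pt (T : ℝ → ℝ) (A : Finset ℝ) :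
    Pt (fun y => -T (-y)) A = Pt T (A.image fun z => -z) := by
  refine Finset.prod_nbij' (fun g => (-g.2, -g.1)) (fun g => (-g.2, -g.1))
    (fun g hg => neg_gaps.2 hg) (fun g hg => neg_gaps.1 (by simpa using hg))
    (fun g _ => by simp) (fun g _ => by simp) fun g _ => ?_
  simp only [img]
  congr 1
  ring

lemma neg_Dl (A : Finset ℝ) : Dl (A.image fun z => -z) = Dl A := by
  rw [← Pt_id, ← neg_Pt, ← Pt_id]
  congr 1
  ext y
  simp

lemma Pre.exists_neg (P : Pre) {c : ℝ} (h : P.TwoMin c) : ∃ P' : Pre, P'.TwoMax (-c) := by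
  refine ⟨{
    T := fun y => -P.T (-y)
    cont := (P.cont.comp continuous_neg).neg
    K := {y | -y ∈ P.K}
    cpt := P.cpt.neg
    lo := -P.hi
    hi := -P.lo
    lo_mem := by simpa using P.hi_mem
    hi_mem := by simpa using P.lo_mem
    sub := fun y hy => ⟨by linarith [(P.sub hy).2], by linarith [(P.sub hy).1]⟩
    B := P.B.image fun z => -z
    lo_B := neg_mem_img.2 (by simpa using P.hi_B)
    hi_B := neg_mem_img.2 (by simpa using P.lo_B)
    B_sub := fun b hb => P.B_sub _ (neg_mem_img.1 hb)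
    aff := fun u v h1 h2 h3 h4 => ?_
    inj := fun u hu v hv e => neg_injective (P.inj hu hv (neg_injective e))
    x := fun n => -P.x n
    x_succ := fun n => by rw [neg_neg, P.x_succ]
    x_mem := fun n => by simpa using P.x_mem n
    x_inj := fun n m e => P.x_inj (neg_injective e)
    dense := fun N y hy => ?_
    G := P.G
    gain := fun A hA => ?_ }, ⟨by simpa using h.1.1, fun ε hε => ?_, fun ε hε => ?_⟩, ?_⟩
  · obtain ⟨σ, h5, h6⟩ := P.aff (-v) (-u) (by linarith) (by linarith) (by linarith)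
      fun b hb hc => h4 (-b) (neg_mem_img.2 (by rwa [neg_neg])) ⟨by linarith [hc.2], by linarith [hc.1]⟩
    refine ⟨σ, h5, fun y hy => ?_⟩
    rw [h6 (-y) ⟨by linarith [hy.2], by linarith [hy.1]⟩, h6 (-u) ⟨by linarith, le_rfl⟩]
    ring
  · have h1 := map_mem_closure (t := (fun n => -P.x n) '' Ici N) continuous_neg (P.dense N hy)
      fun z ⟨n, hn, e⟩ => ⟨n, hn, by rw [← e]⟩
    rwa [neg_neg] at h1
  · have h1 := P.gain (A.image fun z => -z) fun y hy => by
      have h2 := hA (neg_mem_img.1 hy)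
      simpa using h2
    have h2 : A.image (fun y => -P.T (-y)) = ((A.image fun z => -z).image P.T).image fun z => -z := by
      rw [Finset.image_image, Finset.image_image]
      rfl
    rwa [neg_Pt, h2, neg_Dl]
  · obtain ⟨z, h1, h2, h3⟩ := h.1.2.2 ε hε
    exact ⟨-z, by simpa using h1, by linarith, by linarith⟩
  · obtain ⟨z, h1, h2, h3⟩ := h.1.2.1 ε hε
    exact ⟨-z, by simpa using h1, by linarith, by linarith⟩
  · obtain ⟨δ, h1, h2⟩ := h.2
    refine ⟨δ, h1, fun y h3 h4 => ?_⟩
    have h5 := h2 (-y) (by rwa [← abs_neg, neg_sub, sub_neg_eq_add, add_comm, ← sub_neg_eq_add])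
      fun e => h4 (by rw [← e, neg_neg])
    show -P.T (-y) < -P.T (- -c)
    rw [neg_neg]
    linarith

end Pool.Agent.MP_8df504_an.C
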