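import Pool.Agent.MP_8df504_an.C.BLBase

set_option autoImplicit false

namespace Pool.Agent.MP_8df504_an.C

open Set Filter Topology MeasureTheory

/-! Basic facts on `BL`.

Hints.  `exists_piece`: `x ∈ [0,1]`, take the largest index with `a j ≤ x`.  `cyl_succ` is the
basic recursion.  `cyl_ord`, `cyl_aff`: induction on `n` generalizing `ω`, with `cyl_succ` and
`aff`; `T` maps the closure of `Cyl (n+1) ω` into the closure of `Cyl n (sh ω 1)`.
`pp`: let `γ0, γ1, γ2` be `gam p` of `ω`, `sh ω p`, `sh ω (2p)` (nonzero by `gam_ne`).  Pick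
`y ≠ x` in the nonempty set `Cyl (3p) ω` (it is `IsOpen`), `y1 = T^[p] y`, `y2 = T^[p] y1`; by
`cyl_aff`, `y1 - x = γ0 (y - x)`, `y2 - x = γ1 (y1 - x)`, and `T^[p]` has slope `γ0, γ1, γ2` on the
segments from `x` to `y, y1, y2` (the closure of an order-connected set is order-connected).  Two of
these points on the same side of `x` have the same slope; a sign check gives `γ1 γ2 > 0`.
`σ = γ1 γ2 = gam (2p) (sh ω p)` is the slope of `T^[2p]` on the closure of `J = Cyl (2p) (sh ω p)`.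
`σ < 1` gives `HasAttr` (`q = x`, `q' = y1`); `σ = 1` makes `T^[2p]` the identity on `J`, which
contains `T^[p] y*` for `y* ∈ Cyl (3p) ω ∩ Lam`: contradiction with the definition of `Lam`. -/

namespace BL

variable (D : BL)

lemma pp_seg {n : ℕ} {ω : ℕ → Fin D.m} {x y : ℝ} (hx : x ∈ closure (D.Cyl n ω))
    (hy : y ∈ closure (D.Cyl n ω)) : uIcc x y ⊆ closure (D.Cyl n ω) :=
  (D.cyl_ord n ω).isPreconnected.closure.ordConnected.uIcc_subset hx hy

lemma pp_same {n : ℕ} {α β : ℕ → Fin D.m} {x u v : ℝ} (hα : x ∈ closure (D.Cyl n α))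
    (hβ : x ∈ closure (D.Cyl n β)) (hu : u ∈ closure (D.Cyl n α)) (hv : v ∈ closure (D.Cyl n β))
    (h : 0 < (u - x) * (v - x)) : D.gam n α = D.gam n β := by
  have key : ∀ w, w ≠ x → w ∈ uIcc x u → w ∈ uIcc x v → D.gam n α = D.gam n β := by
    intro w hw h1 h2
    have e1 := D.cyl_aff hα (D.pp_seg hα hu h1)
    have e2 := D.cyl_aff hβ (D.pp_seg hβ hv h2)
    exact mul_right_cancel₀ (sub_ne_zero.2 hw) (e1.symm.trans e2)
  rcases pos_and_pos_or_neg_and_neg_of_mul_pos h with ⟨h1, h2⟩ | ⟨h1, h2⟩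
  · refine key (min u v) (ne_of_gt (lt_min (by linarith) (by linarith))) ?_ ?_
    · exact mem_uIcc_of_le (le_min (by linarith) (by linarith)) (min_le_left _ _)
    · exact mem_uIcc_of_le (le_min (by linarith) (by linarith)) (min_le_right _ _)
  · refine key (max u v) (ne_of_lt (max_lt (by linarith) (by linarith))) ?_ ?_
    · exact mem_uIcc_of_ge (le_max_left _ _) (max_le (by linarith) (by linarith))
    · exact mem_uIcc_of_ge (le_max_right _ _) (max_le (by linarith) (by linarith))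

lemma pp_add {n k : ℕ} {ω : ℕ → Fin D.m} {x : ℝ} (h : x ∈ closure (D.Cyl (n + k) ω)) :
    x ∈ closure (D.Cyl n ω) ∧ D.T^[n] x ∈ closure (D.Cyl k (sh ω n)) :=
  ⟨closure_mono (fun _ hy => (D.cyl_add hy).1) h,
    map_mem_closure (D.cont.iterate n) h fun _ hy => (D.cyl_add hy).2⟩

lemma pp (h : ¬ HasAttr D.T) {x : ℝ} {p : ℕ} (hp : 1 ≤ p) (hx : D.T^[p] x = x)
    {ω : ℕ → Fin D.m} (hc : x ∈ closure (D.Cyl (3 * p) ω ∩ D.Lam)) :
    1 < |D.gam (2 * p) (sh ω p)| := by
  rw [show 3 * p = p + (p + p) by ring] at hc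
  rw [two_mul]
  obtain ⟨z, hzA, hzL⟩ : (D.Cyl (p + (p + p)) ω ∩ D.Lam).Nonempty := closure_nonempty_iff.1 ⟨x, hc⟩
  have hg : D.gam (p + (p + p)) ω ≠ 0 :=
    Finset.prod_ne_zero_iff.2 fun i hi => D.c_ne ⟨z, hzA, hzL⟩ (Finset.mem_range.1 hi)
  obtain ⟨y, hyA, hyx⟩ :=
    (infinite_of_mem_nhds z ((D.cyl_open _ ω).mem_nhds hzA)).nontrivial.exists_ne x
  obtain ⟨x0, xJ⟩ := D.pp_add (closure_mono inter_subset_left hc)
  rw [hx] at xJ
  obtain ⟨x1, x2⟩ := D.pp_add xJ
  rw [hx] at x2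
  obtain ⟨y0, yJ⟩ := D.pp_add (subset_closure hyA)
  obtain ⟨y1, y2⟩ := D.pp_add yJ
  have e0 := D.cyl_aff x0 y0
  have e1 := D.cyl_aff x1 y1
  rw [hx] at e0 e1
  rw [D.gam_add, D.gam_add] at hg
  have g0 := left_ne_zero_of_mul hg
  have g1 := left_ne_zero_of_mul (right_ne_zero_of_mul hg)
  have ha : 0 < (y - x) ^ 2 := by
    have := sub_ne_zero.2 hyx
    positivity
  have hσ : 0 < D.gam (p + p) (sh ω p) := by
    rw [D.gam_add]
    rcases g1.lt_or_gt with c1 | c1
    · rcases g0.lt_or_gt with c0 | c0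
      · have := D.pp_same x0 x2 y0 y2 (by
          rw [e1, e0]
          have := mul_pos (mul_pos_of_neg_of_neg c1 c0) ha
          nlinarith)
        exact mul_pos_of_neg_of_neg c1 (this ▸ c0)
      · have := D.pp_same x0 x1 y0 y1 (by
          rw [e0]
          have := mul_pos c0 ha
          nlinarith)
        linarith
    · have := D.pp_same x1 x2 y1 y2 (by
        rw [e1, e0]
        have := mul_pos (mul_pos c1 (sq_pos_of_ne_zero g0)) ha
        nlinarith)
      exact mul_pos c1 (this ▸ c1)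
  have hx2 : D.T^[p + p] x = x := by rw [Function.iterate_add_apply, hx, hx]
  have hI : ∀ w, D.T^[p] w ∈ Icc (0 : ℝ) 1 := fun w => by
    obtain ⟨k, rfl⟩ := Nat.exists_eq_add_of_le' hp
    rw [Function.iterate_succ_apply']
    exact D.maps _
  rw [abs_of_pos hσ]
  rcases lt_trichotomy (D.gam (p + p) (sh ω p)) 1 with c | c | c
  · refine absurd ⟨p + p, by omega, x, hx ▸ hI x, D.T^[p] y, hI y, fun e => ?_, _, hσ, c,
      fun w hw => ?_⟩ h
    · rw [← e, sub_self] at e0
      exact mul_ne_zero g0 (sub_ne_zero.2 hyx) e0.symm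
    · have := D.cyl_aff xJ (D.pp_seg xJ yJ hw)
      rw [hx2] at this
      linarith
  · refine absurd ⟨p + p, by omega, ?_⟩ (hzL p).1
    filter_upwards [(D.cyl_open _ _).mem_nhds (D.cyl_add hzA).2] with w hw
    have := D.cyl_aff xJ (subset_closure hw)
    rw [hx2, c] at this
    linarith
  · exact c

end BL

end Pool.Agent.MP_8df504_an.C
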