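import Pool.Agent.MP_8df504_an.C.BLBase

set_option autoImplicit false

namespace Pool.Agent.MP_8df504_an.C

open Set Filter Topology MeasureTheory

/-! A common period on `Neu`; local affinity of iterates; wandering intervals.

`iter_aff_of_noB`: induct on `n`; near a point of `[0,1]` outside `B`, `T` is affine
(`exists_piece`).
`neu_period`: let `P` be a common period of all periodic points of `B`.  Let `x ∈ Neu`,
`T^[p] = id` near `x`, `[α,β]` the largest segment around `x` on which `T^[p] = id` (`⊆ [0,1]`,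
closed).  The orbit of `α` meets `B`: otherwise `T^[p]` is affine near `α` and the identity on the
right of `α`, so on a neighbourhood.  As `α` is periodic it is on the orbit of a periodic point of
`B`, so `T^[P] α = α`, and `T^[P] β = β`.  `f = T^[P]` is continuous and injective on `[α,β]`
(`T^[p P] = id` there), so increasing, maps `[α,β]` to itself and `f^[p] = id`; if `x < f x` then
`f^[k] x` increases strictly: contradiction; same for `f x < x`.

`germ_aff`: one-sided version: for `z ∈ [0,1]` and a side there is a small segment at `z` that is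
break-free or outside `[0,1]`; induct on `n`, shrinking `q''` towards `q`; images of the segment are
in `[0,1]`.
`wander`: with `q, q', p, σ` from `HasAttr`, take `q''` from `germ_aff` with `n = p`.  `T^[p]` maps
`uIcc q q''` into itself, so `T^[i] y = T^[i] q + κ i (y - q)` for all `i` with
`κ (i + p) = σ κ i`, `κ i ≠ 0` (`κ p = σ`, and `T^[p]` is injective on the segment).  Shrink `q''` so
that `|κ i| |q'' - q|` is less than half the distance between different points of the finite orbit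
of `q`.  The set of the ratios `κ j / κ i` has no accumulation point in `(0,∞)` (they are
`σ^a * κ j0 / κ i0`, `a ∈ ℤ`, `i0, j0 < p`), so for small `η` a ratio in `(1-η, 1/(1-η))` is `1`.
`U = {q + t (q'' - q) | 1 - η < t < 1}`.  If `T^[i] y = T^[j] y'` then `T^[i] q = T^[j] q`,
`κ i = κ j`, `y = y'`; if `i < j` then `T^[i] = T^[j]` on the segment, so `κ (i + l) = κ (j + l)`
for all `l`, and `κ i = κ (i + p (j-i)) = σ^(j-i) κ i`: contradiction. -/

/-- a finite set stays away from `z`, apart from `z` itself -/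
lemma wu_sep (B : Finset ℝ) (z : ℝ) : ∃ ε : ℝ, 0 < ε ∧ ∀ b ∈ B, b ≠ z → ε ≤ |b - z| := by
  classical
  induction B using Finset.induction_on with
  | empty => exact ⟨1, one_pos, by simp⟩
  | insert b B _ ih =>
    obtain ⟨ε, hε, h⟩ := ih
    by_cases hb : b = z
    · refine ⟨ε, hε, fun x hx hxz => ?_⟩
      rcases Finset.mem_insert.1 hx with rfl | hx
      · exact absurd hb hxz
      · exact h x hx hxz
    · refine ⟨min ε |b - z|, lt_min hε (abs_pos.2 (sub_ne_zero.2 hb)), fun x hx hxz => ?_⟩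
      rcases Finset.mem_insert.1 hx with rfl | hx
      · exact min_le_right _ _
      · exact (min_le_left _ _).trans (h x hx hxz)

lemma wu_pow (T : ℝ → ℝ) (q v σ : ℝ) (p : ℕ) (hσ0 : 0 < σ) (hσ1 : σ < 1)
    (hA : ∀ t ∈ Icc (0 : ℝ) 1, T^[p] (q + t * v) = q + σ * t * v) (a : ℕ) :
    ∀ t ∈ Icc (0 : ℝ) 1, T^[p * a] (q + t * v) = q + σ ^ a * t * v := by
  induction a with
  | zero => intro t _; simp
  | succ a ih =>
    intro t ht
    have hm : σ * t ∈ Icc (0 : ℝ) 1 := ⟨mul_nonneg hσ0.le ht.1, by nlinarith [ht.1, ht.2]⟩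
    rw [Nat.mul_succ, Function.iterate_add_apply, hA t ht, ih _ hm]
    ring

lemma wu_mem {σ t : ℝ} (hσ0 : 0 < σ) (hσ1 : σ < 1) (a : ℕ) (ht : t ∈ Icc (0 : ℝ) 1) :
    σ ^ a * t ∈ Icc (0 : ℝ) 1 := by
  have h1 : 0 < σ ^ a := pow_pos hσ0 a
  have h2 : σ ^ a ≤ 1 := pow_le_one₀ hσ0.le hσ1.le
  exact ⟨mul_nonneg h1.le ht.1, by nlinarith [ht.1, ht.2]⟩

/-- the slopes `κ (k % p) * σ ^ (k / p)` do not accumulate at `1` -/
lemma wu_disc (κ : ℕ → ℝ) (σ : ℝ) (p : ℕ) (hp : 1 ≤ p) (hσ0 : 0 < σ) (hσ1 : σ < 1) :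
    ∃ η : ℝ, 0 < η ∧ η ≤ 1 / 2 ∧
      ∀ k : ℕ, |κ (k % p) * σ ^ (k / p) - 1| < η → κ (k % p) * σ ^ (k / p) = 1 := by
  classical
  obtain ⟨M, hM0, hM⟩ : ∃ M : ℝ, 0 < M ∧ ∀ r < p, |κ r| ≤ M := by
    refine ⟨∑ r ∈ Finset.range p, |κ r| + 1, by positivity, fun r hr => ?_⟩
    have := Finset.single_le_sum (f := fun r => |κ r|) (fun r _ => abs_nonneg (κ r))
      (Finset.mem_range.2 hr)
    linarith
  obtain ⟨N, hN⟩ := exists_pow_lt_of_lt_one (show 0 < 1 / (2 * M) by positivity) hσ1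
  obtain ⟨ε, hε, h⟩ :=
    wu_sep ((Finset.range (p * N)).image (fun k => κ (k % p) * σ ^ (k / p))) 1
  refine ⟨min ε (1 / 2), lt_min hε (by norm_num), min_le_right _ _, fun k hk => ?_⟩
  by_contra hne
  by_cases hkN : k < p * N
  · have := h _ (Finset.mem_image.2 ⟨k, Finset.mem_range.2 hkN, rfl⟩) hne
    have h2 := min_le_left ε (1 / 2)
    linarith
  · have hle : N ≤ k / p := by
      rw [Nat.le_div_iff_mul_le (by omega)]
      rw [Nat.mul_comm]; omega
    have h1 : σ ^ (k / p) ≤ σ ^ N := pow_le_pow_of_le_one hσ0.le hσ1.le hle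
    have h2 : |κ (k % p)| ≤ M := hM _ (Nat.mod_lt _ (by omega))
    have h3 : 0 < σ ^ (k / p) := pow_pos hσ0 _
    have h4 : κ (k % p) * σ ^ (k / p) ≤ M * σ ^ (k / p) :=
      mul_le_mul_of_nonneg_right ((le_abs_self _).trans h2) h3.le
    have h5 : M * σ ^ (k / p) < M * (1 / (2 * M)) := mul_lt_mul_of_pos_left (h1.trans_lt hN) hM0
    have h6 : M * (1 / (2 * M)) = 1 / 2 := by field_simp
    have h7 := min_le_right ε (1 / 2)
    have h8 := neg_abs_le (κ (k % p) * σ ^ (k / p) - 1)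
    linarith

lemma wu_core (T : ℝ → ℝ) (q v σ : ℝ) (p : ℕ) (hp : 1 ≤ p) (hv : v ≠ 0) (hσ0 : 0 < σ)
    (hσ1 : σ < 1) (κ : ℕ → ℝ)
    (hA : ∀ t ∈ Icc (0 : ℝ) 1, T^[p] (q + t * v) = q + σ * t * v)
    (hB : ∀ i ≤ p, ∀ t ∈ Icc (0 : ℝ) 1, T^[i] (q + t * v) = T^[i] q + κ i * (t * v)) :
    ∃ η : ℝ, 0 < η ∧ η < 1 ∧ ∀ (i j : ℕ), ∀ t ∈ Ioo (1 - η) 1, ∀ t' ∈ Ioo (1 - η) 1,
      T^[i] (q + t * v) = T^[j] (q + t' * v) → i = j ∧ t = t' := by
  have hP := wu_pow T q v σ p hσ0 hσ1 hA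
  have hK : ∀ k : ℕ, ∀ t ∈ Icc (0 : ℝ) 1,
      T^[k] (q + t * v) = T^[k % p] q + κ (k % p) * σ ^ (k / p) * t * v := by
    intro k t ht
    have e : T^[k] (q + t * v) = T^[k % p] (T^[p * (k / p)] (q + t * v)) := by
      rw [← Function.iterate_add_apply, Nat.mod_add_div]
    rw [e, hP _ t ht, hB _ (Nat.mod_lt _ (by omega)).le _ (wu_mem hσ0 hσ1 _ ht)]
    ring
  obtain ⟨η, hη0, hη1, hη⟩ := wu_disc κ σ p hp hσ0 hσ1
  have key : ∀ (i k : ℕ), ∀ t ∈ Ioo (1 - η / 2) 1, ∀ t' ∈ Ioo (1 - η / 2) 1,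
      T^[i] (q + t * v) = T^[i + k] (q + t' * v) → k = 0 ∧ t = t' := by
    intro i k t ht t' ht' h
    have ht0 : t ∈ Icc (0 : ℝ) 1 := ⟨by linarith [ht.1], ht.2.le⟩
    have ht0' : t' ∈ Icc (0 : ℝ) 1 := ⟨by linarith [ht'.1], ht'.2.le⟩
    have hred : ∀ a : ℕ, i ≤ p * a →
        q + σ ^ a * t * v = T^[k] (q + σ ^ a * t' * v) := by
      intro a ha
      rw [← hP a t ht0, ← hP a t' ht0', ← Function.iterate_add_apply]
      have e1 : p * a = (p * a - i) + i := by omega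
      have e2 : k + p * a = (p * a - i) + (i + k) := by omega
      rw [e2, Function.iterate_add_apply, ← h, ← Function.iterate_add_apply, ← e1]
    have hi : i ≤ p * i := Nat.le_mul_of_pos_left i (by omega)
    have h0 := hred i hi
    have h1 := hred (i + 1) (by rw [Nat.mul_succ]; omega)
    rw [hK k _ (wu_mem hσ0 hσ1 _ ht0')] at h0 h1
    set K : ℝ := κ (k % p) * σ ^ (k / p) with hKdef
    have hs : 0 < σ ^ i := pow_pos hσ0 i
    have e3 : (σ ^ i * (1 - σ) * v) * (t - K * t') = 0 := by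
      rw [pow_succ] at h1
      linear_combination h0 - h1
    have e4 : t = K * t' := by
      rcases mul_eq_zero.1 e3 with h | h
      · exact absurd h (mul_ne_zero (mul_ne_zero hs.ne' (by linarith)) hv)
      · linarith
    have htp : 3 / 4 < t' := by linarith [ht'.1]
    have e5 : |K - 1| < η := by
      rw [abs_lt]
      constructor
      · by_contra hc
        push Not at hc
        nlinarith [ht.1, ht.2, ht'.1, ht'.2]
      · by_contra hc
        push Not at hc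
        nlinarith [ht.1, ht.2, ht'.1, ht'.2]
    have e6 : K = 1 := hη k e5
    have e7 : t = t' := by rw [e4, e6, one_mul]
    refine ⟨?_, e7⟩
    by_contra hk
    have hq : T^[k % p] q = q := by
      rw [e6, e7] at h0
      linarith
    have hfix : T^[k] (q + 1 * v) = q + 1 * v := by
      rw [hK k 1 ⟨zero_le_one, le_rfl⟩, hq, ← hKdef, e6]
      ring
    have hfix2 : T^[p * k] (q + 1 * v) = q + 1 * v := by
      rw [Nat.mul_comm, Function.iterate_mul]
      exact Function.iterate_fixed hfix p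
    rw [hP k 1 ⟨zero_le_one, le_rfl⟩] at hfix2
    have h8 : σ ^ k < 1 := pow_lt_one₀ hσ0.le hσ1 hk
    have h9 : (1 - σ ^ k) * v = 0 := by linarith
    rcases mul_eq_zero.1 h9 with h | h
    · linarith
    · exact hv h
  refine ⟨η / 2, by linarith, by linarith, fun i j t ht t' ht' h => ?_⟩
  rcases le_total i j with hij | hij
  · obtain ⟨k, rfl⟩ := Nat.exists_eq_add_of_le hij
    obtain ⟨h1, h2⟩ := key i k t ht t' ht' h
    exact ⟨by omega, h2⟩
  · obtain ⟨k, rfl⟩ := Nat.exists_eq_add_of_le hij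
    obtain ⟨h1, h2⟩ := key j k t' ht' t ht h.symm
    exact ⟨by omega, h2.symm⟩

lemma wu_par {q q' y : ℝ} (hy : y ∈ uIcc q q') :
    ∃ t ∈ Icc (0 : ℝ) 1, y = q + t * (q' - q) := by
  rw [← segment_eq_uIcc, segment_eq_image'] at hy
  obtain ⟨t, ht, rfl⟩ := hy
  exact ⟨t, ht, by simp⟩

lemma wu_par' (q q' : ℝ) {t : ℝ} (ht : t ∈ Icc (0 : ℝ) 1) : q + t * (q' - q) ∈ uIcc q q' := by
  rw [← segment_eq_uIcc, segment_eq_image']
  exact ⟨t, ht, by simp⟩

namespace BL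

variable (D : BL)

/-- one-sided local affinity of `T` -/
lemma wu_loc {z w τ : ℝ} (hz : z ∈ Icc (0 : ℝ) 1) (hτ : 0 < τ)
    (hw : z + τ * w ∈ Icc (0 : ℝ) 1) :
    ∃ τ' : ℝ, 0 < τ' ∧ τ' ≤ τ ∧ ∃ c : ℝ, ∀ t ∈ Icc (0 : ℝ) τ',
      D.T (z + t * w) = D.T z + c * (t * w) := by
  obtain ⟨ε, hε, h⟩ := wu_sep D.B z
  rcases lt_trichotomy w 0 with hw0 | hw0 | hw0
  · have hw1 : 0 < -w := by linarith
    set τ' : ℝ := min τ (ε / (-w)) with hτ'
    have h1 : 0 < τ' := lt_min hτ (div_pos hε hw1)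
    have h2 : τ' ≤ τ := min_le_left _ _
    have h3 : τ' * (-w) ≤ ε := (le_div_iff₀ hw1).1 (min_le_right _ _)
    have h4 : 0 < τ' * (-w) := mul_pos h1 hw1
    have h5 : τ' * (-w) ≤ τ * (-w) := mul_le_mul_of_nonneg_right h2 hw1.le
    obtain ⟨c, hc⟩ := D.plz (z + τ' * w) z (by linarith [hw.1]) (by linarith) hz.2 (by
      intro b hb hb'
      have := h b hb hb'.2.ne
      rw [abs_of_neg (by linarith [hb'.2])] at this
      linarith [hb'.1])
    refine ⟨τ', h1, h2, c, fun t ht => ?_⟩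
    have h6 : 0 ≤ t * (-w) := mul_nonneg ht.1 hw1.le
    have h7 : t * (-w) ≤ τ' * (-w) := mul_le_mul_of_nonneg_right ht.2 hw1.le
    have e1 := hc (z + t * w) ⟨by linarith, by linarith⟩
    have e2 := hc z ⟨by linarith, le_rfl⟩
    linear_combination e1 - e2
  · exact ⟨τ, hτ, le_rfl, 0, fun t _ => by simp [hw0]⟩
  · set τ' : ℝ := min τ (ε / w) with hτ'
    have h1 : 0 < τ' := lt_min hτ (div_pos hε hw0)
    have h2 : τ' ≤ τ := min_le_left _ _
    have h3 : τ' * w ≤ ε := (le_div_iff₀ hw0).1 (min_le_right _ _)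
    have h4 : 0 < τ' * w := mul_pos h1 hw0
    have h5 : τ' * w ≤ τ * w := mul_le_mul_of_nonneg_right h2 hw0.le
    obtain ⟨c, hc⟩ := D.plz z (z + τ' * w) hz.1 (by linarith) (by linarith [hw.2]) (by
      intro b hb hb'
      have := h b hb hb'.1.ne'
      rw [abs_of_pos (by linarith [hb'.1])] at this
      linarith [hb'.2])
    refine ⟨τ', h1, h2, c, fun t ht => ?_⟩
    have h6 : 0 ≤ t * w := mul_nonneg ht.1 hw0.le
    have h7 : t * w ≤ τ' * w := mul_le_mul_of_nonneg_right ht.2 hw0.le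
    have e1 := hc (z + t * w) ⟨by linarith, by linarith⟩
    linear_combination e1

lemma wu_iter_mem {x : ℝ} (hx : x ∈ Icc (0 : ℝ) 1) (n : ℕ) : D.T^[n] x ∈ Icc (0 : ℝ) 1 := by
  cases n with
  | zero => simpa using hx
  | succ n => rw [Function.iterate_succ_apply']; exact D.maps _

lemma wu_germ {q v : ℝ} (hq : q ∈ Icc (0 : ℝ) 1) (hq' : q + v ∈ Icc (0 : ℝ) 1) (n : ℕ) :
    ∃ τ : ℝ, 0 < τ ∧ τ ≤ 1 ∧ ∃ κ : ℕ → ℝ, ∀ i ≤ n, ∀ t ∈ Icc (0 : ℝ) τ,
      D.T^[i] (q + t * v) = D.T^[i] q + κ i * (t * v) := by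
  induction n with
  | zero =>
    refine ⟨1, one_pos, le_rfl, fun _ => 1, fun i hi t _ => ?_⟩
    obtain rfl : i = 0 := by omega
    simp
  | succ n ih =>
    obtain ⟨τ, h0, h1, κ, h⟩ := ih
    have hm : q + τ * v ∈ Icc (0 : ℝ) 1 := by
      constructor <;> nlinarith [hq.1, hq.2, hq'.1, hq'.2]
    have hm2 : D.T^[n] q + τ * (κ n * v) ∈ Icc (0 : ℝ) 1 := by
      have e := h n le_rfl τ ⟨h0.le, le_rfl⟩
      have := D.wu_iter_mem hm n
      rw [e] at this
      convert this using 2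
      ring
    obtain ⟨τ', g0, g1, c, hc⟩ := D.wu_loc (D.wu_iter_mem hq n) h0 hm2
    refine ⟨τ', g0, g1.trans h1, fun i => if i ≤ n then κ i else c * κ n, fun i hi t ht => ?_⟩
    have ht' : t ∈ Icc (0 : ℝ) τ := ⟨ht.1, ht.2.trans g1⟩
    by_cases hin : i ≤ n
    · simp only [hin, if_true]
      exact h i hin t ht'
    · obtain rfl : i = n + 1 := by omega
      simp only [hin, if_false]
      rw [Function.iterate_succ_apply', Function.iterate_succ_apply', h n le_rfl t ht']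
      have e := hc t ht
      have e2 : D.T^[n] q + κ n * (t * v) = D.T^[n] q + t * (κ n * v) := by ring
      rw [e2, e]
      ring

lemma germ_aff {q q' : ℝ} (hq : q ∈ Icc (0 : ℝ) 1) (hq' : q' ∈ Icc (0 : ℝ) 1) (hne : q ≠ q')
    (n : ℕ) : ∃ q'' ∈ uIcc q q', q'' ≠ q ∧ ∃ κ : ℕ → ℝ,
      ∀ i ≤ n, ∀ y ∈ uIcc q q'', D.T^[i] y = D.T^[i] q + κ i * (y - q) := by
  obtain ⟨τ, h0, h1, κ, h⟩ := D.wu_germ (v := q' - q) hq (by simpa using hq') n
  refine ⟨q + τ * (q' - q), wu_par' q q' ⟨h0.le, h1⟩, ?_, κ, fun i hi y hy => ?_⟩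
  · intro e
    have : τ * (q' - q) = 0 := by linarith
    rcases mul_eq_zero.1 this with h | h
    · exact h0.ne' h
    · exact hne (by linarith)
  · obtain ⟨t, ht, rfl⟩ := wu_par hy
    have hm : t * τ ∈ Icc (0 : ℝ) τ := ⟨mul_nonneg ht.1 h0.le, by nlinarith [ht.2]⟩
    have e := h i hi _ hm
    have e2 : q + t * (q + τ * (q' - q) - q) = q + t * τ * (q' - q) := by ring
    rw [e2, e]
    ring

lemma wander (h : HasAttr D.T) : ∃ α β : ℝ, 0 ≤ α ∧ α < β ∧ β ≤ 1 ∧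
    ∀ (i j : ℕ), ∀ y ∈ Ioo α β, ∀ y' ∈ Ioo α β, D.T^[i] y = D.T^[j] y' → i = j ∧ y = y' := by
  obtain ⟨p, hp, q, hq, q', hq', hne, σ, hσ0, hσ1, hA⟩ := h
  obtain ⟨r, hr, hrq, κ, hB⟩ := D.germ_aff hq hq' hne p
  have hsub : uIcc q r ⊆ uIcc q q' := uIcc_subset_uIcc left_mem_uIcc hr
  have hsub2 : uIcc q q' ⊆ Icc (0 : ℝ) 1 := uIcc_subset_Icc hq hq'
  have hv : r - q ≠ 0 := sub_ne_zero.2 hrq
  obtain ⟨η, h0, h1, hη⟩ := wu_core D.T q (r - q) σ p hp hv hσ0 hσ1 κ
    (fun t ht => by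
      rw [hA _ (hsub (wu_par' q r ht))]
      ring)
    (fun i hi t ht => by
      rw [hB i hi _ (wu_par' q r ht)]
      ring)
  have m1 : q + (1 - η) * (r - q) ∈ Icc (0 : ℝ) 1 :=
    hsub2 (hsub (wu_par' q r ⟨by linarith, by linarith⟩))
  have m2 : r ∈ Icc (0 : ℝ) 1 := hsub2 hr
  have fin : ∀ α β : ℝ, (∀ y ∈ Ioo α β, (y - q) / (r - q) ∈ Ioo (1 - η) 1) →
      ∀ (i j : ℕ), ∀ y ∈ Ioo α β, ∀ y' ∈ Ioo α β,
        D.T^[i] y = D.T^[j] y' → i = j ∧ y = y' := by
    intro α β hαβ i j y hy y' hy' e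
    have e1 : q + (y - q) / (r - q) * (r - q) = y := by field_simp; ring
    have e2 : q + (y' - q) / (r - q) * (r - q) = y' := by field_simp; ring
    obtain ⟨g1, g2⟩ := hη i j _ (hαβ y hy) _ (hαβ y' hy') (by rw [e1, e2]; exact e)
    refine ⟨g1, ?_⟩
    rw [← e1, ← e2, g2]
  rcases lt_or_gt_of_ne hv with hv0 | hv0
  · refine ⟨r, q + (1 - η) * (r - q), m2.1, by nlinarith, m1.2, fin _ _ fun y hy => ?_⟩
    constructor
    · rw [lt_div_iff_of_neg hv0]
      linarith [hy.2]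
    · rw [div_lt_iff_of_neg hv0]
      linarith [hy.1]
  · refine ⟨q + (1 - η) * (r - q), r, m1.1, by nlinarith, m2.2, fin _ _ fun y hy => ?_⟩
    constructor
    · rw [lt_div_iff₀ hv0]
      linarith [hy.1]
    · rw [div_lt_iff₀ hv0]
      linarith [hy.2]

end BL

end Pool.Agent.MP_8df504_an.C
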